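import Mathlib

set_option autoImplicit false

/-!
Basic definitions for the algebraic field of computable dimension two.
-/

namespace Pool.Agent.H91.CD

/-- The radicands of the base field: `pr 0 = 1`, and `pr (u+1)` is the least prime
congruent to `1` modulo `9` that is larger than `pr u`. -/
noncomputable def pr : ℕ → ℕ
  | 0 => 1
  | u + 1 => by
      classical
      exact Nat.find (Nat.exists_prime_gt_modEq_one (k := 9) (pr u) (by norm_num))

/-- The odd primes in increasing order: `ell 0 = 3`. -/
noncomputable def ell : ℕ → ℕ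
  | 0 => 3
  | n + 1 => by
      classical
      exact Nat.find (Nat.exists_infinite_primes (ell n + 1))

/-- `x u = sqrt (pr u)`; in particular `x 0 = 1`. -/
noncomputable def x (u : ℕ) : ℝ := Real.sqrt (pr u)

/-- The sign of a side. -/
def sg (b : Bool) : ℤ := if b then -1 else 1

/-- `gam S n b = 2 + (-1)^b * x u * x v` where `S n = (u, v)`. -/
noncomputable def gam (S : ℕ → ℕ × ℕ) (n : ℕ) (b : Bool) : ℝ :=
  2 + (sg b : ℝ) * (x (S n).1 * x (S n).2)

/-- The real `ell n`-th root of `gam S n b`. -/
noncomputable def rho (S : ℕ → ℕ × ℕ) (n : ℕ) (b : Bool) : ℝ :=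
  SignType.sign (gam S n b) * |gam S n b| ^ (1 / (ell n : ℝ))

/-- The generators of the field attached to a set of indices `W`. -/
def gens (S : ℕ → ℕ × ℕ) (W : ℕ × Bool → Prop) : Set ℝ :=
  Set.range x ∪ {r | ∃ n b, W (n, b) ∧ r = rho S n b}

/-- The field attached to a set of indices `W`. -/
noncomputable def K (S : ℕ → ℕ × ℕ) (W : ℕ × Bool → Prop) : Subfield ℝ :=
  Subfield.closure (gens S W)

/-- The action of a sign vector on sets of indices. -/
def Act (S : ℕ → ℕ × ℕ) (ε : ℕ → Bool) (W : ℕ × Bool → Prop) : ℕ × Bool → Prop :=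
  fun p => W (p.1, xor p.2 (xor (ε (S p.1).1) (ε (S p.1).2)))

end Pool.Agent.H91.CD
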