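import Mathlib
import Pool.Agent.H91.CD.Defs

set_option autoImplicit false

/-!
MODULE COMP, part a: basic tools on computable and recursively enumerable predicates.
-/

namespace Pool.Agent.H91.CD.COMP

open Nat.Partrec (Code)
open Nat.Partrec.Code Encodable

variable {α β : Type} [Primcodable α] [Primcodable β]

/-- An r.e. predicate is the projection of a computable one. -/
theorem re_witness {p : α → Prop} (hp : REPred p) :
    ∃ g : α → ℕ → Bool, Computable₂ g ∧ ∀ a, p a ↔ ∃ n, g a n = true := by
  obtain ⟨c, hc⟩ := Code.exists_code.1 hp
  refine ⟨fun a n => (evaln n c (encode a)).isSome, ?_, ?_⟩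
  · exact (Primrec.option_isSome.comp (primrec_evaln.comp
      (((Primrec.snd).pair (Primrec.const c)).pair (Primrec.encode.comp Primrec.fst)))).to_comp
  · intro a
    have h1 : (eval c (encode a)).Dom ↔ p a := by
      rw [hc]
      simp [Part.dom_iff_mem, encodek]
    rw [← h1, Part.dom_iff_mem]
    constructor
    · rintro ⟨y, hy⟩
      obtain ⟨k, hk⟩ := evaln_complete.1 hy
      exact ⟨k, Option.isSome_iff_exists.2 ⟨y, hk⟩⟩
    · rintro ⟨k, hk⟩
      obtain ⟨y, hy⟩ := Option.isSome_iff_exists.1 hk
      exact ⟨y, evaln_complete.2 ⟨k, hy⟩⟩

/-- The projection of a computable predicate is r.e. -/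
theorem re_of_witness {p : α → Prop} (g : α → ℕ → Bool) (hg : Computable₂ g)
    (h : ∀ a, p a ↔ ∃ n, g a n = true) : REPred p := by
  have h1 : Partrec fun a => Nat.rfind fun n => Part.some (g a n) :=
    Partrec.rfind (Computable₂.partrec₂ hg)
  refine (h1.dom_re).of_eq fun a => ?_
  rw [h a]
  constructor
  · intro hd
    obtain ⟨n, hn, -⟩ := Nat.rfind_dom.1 hd
    exact ⟨n, (Part.mem_some_iff.1 hn).symm⟩
  · rintro ⟨n, hn⟩
    exact Nat.rfind_dom.2 ⟨n, Part.mem_some_iff.2 hn.symm, fun _ => trivial⟩

theorem re_comp {p : β → Prop} (hp : REPred p) {f : α → β} (hf : Computable f) :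
    REPred fun a => p (f a) := by
  obtain ⟨g, hg, h⟩ := re_witness hp
  exact re_of_witness (fun a n => g (f a) n)
    (hg.comp (hf.comp Computable.fst) Computable.snd) fun a => h _

/-- r.e. predicates are closed under existential quantifiers. -/
theorem re_exists {p : α → β → Prop} (hp : REPred fun q : α × β => p q.1 q.2) :
    REPred fun a => ∃ b, p a b := by
  obtain ⟨g, hg, h⟩ := re_witness hp
  refine re_of_witness (fun a n => ((decode (α := β) n.unpair.1).map
    fun b => g (a, b) n.unpair.2).getD false) ?_ ?_
  · apply Computable.option_getD _ (Computable.const false)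
    apply Computable.option_map
    · exact Computable.decode.comp (Computable.fst.comp (Computable.unpair.comp Computable.snd))
    · exact hg.comp ((Computable.fst.comp Computable.fst).pair Computable.snd)
        (Computable.snd.comp (Computable.unpair.comp (Computable.snd.comp Computable.fst)))
  · intro a
    constructor
    · rintro ⟨b, hb⟩
      obtain ⟨n, hn⟩ := (h (a, b)).1 hb
      refine ⟨Nat.pair (encode b) n, ?_⟩
      simp [hn]
    · rintro ⟨n, hn⟩
      cases hd : decode (α := β) n.unpair.1 with
      | none => simp [hd] at hn
      | some b =>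
        simp only [hd, Option.map_some, Option.getD_some] at hn
        exact ⟨b, (h (a, b)).2 ⟨_, hn⟩⟩

theorem re_or {p q : α → Prop} (hp : REPred p) (hq : REPred q) : REPred fun a => p a ∨ q a := by
  obtain ⟨g, hg, h⟩ := re_witness hp
  obtain ⟨g', hg', h'⟩ := re_witness hq
  refine re_of_witness (fun a n => g a n || g' a n) ?_ ?_
  · exact (Primrec.or.to_comp).comp hg hg'
  · intro a
    rw [h, h']
    simp only [Bool.or_eq_true]
    exact exists_or.symm

theorem re_and {p q : α → Prop} (hp : REPred p) (hq : REPred q) : REPred fun a => p a ∧ q a := by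
  obtain ⟨g, hg, h⟩ := re_witness hp
  obtain ⟨g', hg', h'⟩ := re_witness hq
  refine re_of_witness (fun a n => g a n.unpair.1 && g' a n.unpair.2) ?_ ?_
  · exact (Primrec.and.to_comp).comp
      (hg.comp Computable.fst (Computable.fst.comp (Computable.unpair.comp Computable.snd)))
      (hg'.comp Computable.fst (Computable.snd.comp (Computable.unpair.comp Computable.snd)))
  · intro a
    rw [h, h']
    simp only [Bool.and_eq_true]
    constructor
    · rintro ⟨⟨n, hn⟩, m, hm⟩
      exact ⟨Nat.pair n m, by simpa using ⟨hn, hm⟩⟩
    · rintro ⟨n, hn, hm⟩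
      exact ⟨⟨_, hn⟩, _, hm⟩

theorem re_eq {f g : α → β} (hf : Computable f) (hg : Computable g) :
    REPred fun a => f a = g a := by
  classical
  apply ComputablePred.to_re
  apply Computable.computablePred
  exact (Primrec.eq.decide.to_comp).comp hf hg

/-- the image of a computable function is r.e. -/
theorem re_range {f : β → α} (hf : Computable f) : REPred fun a => ∃ b, a = f b :=
  re_exists (re_eq Computable.fst (hf.comp Computable.snd))

/-- An r.e. predicate is enumerated by a computable function with values in `Option`. -/
theorem re_enum {p : α → Prop} (hp : REPred p) :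
    ∃ g : ℕ → Option α, Computable g ∧ ∀ a, p a ↔ ∃ n, g n = some a := by
  obtain ⟨g, hg, h⟩ := re_witness hp
  refine ⟨fun n => (decode (α := α) n.unpair.1).bind
    fun a => if g a n.unpair.2 then some a else none, ?_, ?_⟩
  · apply Computable.option_bind (Computable.decode.comp (Computable.fst.comp Computable.unpair))
    have := Computable.cond (hg.comp (Computable.snd (α := ℕ) (β := α))
      (Computable.snd.comp (Computable.unpair.comp Computable.fst)))
      (Computable.option_some.comp Computable.snd) (Computable.const (none : Option α))
    refine this.of_eq ?_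
    rintro ⟨n, a⟩
    cases h : g a n.unpair.2 <;> simp [h]
  · intro a
    rw [h]
    constructor
    · rintro ⟨n, hn⟩
      refine ⟨Nat.pair (encode a) n, ?_⟩
      simp [hn]
    · rintro ⟨n, hn⟩
      cases hd : decode (α := α) n.unpair.1 with
      | none => simp [hd] at hn
      | some b =>
        simp only [hd, Option.bind_some] at hn
        split_ifs at hn with hb
        simp only [Option.some.injEq] at hn
        subst hn
        exact ⟨_, hb⟩

/-- The least set containing `B` and closed under the binary rules `R`. -/
inductive Cl (B : α → Prop) (R : α × α × α → Prop) : α → Prop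
  | base {a : α} : B a → Cl B R a
  | step {a b c : α} : Cl B R a → Cl B R b → R (a, b, c) → Cl B R c

/-- enumeration of the closure -/
def clEnum (g : ℕ → Option α) (r : ℕ → α → α → Option α) : ℕ → Option α
  | 0 => g 0
  | n + 1 =>
      if n.unpair.1 = 0 then g n.unpair.2.unpair.1 else
        (clEnum g r n.unpair.2.unpair.1).bind fun a =>
          (clEnum g r n.unpair.2.unpair.2).bind fun b => r n.unpair.1.pred a b
  decreasing_by
    · have h1 := Nat.unpair_left_le n.unpair.2
      have h2 := Nat.unpair_right_le n
      omega
    · have h1 := Nat.unpair_right_le n.unpair.2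
      have h2 := Nat.unpair_right_le n
      omega

theorem comp3 {γ : Type} [Primcodable γ] {r : ℕ → α → α → Option α}
    (hr : Computable fun q : ℕ × α × α => r q.1 q.2.1 q.2.2)
    {f : γ → ℕ} (hf : Computable f) {g h : γ → α} (hg : Computable g) (hh : Computable h) :
    Computable fun c => r (f c) (g c) (h c) := hr.comp (hf.pair (hg.pair hh))

/-- one step of the recursion -/
def clStep (g : ℕ → Option α) (r : ℕ → α → α → Option α) (L : List (Option α)) (n : ℕ) :
    Option α :=
  bif n.unpair.1 == 0 then g n.unpair.2.unpair.1 else
    (L[n.unpair.2.unpair.1]?.getD none).bind fun a =>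
      (L[n.unpair.2.unpair.2]?.getD none).bind fun b => r n.unpair.1.pred a b

theorem computable_clStep {g : ℕ → Option α} {r : ℕ → α → α → Option α} (hg : Computable g)
    (hr : Computable fun q : ℕ × α × α => r q.1 q.2.1 q.2.2) :
    Computable₂ fun (p : Unit × List (Option α)) (n : ℕ) => clStep g r p.2 n := by
  have u1 : Computable fun q : (Unit × List (Option α)) × ℕ => q.2.unpair.1 :=
    Computable.fst.comp (Computable.unpair.comp Computable.snd)
  have u0 : Computable fun q : (Unit × List (Option α)) × ℕ => q.2.unpair.2 :=
    Computable.snd.comp (Computable.unpair.comp Computable.snd)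
  have u2 : Computable fun q : (Unit × List (Option α)) × ℕ => q.2.unpair.2.unpair.1 :=
    Computable.fst.comp (Computable.unpair.comp u0)
  have u3 : Computable fun q : (Unit × List (Option α)) × ℕ => q.2.unpair.2.unpair.2 :=
    Computable.snd.comp (Computable.unpair.comp u0)
  have L : Computable fun q : (Unit × List (Option α)) × ℕ => q.1.2 :=
    Computable.snd.comp Computable.fst
  have v2 : Computable fun q : (Unit × List (Option α)) × ℕ =>
      (q.1.2[q.2.unpair.2.unpair.1]?.getD none) :=
    Computable.option_getD (Computable.list_getElem?.comp L u2) (Computable.const none)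
  have v3 : Computable fun q : (Unit × List (Option α)) × ℕ =>
      (q.1.2[q.2.unpair.2.unpair.2]?.getD none) :=
    Computable.option_getD (Computable.list_getElem?.comp L u3) (Computable.const none)
  have w0 : Computable fun p : (((Unit × List (Option α)) × ℕ) × α) × α =>
      p.1.1.2.unpair.1.pred :=
    Computable.pred.comp (u1.comp (Computable.fst.comp Computable.fst))
  have w1 : Computable₂ fun (q : ((Unit × List (Option α)) × ℕ) × α) (b : α) =>
      r q.1.2.unpair.1.pred q.2 b := by
    have := comp3 hr (γ := (((Unit × List (Option α)) × ℕ) × α) × α)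
      (f := fun p => p.1.1.2.unpair.1.pred) (g := fun p => p.1.2) (h := fun p => p.2)
      w0 (Computable.snd.comp Computable.fst) Computable.snd
    exact this
  have w2 : Computable₂ fun (q : (Unit × List (Option α)) × ℕ) (a : α) =>
      (q.1.2[q.2.unpair.2.unpair.2]?.getD none).bind fun b => r q.2.unpair.1.pred a b :=
    Computable.option_bind (v3.comp Computable.fst) w1
  have w3 : Computable fun q : (Unit × List (Option α)) × ℕ =>
      (q.1.2[q.2.unpair.2.unpair.1]?.getD none).bind fun a =>
        (q.1.2[q.2.unpair.2.unpair.2]?.getD none).bind fun b => r q.2.unpair.1.pred a b :=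
    Computable.option_bind v2 w2
  have w4 : Computable fun q : (Unit × List (Option α)) × ℕ => (q.2.unpair.1 == 0) :=
    (Primrec.beq.to_comp).comp u1 (Computable.const 0)
  exact Computable.cond w4 (hg.comp u2) w3

theorem computable_clEnum {g : ℕ → Option α} {r : ℕ → α → α → Option α} (hg : Computable g)
    (hr : Computable fun q : ℕ × α × α => r q.1 q.2.1 q.2.2) : Computable (clEnum g r) := by
  have hG : Computable₂ fun (_ : Unit) (L : List (Option α)) => some
      ((Nat.casesOn L.length (g 0) fun n => clStep g r L n : Option α)) := by
    apply Computable.option_some.comp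
    exact Computable.nat_casesOn (Computable.list_length.comp Computable.snd)
      (Computable.const _) (computable_clStep hg hr)
  have key : Computable₂ fun (_ : Unit) (n : ℕ) => clEnum g r n := by
    apply Computable.nat_strong_rec _ hG
    intro a n
    simp only [List.length_map, List.length_range, Option.some.injEq]
    cases n with
    | zero => simp [clEnum]
    | succ n =>
      have h1 : n.unpair.2.unpair.1 < n + 1 := by
        have h1 := Nat.unpair_left_le n.unpair.2
        have h2 := Nat.unpair_right_le n
        omega
      have h2 : n.unpair.2.unpair.2 < n + 1 := by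
        have h1 := Nat.unpair_right_le n.unpair.2
        have h2 := Nat.unpair_right_le n
        omega
      rw [clEnum]
      simp only [clStep, List.getElem?_map, List.getElem?_range h1, List.getElem?_range h2,
        Option.map_some, Option.getD_some]
      by_cases h : n.unpair.1 = 0
      · simp [h]
      · rw [if_neg h, beq_eq_false_iff_ne.2 h, Bool.cond_false]
  exact key.comp (Computable.const ()) Computable.id

theorem cl_re {B : α → Prop} (hB : REPred B) {R : α × α × α → Prop} (hR : REPred R) :
    REPred (Cl B R) := by
  classical
  obtain ⟨g, hg, hgB⟩ := re_enum hB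
  obtain ⟨ρ, hρ, hρR⟩ := re_enum hR
  let r : ℕ → α → α → Option α := fun n a b =>
    (ρ n).bind fun t => if (t.1, t.2.1) = (a, b) then some t.2.2 else none
  have hr : Computable fun q : ℕ × α × α => r q.1 q.2.1 q.2.2 := by
    apply Computable.option_bind (hρ.comp Computable.fst)
    have : Computable fun p : (ℕ × α × α) × (α × α × α) =>
        bif decide ((p.2.1, p.2.2.1) = p.1.2) then some p.2.2.2 else none := by
      apply Computable.cond _ _ (Computable.const none)
      · exact (Primrec.eq.decide.to_comp).comp
          ((Computable.fst.comp Computable.snd).pair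
            (Computable.fst.comp (Computable.snd.comp Computable.snd)))
          (Computable.snd.comp Computable.fst)
      · exact Computable.option_some.comp
          (Computable.snd.comp (Computable.snd.comp Computable.snd))
    refine this.of_eq ?_
    rintro ⟨⟨n, a, b⟩, t⟩
    by_cases h : (t.1, t.2.1) = (a, b) <;> simp [h]
  have hc := computable_clEnum hg hr
  have h1 : ∀ n c, clEnum g r n = some c → Cl B R c := by
    intro n
    induction n using Nat.strong_induction_on with
    | _ n ih =>
      intro c hcn
      cases n with
      | zero =>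
        rw [clEnum] at hcn
        exact Cl.base ((hgB c).2 ⟨_, hcn⟩)
      | succ n =>
        have h1 : n.unpair.2.unpair.1 < n + 1 := by
          have h1 := Nat.unpair_left_le n.unpair.2
          have h2 := Nat.unpair_right_le n
          omega
        have h2 : n.unpair.2.unpair.2 < n + 1 := by
          have h1 := Nat.unpair_right_le n.unpair.2
          have h2 := Nat.unpair_right_le n
          omega
        rw [clEnum] at hcn
        split_ifs at hcn with h0
        · exact Cl.base ((hgB c).2 ⟨_, hcn⟩)
        · obtain ⟨a, ha, hcn⟩ := Option.bind_eq_some_iff.1 hcn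
          obtain ⟨b, hb, hcn⟩ := Option.bind_eq_some_iff.1 hcn
          obtain ⟨t, ht, hcn⟩ := Option.bind_eq_some_iff.1 hcn
          split_ifs at hcn with hab
          simp only [Option.some.injEq] at hcn
          have h3 : t = (a, b, c) := by
            obtain ⟨t1, t2, t3⟩ := t
            simp only [Prod.mk.injEq] at hab hcn ⊢
            exact ⟨hab.1, hab.2, hcn⟩
          exact Cl.step (ih _ h1 a ha) (ih _ h2 b hb) ((hρR _).2 ⟨_, h3 ▸ ht⟩)
  have h2 : ∀ c, Cl B R c → ∃ n, clEnum g r n = some c := by
    intro c hc
    induction hc with
    | base hb =>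
      obtain ⟨n, hn⟩ := (hgB _).1 hb
      refine ⟨Nat.pair 0 (Nat.pair n 0) + 1, ?_⟩
      rw [clEnum]
      simp [hn]
    | step _ _ hR' iha ihb =>
      obtain ⟨i, hi⟩ := iha
      obtain ⟨j, hj⟩ := ihb
      obtain ⟨k, hk⟩ := (hρR _).1 hR'
      refine ⟨Nat.pair (k + 1) (Nat.pair i j) + 1, ?_⟩
      rw [clEnum]
      simp only [Nat.unpair_pair, hi, hj, Option.bind_some]
      simp [r, hk]
  have hre : REPred fun q : α × ℕ => clEnum g r q.2 = some q.1 :=
    re_eq (hc.comp Computable.snd) (Computable.option_some.comp Computable.fst)
  refine (re_exists (p := fun (a : α) (n : ℕ) => clEnum g r n = some a) hre).of_eq ?_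
  intro c
  exact ⟨fun ⟨n, hn⟩ => h1 n c hn, fun h => h2 c h⟩

/-- A function with an r.e. graph is computable. -/
theorem computable_of_re_graph (f : α → β) (h : REPred fun p : α × β => p.2 = f p.1) :
    Computable f := by
  classical
  obtain ⟨g, hg, hgr⟩ := re_enum h
  have hex : ∀ a, ∃ n, (g n).map Prod.fst = some a := by
    intro a
    obtain ⟨n, hn⟩ := (hgr (a, f a)).1 rfl
    exact ⟨n, by simp [hn]⟩
  have hP : ComputablePred fun p : α × ℕ => (g p.2).map Prod.fst = some p.1 := by
    apply Computable.computablePred
    exact (Primrec.eq.decide.to_comp).comp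
      (Computable.option_map (hg.comp Computable.snd) (Computable.fst.comp Computable.snd))
      (Computable.option_some.comp Computable.fst)
  have hfind := Computable.find hP hex
  have h3 : Computable fun a => (g (Nat.find (hex a))).map Prod.snd :=
    Computable.option_map (hg.comp hfind) (Computable.snd.comp Computable.snd)
  rw [← Computable.option_some_iff]
  refine h3.of_eq fun a => ?_
  have h4 := Nat.find_spec (hex a)
  obtain ⟨q, hq, hqa⟩ := Option.map_eq_some_iff.1 h4
  have h5 : q.2 = f q.1 := (hgr q).2 ⟨_, hq⟩
  rw [hq, Option.map_some, h5, hqa]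

end Pool.Agent.H91.CD.COMP
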