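import Mathlib
import Pool.Agent.H91.CD.Defs

set_option autoImplicit false

namespace Pool.Agent.H91.CD

open Polynomial IntermediateField Module

theorem pr_spec (u : ℕ) : (pr (u + 1)).Prime ∧ pr (u + 1) % 9 = 1 ∧ pr u < pr (u + 1) := by
  classical
  have h := Nat.find_spec (Nat.exists_prime_gt_modEq_one (k := 9) (pr u) (by norm_num))
  have e : pr (u + 1) = Nat.find (Nat.exists_prime_gt_modEq_one (k := 9) (pr u) (by norm_num)) := by
    simp only [pr]
  rw [e]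
  refine ⟨h.1, ?_, h.2.1⟩
  have := h.2.2
  simpa [Nat.ModEq] using this

theorem ell_succ (n : ℕ) : (ell (n + 1)).Prime ∧ ell n < ell (n + 1) := by
  classical
  have h := Nat.find_spec (Nat.exists_infinite_primes (ell n + 1))
  have e : ell (n + 1) = Nat.find (Nat.exists_infinite_primes (ell n + 1)) := by
    simp only [ell]
  rw [e]
  exact ⟨h.2, h.1⟩

theorem ell_spec (n : ℕ) : (ell n).Prime ∧ 3 ≤ ell n ∧ ell n < ell (n + 1) := by
  refine ⟨?_, ?_, (ell_succ n).2⟩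
  · cases n with
    | zero => simp only [ell]; norm_num
    | succ n => exact (ell_succ n).1
  · induction n with
    | zero => simp [ell]
    | succ n ih => exact le_trans ih (ell_succ n).2.le

namespace ALG

theorem ell_prime (n : ℕ) : (ell n).Prime := (ell_spec n).1

theorem ell_odd (n : ℕ) : Odd (ell n) :=
  (ell_prime n).odd_of_ne_two (by have := (ell_spec n).2.1; omega)

theorem ell_mono : StrictMono ell := strictMono_nat_of_lt_succ fun n => (ell_spec n).2.2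

theorem pr_mono : StrictMono pr := strictMono_nat_of_lt_succ fun n => (pr_spec n).2.2

theorem pr_prime {u : ℕ} (hu : 0 < u) : (pr u).Prime := by
  obtain ⟨k, rfl⟩ : ∃ k, u = k + 1 := ⟨u - 1, by omega⟩
  exact (pr_spec k).1

theorem pr_mod (u : ℕ) : pr u % 9 = 1 := by
  cases u with
  | zero => simp [pr]
  | succ u => exact (pr_spec u).2.1

theorem x_sq (u : ℕ) : x u ^ 2 = (pr u : ℝ) := Real.sq_sqrt (by positivity)

theorem x_zero : x 0 = 1 := by simp [x, pr]

end ALG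

open ALG

theorem rho_pow (S : ℕ → ℕ × ℕ) (n : ℕ) (b : Bool) : rho S n b ^ ell n = gam S n b := by
  have hodd := ell_odd n
  have hne : (ell n : ℝ) ≠ 0 := by
    have := (ell_prime n).pos
    positivity
  unfold rho
  rw [mul_pow]
  rw [show (|gam S n b| ^ (1 / (ell n : ℝ))) ^ ell n = |gam S n b| from by
    rw [← Real.rpow_natCast, ← Real.rpow_mul (abs_nonneg _), one_div_mul_cancel hne, Real.rpow_one]]
  rcases lt_trichotomy (gam S n b) 0 with h | h | h
  · rw [sign_neg h, abs_of_neg h]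
    simp [hodd.neg_one_pow]
  · simp [h]
  · rw [sign_pos h, abs_of_pos h]; simp

namespace ALG

instance fact3 : Fact (Nat.Prime 3) := ⟨by norm_num⟩

/-- norms of powers in the 3-adic numbers -/
theorem dvd_of_norm_pow {q : ℕ} (z : ℚ_[3]) (j : ℕ) (hq : q ≠ 0) (h : ‖z‖ ^ q = (3 : ℝ)⁻¹ ^ j) :
    q ∣ j := by
  have hz : z ≠ 0 := by
    rintro rfl
    rw [norm_zero, zero_pow hq] at h
    have : (0 : ℝ) < (3 : ℝ)⁻¹ ^ j := by positivity
    linarith
  rw [Padic.norm_eq_zpow_neg_valuation hz] at h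
  have h2 : ((3 : ℝ) ^ (-z.valuation * q) : ℝ) = (3 : ℝ) ^ (-(j : ℤ)) := by
    rw [zpow_mul, zpow_natCast, zpow_neg (3 : ℝ) (j : ℤ), zpow_natCast, ← inv_pow]
    exact_mod_cast h
  have h3 := zpow_right_injective₀ (by norm_num : (0 : ℝ) < 3) (by norm_num) h2
  have h4 : (q : ℤ) ∣ (j : ℤ) := ⟨z.valuation, by linarith⟩
  exact_mod_cast h4

theorem norm_two3 : ‖(2 : ℤ_[3])‖ = 1 := by
  have h : ‖((2 : ℕ) : ℤ_[3])‖ = 1 := by
    rw [PadicInt.norm_natCast_eq_one_iff]; norm_num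
  simpa using h

theorem norm_le_ninth (z : ℤ) (h : (9 : ℤ) ∣ z) : ‖(z : ℤ_[3])‖ ≤ (9 : ℝ)⁻¹ := by
  have := (PadicInt.norm_int_le_pow_iff_dvd (p := 3) (k := z) (n := 2)).2 (by simpa using h)
  refine this.trans ?_
  norm_num

theorem exists_root (d : ℕ) (hd : d % 9 = 1) :
    ∃ r : ℚ_[3], r ^ 2 = (d : ℚ_[3]) ∧ ‖2 + r‖ = 3⁻¹ ∧ ‖2 - r‖ = 1 := by
  have h9 : (9 : ℤ) ∣ (1 - (d : ℤ)) := by omega
  have hF : ‖(X ^ 2 - C (d : ℤ_[3]) : ℤ_[3][X]).aeval (1 : ℤ_[3])‖ <
      ‖(X ^ 2 - C (d : ℤ_[3]) : ℤ_[3][X]).derivative.aeval (1 : ℤ_[3])‖ ^ 2 := by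
    have e1 : (X ^ 2 - C (d : ℤ_[3]) : ℤ_[3][X]).aeval (1 : ℤ_[3]) = (((1 - d : ℤ)) : ℤ_[3]) := by
      simp
    have e2 : (X ^ 2 - C (d : ℤ_[3]) : ℤ_[3][X]).derivative.aeval (1 : ℤ_[3]) = 2 := by
      simp; norm_num
    rw [e1, e2, norm_two3]
    have := norm_le_ninth _ h9
    have h1 : (9 : ℝ)⁻¹ < 1 ^ 2 := by norm_num
    exact lt_of_le_of_lt this h1
  obtain ⟨r, hr, hr1, -, -⟩ := hensels_lemma hF
  have hr2 : r ^ 2 = (d : ℤ_[3]) := by
    simpa [sub_eq_zero] using hr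
  have e2 : (X ^ 2 - C (d : ℤ_[3]) : ℤ_[3][X]).derivative.aeval (1 : ℤ_[3]) = 2 := by
    simp; norm_num
  rw [e2, norm_two3] at hr1
  -- r + 1 is a unit
  have hu : ‖r + 1‖ = 1 := by
    have : r + 1 = 2 + (r - 1) := by ring
    rw [this, PadicInt.norm_add_eq_max_of_ne (by rw [norm_two3]; exact hr1.ne'), norm_two3]
    exact max_eq_left hr1.le
  have hs : ‖r - 1‖ ≤ (9 : ℝ)⁻¹ := by
    have e : (r - 1) * (r + 1) = -(((1 - d : ℤ)) : ℤ_[3]) := by
      push_cast
      rw [← hr2]; ring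
    have h2 : ‖r - 1‖ * ‖r + 1‖ = ‖(((1 - d : ℤ)) : ℤ_[3])‖ := by
      rw [← norm_mul, e, norm_neg]
    rw [hu, mul_one] at h2
    rw [h2]
    exact norm_le_ninth _ h9
  have h3 : ‖(3 : ℤ_[3])‖ = 3⁻¹ := by
    have := PadicInt.norm_p (p := 3)
    simpa using this
  have ha : ‖2 + r‖ = 3⁻¹ := by
    have e : 2 + r = 3 + (r - 1) := by ring
    have hlt : ‖r - 1‖ < ‖(3 : ℤ_[3])‖ := by
      rw [h3]; exact lt_of_le_of_lt hs (by norm_num)
    rw [e, PadicInt.norm_add_eq_max_of_ne hlt.ne', h3]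
    exact max_eq_left (h3 ▸ hlt.le)
  have hb : ‖2 - r‖ = 1 := by
    have e : 2 - r = 1 + (-(r - 1)) := by ring
    have hlt : ‖-(r - 1)‖ < ‖(1 : ℤ_[3])‖ := by
      rw [norm_neg, norm_one]; exact lt_of_le_of_lt hs (by norm_num)
    rw [e, PadicInt.norm_add_eq_max_of_ne hlt.ne', norm_one]
    exact max_eq_left (by simpa using hlt.le)
  refine ⟨(r : ℚ_[3]), ?_, ?_, ?_⟩
  · have := congrArg (fun z : ℤ_[3] => (z : ℚ_[3])) hr2
    simpa using this
  · have e : (2 + (r : ℚ_[3])) = ((2 + r : ℤ_[3]) : ℚ_[3]) := by push_cast; rfl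
    rw [e, ← PadicInt.norm_def]; exact ha
  · have e : (2 - (r : ℚ_[3])) = ((2 - r : ℤ_[3]) : ℚ_[3]) := by push_cast; rfl
    rw [e, ← PadicInt.norm_def]; exact hb

/-- Two real numbers with the same prime power agree up to sign. -/
theorem eq_or_neg_of_pow_eq {q : ℕ} (hq : q.Prime) {a b : ℝ} (h : a ^ q = b ^ q) :
    a = b ∨ a = -b := by
  rcases hq.eq_two_or_odd' with rfl | hodd
  · exact sq_eq_sq_iff_eq_or_eq_neg.1 h
  · exact Or.inl (hodd.strictMono_pow.injective h)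

theorem irred {K : Type*} [Field K] [Algebra K ℝ] {q : ℕ} (hq : q.Prime) {y : ℝ} {g : K}
    (hy : y ^ q = algebraMap K ℝ g) (hn : ∀ k : K, algebraMap K ℝ k ≠ y) :
    Irreducible (X ^ q - C g : K[X]) := by
  refine X_pow_sub_C_irreducible_of_prime hq fun b hb => ?_
  have h1 : (algebraMap K ℝ b) ^ q = y ^ q := by rw [hy, ← map_pow, hb]
  rcases eq_or_neg_of_pow_eq hq h1 with h | h
  · exact hn b h
  · exact hn (-b) (by rw [map_neg, h, neg_neg])

theorem minpoly_root {K : Type*} [Field K] [Algebra K ℝ] {q : ℕ} (hq : q.Prime) {y : ℝ} {g : K}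
    (hy : y ^ q = algebraMap K ℝ g) (hn : ∀ k : K, algebraMap K ℝ k ≠ y) :
    minpoly K y = X ^ q - C g := by
  refine (minpoly.eq_of_irreducible_of_monic (irred hq hy hn) ?_ (monic_X_pow_sub_C g hq.ne_zero)).symm
  simp [hy]

theorem integral_root {K : Type*} [Field K] [Algebra K ℝ] {q : ℕ} (hq : q.Prime) {y : ℝ} {g : K}
    (hy : y ^ q = algebraMap K ℝ g) : IsIntegral K y := by
  refine ⟨X ^ q - C g, monic_X_pow_sub_C g hq.ne_zero, ?_⟩
  simp [hy]

theorem finrank_adjoin_root {K : Type*} [Field K] [Algebra K ℝ] {q : ℕ} (hq : q.Prime) {y : ℝ}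
    {g : K} (hy : y ^ q = algebraMap K ℝ g) (hn : ∀ k : K, algebraMap K ℝ k ≠ y) :
    finrank K K⟮y⟯ = q := by
  rw [adjoin.finrank (integral_root hq hy), minpoly_root hq hy hn, natDegree_X_pow_sub_C]

theorem adjoin_insert_mem {S : Set ℝ} {y : ℝ} (h : y ∈ adjoin ℚ S) :
    adjoin ℚ (insert y S) = adjoin ℚ S := by
  apply le_antisymm
  · rw [adjoin_le_iff]
    exact Set.insert_subset h (subset_adjoin ℚ S)
  · exact adjoin.mono _ _ _ (Set.subset_insert y S)

section generic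

variable {F E : Type*} [Field F] [Field E] [Algebra F E]

theorem adjoin_insert_eq (S : Set E) (y : E) :
    adjoin F (insert y S) = ((adjoin F S)⟮y⟯).restrictScalars F := by
  rw [restrictScalars_adjoin, Set.union_singleton, adjoin_insert_adjoin]

theorem mem_adjoin_insert {S : Set E} {y z : E} (h : z ∈ adjoin F (insert y S)) :
    z ∈ (adjoin F S)⟮y⟯ := by
  rw [adjoin_insert_eq] at h
  exact h

theorem finrank_adjoin_insert (S : Set E) (y : E) :
    finrank F (adjoin F (insert y S)) =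
      finrank F (adjoin F S) * finrank (adjoin F S) (adjoin F S)⟮y⟯ := by
  have h2 := Module.finrank_mul_finrank F (adjoin F S) ((adjoin F S)⟮y⟯)
  rw [adjoin_insert_eq]
  exact h2.symm

end generic

theorem finrank_insert {S : Set ℝ} {y : ℝ} {q : ℕ} (hq : q.Prime) (hy : y ^ q ∈ adjoin ℚ S)
    (hn : y ∉ adjoin ℚ S) :
    finrank ℚ (adjoin ℚ (insert y S)) = q * finrank ℚ (adjoin ℚ S) := by
  have h1 : finrank (adjoin ℚ S) (adjoin ℚ S)⟮y⟯ = q :=
    finrank_adjoin_root hq (g := ⟨y ^ q, hy⟩) rfl (fun k hk => hn (hk ▸ k.2))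
  rw [finrank_adjoin_insert, h1, mul_comm]

theorem finrank_insert_dvd {S : Set ℝ} {y : ℝ} {q : ℕ} (hq : q.Prime)
    (hy : y ^ q ∈ adjoin ℚ S) :
    finrank ℚ (adjoin ℚ (insert y S)) ∣ q * finrank ℚ (adjoin ℚ S) := by
  by_cases hn : y ∈ adjoin ℚ S
  · rw [adjoin_insert_mem hn]; exact dvd_mul_left _ _
  · rw [finrank_insert hq hy hn]

/-- elements of a quadratic extension -/
theorem mem_quadratic {S : Set ℝ} {y z : ℝ} (hy : y ^ 2 ∈ adjoin ℚ S)
    (hz : z ∈ adjoin ℚ (insert y S)) :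
    ∃ a ∈ adjoin ℚ S, ∃ b ∈ adjoin ℚ S, z = a + b * y := by
  have h1 := mem_adjoin_insert hz
  have hint : IsIntegral (adjoin ℚ S) y :=
    integral_root Nat.prime_two (g := ⟨y ^ 2, hy⟩) rfl
  rw [← IntermediateField.mem_toSubalgebra,
    adjoin_simple_toSubalgebra_of_isAlgebraic hint.isAlgebraic,
    Algebra.adjoin_singleton_eq_range_aeval] at h1
  obtain ⟨p, hp⟩ := h1
  set f : (adjoin ℚ S)[X] := X ^ 2 - C ⟨y ^ 2, hy⟩ with hf
  have hmon : f.Monic := monic_X_pow_sub_C _ two_ne_zero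
  have hdeg : f.degree = 2 := degree_X_pow_sub_C (by norm_num) _
  have hev : aeval y f = 0 := by simp [hf]
  have hr : (p %ₘ f).degree < 2 := hdeg ▸ degree_modByMonic_lt p hmon
  have hr' : (p %ₘ f).natDegree ≤ 1 := by
    have : (p %ₘ f).degree ≤ 1 := by
      rw [degree_le_iff_coeff_zero]
      intro m hm
      exact coeff_eq_zero_of_degree_lt (lt_of_lt_of_le hr (by exact_mod_cast hm))
    exact natDegree_le_of_degree_le this
  have e := exists_eq_X_add_C_of_natDegree_le_one hr'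
  obtain ⟨b, a, hab⟩ := e
  refine ⟨a, a.2, b, b.2, ?_⟩
  have h2 : aeval y p = aeval y (p %ₘ f) := by
    conv_lhs => rw [← modByMonic_add_div p f]
    rw [map_add, map_mul, hev, zero_mul, add_zero]
  rw [← hp]
  change aeval y p = _
  rw [h2, hab]
  simp [add_comm]

/-- The trace argument. -/
theorem trace_lemma (k : IntermediateField ℚ ℝ) {q : ℕ} (hq : q.Prime) {y : ℝ} {g₀ g₁ : k}
    (hy : y ^ q = algebraMap k ℝ g₀) (hn : y ∉ k) {D : ℝ} (hD : D ∈ k⟮y⟯) (hD0 : D ≠ 0)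
    (hDq : D ^ q = algebraMap k ℝ g₁) :
    ∃ j < q, ∃ t : k, (t : ℝ) ^ q = (g₁ : ℝ) * (g₀ : ℝ) ^ j := by
  have hint : IsIntegral k y := integral_root hq hy
  have : FiniteDimensional k k⟮y⟯ := adjoin.finiteDimensional hint
  let pb := adjoin.powerBasis hint
  have hdim : pb.dim = q := by
    have h1 : pb.dim = (minpoly k y).natDegree := rfl
    have h2 : minpoly k y = X ^ q - C g₀ :=
      (minpoly.eq_of_irreducible_of_monic (irred hq hy (fun a ha => hn (ha ▸ a.2)))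
        (by simp [hy]) (monic_X_pow_sub_C g₀ hq.ne_zero)).symm
    rw [h1, h2, natDegree_X_pow_sub_C]
  have hgen : ((pb.gen : k⟮y⟯) : ℝ) = y := by
    simp [pb]
  let D' : k⟮y⟯ := ⟨D, hD⟩
  have hD' : D' ≠ 0 := fun h => hD0 (congrArg Subtype.val h)
  have hnd := traceForm_nondegenerate k k⟮y⟯
  have hex : ∃ i : Fin pb.dim, Algebra.trace k k⟮y⟯ (D' * pb.gen ^ (i : ℕ)) ≠ 0 := by
    by_contra hcon
    push Not at hcon
    apply hD'
    apply hnd.1
    intro m
    have h1 : (Algebra.traceForm k k⟮y⟯ D' : k⟮y⟯ →ₗ[k] k) = 0 := by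
      apply pb.basis.ext
      intro i
      rw [pb.coe_basis]
      simpa [Algebra.traceForm_apply] using hcon i
    rw [h1]; rfl
  obtain ⟨i, hi⟩ := hex
  refine ⟨i, hdim ▸ i.2, ?_⟩
  set t : k⟮y⟯ := D' * pb.gen ^ (i : ℕ) with ht
  have htq : (t : ℝ) ^ q = (g₁ : ℝ) * (g₀ : ℝ) ^ (i : ℕ) := by
    have e1 : (t : ℝ) = D * y ^ (i : ℕ) := by
      rw [ht]; push_cast; rw [hgen]
    rw [e1, mul_pow, hDq, ← pow_mul, mul_comm (i : ℕ) q, pow_mul, hy]
    rfl
  by_cases hk : (t : ℝ) ∈ k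
  · exact ⟨⟨t, hk⟩, htq⟩
  · exfalso
    apply hi
    have hq2 : (t : ℝ) ^ q = algebraMap k ℝ (g₁ * g₀ ^ (i : ℕ)) := by
      rw [htq]; simp
    have hir := irred hq hq2 (fun a ha => hk (ha ▸ a.2))
    have hmin : minpoly k t = X ^ q - C (g₁ * g₀ ^ (i : ℕ)) := by
      refine (minpoly.eq_of_irreducible_of_monic hir ?_ (monic_X_pow_sub_C _ hq.ne_zero)).symm
      apply Subtype.ext
      simp [htq]
    rw [trace_eq_finrank_mul_minpoly_nextCoeff, hmin]
    have hnext : (X ^ q - C (g₁ * g₀ ^ (i : ℕ)) : k[X]).nextCoeff = 0 := by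
      rw [nextCoeff_of_natDegree_pos (by rw [natDegree_X_pow_sub_C]; exact hq.pos),
        natDegree_X_pow_sub_C, coeff_sub, coeff_X_pow, coeff_C]
      have := hq.two_le
      rw [if_neg (by omega), if_neg (by omega), sub_zero]
    rw [hnext]; simp

theorem prod_x_sq (T : Finset ℕ) : (∏ t ∈ T, x t) ^ 2 = ((∏ t ∈ T, pr t : ℕ) : ℝ) := by
  rw [← Finset.prod_pow, Nat.cast_prod]
  exact Finset.prod_congr rfl fun t _ => x_sq t

theorem not_isSquare_prod {T : Finset ℕ} (hT : T.Nonempty) (hpos : ∀ t ∈ T, 0 < t) :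
    ¬ IsSquare (∏ t ∈ T, pr t) := by
  obtain ⟨m, hm⟩ := hT
  have hp := pr_prime (hpos m hm)
  rintro ⟨r, hr⟩
  have h1 : pr m ∣ r := by
    have : pr m ∣ r * r := hr ▸ Finset.dvd_prod_of_mem _ hm
    rcases (Nat.Prime.dvd_mul hp).1 this with h | h <;> exact h
  have h2 : pr m * pr m ∣ ∏ t ∈ T, pr t := by
    rw [hr]; exact mul_dvd_mul h1 h1
  rw [← Finset.mul_prod_erase T pr hm] at h2
  have h3 : pr m ∣ ∏ t ∈ T.erase m, pr t := Nat.dvd_of_mul_dvd_mul_left hp.pos h2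
  obtain ⟨t, ht, htd⟩ := (Prime.dvd_finsetProd_iff hp.prime _).1 h3
  rw [Finset.mem_erase] at ht
  have h4 := (Nat.prime_dvd_prime_iff_eq hp (pr_prime (hpos t ht.2))).1 htd
  exact ht.1 (pr_mono.injective h4).symm

/-- Multi-quadratic independence of the square roots. -/
theorem prod_not_mem (s : Finset ℕ) (hs : ∀ u ∈ s, 0 < u) : ∀ T : Finset ℕ, T.Nonempty →
    Disjoint T s → (∀ t ∈ T, 0 < t) → (∏ t ∈ T, x t) ∉ adjoin ℚ (x '' (s : Set ℕ)) := by
  classical
  induction s using Finset.induction_on with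
  | empty =>
    intro T hT _ hpos hmem
    simp only [Finset.coe_empty, Set.image_empty, adjoin_empty, mem_bot] at hmem
    obtain ⟨q, hq⟩ := hmem
    apply not_isSquare_prod hT hpos
    rw [← Rat.isSquare_natCast_iff]
    refine ⟨q, ?_⟩
    have h1 := prod_x_sq T
    rw [← hq] at h1
    have h2 : ((q * q : ℚ) : ℝ) = (((∏ t ∈ T, pr t : ℕ) : ℚ) : ℝ) := by
      push_cast
      rw [← sq]
      simpa using h1
    exact (by exact_mod_cast h2.symm)
  | insert m s hm ih =>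
    intro T hT hdis hpos hmem
    have hs' : ∀ u ∈ s, 0 < u := fun u hu => hs u (Finset.mem_insert_of_mem hu)
    have hm0 : 0 < m := hs m (Finset.mem_insert_self _ _)
    have hxm : x m ∉ adjoin ℚ (x '' (s : Set ℕ)) := by
      have := ih hs' {m} (Finset.singleton_nonempty m)
        (by simpa using hm) (by simpa using hm0)
      simpa using this
    have hTs : Disjoint T s := Finset.disjoint_of_subset_right (Finset.subset_insert _ _) hdis
    have hmT : m ∉ T := fun h => (Finset.disjoint_left.1 hdis h) (Finset.mem_insert_self _ _)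
    rw [Finset.coe_insert, Set.image_insert_eq] at hmem
    have hnat : ∀ n : ℕ, (n : ℝ) ∈ adjoin ℚ (x '' (s : Set ℕ)) := fun n => _root_.natCast_mem _ n
    obtain ⟨a, ha, b, hb, hab⟩ := mem_quadratic (by rw [x_sq]; exact hnat _) hmem
    have hP := prod_x_sq T
    have hxm2 := x_sq m
    have h1 : 2 * a * b * x m = ((∏ t ∈ T, pr t : ℕ) : ℝ) - a ^ 2 - b ^ 2 * (pr m : ℝ) := by
      rw [← hP, ← hxm2, hab]; ring
    have hmem2 : 2 * a * b * x m ∈ adjoin ℚ (x '' (s : Set ℕ)) := by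
      rw [h1]
      exact sub_mem (sub_mem (hnat _) (pow_mem ha 2)) (mul_mem (pow_mem hb 2) (hnat _))
    have hab0 : a = 0 ∨ b = 0 := by
      by_contra hcon
      push Not at hcon
      apply hxm
      have h2 : (2 * a * b) ∈ adjoin ℚ (x '' (s : Set ℕ)) :=
        mul_mem (mul_mem (by exact_mod_cast hnat 2) ha) hb
      have h3 : x m = (2 * a * b)⁻¹ * (2 * a * b * x m) := by
        have : 2 * a * b ≠ 0 := by
          have := hcon.1
          have := hcon.2
          positivity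
        rw [inv_mul_cancel_left₀ this]
      rw [h3]
      exact mul_mem (inv_mem h2) hmem2
    rcases hab0 with h0 | h0
    · -- P * x m in F
      apply ih hs' (insert m T) (Finset.insert_nonempty _ _)
      · rw [Finset.disjoint_insert_left]
        exact ⟨hm, hTs⟩
      · intro t ht
        rcases Finset.mem_insert.1 ht with rfl | ht
        · exact hm0
        · exact hpos t ht
      · rw [Finset.prod_insert hmT, hab, h0]
        have : x m * (0 + b * x m) = b * (pr m : ℝ) := by rw [← hxm2]; ring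
        rw [this]
        exact mul_mem hb (hnat _)
    · apply ih hs' T hT hTs hpos
      rw [hab, h0]
      simpa using ha

theorem x_not_mem {s : Finset ℕ} {m : ℕ} (hm : 0 < m) (hms : m ∉ s) :
    x m ∉ adjoin ℚ (x '' (s : Set ℕ)) := by
  classical
  have h := prod_not_mem (s.erase 0) (fun u hu => Nat.pos_of_ne_zero (Finset.ne_of_mem_erase hu))
    {m} (Finset.singleton_nonempty m) (by simp [hms]) (by simpa using hm)
  rw [Finset.prod_singleton] at h
  intro hmem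
  apply h
  have hle : adjoin ℚ (x '' (s : Set ℕ)) ≤ adjoin ℚ (x '' ((s.erase 0 : Finset ℕ) : Set ℕ)) := by
    rw [adjoin_le_iff]
    rintro _ ⟨u, hu, rfl⟩
    rcases Nat.eq_zero_or_pos u with rfl | hu0
    · rw [x_zero]; exact one_mem _
    · exact subset_adjoin _ _ ⟨u, by simpa [hu0.ne'] using hu, rfl⟩
  exact hle hmem

theorem xx_not_rat {u v : ℕ} (huv : u < v) : ∀ q : ℚ, (q : ℝ) ≠ x u * x v := by
  intro q hq
  have hv : 0 < v := by omega
  have hbot : ∀ z : ℝ, z ∈ adjoin ℚ (x '' ((∅ : Finset ℕ) : Set ℕ)) ↔ ∃ q : ℚ, (q : ℝ) = z := by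
    intro z
    simp [mem_bot]
  rcases Nat.eq_zero_or_pos u with rfl | hu
  · rw [x_zero, one_mul] at hq
    exact x_not_mem hv (Finset.notMem_empty v) ((hbot _).2 ⟨q, hq⟩)
  · have h := prod_not_mem ∅ (by simp) {u, v} (by simp) (by simp) (by
      intro t ht
      simp only [Finset.mem_insert, Finset.mem_singleton] at ht
      omega)
    rw [Finset.prod_pair huv.ne] at h
    exact h ((hbot _).2 ⟨q, hq⟩)

theorem exists_hom {c : ℝ} {d : ℕ} (hc : c ^ 2 = (d : ℝ)) (hirr : ∀ q : ℚ, (q : ℝ) ≠ c)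
    {r : ℚ_[3]} (hr : r ^ 2 = (d : ℚ_[3])) :
    ∃ φ : ℚ⟮c⟯ →+* ℚ_[3], φ (AdjoinSimple.gen ℚ c) = r := by
  have hc' : c ^ 2 = algebraMap ℚ ℝ (d : ℚ) := by simpa using hc
  have hint : IsIntegral ℚ c := integral_root Nat.prime_two hc'
  have hmin : minpoly ℚ c = X ^ 2 - C (d : ℚ) :=
    minpoly_root Nat.prime_two hc' (fun k => by simpa using hirr k)
  have hmem : r ∈ (minpoly ℚ c).aroots ℚ_[3] := by
    rw [mem_aroots]
    refine ⟨minpoly.ne_zero hint, ?_⟩
    rw [hmin]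
    simp [hr]
  refine ⟨((algHomAdjoinIntegralEquiv ℚ hint).symm ⟨r, hmem⟩ : ℚ⟮c⟯ →ₐ[ℚ] ℚ_[3]).toRingHom, ?_⟩
  exact algHomAdjoinIntegralEquiv_symm_apply_gen ℚ hint ⟨r, hmem⟩

theorem not_power {c : ℝ} {d : ℕ} (hd : d % 9 = 1) (hc : c ^ 2 = (d : ℝ))
    (hirr : ∀ q : ℚ, (q : ℝ) ≠ c) {q : ℕ} (hq : q.Prime) (s : ℤ) (hs : s = 1 ∨ s = -1)
    (j : ℕ) (t : ℚ⟮c⟯) :
    (t : ℝ) ^ q ≠ (2 - (s : ℝ) * c) * (2 + (s : ℝ) * c) ^ j := by
  intro h
  obtain ⟨r, hr, hr1, hr2⟩ := exists_root d hd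
  have hs2 : ((s : ℚ_[3])) ^ 2 = 1 := by
    rcases hs with rfl | rfl <;> simp
  have hs3 : (s : ℚ_[3]) * (s : ℚ_[3]) = 1 := by rw [← sq]; exact hs2
  obtain ⟨ψ, hψ⟩ := exists_hom hc hirr (r := -((s : ℚ_[3]) * r))
    (by rw [neg_sq, mul_pow, hs2, one_mul, hr])
  set g : ℚ⟮c⟯ := AdjoinSimple.gen ℚ c with hg
  have hgc : (g : ℝ) = c := AdjoinSimple.coe_gen ℚ c
  have h2c : ((2 : ℚ⟮c⟯) : ℝ) = 2 := rfl
  have e : t ^ q = (2 - (s : ℚ⟮c⟯) * g) * (2 + (s : ℚ⟮c⟯) * g) ^ j := by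
    apply Subtype.ext
    push_cast
    rw [h, hgc, h2c]
  have e2 : ψ t ^ q = (2 + r) * (2 - r) ^ j := by
    have h1 := congrArg ψ e
    rw [map_pow, map_mul, map_pow, map_sub, map_add, map_mul, map_intCast, map_ofNat, hψ,
      mul_neg, ← mul_assoc, hs3, one_mul, sub_neg_eq_add, ← sub_eq_add_neg] at h1
    exact h1
  have n2 := congrArg norm e2
  rw [norm_pow, norm_mul, norm_pow, hr1, hr2, one_pow, mul_one] at n2
  have d2 := dvd_of_norm_pow (ψ t) 1 hq.ne_zero (by rw [pow_one]; exact n2)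
  have := hq.one_lt
  exact absurd (Nat.le_of_dvd one_pos d2) (by omega)

/-- The two conjugate radicals generate an extension of degree divisible by `q ^ 2`. -/
theorem sq_dvd_finrank {c : ℝ} {d : ℕ} (hd : d % 9 = 1) (hc : c ^ 2 = (d : ℝ))
    (hirr : ∀ q : ℚ, (q : ℝ) ≠ c) {q : ℕ} (hq : q.Prime) {y z : ℝ}
    (hy : y ^ q = 2 + c) (hz : z ^ q = 2 - c) :
    q ^ 2 ∣ finrank ℚ (adjoin ℚ (insert z (insert y {c}))) := by
  have hcmem : c ∈ adjoin ℚ ({c} : Set ℝ) := subset_adjoin _ _ (Set.mem_singleton c)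
  have h2mem : (2 : ℝ) ∈ adjoin ℚ ({c} : Set ℝ) := ofNat_mem _ 2
  have hy0 : y ^ q ∈ adjoin ℚ ({c} : Set ℝ) := by rw [hy]; exact add_mem h2mem hcmem
  have hz0 : z ^ q ∈ adjoin ℚ ({c} : Set ℝ) := by rw [hz]; exact sub_mem h2mem hcmem
  have hyn : y ∉ adjoin ℚ ({c} : Set ℝ) := by
    intro hmem
    apply not_power hd hc hirr hq (-1) (Or.inr rfl) 0 ⟨y, hmem⟩
    push_cast
    rw [hy]; ring
  have hzn : z ∉ adjoin ℚ (insert y ({c} : Set ℝ)) := by
    intro hmem
    have hD := mem_adjoin_insert hmem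
    have hz_ne : z ≠ 0 := by
      rintro rfl
      rw [zero_pow hq.ne_zero] at hz
      exact hirr 2 (by push_cast; linarith)
    obtain ⟨j, -, t, ht⟩ := trace_lemma (adjoin ℚ ({c} : Set ℝ)) hq (g₀ := ⟨y ^ q, hy0⟩)
      (g₁ := ⟨z ^ q, hz0⟩) rfl hyn hD hz_ne rfl
    apply not_power hd hc hirr hq 1 (Or.inl rfl) j t
    rw [ht]
    push_cast
    rw [hy, hz, one_mul]
  have hz1 : z ^ q ∈ adjoin ℚ (insert y ({c} : Set ℝ)) :=
    adjoin.mono _ _ _ (Set.subset_insert _ _) hz0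
  rw [finrank_insert hq hz1 hzn, finrank_insert hq hy0 hyn, ← mul_assoc, sq]
  exact dvd_mul_right _ _

/-- finite sets of generators -/
def Gs (S : ℕ → ℕ × ℕ) (s : Finset ℕ) (J : Finset (ℕ × Bool)) : Set ℝ :=
  (fun j : ℕ × Bool => rho S j.1 j.2) '' (J : Set (ℕ × Bool)) ∪ x '' (s : Set ℕ)

theorem Gs_insert (S : ℕ → ℕ × ℕ) (s : Finset ℕ) (J : Finset (ℕ × Bool)) (j : ℕ × Bool)
    [DecidableEq (ℕ × Bool)] :
    Gs S s (insert j J) = insert (rho S j.1 j.2) (Gs S s J) := by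
  rw [Gs, Gs, Finset.coe_insert, Set.image_insert_eq, Set.insert_union]

theorem Gs_empty (S : ℕ → ℕ × ℕ) (s : Finset ℕ) : Gs S s ∅ = x '' (s : Set ℕ) := by
  simp [Gs]

theorem x_mem_Gs (S : ℕ → ℕ × ℕ) (s : Finset ℕ) (J : Finset (ℕ × Bool)) {u : ℕ} (hu : u ∈ s) :
    x u ∈ adjoin ℚ (Gs S s J) := subset_adjoin _ _ (Or.inr ⟨u, hu, rfl⟩)

theorem rho_mem_Gs (S : ℕ → ℕ × ℕ) (s : Finset ℕ) (J : Finset (ℕ × Bool)) {n : ℕ} {b : Bool}
    (hj : (n, b) ∈ J) :
    rho S n b ∈ adjoin ℚ (Gs S s J) := subset_adjoin _ _ (Or.inl ⟨(n, b), hj, rfl⟩)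

theorem gam_mem {F : IntermediateField ℚ ℝ} {S : ℕ → ℕ × ℕ} {n : ℕ} (b : Bool)
    (h1 : x (S n).1 ∈ F) (h2 : x (S n).2 ∈ F) : gam S n b ∈ F :=
  add_mem (ofNat_mem _ 2) (mul_mem (intCast_mem _ _) (mul_mem h1 h2))

theorem finrank_x_dvd (s : Finset ℕ) : finrank ℚ (adjoin ℚ (x '' (s : Set ℕ))) ∣ 2 ^ s.card := by
  classical
  induction s using Finset.induction_on with
  | empty => simp
  | insert m s hm ih =>
    rw [Finset.coe_insert, Set.image_insert_eq, Finset.card_insert_of_notMem hm, pow_succ,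
      mul_comm]
    refine (finrank_insert_dvd Nat.prime_two ?_).trans (mul_dvd_mul_left 2 ih)
    rw [x_sq]
    exact _root_.natCast_mem _ _

theorem finrank_Gs_dvd (S : ℕ → ℕ × ℕ) (s : Finset ℕ) (J : Finset (ℕ × Bool))
    (hJ : ∀ j ∈ J, (S j.1).1 ∈ s ∧ (S j.1).2 ∈ s) :
    finrank ℚ (adjoin ℚ (Gs S s J)) ∣ 2 ^ s.card * ∏ j ∈ J, ell j.1 := by
  classical
  induction J using Finset.induction_on with
  | empty => rw [Gs_empty]; simpa using finrank_x_dvd s
  | insert j J hj ih =>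
    have ih' := ih (fun k hk => hJ k (Finset.mem_insert_of_mem hk))
    have hj' := hJ j (Finset.mem_insert_self _ _)
    rw [Gs_insert, Finset.prod_insert hj, mul_left_comm]
    refine (finrank_insert_dvd (ell_prime j.1) ?_).trans (mul_dvd_mul_left _ ih')
    rw [rho_pow]
    exact gam_mem _ (x_mem_Gs _ _ _ hj'.1) (x_mem_Gs _ _ _ hj'.2)

theorem algebraic_Gs (S : ℕ → ℕ × ℕ) (s : Finset ℕ) (J : Finset (ℕ × Bool))
    (hJ : ∀ j ∈ J, (S j.1).1 ∈ s ∧ (S j.1).2 ∈ s) :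
    FiniteDimensional ℚ (adjoin ℚ (Gs S s J)) := by
  have h := finrank_Gs_dvd S s J hJ
  apply FiniteDimensional.of_finrank_pos
  refine Nat.pos_of_dvd_of_pos h ?_
  have : 0 < ∏ j ∈ J, ell j.1 := Finset.prod_pos fun j _ => (ell_prime j.1).pos
  positivity

theorem rho_not_mem_Gs (S : ℕ → ℕ × ℕ) (hS : ∀ n, (S n).1 < (S n).2) (s : Finset ℕ)
    (J : Finset (ℕ × Bool)) (hJ : ∀ j ∈ J, (S j.1).1 ∈ s ∧ (S j.1).2 ∈ s) (n : ℕ) (b : Bool)
    (hn : (S n).1 ∈ s ∧ (S n).2 ∈ s) (hnb : (n, b) ∉ J) : rho S n b ∉ adjoin ℚ (Gs S s J) := by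
  classical
  intro hmem
  set J' := insert (n, !b) J with hJ'
  have hJ'2 : ∀ j ∈ J', (S j.1).1 ∈ s ∧ (S j.1).2 ∈ s := by
    intro j hj
    rcases Finset.mem_insert.1 hj with rfl | hj
    · exact hn
    · exact hJ j hj
  have hle : adjoin ℚ (Gs S s J) ≤ adjoin ℚ (Gs S s J') := by
    apply adjoin.mono
    rw [hJ', Gs_insert]
    exact Set.subset_insert _ _
  have hmem' : rho S n b ∈ adjoin ℚ (Gs S s J') := hle hmem
  have hmem2 : rho S n (!b) ∈ adjoin ℚ (Gs S s J') :=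
    rho_mem_Gs _ _ _ (Finset.mem_insert_self _ _)
  have hb : ∀ b, rho S n b ∈ adjoin ℚ (Gs S s J') := by
    intro b'
    rcases Bool.eq_or_eq_not b' b with rfl | rfl
    · exact hmem'
    · exact hmem2
  set c := x (S n).1 * x (S n).2 with hc
  have hcd : c ^ 2 = ((pr (S n).1 * pr (S n).2 : ℕ) : ℝ) := by
    rw [hc, mul_pow, x_sq, x_sq]; push_cast; rfl
  have hmod : (pr (S n).1 * pr (S n).2) % 9 = 1 := by
    rw [Nat.mul_mod, pr_mod, pr_mod]
  have hsq := sq_dvd_finrank hmod hcd (xx_not_rat (hS n)) (ell_prime n)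
    (y := rho S n false) (z := rho S n true)
    (by rw [rho_pow, gam]; simp [sg, hc]) (by rw [rho_pow, gam]; simp [sg, hc]; ring)
  have hle2 : adjoin ℚ (insert (rho S n true) (insert (rho S n false) {c})) ≤
      adjoin ℚ (Gs S s J') := by
    rw [adjoin_le_iff]
    refine Set.insert_subset (hb _) (Set.insert_subset (hb _) ?_)
    rw [Set.singleton_subset_iff]
    exact mul_mem (x_mem_Gs _ _ _ hn.1) (x_mem_Gs _ _ _ hn.2)
  have := algebraic_Gs S s J' hJ'2
  have h1 := hsq.trans ((finrank_dvd_of_le_right hle2).trans (finrank_Gs_dvd S s J' hJ'2))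
  have hmJ : (n, !b) ∈ J' := Finset.mem_insert_self _ _
  rw [← Finset.mul_prod_erase J' (fun j => ell j.1) hmJ, sq, mul_left_comm] at h1
  have h2 := Nat.dvd_of_mul_dvd_mul_left (ell_prime n).pos h1
  rcases (Nat.Prime.dvd_mul (ell_prime n)).1 h2 with h3 | h3
  · have h4 := (Nat.prime_dvd_prime_iff_eq (ell_prime n) Nat.prime_two).1
      ((ell_prime n).dvd_of_dvd_pow h3)
    have := (ell_spec n).2.1
    omega
  · obtain ⟨j, hj, hjd⟩ := (Prime.dvd_finsetProd_iff (ell_prime n).prime _).1 h3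
    rw [Finset.mem_erase, hJ', Finset.mem_insert] at hj
    have h4 := ell_mono.injective ((Nat.prime_dvd_prime_iff_eq (ell_prime n) (ell_prime j.1)).1 hjd)
    obtain ⟨hj1, hj2⟩ := hj
    rcases hj2 with hj2 | hj2
    · exact hj1 hj2
    · obtain ⟨m, b'⟩ := j
      simp only at h4
      subst h4
      rcases Bool.eq_or_eq_not b' b with rfl | rfl
      · exact hnb hj2
      · exact hj1 rfl

/-- increasing union of finite sets of generators -/
def GN (S : ℕ → ℕ × ℕ) (W : ℕ × Bool → Prop) (N : ℕ) : Set ℝ :=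
  {r | ∃ n b, W (n, b) ∧ n < N ∧ (S n).2 < N ∧ r = rho S n b} ∪ {r | ∃ u, u < N ∧ r = x u}

theorem GN_mono (S : ℕ → ℕ × ℕ) (W : ℕ × Bool → Prop) : Monotone (GN S W) := by
  intro M N h r hr
  rcases hr with ⟨n, b, h1, h2, h3, h4⟩ | ⟨u, h1, h2⟩
  · exact Or.inl ⟨n, b, h1, by omega, by omega, h4⟩
  · exact Or.inr ⟨u, by omega, h2⟩

theorem iUnion_GN (S : ℕ → ℕ × ℕ) (W : ℕ × Bool → Prop) : ⋃ N, GN S W N = gens S W := by
  ext r
  constructor
  · intro h
    obtain ⟨N, hN⟩ := Set.mem_iUnion.1 h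
    rcases hN with ⟨n, b, h1, h2, h3, h4⟩ | ⟨u, h1, h2⟩
    · exact Or.inr ⟨n, b, h1, h4⟩
    · exact Or.inl ⟨u, h2.symm⟩
  · rintro (⟨u, rfl⟩ | ⟨n, b, h1, h2⟩)
    · exact Set.mem_iUnion.2 ⟨u + 1, Or.inr ⟨u, by omega, rfl⟩⟩
    · exact Set.mem_iUnion.2 ⟨n + (S n).2 + 1, Or.inl ⟨n, b, h1, by omega, by omega, h2⟩⟩

theorem mem_K_iff (S : ℕ → ℕ × ℕ) (W : ℕ × Bool → Prop) (z : ℝ) :
    z ∈ K S W ↔ z ∈ adjoin ℚ (gens S W) := by
  constructor
  · intro h
    have hle : K S W ≤ (adjoin ℚ (gens S W)).toSubfield := by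
      rw [K, Subfield.closure_le]
      exact subset_adjoin ℚ _
    exact hle h
  · intro h
    have hle : adjoin ℚ (gens S W) ≤ (K S W).toIntermediateField (fun q => by
        exact SubfieldClass.ratCast_mem _ q) := by
      rw [adjoin_le_iff]
      exact Subfield.subset_closure
    exact hle h

theorem mem_adjoin_GN {S : ℕ → ℕ × ℕ} {W : ℕ × Bool → Prop} {z : ℝ} (h : z ∈ K S W) :
    ∃ N, z ∈ adjoin ℚ (GN S W N) := by
  rw [mem_K_iff] at h
  obtain ⟨T, hT, hz⟩ := exists_finset_of_mem_adjoin h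
  rw [← iUnion_GN] at hT
  obtain ⟨N, hN⟩ := (GN_mono S W).directed_le.exists_mem_subset_of_finset_subset_biUnion hT
  exact ⟨N, adjoin.mono _ _ _ hN hz⟩

theorem GN_eq (S : ℕ → ℕ × ℕ) (hS : ∀ n, (S n).1 < (S n).2) (W : ℕ × Bool → Prop) (N : ℕ) :
    ∃ J : Finset (ℕ × Bool), GN S W N = Gs S (Finset.range N) J ∧
      (∀ j ∈ J, W j) ∧ (∀ j ∈ J, (S j.1).1 ∈ Finset.range N ∧ (S j.1).2 ∈ Finset.range N) := by
  classical
  refine ⟨((Finset.range N) ×ˢ Finset.univ).filter (fun j => W j ∧ (S j.1).2 < N), ?_, ?_, ?_⟩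
  · ext r
    simp only [GN, Gs, Set.mem_union, Set.mem_ofPred_eq, Set.mem_image, Finset.mem_coe,
      Finset.mem_filter, Finset.mem_product, Finset.mem_range, Finset.mem_univ, and_true,
      Prod.exists]
    constructor
    · rintro (⟨n, b, h1, h2, h3, h4⟩ | ⟨u, h1, h2⟩)
      · exact Or.inl ⟨n, b, ⟨h2, h1, h3⟩, h4.symm⟩
      · exact Or.inr ⟨u, h1, h2.symm⟩
    · rintro (⟨n, b, ⟨h2, h1, h3⟩, h4⟩ | ⟨u, h1, h2⟩)
      · exact Or.inl ⟨n, b, h1, h2, h3, h4.symm⟩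
      · exact Or.inr ⟨u, h1, h2.symm⟩
  · intro j hj
    exact (Finset.mem_filter.1 hj).2.1
  · intro j hj
    have h1 := (Finset.mem_filter.1 hj).2.2
    have h2 := hS j.1
    simp only [Finset.mem_range]
    omega

end ALG

open ALG

theorem no_root (S : ℕ → ℕ × ℕ) (hS : ∀ n, (S n).1 < (S n).2) (W : ℕ × Bool → Prop)
    (n : ℕ) (b : Bool) (hW : ¬ W (n, b)) : ∀ y ∈ K S W, y ^ ell n ≠ gam S n b := by
  intro y hy hpow
  have hyr : y = rho S n b := (ell_odd n).strictMono_pow.injective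
    (by show y ^ ell n = rho S n b ^ ell n; rw [hpow, rho_pow])
  subst hyr
  obtain ⟨N, hN⟩ := mem_adjoin_GN hy
  have hN' := adjoin.mono ℚ _ _ (GN_mono S W (Nat.le_add_right N ((S n).2 + 1))) hN
  obtain ⟨J, hJ, hJW, hJs⟩ := GN_eq S hS W (N + ((S n).2 + 1))
  rw [hJ] at hN'
  have h2 := hS n
  exact rho_not_mem_Gs S hS _ J hJs n b (by simp only [Finset.mem_range]; omega)
    (fun h => hW (hJW _ h)) hN'

namespace ALG

section chain

variable {F A R : Type*} [Field F] [Field A] [Algebra F A] [CommRing R] [Algebra F R]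

theorem extend_hom {S : Set A} {y : A} (h : adjoin F S →ₐ[F] R) (p : F[X]) (hm : p.Monic)
    (hirr : Irreducible (p.map (algebraMap F (adjoin F S)))) (hy : aeval y p = 0) (z : R)
    (hz : aeval z p = 0) :
    ∃ g : adjoin F (insert y S) →ₐ[F] R,
      (∀ a (ha : a ∈ adjoin F S) (ha' : a ∈ adjoin F (insert y S)), g ⟨a, ha'⟩ = h ⟨a, ha⟩) ∧
      ∀ hy : y ∈ adjoin F (insert y S), g ⟨y, hy⟩ = z := by
  let : Algebra (adjoin F S) R := h.toRingHom.toAlgebra
  have hsm : ∀ a : adjoin F S, algebraMap (adjoin F S) R a = h a := fun a => rfl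
  have : IsScalarTower F (adjoin F S) R := IsScalarTower.of_algebraMap_eq fun a => by
    rw [hsm, AlgHom.commutes]
  have hmin : minpoly (adjoin F S) y = p.map (algebraMap F (adjoin F S)) := by
    refine (minpoly.eq_of_irreducible_of_monic hirr ?_ (hm.map _)).symm
    rw [aeval_map_algebraMap]; exact hy
  have hint : IsIntegral (adjoin F S) y := by
    refine ⟨p.map (algebraMap F (adjoin F S)), hm.map _, ?_⟩
    have : aeval y (p.map (algebraMap F (adjoin F S))) = 0 := by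
      rw [aeval_map_algebraMap]; exact hy
    exact this
  let pb := adjoin.powerBasis hint
  have hgen : pb.gen = AdjoinSimple.gen (adjoin F S) y := rfl
  have hroot : aeval z (minpoly (adjoin F S) pb.gen) = 0 := by
    rw [hgen, minpoly_gen, hmin, aeval_map_algebraMap]; exact hz
  let g := pb.lift z hroot
  let ι : adjoin F (insert y S) →ₐ[F] (adjoin F S)⟮y⟯ :=
    { toFun := fun a => ⟨a, mem_adjoin_insert a.2⟩
      map_one' := rfl
      map_mul' := fun _ _ => rfl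
      map_zero' := rfl
      map_add' := fun _ _ => rfl
      commutes' := fun _ => rfl }
  refine ⟨(g.restrictScalars F).comp ι, ?_, ?_⟩
  · intro a ha ha'
    have e : ι ⟨a, ha'⟩ = algebraMap (adjoin F S) (adjoin F S)⟮y⟯ ⟨a, ha⟩ := rfl
    simp only [AlgHom.comp_apply, AlgHom.restrictScalars_apply]
    rw [e, AlgHom.commutes, hsm]
  · intro hy'
    have e : ι ⟨y, hy'⟩ = pb.gen := rfl
    simp only [AlgHom.comp_apply, AlgHom.restrictScalars_apply]
    rw [e]
    exact pb.lift_gen z hroot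

theorem image_lt_succ (y : ℕ → A) (k : ℕ) :
    y '' {i | i < k + 1} = insert (y k) (y '' {i | i < k}) := by
  rw [← Set.image_insert_eq]
  congr 1
  ext i
  simp only [Set.mem_setOf_eq, Set.mem_insert_iff]
  omega

theorem chain_finite (y : ℕ → A) (z : ℕ → R) (p : ℕ → F[X]) (hy : ∀ k, aeval (y k) (p k) = 0)
    (hz : ∀ k, aeval (z k) (p k) = 0) (hm : ∀ k, (p k).Monic)
    (hirr : ∀ k, Irreducible ((p k).map (algebraMap F (adjoin F (y '' {i | i < k}))))) (k : ℕ) :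
    ∃ h : adjoin F (y '' {i | i < k}) →ₐ[F] R, ∀ i (_ : i < k)
      (hi : y i ∈ adjoin F (y '' {i | i < k})), h ⟨y i, hi⟩ = z i := by
  induction k with
  | zero =>
    have hbot : adjoin F (y '' {i | i < 0}) ≤ ⊥ := by
      rw [adjoin_le_iff]
      rintro _ ⟨i, hi, rfl⟩
      exact absurd hi (Nat.not_lt_zero i)
    exact ⟨((Algebra.ofId F R).comp (botEquiv F A).toAlgHom).comp (inclusion hbot),
      fun i hi => absurd hi (Nat.not_lt_zero i)⟩
  | succ k ih =>
    obtain ⟨h, hh⟩ := ih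
    obtain ⟨g, hg1, hg2⟩ := extend_hom h (p k) (hm k) (hirr k) (hy k) (z k) (hz k)
    rw [image_lt_succ]
    refine ⟨g, fun i hi hi' => ?_⟩
    rcases Nat.lt_succ_iff_lt_or_eq.1 hi with hlt | rfl
    · have hmem : y i ∈ adjoin F (y '' {i | i < k}) := subset_adjoin _ _ ⟨i, hlt, rfl⟩
      rw [hg1 _ hmem hi', hh i hlt]
    · exact hg2 hi'

theorem chain (y : ℕ → A) (z : ℕ → R) (p : ℕ → F[X]) (hy : ∀ k, aeval (y k) (p k) = 0)
    (hz : ∀ k, aeval (z k) (p k) = 0) (hm : ∀ k, (p k).Monic)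
    (hirr : ∀ k, Irreducible ((p k).map (algebraMap F (adjoin F (y '' {i | i < k}))))) :
    ∃ h : adjoin F (Set.range y) →ₐ[F] R, ∀ k (hk : y k ∈ adjoin F (Set.range y)),
      h ⟨y k, hk⟩ = z k := by
  choose f hf using chain_finite y z p hy hz hm hirr
  let K : ℕ → Subalgebra F A := fun k => (adjoin F (y '' {i | i < k})).toSubalgebra
  have hmono : ∀ i j, i ≤ j → adjoin F (y '' {l | l < i}) ≤ adjoin F (y '' {l | l < j}) := by
    intro i j hij
    apply adjoin.mono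
    rintro _ ⟨l, hl, rfl⟩
    exact ⟨l, lt_of_lt_of_le hl hij, rfl⟩
  have dir : Directed (· ≤ ·) K := Monotone.directed_le fun i j hij => hmono i j hij
  let f' : ∀ i, K i →ₐ[F] R := fun i => f i
  have hcompat : ∀ (i j : ℕ) (h : K i ≤ K j), f' i = (f' j).comp (Subalgebra.inclusion h) := by
    intro i j h
    -- both are determined by the values on the generators
    have key : (f i : adjoin F (y '' {l | l < i}) →ₐ[F] R) =
        (f j).comp (IntermediateField.inclusion (show adjoin F (y '' {l | l < i}) ≤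
          adjoin F (y '' {l | l < j}) from h)) := by
      apply adjoin_algHom_ext
      rintro _ ⟨l, hl, rfl⟩
      have h1 : y l ∈ adjoin F (y '' {l | l < i}) := subset_adjoin _ _ ⟨l, hl, rfl⟩
      have h2 : y l ∈ adjoin F (y '' {l | l < j}) := h h1
      rw [hf i l hl]
      simp only [AlgHom.comp_apply]
      -- choose whether l < j
      by_cases hlj : l < j
      · exact (hf j l hlj h2).symm
      · have hji : j ≤ i := by
          have : l < i := hl
          omega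
        have h3 : (f j : adjoin F (y '' {l | l < j}) →ₐ[F] R) =
            (f i).comp (IntermediateField.inclusion (hmono j i hji)) := by
          apply adjoin_algHom_ext
          rintro _ ⟨m, hm', rfl⟩
          have hmj : m < j := hm'
          rw [hf j m hmj]
          exact (hf i m (by omega) (subset_adjoin _ _ ⟨m, by show m < i; omega, rfl⟩)).symm
        have h4 := congrArg (fun φ : adjoin F (y '' {l | l < j}) →ₐ[F] R => φ ⟨y l, h2⟩) h3
        simp only [AlgHom.comp_apply] at h4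
        exact ((hf i l hl h1).symm.trans h4.symm)
    exact key
  have hT : (adjoin F (Set.range y)).toSubalgebra ≤ iSup K := by
    intro a ha
    have ha' : a ∈ adjoin F (Set.range y) := ha
    obtain ⟨T, hT, hz⟩ := exists_finset_of_mem_adjoin ha'
    have hsub : (T : Set A) ⊆ ⋃ k, y '' {i | i < k} := by
      intro t ht
      obtain ⟨i, rfl⟩ := hT ht
      exact Set.mem_iUnion.2 ⟨i + 1, i, Nat.lt_succ_self i, rfl⟩
    have hmon : Monotone fun k => y '' {i | i < k} := by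
      intro i j hij
      rintro _ ⟨l, hl, rfl⟩
      exact ⟨l, lt_of_lt_of_le hl hij, rfl⟩
    obtain ⟨N, hN⟩ := hmon.directed_le.exists_mem_subset_of_finset_subset_biUnion hsub
    exact (le_iSup K N) (adjoin.mono _ _ _ hN hz)
  refine ⟨Subalgebra.iSupLift K dir f' hcompat _ hT, fun k hk => ?_⟩
  have hmem : y k ∈ K (k + 1) := subset_adjoin F _ ⟨k, Nat.lt_succ_self k, rfl⟩
  have := Subalgebra.iSupLift_of_mem (K := K) (dir := dir) (f := f') (hf := hcompat)
    (T := (adjoin F (Set.range y)).toSubalgebra) (hT := hT) (i := k + 1) ⟨y k, hk⟩ hmem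
  exact this.trans (hf (k + 1) k (Nat.lt_succ_self k) hmem)

end chain

end ALG

end Pool.Agent.H91.CD
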