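import Mathlib
import Pool.Agent.H91.CD.ALG0

set_option autoImplicit false

namespace Pool.Agent.H91.CD

open Polynomial IntermediateField Module

namespace ALG

/-- The field generated by all the square roots. -/
noncomputable def Lx : IntermediateField ℚ ℝ := adjoin ℚ (Set.range x)

/-- First stage: the square roots. -/
theorem stage1 (R : Type) [CommRing R] [Algebra ℚ R] (X' : ℕ → R)
    (hX0 : X' 0 = 1) (hX : ∀ u, X' u ^ 2 = (pr u : R)) :
    ∃ h : Lx →ₐ[ℚ] R, ∀ k (hk : x k ∈ Lx), h ⟨x k, hk⟩ = X' k := by
  refine chain x X' (fun k => if k = 0 then X ^ 1 - C 1 else X ^ 2 - C (pr k : ℚ)) ?_ ?_ ?_ ?_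
  · intro k
    by_cases hk : k = 0
    · subst hk; simp [x_zero]
    · simp [hk, x_sq]
  · intro k
    by_cases hk : k = 0
    · subst hk; simp [hX0]
    · simp [hk, hX]
  · intro k
    by_cases hk : k = 0
    · simp only [hk, if_true]; exact monic_X_pow_sub_C _ one_ne_zero
    · simp only [hk, if_false]; exact monic_X_pow_sub_C _ two_ne_zero
  · intro k
    by_cases hk : k = 0
    · simp only [hk, if_true]
      rw [Polynomial.map_sub, Polynomial.map_pow, map_X, map_C, pow_one]
      exact irreducible_X_sub_C _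
    · simp only [hk, if_false]
      rw [Polynomial.map_sub, Polynomial.map_pow, map_X, map_C]
      refine irred (y := x k) Nat.prime_two (by rw [x_sq]; simp) ?_
      intro a ha
      have h1 : x k ∈ adjoin ℚ (x '' {i | i < k}) := by rw [← ha]; exact a.2
      have h2 := x_not_mem (s := Finset.range k) (m := k) (Nat.pos_of_ne_zero hk) (by simp)
      apply h2
      have e : ((Finset.range k : Finset ℕ) : Set ℕ) = {i | i < k} := by
        ext i; simp
      rw [e]; exact h1

/-- enumeration of the indices -/
def idx (k : ℕ) : ℕ × Bool := (Encodable.decode (α := ℕ × Bool) k).getD (0, false)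

theorem idx_encode (j : ℕ × Bool) : idx (Encodable.encode j) = j := by
  simp [idx]

end ALG

open ALG

open Classical in
/-- Universal property: the defining relations of the generators are complete. -/
theorem universal (S : ℕ → ℕ × ℕ) (hS : ∀ n, (S n).1 < (S n).2) (W : ℕ × Bool → Prop)
    (R : Type) [CommRing R] [Algebra ℚ R] (X : ℕ → R) (Y : ℕ → Bool → R)
    (hX0 : X 0 = 1) (hX : ∀ u, X u ^ 2 = (pr u : R))
    (hY : ∀ n b, W (n, b) → Y n b ^ ell n = 2 + (sg b : R) * (X (S n).1 * X (S n).2)) :
    ∃ h : K S W →+* R, (∀ (u : ℕ) (hu : x u ∈ K S W), h ⟨x u, hu⟩ = X u) ∧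
      ∀ (n : ℕ) (b : Bool) (hr : rho S n b ∈ K S W), W (n, b) → h ⟨rho S n b, hr⟩ = Y n b := by
  obtain ⟨h₁, hh₁⟩ := stage1 R X hX0 hX
  have hxL : ∀ u, x u ∈ Lx := fun u => subset_adjoin _ _ ⟨u, rfl⟩
  have hgL : ∀ n b, gam S n b ∈ Lx := fun n b => gam_mem b (hxL _) (hxL _)
  let : Algebra Lx R := h₁.toRingHom.toAlgebra
  have hsm : ∀ a : Lx, algebraMap Lx R a = h₁ a := fun a => rfl
  -- is the k-th index the first occurrence of an element of W
  let act : ℕ → Prop := fun k => Encodable.encode (idx k) = k ∧ W (idx k)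
  let y : ℕ → ℝ := fun k => if act k then rho S (idx k).1 (idx k).2 else 1
  let z : ℕ → R := fun k => if act k then Y (idx k).1 (idx k).2 else 1
  let p : ℕ → Polynomial Lx := fun k => if act k then
    Polynomial.X ^ ell (idx k).1 - C ⟨gam S (idx k).1 (idx k).2, hgL _ _⟩ else
    Polynomial.X ^ 1 - C 1
  have hgam : ∀ n b (hg : gam S n b ∈ Lx), algebraMap Lx R ⟨gam S n b, hg⟩ =
      2 + (sg b : R) * (X (S n).1 * X (S n).2) := by
    intro n b hg
    have e : (⟨gam S n b, hg⟩ : Lx) = 2 + (sg b : Lx) * (⟨x (S n).1, hxL _⟩ * ⟨x (S n).2, hxL _⟩) := by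
      apply Subtype.ext
      have h2c : ((2 : Lx) : ℝ) = 2 := rfl
      push_cast
      rw [h2c]
      rfl
    rw [e, hsm, map_add, map_mul, map_mul, map_intCast, map_ofNat, hh₁, hh₁]
  obtain ⟨h₂, hh₂⟩ := chain (F := Lx) (A := ℝ) (R := R) y z p (by
      intro k
      by_cases hk : act k
      · simp only [y, p, hk, if_true]
        rw [map_sub, map_pow, aeval_X, aeval_C, rho_pow]
        exact sub_self _
      · simp [y, p, hk]) (by
      intro k
      by_cases hk : act k
      · simp only [z, p, hk, if_true]
        rw [map_sub, map_pow, aeval_X, aeval_C, hgam, hY (idx k).1 (idx k).2 hk.2]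
        exact sub_self _
      · simp [z, p, hk]) (by
      intro k
      by_cases hk : act k
      · simp only [p, hk, if_true]; exact monic_X_pow_sub_C _ (ell_prime _).ne_zero
      · simp only [p, hk, if_false]; exact monic_X_pow_sub_C _ one_ne_zero) (by
      intro k
      by_cases hk : act k
      · simp only [p, hk, if_true]
        rw [Polynomial.map_sub, Polynomial.map_pow, map_X, map_C]
        refine irred (y := rho S (idx k).1 (idx k).2) (ell_prime _) (by rw [rho_pow]; rfl) ?_
        intro a ha
        have h1 : rho S (idx k).1 (idx k).2 ∈ adjoin Lx (y '' {i | i < k}) := by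
          rw [← ha]; exact a.2
        let W' : ℕ × Bool → Prop := fun j => W j ∧ Encodable.encode j < k
        have hLK : ∀ a : Lx, (a : ℝ) ∈ K S W' := by
          intro a
          have hle : Lx ≤ (K S W').toIntermediateField (fun q => by
              exact SubfieldClass.ratCast_mem _ q) := by
            rw [Lx, adjoin_le_iff]
            rintro _ ⟨u, rfl⟩
            exact Subfield.subset_closure (Or.inl ⟨u, rfl⟩)
          exact hle a.2
        have hle : adjoin Lx (y '' {i | i < k}) ≤ (K S W').toIntermediateField hLK := by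
          rw [adjoin_le_iff]
          rintro _ ⟨i, hi, rfl⟩
          show y i ∈ K S W'
          by_cases hi' : act i
          · simp only [y, hi', if_true]
            refine Subfield.subset_closure (Or.inr ⟨(idx i).1, (idx i).2, ⟨hi'.2, ?_⟩, rfl⟩)
            have : Encodable.encode (idx i) < k := by rw [hi'.1]; exact hi
            exact this
          · simp only [y, hi', if_false]
            exact one_mem _
        have h2 : rho S (idx k).1 (idx k).2 ∈ K S W' := hle h1
        refine no_root S hS W' (idx k).1 (idx k).2 ?_ _ h2 (rho_pow _ _ _)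
        rintro ⟨-, hlt⟩
        have : Encodable.encode (idx k) < k := hlt
        rw [hk.1] at this
        exact lt_irrefl _ this
      · simp only [p, hk, if_false]
        rw [Polynomial.map_sub, Polynomial.map_pow, map_X, map_C, pow_one]
        exact irreducible_X_sub_C _)
  have hyr : ∀ n b, W (n, b) → y (Encodable.encode (n, b)) = rho S n b := by
    intro n b hW
    have : act (Encodable.encode (n, b)) := ⟨by rw [idx_encode], by rw [idx_encode]; exact hW⟩
    simp only [y, this, if_true]
    rw [idx_encode]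
  have hzr : ∀ n b, W (n, b) → z (Encodable.encode (n, b)) = Y n b := by
    intro n b hW
    have : act (Encodable.encode (n, b)) := ⟨by rw [idx_encode], by rw [idx_encode]; exact hW⟩
    simp only [z, this, if_true]
    rw [idx_encode]
  have hKle : K S W ≤ (adjoin Lx (Set.range y)).toSubfield := by
    rw [K, Subfield.closure_le]
    rintro _ (⟨u, rfl⟩ | ⟨n, b, hW, rfl⟩)
    · exact (adjoin Lx (Set.range y)).algebraMap_mem ⟨x u, hxL u⟩
    · rw [← hyr n b hW]
      exact subset_adjoin _ _ ⟨_, rfl⟩
  refine ⟨h₂.toRingHom.comp (Subfield.inclusion hKle), ?_, ?_⟩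
  · intro u hu
    have e : Subfield.inclusion hKle ⟨x u, hu⟩ =
        algebraMap Lx (adjoin Lx (Set.range y)) ⟨x u, hxL u⟩ := rfl
    have e2 : h₂ (algebraMap Lx (adjoin Lx (Set.range y)) ⟨x u, hxL u⟩) = X u := by
      rw [AlgHom.commutes, hsm, hh₁]
    exact e2
  · intro n b hr hW
    have hmem : y (Encodable.encode (n, b)) ∈ adjoin Lx (Set.range y) :=
      subset_adjoin _ _ ⟨_, rfl⟩
    have e := hh₂ (Encodable.encode (n, b)) hmem
    rw [hzr n b hW] at e
    rw [← e]
    show h₂ _ = h₂ _
    congr 1
    exact Subtype.ext (hyr n b hW).symm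

theorem isAlgebraic (S : ℕ → ℕ × ℕ) (W : ℕ × Bool → Prop) :
    Algebra.IsAlgebraic (⊥ : Subfield (K S W)) (K S W) := by
  have h1 : Algebra.IsAlgebraic ℚ (K S W) := by
    refine ⟨fun z => ?_⟩
    have hz : (z : ℝ) ∈ adjoin ℚ (gens S W) := (mem_K_iff S W z).1 z.2
    have hgen : ∀ g ∈ gens S W, IsAlgebraic ℚ g := by
      have hx : ∀ u, IsAlgebraic ℚ (x u) := by
        intro u
        refine IsAlgebraic.of_pow (n := 2) two_pos ?_
        rw [x_sq]
        exact isAlgebraic_natCast _
      rintro _ (⟨u, rfl⟩ | ⟨n, b, -, rfl⟩)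
      · exact hx u
      · refine IsAlgebraic.of_pow (n := ell n) (ell_prime n).pos ?_
        rw [rho_pow, gam]
        exact (isAlgebraic_natCast 2).add ((isAlgebraic_intCast _).mul ((hx _).mul (hx _)))
    have h2 : IsAlgebraic ℚ (z : ℝ) := by
      have := IntermediateField.isAlgebraic_adjoin (K := ℚ) (S := gens S W)
        (fun g hg => (hgen g hg).isIntegral)
      have h3 := this.isAlgebraic (⟨z, hz⟩ : adjoin ℚ (gens S W))
      exact h3.algebraMap
    exact (isAlgebraic_algebraMap_iff (R := ℚ) (A := ℝ) (S := K S W) Subtype.val_injective).1 h2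
  have : IsScalarTower ℚ (⊥ : Subfield (K S W)) (K S W) :=
    IsScalarTower.of_algebraMap_eq fun q => by simp
  exact Algebra.IsAlgebraic.tower_top (K := ℚ) (⊥ : Subfield (K S W))

end Pool.Agent.H91.CD
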