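import Mathlib
import Pool.Agent.H91.CD.COMPa

set_option autoImplicit false

/-!
MODULE COMP, part b: computability of the primes, ring operations, isomorphisms.
-/

namespace Pool.Agent.H91.CD

open COMP

namespace COMP

theorem primrec_prime : PrimrecPred fun p : ℕ => p.Prime := by
  have h1 : PrimrecRel fun m p : ℕ => m ∣ p → m = 1 := by
    have h2 : PrimrecRel fun m p : ℕ => (¬ (p % m = 0)) ∨ m = 1 := by
      apply PrimrecPred.or
      · apply PrimrecPred.not
        exact Primrec.eq.comp (Primrec.nat_mod.comp Primrec.snd Primrec.fst) (Primrec.const 0)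
      · exact Primrec.eq.comp Primrec.fst (Primrec.const 1)
    refine h2.of_eq fun m p => ?_
    rw [Nat.dvd_iff_mod_eq_zero]
    tauto
  have h3 : PrimrecPred fun p : ℕ => ∀ m < p, m ∣ p → m = 1 :=
    (h1.forall_lt).comp Primrec.id Primrec.id
  have h4 : PrimrecPred fun p : ℕ => 2 ≤ p := Primrec.nat_le.comp (Primrec.const 2) Primrec.id
  exact (h4.and h3).of_eq fun p => Nat.prime_def_lt.symm

end COMP

theorem computable_pr : Computable pr := by
  classical
  have hP : ComputablePred fun q : ℕ × ℕ => q.2.Prime ∧ q.1 < q.2 ∧ q.2 ≡ 1 [MOD 9] := by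
    apply PrimrecPred.computablePred
    apply (primrec_prime.comp Primrec.snd).and
    apply (Primrec.nat_lt.comp Primrec.fst Primrec.snd).and
    exact Primrec.eq.comp (Primrec.nat_mod.comp Primrec.snd (Primrec.const 9))
      (Primrec.const (1 % 9))
  have hex : ∀ a : ℕ, ∃ p, p.Prime ∧ a < p ∧ p ≡ 1 [MOD 9] :=
    fun a => Nat.exists_prime_gt_modEq_one a (by norm_num)
  have hf := Computable.find (P := fun a p : ℕ => p.Prime ∧ a < p ∧ p ≡ 1 [MOD 9]) hP hex
  have h2 : Computable fun n : ℕ => (Nat.rec 1 (fun _ r => Nat.find (hex r)) n : ℕ) :=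
    Computable.nat_rec Computable.id (Computable.const 1)
      (hf.comp (Computable.snd.comp Computable.snd)).to₂
  refine h2.of_eq fun n => ?_
  induction n with
  | zero => rfl
  | succ n ih =>
    simp only at ih ⊢
    rw [ih, pr]

theorem computable_ell : Computable ell := by
  classical
  have hP : ComputablePred fun q : ℕ × ℕ => q.1 + 1 ≤ q.2 ∧ q.2.Prime := by
    apply PrimrecPred.computablePred
    apply PrimrecPred.and _ (primrec_prime.comp Primrec.snd)
    exact Primrec.nat_le.comp (Primrec.succ.comp Primrec.fst) Primrec.snd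
  have hex : ∀ a : ℕ, ∃ p, a + 1 ≤ p ∧ p.Prime := fun a => Nat.exists_infinite_primes (a + 1)
  have hf := Computable.find (P := fun a p : ℕ => a + 1 ≤ p ∧ p.Prime) hP hex
  have h2 : Computable fun n : ℕ => (Nat.rec 3 (fun _ r => Nat.find (hex r)) n : ℕ) :=
    Computable.nat_rec Computable.id (Computable.const 3)
      (hf.comp (Computable.snd.comp Computable.snd)).to₂
  refine h2.of_eq fun n => ?_
  induction n with
  | zero => rfl
  | succ n ih =>
    simp only at ih ⊢
    rw [ih, ell]

/-- Ring operations in a computable copy. -/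
theorem ring_ops (a m : ℕ → ℕ → ℕ) (ha : Computable₂ a) (hm : Computable₂ m)
    {F : Type} [Field F] (e : ℕ ≃ F)
    (he : ∀ i j, e (a i j) = e i + e j ∧ e (m i j) = e i * e j) :
    ∃ (num neg : ℕ → ℕ) (pw : ℕ → ℕ → ℕ), Computable num ∧ Computable neg ∧ Computable₂ pw ∧
      (∀ k, e (num k) = k) ∧ (∀ i, e (neg i) = - e i) ∧ ∀ i k, e (pw i k) = e i ^ k := by
  classical
  have hP : ComputablePred fun q : ℕ × ℕ => a q.1 q.2 = e.symm 0 := by
    apply Computable.computablePred
    exact (Primrec.eq.decide.to_comp).comp ha (Computable.const _)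
  have hex : ∀ i : ℕ, ∃ j, a i j = e.symm 0 := by
    intro i
    refine ⟨e.symm (- e i), ?_⟩
    rw [Equiv.eq_symm_apply, (he _ _).1, Equiv.apply_symm_apply, add_neg_cancel]
  refine ⟨fun k => Nat.rec (e.symm 0) (fun _ r => a r (e.symm 1)) k, fun i => Nat.find (hex i),
    fun i k => Nat.rec (e.symm 1) (fun _ r => m r i) k, ?_, ?_, ?_, ?_, ?_, ?_⟩
  · exact Computable.nat_rec Computable.id (Computable.const _)
      (ha.comp (Computable.snd.comp Computable.snd) (Computable.const _)).to₂
  · exact Computable.find (P := fun i j : ℕ => a i j = e.symm 0) hP hex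
  · exact Computable.nat_rec Computable.snd (Computable.const _)
      (hm.comp (Computable.snd.comp Computable.snd) (Computable.fst.comp Computable.fst)).to₂
  · intro k
    induction k with
    | zero => simp
    | succ k ih =>
      simp only at ih ⊢
      rw [(he _ _).1, ih, Equiv.apply_symm_apply, Nat.cast_succ]
  · intro i
    have h1 := Nat.find_spec (hex i)
    rw [Equiv.eq_symm_apply, (he _ _).1] at h1
    exact (neg_eq_of_add_eq_zero_right h1).symm
  · intro i k
    induction k with
    | zero => simp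
    | succ k ih =>
      simp only at ih ⊢
      rw [(he _ _).2, ih, pow_succ]

/-- Inverses in a computable copy. -/
theorem COMP.inv_op (m : ℕ → ℕ → ℕ) (hm : Computable₂ m)
    {F : Type} [Field F] (e : ℕ ≃ F) (he : ∀ i j, e (m i j) = e i * e j) :
    ∃ inv : ℕ → ℕ, Computable inv ∧ ∀ i, e (inv i) = (e i)⁻¹ := by
  classical
  have hP : ComputablePred fun q : ℕ × ℕ => (q.1 = e.symm 0 ∧ q.2 = e.symm 0) ∨
      m q.1 q.2 = e.symm 1 := by
    apply Computable.computablePred
    have h1 : Computable fun q : ℕ × ℕ => decide (q = (e.symm 0, e.symm 0)) :=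
      (Primrec.eq.decide.to_comp).comp Computable.id (Computable.const _)
    have h2 : Computable fun q : ℕ × ℕ => decide (m q.1 q.2 = e.symm 1) :=
      (Primrec.eq.decide.to_comp).comp hm (Computable.const _)
    refine ((Primrec.or.to_comp).comp h1 h2).of_eq fun q => ?_
    obtain ⟨q1, q2⟩ := q
    simp [Bool.decide_or, Prod.ext_iff]
  have hex : ∀ i : ℕ, ∃ j, (i = e.symm 0 ∧ j = e.symm 0) ∨ m i j = e.symm 1 := by
    intro i
    by_cases h : e i = 0
    · refine ⟨e.symm 0, Or.inl ⟨?_, rfl⟩⟩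
      rw [Equiv.eq_symm_apply, h]
    · refine ⟨e.symm (e i)⁻¹, Or.inr ?_⟩
      rw [Equiv.eq_symm_apply, he, Equiv.apply_symm_apply, mul_inv_cancel₀ h]
  refine ⟨fun i => Nat.find (hex i), Computable.find
    (P := fun i j : ℕ => (i = e.symm 0 ∧ j = e.symm 0) ∨ m i j = e.symm 1) hP hex, ?_⟩
  intro i
  rcases Nat.find_spec (hex i) with ⟨h1, h2⟩ | h1
  · simp only
    rw [h2]
    rw [Equiv.eq_symm_apply] at h1
    rw [h1]
    simp
  · rw [Equiv.eq_symm_apply, he] at h1
    exact eq_inv_of_mul_eq_one_right h1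

/-- Isomorphisms between computable copies that are pinned down by an r.e. set of pairs. -/
theorem iso_computable (a m a' m' : ℕ → ℕ → ℕ) (ha : Computable₂ a) (hm : Computable₂ m)
    (ha' : Computable₂ a') (hm' : Computable₂ m') {F F' : Type} [Field F] [Field F']
    (e : ℕ ≃ F) (e' : ℕ ≃ F')
    (he : ∀ i j, e (a i j) = e i + e j ∧ e (m i j) = e i * e j)
    (he' : ∀ i j, e' (a' i j) = e' i + e' j ∧ e' (m' i j) = e' i * e' j)
    (f : ℕ → ℕ) (θ : F ≃+* F') (hf : ∀ i, e' (f i) = θ (e i))
    (P : ℕ × ℕ → Prop) (hP : REPred P) (hPf : ∀ q, P q → q.2 = f q.1)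
    (hgen : Subfield.closure {k : F | ∃ q, P q ∧ k = e q.1} = ⊤) : Computable f := by
  classical
  obtain ⟨num, neg, pw, hnum, hneg, -, hnum', hneg', -⟩ := ring_ops a m ha hm e he
  obtain ⟨num₂, neg₂, pw₂, hnum₂, hneg₂, -, hnum₂', hneg₂', -⟩ := ring_ops a' m' ha' hm' e' he'
  obtain ⟨inv, hinv, hinv'⟩ := COMP.inv_op m hm e fun i j => (he i j).2
  obtain ⟨inv₂, hinv₂, hinv₂'⟩ := COMP.inv_op m' hm' e' fun i j => (he' i j).2
  let B : ℕ × ℕ → Prop := fun q => P q ∨ q = (num 0, num₂ 0) ∨ q = (num 1, num₂ 1)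
  have hB : REPred B := by
    apply re_or hP
    apply re_or
    · exact re_eq Computable.id (Computable.const _)
    · exact re_eq Computable.id (Computable.const _)
  let R : (ℕ × ℕ) × (ℕ × ℕ) × (ℕ × ℕ) → Prop := fun t =>
    t.2.2 = (a t.1.1 t.2.1.1, a' t.1.2 t.2.1.2) ∨ t.2.2 = (m t.1.1 t.2.1.1, m' t.1.2 t.2.1.2) ∨
      t.2.2 = (neg t.1.1, neg₂ t.1.2) ∨ t.2.2 = (inv t.1.1, inv₂ t.1.2)
  have c11 : Computable fun t : (ℕ × ℕ) × (ℕ × ℕ) × (ℕ × ℕ) => t.1.1 :=
    Computable.fst.comp Computable.fst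
  have c12 : Computable fun t : (ℕ × ℕ) × (ℕ × ℕ) × (ℕ × ℕ) => t.1.2 :=
    Computable.snd.comp Computable.fst
  have c21 : Computable fun t : (ℕ × ℕ) × (ℕ × ℕ) × (ℕ × ℕ) => t.2.1.1 :=
    Computable.fst.comp (Computable.fst.comp Computable.snd)
  have c22 : Computable fun t : (ℕ × ℕ) × (ℕ × ℕ) × (ℕ × ℕ) => t.2.1.2 :=
    Computable.snd.comp (Computable.fst.comp Computable.snd)
  have c3 : Computable fun t : (ℕ × ℕ) × (ℕ × ℕ) × (ℕ × ℕ) => t.2.2 :=
    Computable.snd.comp Computable.snd
  have hR : REPred R := by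
    apply re_or (re_eq c3 ((ha.comp c11 c21).pair (ha'.comp c12 c22)))
    apply re_or (re_eq c3 ((hm.comp c11 c21).pair (hm'.comp c12 c22)))
    exact re_or (re_eq c3 ((hneg.comp c11).pair (hneg₂.comp c12)))
      (re_eq c3 ((hinv.comp c11).pair (hinv₂.comp c12)))
  have hcl := cl_re hB hR
  have sound : ∀ q, Cl B R q → q.2 = f q.1 := by
    intro q hq
    induction hq with
    | base hb =>
      rcases hb with h | h | h
      · exact hPf _ h
      · subst h
        apply e'.injective
        rw [hf, hnum', hnum₂']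
        simp
      · subst h
        apply e'.injective
        rw [hf, hnum', hnum₂']
        simp
    | step _ _ hr h1 h2 =>
      apply e'.injective
      rw [hf]
      rcases hr with h | h | h | h
      · simp only at h
        rw [h]
        simp only
        rw [(he _ _).1, (he' _ _).1, h1, h2, hf, hf, map_add]
      · simp only at h
        rw [h]
        simp only
        rw [(he _ _).2, (he' _ _).2, h1, h2, hf, hf, map_mul]
      · simp only at h
        rw [h]
        simp only
        rw [hneg', hneg₂', h1, hf, map_neg]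
      · simp only at h
        rw [h]
        simp only
        rw [hinv', hinv₂', h1, hf, map_inv₀]
  have complete : ∀ k : F, ∃ j, Cl B R (e.symm k, j) := by
    intro k
    have hk : k ∈ Subfield.closure {k : F | ∃ q, P q ∧ k = e q.1} := by rw [hgen]; trivial
    induction hk using Subfield.closure_induction with
    | mem x hx =>
      obtain ⟨q, hq, rfl⟩ := hx
      refine ⟨q.2, Cl.base (Or.inl ?_)⟩
      rw [Equiv.symm_apply_apply]
      exact hq
    | one =>
      refine ⟨num₂ 1, Cl.base (Or.inr (Or.inr ?_))⟩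
      have : e.symm 1 = num 1 := by rw [Equiv.symm_apply_eq, hnum']; simp
      rw [this]
    | add x y _ _ h1 h2 =>
      obtain ⟨i, hi⟩ := h1
      obtain ⟨j, hj⟩ := h2
      refine ⟨a' i j, Cl.step hi hj (Or.inl ?_)⟩
      have : e.symm (x + y) = a (e.symm x) (e.symm y) := by
        rw [Equiv.symm_apply_eq, (he _ _).1]; simp
      rw [this]
    | neg x _ h1 =>
      obtain ⟨i, hi⟩ := h1
      refine ⟨neg₂ i, Cl.step hi hi (Or.inr (Or.inr (Or.inl ?_)))⟩
      have : e.symm (-x) = neg (e.symm x) := by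
        rw [Equiv.symm_apply_eq, hneg']; simp
      rw [this]
    | inv x _ h1 =>
      obtain ⟨i, hi⟩ := h1
      refine ⟨inv₂ i, Cl.step hi hi (Or.inr (Or.inr (Or.inr ?_)))⟩
      have : e.symm (x⁻¹) = inv (e.symm x) := by
        rw [Equiv.symm_apply_eq, hinv']; simp
      rw [this]
    | mul x y _ _ h1 h2 =>
      obtain ⟨i, hi⟩ := h1
      obtain ⟨j, hj⟩ := h2
      refine ⟨m' i j, Cl.step hi hj (Or.inr (Or.inl ?_))⟩
      have : e.symm (x * y) = m (e.symm x) (e.symm y) := by
        rw [Equiv.symm_apply_eq, (he _ _).2]; simp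
      rw [this]
  apply computable_of_re_graph f
  refine hcl.of_eq fun q => ⟨sound q, fun h => ?_⟩
  obtain ⟨j, hj⟩ := complete (e q.1)
  rw [Equiv.symm_apply_apply] at hj
  have h2 : j = f q.1 := sound _ hj
  have h3 : q = (q.1, j) := by
    rw [h2, ← h]
  rw [h3]
  exact hj

end Pool.Agent.H91.CD
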