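import Mathlib
import Pool.Agent.H91.CD.COMPb

set_option autoImplicit false

/-!
MODULE COMP, part c: presentations obtained from a surjective enumeration with decidable equality.
-/

namespace Pool.Agent.H91.CD.COMP

theorem count_computable {p : ℕ → Prop} [DecidablePred p] (hp : ComputablePred p) :
    Computable (Nat.count p) := by
  have h1 : Computable fun q : ℕ × (ℕ × ℕ) => bif decide (p q.2.1) then q.2.2 + 1 else q.2.2 :=
    Computable.cond (hp.decide.comp (Computable.fst.comp Computable.snd))
      (Computable.succ.comp (Computable.snd.comp Computable.snd))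
      (Computable.snd.comp Computable.snd)
  have h2 : Computable fun n : ℕ =>
      (Nat.rec 0 (fun y r => bif decide (p y) then r + 1 else r) n : ℕ) :=
    Computable.nat_rec Computable.id (Computable.const 0) h1.to₂
  refine h2.of_eq fun n => ?_
  induction n with
  | zero => simp
  | succ n ih =>
    simp only at ih ⊢
    rw [ih, Nat.count_succ]
    by_cases h : p n <;> simp [h]

/-- A surjective naming of the elements of an infinite set with decidable equality of names
can be turned into a bijective one. -/
theorem bijective_naming {X : Type} [Infinite X] (ν : ℕ → X) (hν : Function.Surjective ν)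
    (hE : ComputablePred fun p : ℕ × ℕ => ν p.1 = ν p.2) :
    ∃ (e : ℕ ≃ X) (q idx : ℕ → ℕ), Computable q ∧ Computable idx ∧ (∀ n, ν (q n) = e n) ∧
      ∀ t, e (idx t) = ν t := by
  classical
  have hex : ∀ t, ∃ s, ν s = ν t := fun t => ⟨t, rfl⟩
  have hE' : ComputablePred fun p : ℕ × ℕ => ν p.2 = ν p.1 := hE.of_eq fun p => eq_comm
  have hrep : Computable fun t => Nat.find (hex t) :=
    Computable.find (P := fun t s : ℕ => ν s = ν t) hE' hex
  set rep : ℕ → ℕ := fun t => Nat.find (hex t) with hrepdef
  have hrep_spec : ∀ t, ν (rep t) = ν t := fun t => Nat.find_spec (hex t)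
  have hrep_min : ∀ s t, ν s = ν t → rep t ≤ s := fun s t h => Nat.find_min' (hex t) h
  have hrep_eq : ∀ s t, ν s = ν t → rep s = rep t := by
    intro s t h
    apply le_antisymm
    · exact hrep_min _ _ ((hrep_spec t).trans h.symm)
    · exact hrep_min _ _ ((hrep_spec s).trans h)
  let p : ℕ → Prop := fun t => rep t = t
  have hrr : ∀ t, p (rep t) := fun t => hrep_eq _ _ (hrep_spec t)
  have hp : ComputablePred p :=
    Computable.computablePred ((Primrec.eq.decide.to_comp).comp hrep Computable.id)
  have hinf : {t | p t}.Infinite := by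
    intro hfin
    apply Infinite.not_finite (α := X) 
    have hsurj : Function.Surjective fun t : {t | p t} => ν t.1 := by
      intro y
      obtain ⟨t, rfl⟩ := hν y
      exact ⟨⟨rep t, hrr t⟩, hrep_spec t⟩
    have := hfin.to_subtype
    exact Finite.of_surjective _ hsurj
  have hcount := count_computable hp
  have hnth : ∀ n, ∃ t, p t ∧ Nat.count p t = n := by
    intro n
    exact ⟨Nat.nth p n, Nat.nth_mem_of_infinite hinf n, Nat.count_nth_of_infinite hinf n⟩
  have hq : Computable fun n => Nat.find (hnth n) := by
    apply Computable.find (P := fun n t : ℕ => p t ∧ Nat.count p t = n)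
    apply Computable.computablePred
    have h1 : Computable fun r : ℕ × ℕ => decide (p r.2) := hp.decide.comp Computable.snd
    have h2 : Computable fun r : ℕ × ℕ => decide (Nat.count p r.2 = r.1) :=
      (Primrec.eq.decide.to_comp).comp (hcount.comp Computable.snd) Computable.fst
    refine ((Primrec.and.to_comp).comp h1 h2).of_eq fun r => ?_
    simp [Bool.decide_and]
  set q : ℕ → ℕ := fun n => Nat.find (hnth n) with hqdef
  have hq1 : ∀ n, p (q n) := fun n => (Nat.find_spec (hnth n)).1
  have hq2 : ∀ n, Nat.count p (q n) = n := fun n => (Nat.find_spec (hnth n)).2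
  have hbij : Function.Bijective fun n => ν (q n) := by
    constructor
    · intro i j hij
      have h1 : rep (q i) = rep (q j) := hrep_eq _ _ hij
      have h2 : q i = q j := by rw [← hq1 i, ← hq1 j, h1]
      rw [← hq2 i, ← hq2 j, h2]
    · intro y
      obtain ⟨t, rfl⟩ := hν y
      refine ⟨Nat.count p (rep t), ?_⟩
      have h1 : q (Nat.count p (rep t)) = rep t :=
        Nat.count_injective (hq1 _) (hrr t) (hq2 _)
      simp only
      rw [h1, hrep_spec]
  refine ⟨Equiv.ofBijective _ hbij, q, fun t => Nat.count p (rep t), hq, hcount.comp hrep,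
    fun n => rfl, fun t => ?_⟩
  have h1 : q (Nat.count p (rep t)) = rep t :=
    Nat.count_injective (hq1 _) (hrr t) (hq2 _)
  change ν (q (Nat.count p (rep t))) = ν t
  rw [h1, hrep_spec]

end Pool.Agent.H91.CD.COMP
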