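import Mathlib
import Pool.Agent.H91.CD.COMPc

set_option autoImplicit false

/-!
MODULE COMP, part d: terms coded by natural numbers and the congruence generated by the
defining relations of `K S W`.
-/

namespace Pool.Agent.H91.CD.COMP

/-! ### Terms -/

/-- code of the generator `x u` -/
def xT (u : ℕ) : ℕ := 5 * u
/-- code of `1 / k` (of `-1` if `k = 0`) -/
def yT (k : ℕ) : ℕ := 5 * k + 1
/-- code of the `r`-th enumerated generator `rho` -/
def rT (r : ℕ) : ℕ := 5 * r + 2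
/-- code of a sum -/
def aT (s t : ℕ) : ℕ := 5 * Nat.pair s t + 3
/-- code of a product -/
def mT (s t : ℕ) : ℕ := 5 * Nat.pair s t + 4

theorem cases_T (t : ℕ) : (∃ u, t = xT u) ∨ (∃ k, t = yT k) ∨ (∃ r, t = rT r) ∨
    (∃ s u, t = aT s u ∧ s < t ∧ u < t) ∨ (∃ s u, t = mT s u ∧ s < t ∧ u < t) := by
  have h := Nat.div_add_mod t 5
  have h5 : t % 5 < 5 := Nat.mod_lt _ (by norm_num)
  have hp := Nat.pair_unpair (t / 5)
  have hl := Nat.unpair_left_le (t / 5)
  have hr := Nat.unpair_right_le (t / 5)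
  unfold xT yT rT aT mT
  generalize hm : t % 5 = c at *
  interval_cases c
  · exact Or.inl ⟨t / 5, by omega⟩
  · exact Or.inr (Or.inl ⟨t / 5, by omega⟩)
  · exact Or.inr (Or.inr (Or.inl ⟨t / 5, by omega⟩))
  · refine Or.inr (Or.inr (Or.inr (Or.inl ⟨(t / 5).unpair.1, (t / 5).unpair.2, ?_, ?_, ?_⟩)))
    · rw [hp]; omega
    · omega
    · omega
  · refine Or.inr (Or.inr (Or.inr (Or.inr ⟨(t / 5).unpair.1, (t / 5).unpair.2, ?_, ?_, ?_⟩)))
    · rw [hp]; omega
    · omega
    · omega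

/-- the value of the `r`-th enumerated generator -/
noncomputable def rval (S : ℕ → ℕ × ℕ) (en : ℕ → Option (ℕ × Bool)) (r : ℕ) : ℝ :=
  (en r).elim 0 fun p => rho S p.1 p.2

/-- evaluation of terms -/
noncomputable def nu (S : ℕ → ℕ × ℕ) (en : ℕ → Option (ℕ × Bool)) (t : ℕ) : ℝ :=
  if t % 5 = 0 then x (t / 5)
  else if t % 5 = 1 then (if t / 5 = 0 then -1 else ((t / 5 : ℕ) : ℝ)⁻¹)
  else if h2 : t % 5 = 2 then rval S en (t / 5)
  else if t % 5 = 3 then nu S en (t / 5).unpair.1 + nu S en (t / 5).unpair.2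
  else nu S en (t / 5).unpair.1 * nu S en (t / 5).unpair.2
  decreasing_by
    all_goals
      have hl := Nat.unpair_left_le (t / 5)
      have hr := Nat.unpair_right_le (t / 5)
      omega

section nu

variable (S : ℕ → ℕ × ℕ) (en : ℕ → Option (ℕ × Bool))

theorem nu_xT (u : ℕ) : nu S en (xT u) = x u := by
  have h1 : (5 * u) % 5 = 0 := by omega
  have h2 : (5 * u) / 5 = u := by omega
  rw [xT, nu, if_pos h1, h2]

theorem nu_yT_zero : nu S en (yT 0) = -1 := by
  rw [yT, nu]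
  norm_num

theorem nu_yT_succ (k : ℕ) : nu S en (yT (k + 1)) = ((k : ℝ) + 1)⁻¹ := by
  have h1 : (5 * (k + 1) + 1) % 5 = 1 := by omega
  have h2 : (5 * (k + 1) + 1) / 5 = k + 1 := by omega
  rw [yT, nu, if_neg (by omega), if_pos h1, h2, if_neg (by omega)]
  push_cast
  rfl

theorem nu_rT (r : ℕ) : nu S en (rT r) = rval S en r := by
  have h1 : (5 * r + 2) % 5 = 2 := by omega
  have h2 : (5 * r + 2) / 5 = r := by omega
  rw [rT, nu, if_neg (by omega), if_neg (by omega), dif_pos h1, h2]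

theorem nu_aT (s t : ℕ) : nu S en (aT s t) = nu S en s + nu S en t := by
  have h1 : (5 * Nat.pair s t + 3) % 5 = 3 := by omega
  have h2 : (5 * Nat.pair s t + 3) / 5 = Nat.pair s t := by omega
  rw [aT, nu, if_neg (by omega), if_neg (by omega), dif_neg (by omega), if_pos h1, h2,
    Nat.unpair_pair]

theorem nu_mT (s t : ℕ) : nu S en (mT s t) = nu S en s * nu S en t := by
  have h1 : (5 * Nat.pair s t + 4) % 5 = 4 := by omega
  have h2 : (5 * Nat.pair s t + 4) / 5 = Nat.pair s t := by omega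
  rw [mT, nu, if_neg (by omega), if_neg (by omega), dif_neg (by omega), if_neg (by omega), h2,
    Nat.unpair_pair]

end nu

/-- code of `1` -/
def one : ℕ := xT 0
/-- code of `-1` -/
def mone : ℕ := yT 0
/-- code of `0` -/
def zT : ℕ := aT one mone
/-- numerals -/
def numT (k : ℕ) : ℕ := Nat.rec zT (fun _ r => aT r one) k
/-- powers -/
def pwT (s k : ℕ) : ℕ := Nat.rec one (fun _ r => mT r s) k
/-- code of `2 + (-1)^b x_u x_v` -/
def rhs (S : ℕ → ℕ × ℕ) (p : ℕ × Bool) : ℕ :=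
  aT (numT 2) (mT (bif p.2 then mone else one) (mT (xT (S p.1).1) (xT (S p.1).2)))

theorem x_zero : x 0 = 1 := by
  unfold x
  rw [pr]
  simp

theorem x_sq (u : ℕ) : x u * x u = (pr u : ℝ) := by
  unfold x
  exact Real.mul_self_sqrt (Nat.cast_nonneg _)

section nu

variable (S : ℕ → ℕ × ℕ) (en : ℕ → Option (ℕ × Bool))

theorem nu_one : nu S en one = 1 := by rw [one, nu_xT, x_zero]
theorem nu_mone : nu S en mone = -1 := nu_yT_zero S en
theorem nu_zT : nu S en zT = 0 := by rw [zT, nu_aT, nu_one, nu_mone]; norm_num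
theorem nu_numT (k : ℕ) : nu S en (numT k) = k := by
  induction k with
  | zero =>
    have : numT 0 = zT := rfl
    rw [this, nu_zT, Nat.cast_zero]
  | succ k ih =>
    have : numT (k + 1) = aT (numT k) one := rfl
    rw [this, nu_aT, ih, nu_one]
    push_cast
    rfl
theorem nu_pwT (s k : ℕ) : nu S en (pwT s k) = nu S en s ^ k := by
  induction k with
  | zero =>
    have : pwT s 0 = one := rfl
    rw [this, nu_one, pow_zero]
  | succ k ih =>
    have : pwT s (k + 1) = mT (pwT s k) s := rfl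
    rw [this, nu_mT, ih, pow_succ]
theorem nu_rhs (p : ℕ × Bool) : nu S en (rhs S p) = gam S p.1 p.2 := by
  rw [rhs, nu_aT, nu_mT, nu_mT, nu_xT, nu_xT, nu_numT, gam]
  cases p.2
  · rw [Bool.cond_false, nu_one]
    simp [sg]
  · rw [Bool.cond_true, nu_mone]
    simp [sg]

end nu

/-! ### The relations -/

/-- The defining relations. -/
inductive Ax (S : ℕ → ℕ × ℕ) (en : ℕ → Option (ℕ × Bool)) : ℕ × ℕ → Prop
  | refl (t : ℕ) : Ax S en (t, t)
  | add_comm (s t : ℕ) : Ax S en (aT s t, aT t s)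
  | add_assoc (s t u : ℕ) : Ax S en (aT (aT s t) u, aT s (aT t u))
  | zero_add (t : ℕ) : Ax S en (aT zT t, t)
  | neg_add (t : ℕ) : Ax S en (aT (mT mone t) t, zT)
  | mul_comm (s t : ℕ) : Ax S en (mT s t, mT t s)
  | mul_assoc (s t u : ℕ) : Ax S en (mT (mT s t) u, mT s (mT t u))
  | one_mul (t : ℕ) : Ax S en (mT one t, t)
  | distrib (s t u : ℕ) : Ax S en (mT s (aT t u), aT (mT s t) (mT s u))
  | xx (u : ℕ) : Ax S en (mT (xT u) (xT u), numT (pr u))
  | y (k : ℕ) : Ax S en (mT (numT (k + 1)) (yT (k + 1)), one)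
  | r_some (r : ℕ) (p : ℕ × Bool) (h : en r = some p) :
      Ax S en (pwT (rT r) (ell p.1), rhs S p)
  | r_none (r : ℕ) (h : en r = none) : Ax S en (rT r, zT)
  | r_eq (r r' : ℕ) (h : en r = en r') : Ax S en (rT r, rT r')

/-- The congruence rules. -/
def Rule (t : (ℕ × ℕ) × (ℕ × ℕ) × (ℕ × ℕ)) : Prop :=
  t.2.2 = (t.1.2, t.1.1) ∨ (t.1.2 = t.2.1.1 ∧ t.2.2 = (t.1.1, t.2.1.2)) ∨
    t.2.2 = (aT t.1.1 t.2.1.1, aT t.1.2 t.2.1.2) ∨ t.2.2 = (mT t.1.1 t.2.1.1, mT t.1.2 t.2.1.2)

/-! ### Computability -/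

theorem primrec_aT : Primrec₂ aT :=
  Primrec.nat_add.comp (Primrec.nat_mul.comp (Primrec.const 5) Primrec₂.natPair)
    (Primrec.const 3)
theorem primrec_mT : Primrec₂ mT :=
  Primrec.nat_add.comp (Primrec.nat_mul.comp (Primrec.const 5) Primrec₂.natPair)
    (Primrec.const 4)
theorem primrec_xT : Primrec xT := Primrec.nat_mul.comp (Primrec.const 5) Primrec.id
theorem primrec_yT : Primrec yT :=
  Primrec.nat_add.comp (Primrec.nat_mul.comp (Primrec.const 5) Primrec.id) (Primrec.const 1)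
theorem primrec_rT : Primrec rT :=
  Primrec.nat_add.comp (Primrec.nat_mul.comp (Primrec.const 5) Primrec.id) (Primrec.const 2)
theorem primrec_numT : Primrec numT :=
  Primrec.nat_rec₁ zT (primrec_aT.comp Primrec.snd (Primrec.const one)).to₂
theorem primrec_pwT : Primrec₂ pwT :=
  Primrec.nat_rec' Primrec.snd (Primrec.const one)
    (primrec_mT.comp (Primrec.snd.comp Primrec.snd) (Primrec.fst.comp Primrec.fst)).to₂

theorem computable_rhs {S : ℕ → ℕ × ℕ} (hS : Computable S) : Computable (rhs S) := by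
  have h1 : Computable fun p : ℕ × Bool => xT (S p.1).1 :=
    primrec_xT.to_comp.comp (Computable.fst.comp (hS.comp Computable.fst))
  have h2 : Computable fun p : ℕ × Bool => xT (S p.1).2 :=
    primrec_xT.to_comp.comp (Computable.snd.comp (hS.comp Computable.fst))
  have h3 : Computable fun p : ℕ × Bool => bif p.2 then mone else one :=
    Computable.cond Computable.snd (Computable.const _) (Computable.const _)
  have h4 : Computable fun p : ℕ × Bool => mT (xT (S p.1).1) (xT (S p.1).2) :=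
    primrec_mT.to_comp.comp h1 h2
  have h5 : Computable fun p : ℕ × Bool =>
      mT (bif p.2 then mone else one) (mT (xT (S p.1).1) (xT (S p.1).2)) :=
    primrec_mT.to_comp.comp h3 h4
  exact primrec_aT.to_comp.comp (Computable.const (numT 2)) h5

theorem re_rule : REPred Rule := by
  have c11 : Computable fun t : (ℕ × ℕ) × (ℕ × ℕ) × (ℕ × ℕ) => t.1.1 :=
    Computable.fst.comp Computable.fst
  have c12 : Computable fun t : (ℕ × ℕ) × (ℕ × ℕ) × (ℕ × ℕ) => t.1.2 :=
    Computable.snd.comp Computable.fst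
  have c21 : Computable fun t : (ℕ × ℕ) × (ℕ × ℕ) × (ℕ × ℕ) => t.2.1.1 :=
    Computable.fst.comp (Computable.fst.comp Computable.snd)
  have c22 : Computable fun t : (ℕ × ℕ) × (ℕ × ℕ) × (ℕ × ℕ) => t.2.1.2 :=
    Computable.snd.comp (Computable.fst.comp Computable.snd)
  have c3 : Computable fun t : (ℕ × ℕ) × (ℕ × ℕ) × (ℕ × ℕ) => t.2.2 :=
    Computable.snd.comp Computable.snd
  apply re_or (re_eq c3 (c12.pair c11))
  apply re_or (re_and (re_eq c12 c21) (re_eq c3 (c11.pair c22)))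
  exact re_or
    (re_eq c3 ((primrec_aT.to_comp.comp c11 c21).pair (primrec_aT.to_comp.comp c12 c22)))
    (re_eq c3 ((primrec_mT.to_comp.comp c11 c21).pair (primrec_mT.to_comp.comp c12 c22)))

theorem re_ax {S : ℕ → ℕ × ℕ} (hS : Computable S) {en : ℕ → Option (ℕ × Bool)}
    (hen : Computable en) (hpr : Computable pr) (hell : Computable ell) : REPred (Ax S en) := by
  have A := primrec_aT.to_comp
  have M := primrec_mT.to_comp
  have p1 : Computable fun t : ℕ × ℕ × ℕ => t.1 := Computable.fst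
  have p2 : Computable fun t : ℕ × ℕ × ℕ => t.2.1 := Computable.fst.comp Computable.snd
  have p3 : Computable fun t : ℕ × ℕ × ℕ => t.2.2 := Computable.snd.comp Computable.snd
  have e1 : REPred fun q : ℕ × ℕ => ∃ t : ℕ, q = (t, t) :=
    re_range (Computable.id.pair Computable.id)
  have e2 : REPred fun q : ℕ × ℕ => ∃ t : ℕ × ℕ, q = (aT t.1 t.2, aT t.2 t.1) :=
    re_range ((A.comp Computable.fst Computable.snd).pair (A.comp Computable.snd Computable.fst))
  have e3 : REPred fun q : ℕ × ℕ => ∃ t : ℕ × ℕ × ℕ,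
      q = (aT (aT t.1 t.2.1) t.2.2, aT t.1 (aT t.2.1 t.2.2)) :=
    re_range ((A.comp (A.comp p1 p2) p3).pair (A.comp p1 (A.comp p2 p3)))
  have e4 : REPred fun q : ℕ × ℕ => ∃ t : ℕ, q = (aT zT t, t) :=
    re_range ((A.comp (Computable.const zT) Computable.id).pair Computable.id)
  have e5 : REPred fun q : ℕ × ℕ => ∃ t : ℕ, q = (aT (mT mone t) t, zT) :=
    re_range ((A.comp (M.comp (Computable.const mone) Computable.id) Computable.id).pair
      (Computable.const zT))
  have e6 : REPred fun q : ℕ × ℕ => ∃ t : ℕ × ℕ, q = (mT t.1 t.2, mT t.2 t.1) :=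
    re_range ((M.comp Computable.fst Computable.snd).pair (M.comp Computable.snd Computable.fst))
  have e7 : REPred fun q : ℕ × ℕ => ∃ t : ℕ × ℕ × ℕ,
      q = (mT (mT t.1 t.2.1) t.2.2, mT t.1 (mT t.2.1 t.2.2)) :=
    re_range ((M.comp (M.comp p1 p2) p3).pair (M.comp p1 (M.comp p2 p3)))
  have e8 : REPred fun q : ℕ × ℕ => ∃ t : ℕ, q = (mT one t, t) :=
    re_range ((M.comp (Computable.const one) Computable.id).pair Computable.id)
  have e9 : REPred fun q : ℕ × ℕ => ∃ t : ℕ × ℕ × ℕ,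
      q = (mT t.1 (aT t.2.1 t.2.2), aT (mT t.1 t.2.1) (mT t.1 t.2.2)) :=
    re_range ((M.comp p1 (A.comp p2 p3)).pair (A.comp (M.comp p1 p2) (M.comp p1 p3)))
  have e10 : REPred fun q : ℕ × ℕ => ∃ u : ℕ, q = (mT (xT u) (xT u), numT (pr u)) :=
    re_range ((M.comp primrec_xT.to_comp primrec_xT.to_comp).pair
      (primrec_numT.to_comp.comp hpr))
  have e11 : REPred fun q : ℕ × ℕ => ∃ k : ℕ, q = (mT (numT (k + 1)) (yT (k + 1)), one) :=
    re_range ((M.comp (primrec_numT.to_comp.comp Computable.succ)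
      (primrec_yT.to_comp.comp Computable.succ)).pair (Computable.const one))
  have e12 : REPred fun q : ℕ × ℕ => ∃ t : ℕ × (ℕ × Bool),
      en t.1 = some t.2 ∧ q = (pwT (rT t.1) (ell t.2.1), rhs S t.2) := by
    apply re_exists (p := fun (q : ℕ × ℕ) (t : ℕ × (ℕ × Bool)) =>
      en t.1 = some t.2 ∧ q = (pwT (rT t.1) (ell t.2.1), rhs S t.2))
    have t1 : Computable fun q : (ℕ × ℕ) × (ℕ × (ℕ × Bool)) => q.2.1 :=
      Computable.fst.comp Computable.snd
    have t2 : Computable fun q : (ℕ × ℕ) × (ℕ × (ℕ × Bool)) => q.2.2 :=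
      Computable.snd.comp Computable.snd
    apply re_and (re_eq (hen.comp t1) (Computable.option_some.comp t2))
    apply re_eq Computable.fst
    exact (primrec_pwT.to_comp.comp (primrec_rT.to_comp.comp t1)
      (hell.comp (Computable.fst.comp t2))).pair ((computable_rhs hS).comp t2)
  have e13 : REPred fun q : ℕ × ℕ => ∃ r : ℕ, en r = none ∧ q = (rT r, zT) := by
    apply re_exists (p := fun (q : ℕ × ℕ) (r : ℕ) => en r = none ∧ q = (rT r, zT))
    apply re_and (re_eq (hen.comp Computable.snd) (Computable.const none))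
    exact re_eq Computable.fst ((primrec_rT.to_comp.comp Computable.snd).pair
      (Computable.const zT))
  have e14 : REPred fun q : ℕ × ℕ => ∃ r : ℕ × ℕ, en r.1 = en r.2 ∧ q = (rT r.1, rT r.2) := by
    apply re_exists (p := fun (q : ℕ × ℕ) (r : ℕ × ℕ) => en r.1 = en r.2 ∧ q = (rT r.1, rT r.2))
    have t1 : Computable fun q : (ℕ × ℕ) × (ℕ × ℕ) => q.2.1 :=
      Computable.fst.comp Computable.snd
    have t2 : Computable fun q : (ℕ × ℕ) × (ℕ × ℕ) => q.2.2 :=
      Computable.snd.comp Computable.snd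
    apply re_and (re_eq (hen.comp t1) (hen.comp t2))
    exact re_eq Computable.fst ((primrec_rT.to_comp.comp t1).pair (primrec_rT.to_comp.comp t2))
  have H := re_or e1 (re_or e2 (re_or e3 (re_or e4 (re_or e5 (re_or e6 (re_or e7 (re_or e8
    (re_or e9 (re_or e10 (re_or e11 (re_or e12 (re_or e13 e14))))))))))))
  refine H.of_eq fun q => ⟨?_, ?_⟩
  · rintro (⟨t, rfl⟩ | ⟨t, rfl⟩ | ⟨t, rfl⟩ | ⟨t, rfl⟩ | ⟨t, rfl⟩ | ⟨t, rfl⟩ | ⟨t, rfl⟩ |
      ⟨t, rfl⟩ | ⟨t, rfl⟩ | ⟨t, rfl⟩ | ⟨t, rfl⟩ | ⟨t, h, rfl⟩ | ⟨t, h, rfl⟩ | ⟨t, h, rfl⟩)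
    · exact Ax.refl _
    · exact Ax.add_comm _ _
    · exact Ax.add_assoc _ _ _
    · exact Ax.zero_add _
    · exact Ax.neg_add _
    · exact Ax.mul_comm _ _
    · exact Ax.mul_assoc _ _ _
    · exact Ax.one_mul _
    · exact Ax.distrib _ _ _
    · exact Ax.xx _
    · exact Ax.y _
    · exact Ax.r_some _ _ h
    · exact Ax.r_none _ h
    · exact Ax.r_eq _ _ h
  · intro h
    cases h with
    | refl t => exact Or.inl ⟨t, rfl⟩
    | add_comm s t => exact Or.inr (Or.inl ⟨(s, t), rfl⟩)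
    | add_assoc s t u => exact Or.inr (Or.inr (Or.inl ⟨(s, t, u), rfl⟩))
    | zero_add t => exact Or.inr (Or.inr (Or.inr (Or.inl ⟨t, rfl⟩)))
    | neg_add t => exact Or.inr (Or.inr (Or.inr (Or.inr (Or.inl ⟨t, rfl⟩))))
    | mul_comm s t => exact Or.inr (Or.inr (Or.inr (Or.inr (Or.inr (Or.inl ⟨(s, t), rfl⟩)))))
    | mul_assoc s t u =>
      exact Or.inr (Or.inr (Or.inr (Or.inr (Or.inr (Or.inr (Or.inl ⟨(s, t, u), rfl⟩))))))
    | one_mul t =>
      exact Or.inr (Or.inr (Or.inr (Or.inr (Or.inr (Or.inr (Or.inr (Or.inl ⟨t, rfl⟩)))))))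
    | distrib s t u =>
      exact Or.inr (Or.inr (Or.inr (Or.inr (Or.inr (Or.inr (Or.inr (Or.inr
        (Or.inl ⟨(s, t, u), rfl⟩))))))))
    | xx u =>
      exact Or.inr (Or.inr (Or.inr (Or.inr (Or.inr (Or.inr (Or.inr (Or.inr (Or.inr
        (Or.inl ⟨u, rfl⟩)))))))))
    | y k =>
      exact Or.inr (Or.inr (Or.inr (Or.inr (Or.inr (Or.inr (Or.inr (Or.inr (Or.inr (Or.inr
        (Or.inl ⟨k, rfl⟩))))))))))
    | r_some r p h =>
      exact Or.inr (Or.inr (Or.inr (Or.inr (Or.inr (Or.inr (Or.inr (Or.inr (Or.inr (Or.inr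
        (Or.inr (Or.inl ⟨(r, p), h, rfl⟩)))))))))))
    | r_none r h =>
      exact Or.inr (Or.inr (Or.inr (Or.inr (Or.inr (Or.inr (Or.inr (Or.inr (Or.inr (Or.inr
        (Or.inr (Or.inr (Or.inl ⟨r, h, rfl⟩))))))))))))
    | r_eq r r' h =>
      exact Or.inr (Or.inr (Or.inr (Or.inr (Or.inr (Or.inr (Or.inr (Or.inr (Or.inr (Or.inr
        (Or.inr (Or.inr (Or.inr ⟨(r, r'), h, rfl⟩))))))))))))

/-! ### Soundness -/

theorem sound {S : ℕ → ℕ × ℕ} {en : ℕ → Option (ℕ × Bool)}
    (hrho : ∀ (n : ℕ) (b : Bool), rho S n b ^ ell n = gam S n b) (q : ℕ × ℕ)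
    (h : Cl (Ax S en) Rule q) : nu S en q.1 = nu S en q.2 := by
  induction h with
  | base h =>
    cases h with
    | refl t => rfl
    | add_comm s t => simp only [nu_aT]; ring
    | add_assoc s t u => simp only [nu_aT]; ring
    | zero_add t => simp only [nu_aT, nu_zT]; ring
    | neg_add t => simp only [nu_aT, nu_mT, nu_zT, nu_mone]; ring
    | mul_comm s t => simp only [nu_mT]; ring
    | mul_assoc s t u => simp only [nu_mT]; ring
    | one_mul t => simp only [nu_mT, nu_one]; ring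
    | distrib s t u => simp only [nu_mT, nu_aT]; ring
    | xx u => simp only [nu_mT, nu_xT, nu_numT]; exact x_sq u
    | y k =>
      simp only [nu_mT, nu_yT_succ, nu_numT, nu_one]
      push_cast
      exact mul_inv_cancel₀ (by positivity)
    | r_some r p h =>
      simp only [nu_pwT, nu_rT, nu_rhs, rval, h, Option.elim_some]
      exact hrho _ _
    | r_none r h =>
      simp only [nu_rT, nu_zT, rval, h, Option.elim_none]
    | r_eq r r' h =>
      simp only [nu_rT, rval, h]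
  | step _ _ hr h1 h2 =>
    rcases hr with h | ⟨h, h'⟩ | h | h
    · simp only at h
      rw [h]
      exact h1.symm
    · simp only at h h'
      rw [h']
      simp only
      rw [h1, h, h2]
    · simp only at h
      rw [h]
      simp only [nu_aT]
      rw [h1, h2]
    · simp only at h
      rw [h]
      simp only [nu_mT]
      rw [h1, h2]

end Pool.Agent.H91.CD.COMP
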