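import Mathlib
import Pool.Agent.H91.CD.COMPd

set_option autoImplicit false

/-!
MODULE COMP, part e: the quotient ring and the presentation theorem.
-/

namespace Pool.Agent.H91.CD.COMP

variable (S : ℕ → ℕ × ℕ) (en : ℕ → Option (ℕ × Bool))

/-- The congruence. -/
def termSetoid : Setoid ℕ where
  r s t := Cl (Ax S en) Rule (s, t)
  iseqv :=
    { refl := fun t => Cl.base (Ax.refl t)
      symm := fun h => Cl.step h h (Or.inl rfl)
      trans := fun h h' => Cl.step h h' (Or.inr (Or.inl ⟨rfl, rfl⟩)) }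

/-- The quotient ring. -/
def Q : Type := Quotient (termSetoid S en)

/-- the class of a term -/
def mk (t : ℕ) : Q S en := Quotient.mk (termSetoid S en) t

variable {S en}

theorem mk_eq {s t : ℕ} (h : Cl (Ax S en) Rule (s, t)) : mk S en s = mk S en t :=
  Quotient.sound (s := termSetoid S en) h

theorem mk_eq_iff {s t : ℕ} : mk S en s = mk S en t ↔ Cl (Ax S en) Rule (s, t) :=
  ⟨fun h => Quotient.exact (s := termSetoid S en) h, mk_eq⟩

theorem mk_surj (q : Q S en) : ∃ t, mk S en t = q := Quotient.exists_rep (s := termSetoid S en) q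

instance : Add (Q S en) :=
  ⟨Quotient.map₂ aT fun _ _ h _ _ h' => Cl.step h h' (Or.inr (Or.inr (Or.inl rfl)))⟩
instance : Mul (Q S en) :=
  ⟨Quotient.map₂ mT fun _ _ h _ _ h' => Cl.step h h' (Or.inr (Or.inr (Or.inr rfl)))⟩
instance : Zero (Q S en) := ⟨mk S en zT⟩
instance : One (Q S en) := ⟨mk S en one⟩

theorem mk_aT (s t : ℕ) : mk S en (aT s t) = mk S en s + mk S en t := rfl
theorem mk_mT (s t : ℕ) : mk S en (mT s t) = mk S en s * mk S en t := rfl
theorem mk_zT : mk S en zT = 0 := rfl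
theorem mk_one : mk S en one = 1 := rfl

instance : Neg (Q S en) := ⟨fun q => mk S en mone * q⟩

theorem neg_def (q : Q S en) : -q = mk S en mone * q := rfl

theorem q_add_comm (a b : Q S en) : a + b = b + a := by
  obtain ⟨s, rfl⟩ := mk_surj a
  obtain ⟨t, rfl⟩ := mk_surj b
  rw [← mk_aT, ← mk_aT]
  exact mk_eq (Cl.base (Ax.add_comm s t))
theorem q_add_assoc (a b c : Q S en) : a + b + c = a + (b + c) := by
  obtain ⟨s, rfl⟩ := mk_surj a
  obtain ⟨t, rfl⟩ := mk_surj b
  obtain ⟨u, rfl⟩ := mk_surj c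
  rw [← mk_aT, ← mk_aT, ← mk_aT, ← mk_aT]
  exact mk_eq (Cl.base (Ax.add_assoc s t u))
theorem q_zero_add (a : Q S en) : 0 + a = a := by
  obtain ⟨s, rfl⟩ := mk_surj a
  rw [← mk_zT, ← mk_aT]
  exact mk_eq (Cl.base (Ax.zero_add s))
theorem q_neg_add (a : Q S en) : -a + a = 0 := by
  obtain ⟨s, rfl⟩ := mk_surj a
  rw [neg_def, ← mk_zT, ← mk_mT, ← mk_aT]
  exact mk_eq (Cl.base (Ax.neg_add s))
theorem q_mul_comm (a b : Q S en) : a * b = b * a := by
  obtain ⟨s, rfl⟩ := mk_surj a
  obtain ⟨t, rfl⟩ := mk_surj b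
  rw [← mk_mT, ← mk_mT]
  exact mk_eq (Cl.base (Ax.mul_comm s t))
theorem q_mul_assoc (a b c : Q S en) : a * b * c = a * (b * c) := by
  obtain ⟨s, rfl⟩ := mk_surj a
  obtain ⟨t, rfl⟩ := mk_surj b
  obtain ⟨u, rfl⟩ := mk_surj c
  rw [← mk_mT, ← mk_mT, ← mk_mT, ← mk_mT]
  exact mk_eq (Cl.base (Ax.mul_assoc s t u))
theorem q_one_mul (a : Q S en) : 1 * a = a := by
  obtain ⟨s, rfl⟩ := mk_surj a
  rw [← mk_one, ← mk_mT]
  exact mk_eq (Cl.base (Ax.one_mul s))
theorem q_distrib (a b c : Q S en) : a * (b + c) = a * b + a * c := by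
  obtain ⟨s, rfl⟩ := mk_surj a
  obtain ⟨t, rfl⟩ := mk_surj b
  obtain ⟨u, rfl⟩ := mk_surj c
  rw [← mk_aT, ← mk_mT, ← mk_mT, ← mk_mT, ← mk_aT]
  exact mk_eq (Cl.base (Ax.distrib s t u))

instance : CommRing (Q S en) where
  add := (· + ·)
  add_assoc := q_add_assoc
  zero := 0
  zero_add := q_zero_add
  add_zero a := by rw [q_add_comm, q_zero_add]
  nsmul := nsmulRec
  add_comm := q_add_comm
  mul := (· * ·)
  left_distrib := q_distrib
  right_distrib a b c := by rw [q_mul_comm, q_distrib, q_mul_comm c a, q_mul_comm c b]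
  zero_mul a := by
    have h1 : (0 : Q S en) * a + 0 * a = 0 * a := by
      rw [q_mul_comm 0 a, ← q_distrib, q_zero_add]
    have h2 : -((0 : Q S en) * a) + (0 * a + 0 * a) = -(0 * a) + 0 * a := by rw [h1]
    rwa [← q_add_assoc, q_neg_add, q_zero_add] at h2
  mul_zero a := by
    have h1 : a * (0 : Q S en) + a * 0 = a * 0 := by
      rw [← q_distrib, q_zero_add]
    have h2 : -(a * (0 : Q S en)) + (a * 0 + a * 0) = -(a * 0) + a * 0 := by rw [h1]
    rwa [← q_add_assoc, q_neg_add, q_zero_add] at h2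
  mul_assoc := q_mul_assoc
  one := 1
  one_mul := q_one_mul
  mul_one a := by rw [q_mul_comm, q_one_mul]
  neg := Neg.neg
  zsmul := zsmulRec
  neg_add_cancel := q_neg_add
  mul_comm := q_mul_comm

theorem mk_mone : mk S en mone = -1 := by
  rw [neg_def, q_mul_comm, q_one_mul]

theorem mk_numT (k : ℕ) : mk S en (numT k) = (k : Q S en) := by
  induction k with
  | zero => exact (Nat.cast_zero (R := Q S en)).symm
  | succ k ih =>
    have : numT (k + 1) = aT (numT k) one := rfl
    rw [this, mk_aT, ih, mk_one, Nat.cast_succ]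

theorem mk_pwT (s k : ℕ) : mk S en (pwT s k) = mk S en s ^ k := by
  induction k with
  | zero => exact (pow_zero (mk S en s)).symm
  | succ k ih =>
    have : pwT s (k + 1) = mT (pwT s k) s := rfl
    rw [this, mk_mT, ih, pow_succ]

theorem mk_rhs (p : ℕ × Bool) : mk S en (rhs S p) =
    2 + (sg p.2 : Q S en) * (mk S en (xT (S p.1).1) * mk S en (xT (S p.1).2)) := by
  rw [rhs, mk_aT, mk_mT, mk_mT, mk_numT]
  cases p.2
  · rw [Bool.cond_false, mk_one]
    simp [sg]
  · rw [Bool.cond_true, mk_mone]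
    simp [sg]

theorem cast_mul_y (k : ℕ) : ((k + 1 : ℕ) : Q S en) * mk S en (yT (k + 1)) = 1 := by
  rw [← mk_numT, ← mk_mT, ← mk_one]
  exact mk_eq (Cl.base (Ax.y k))

theorem isUnit_int (y : nonZeroDivisors ℤ) : IsUnit (Int.castRingHom (Q S en) y) := by
  have hy : (y : ℤ) ≠ 0 := nonZeroDivisors.ne_zero y.2
  have h1 : IsUnit ((y : ℤ).natAbs : Q S en) := by
    obtain ⟨k, hk⟩ : ∃ k, (y : ℤ).natAbs = k + 1 :=
      Nat.exists_eq_succ_of_ne_zero (Int.natAbs_ne_zero.2 hy)
    rw [hk]
    exact IsUnit.of_mul_eq_one _ (cast_mul_y k)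
  rw [eq_intCast]
  rcases Int.natAbs_eq (y : ℤ) with h | h
  · rw [h, Int.cast_natCast]
    exact h1
  · rw [h, Int.cast_neg, Int.cast_natCast]
    exact h1.neg

noncomputable instance : Algebra ℚ (Q S en) :=
  (IsLocalization.lift (M := nonZeroDivisors ℤ) (S := ℚ) (g := Int.castRingHom (Q S en))
    isUnit_int).toAlgebra

/-! ### The evaluation homomorphism -/

section eval

variable {W : ℕ × Bool → Prop} (hen : ∀ p, W p ↔ ∃ n, en n = some p)
include hen

theorem nu_mem (t : ℕ) : nu S en t ∈ K S W := by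
  induction t using Nat.strong_induction_on with
  | _ t ih =>
    rcases cases_T t with ⟨u, rfl⟩ | ⟨k, rfl⟩ | ⟨r, rfl⟩ | ⟨s, u, rfl, hs, hu⟩ |
      ⟨s, u, rfl, hs, hu⟩
    · rw [nu_xT]
      exact Subfield.subset_closure (Or.inl ⟨u, rfl⟩)
    · cases k with
      | zero =>
        rw [nu_yT_zero]
        exact neg_mem (one_mem _)
      | succ k =>
        rw [nu_yT_succ]
        have : ((k : ℝ) + 1) = ((k + 1 : ℕ) : ℝ) := by push_cast; rfl
        rw [this]
        exact inv_mem (natCast_mem _ _)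
    · rw [nu_rT, rval]
      cases h : en r with
      | none => exact zero_mem _
      | some p =>
        exact Subfield.subset_closure (Or.inr ⟨p.1, p.2, (hen _).2 ⟨r, h⟩, rfl⟩)
    · rw [nu_aT]
      exact add_mem (ih s hs) (ih u hu)
    · rw [nu_mT]
      exact mul_mem (ih s hs) (ih u hu)

/-- the evaluation homomorphism -/
theorem exists_eval (hrho : ∀ (n : ℕ) (b : Bool), rho S n b ^ ell n = gam S n b) :
    ∃ φ : Q S en →+* K S W, ∀ t, φ (mk S en t) = ⟨nu S en t, nu_mem hen t⟩ := by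
  let f : Q S en → K S W := Quotient.lift (s := termSetoid S en)
    (fun t => ⟨nu S en t, nu_mem hen t⟩) (by
      intro s t h
      exact Subtype.ext (sound hrho (s, t) h))
  have hf : ∀ t, f (mk S en t) = ⟨nu S en t, nu_mem hen t⟩ := fun t => rfl
  refine ⟨{ toFun := f, map_one' := ?_, map_mul' := ?_, map_zero' := ?_, map_add' := ?_ }, hf⟩
  · rw [← mk_one, hf]
    exact Subtype.ext (nu_one S en)
  · intro a b
    obtain ⟨s, rfl⟩ := mk_surj a
    obtain ⟨t, rfl⟩ := mk_surj b
    rw [← mk_mT, hf, hf, hf]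
    exact Subtype.ext (nu_mT S en s t)
  · rw [← mk_zT, hf]
    exact Subtype.ext (nu_zT S en)
  · intro a b
    obtain ⟨s, rfl⟩ := mk_surj a
    obtain ⟨t, rfl⟩ := mk_surj b
    rw [← mk_aT, hf, hf, hf]
    exact Subtype.ext (nu_aT S en s t)

open Classical in
/-- Equality of values is equivalence of terms, and all elements are values. -/
theorem eval_bijective (hrho : ∀ (n : ℕ) (b : Bool), rho S n b ^ ell n = gam S n b)
    (huniv : ∀ (R : Type) [CommRing R] [Algebra ℚ R] (X : ℕ → R) (Y : ℕ → Bool → R)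
      (_ : X 0 = 1) (_ : ∀ u, X u ^ 2 = (pr u : R))
      (_ : ∀ n b, W (n, b) → Y n b ^ ell n = 2 + (sg b : R) * (X (S n).1 * X (S n).2)),
      ∃ h : K S W →+* R, (∀ (u : ℕ) (hu : x u ∈ K S W), h ⟨x u, hu⟩ = X u) ∧
        ∀ (n : ℕ) (b : Bool) (hr : rho S n b ∈ K S W), W (n, b) → h ⟨rho S n b, hr⟩ = Y n b) :
    (∀ s t, nu S en s = nu S en t ↔ Cl (Ax S en) Rule (s, t)) ∧
      ∀ k : K S W, ∃ t, nu S en t = k := by
  obtain ⟨φ, hφ⟩ := exists_eval hen hrho
  let Y : ℕ → Bool → Q S en := fun n b =>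
    if h : ∃ r, en r = some (n, b) then mk S en (rT h.choose) else 0
  have hY : ∀ r p, en r = some p → Y p.1 p.2 = mk S en (rT r) := by
    intro r p h
    have hex : ∃ r, en r = some (p.1, p.2) := ⟨r, h⟩
    have h1 : Y p.1 p.2 = mk S en (rT hex.choose) := dif_pos hex
    rw [h1]
    apply mk_eq
    apply Cl.base
    apply Ax.r_eq
    rw [hex.choose_spec, h]
  obtain ⟨h, hx, hr⟩ := huniv (Q S en) (fun u => mk S en (xT u)) Y rfl
    (by
      intro u
      rw [sq, ← mk_mT, ← mk_numT]
      exact mk_eq (Cl.base (Ax.xx u)))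
    (by
      intro n b hW
      obtain ⟨r, hr⟩ := (hen _).1 hW
      have h1 : Y n b = mk S en (rT r) := hY r (n, b) hr
      rw [h1, ← mk_pwT]
      have h2 : mk S en (pwT (rT r) (ell n)) = mk S en (rhs S (n, b)) :=
        mk_eq (Cl.base (Ax.r_some r (n, b) hr))
      rw [h2, mk_rhs])
  have key : ∀ t, h ⟨nu S en t, nu_mem hen t⟩ = mk S en t := by
    intro t
    induction t using Nat.strong_induction_on with
    | _ t ih =>
      rcases cases_T t with ⟨u, rfl⟩ | ⟨k, rfl⟩ | ⟨r, rfl⟩ | ⟨s, u, rfl, hs, hu⟩ |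
        ⟨s, u, rfl, hs, hu⟩
      · have h1 : (⟨nu S en (xT u), nu_mem hen (xT u)⟩ : K S W) =
            ⟨x u, nu_xT S en u ▸ nu_mem hen (xT u)⟩ := Subtype.ext (nu_xT S en u)
        rw [h1]
        exact hx u _
      · cases k with
        | zero =>
          have h1 : (⟨nu S en (yT 0), nu_mem hen (yT 0)⟩ : K S W) = -1 :=
            Subtype.ext (nu_yT_zero S en)
          rw [h1, map_neg, map_one]
          exact mk_mone.symm
        | succ k =>
          have h1 : ((k + 1 : ℕ) : K S W) * ⟨nu S en (yT (k + 1)), nu_mem hen (yT (k + 1))⟩ = 1 := by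
            apply Subtype.ext
            have : ((k + 1 : ℕ) : ℝ) * nu S en (yT (k + 1)) = 1 := by
              rw [nu_yT_succ]
              push_cast
              exact mul_inv_cancel₀ (by positivity)
            simpa using this
          have h2 := congrArg h h1
          rw [map_mul, map_one, map_natCast] at h2
          have h3 := cast_mul_y (S := S) (en := en) k
          have h4 : IsUnit (((k + 1 : ℕ) : Q S en)) := IsUnit.of_mul_eq_one _ h3
          exact h4.mul_left_cancel (h2.trans h3.symm)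
      · cases he : en r with
        | none =>
          have h1 : (⟨nu S en (rT r), nu_mem hen (rT r)⟩ : K S W) = 0 := by
            apply Subtype.ext
            simp only [nu_rT, rval, he, Option.elim_none]
            rfl
          rw [h1, map_zero, ← mk_zT]
          exact (mk_eq (Cl.base (Ax.r_none r he))).symm
        | some p =>
          have h0 : nu S en (rT r) = rho S p.1 p.2 := by
            simp only [nu_rT, rval, he, Option.elim_some]
          have h1 : (⟨nu S en (rT r), nu_mem hen (rT r)⟩ : K S W) =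
              ⟨rho S p.1 p.2, h0 ▸ nu_mem hen (rT r)⟩ := Subtype.ext h0
          rw [h1, hr p.1 p.2 _ ((hen _).2 ⟨r, he⟩)]
          exact hY r p he
      · have h1 : (⟨nu S en (aT s u), nu_mem hen (aT s u)⟩ : K S W) =
            ⟨nu S en s, nu_mem hen s⟩ + ⟨nu S en u, nu_mem hen u⟩ := Subtype.ext (nu_aT S en s u)
        rw [h1, map_add, ih s hs, ih u hu, mk_aT]
      · have h1 : (⟨nu S en (mT s u), nu_mem hen (mT s u)⟩ : K S W) =
            ⟨nu S en s, nu_mem hen s⟩ * ⟨nu S en u, nu_mem hen u⟩ := Subtype.ext (nu_mT S en s u)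
        rw [h1, map_mul, ih s hs, ih u hu, mk_mT]
  constructor
  · intro s t
    constructor
    · intro hst
      rw [← mk_eq_iff, ← key s, ← key t]
      congr 1
      exact Subtype.ext hst
    · intro hst
      exact sound hrho (s, t) hst
  · intro k
    have : Nontrivial (Q S en) := RingHom.domain_nontrivial φ
    obtain ⟨t, ht⟩ := mk_surj (h k)
    refine ⟨t, ?_⟩
    have h2 : h ⟨nu S en t, nu_mem hen t⟩ = h k := (key t).trans ht
    have h3 := (RingHom.injective h) h2
    rw [← h3]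

end eval

/-- Computable copies of the fields `K S W`, given the two facts from module ALG. -/
theorem presentation_of (S : ℕ → ℕ × ℕ) (hSc : Computable S)
    (W : ℕ × Bool → Prop) (hW : REPred W)
    (hrho : ∀ (n : ℕ) (b : Bool), rho S n b ^ ell n = gam S n b)
    (huniv : ∀ (R : Type) [CommRing R] [Algebra ℚ R] (X : ℕ → R) (Y : ℕ → Bool → R)
      (_ : X 0 = 1) (_ : ∀ u, X u ^ 2 = (pr u : R))
      (_ : ∀ n b, W (n, b) → Y n b ^ ell n = 2 + (sg b : R) * (X (S n).1 * X (S n).2)),
      ∃ h : K S W →+* R, (∀ (u : ℕ) (hu : x u ∈ K S W), h ⟨x u, hu⟩ = X u) ∧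
        ∀ (n : ℕ) (b : Bool) (hr : rho S n b ∈ K S W), W (n, b) → h ⟨rho S n b, hr⟩ = Y n b) :
    ∃ (a m : ℕ → ℕ → ℕ) (e : ℕ ≃ K S W) (gx : ℕ → ℕ), Computable₂ a ∧ Computable₂ m ∧
      Computable gx ∧ (∀ i j, e (a i j) = e i + e j ∧ e (m i j) = e i * e j) ∧
      ∀ u, ((e (gx u) : K S W) : ℝ) = x u := by
  obtain ⟨en, henc, hen⟩ := re_enum hW
  obtain ⟨hE, hsurj⟩ := eval_bijective hen hrho huniv
  have hcl : REPred fun q : ℕ × ℕ => Cl (Ax S en) Rule q :=
    cl_re (re_ax hSc henc computable_pr computable_ell) re_rule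
  let ν : ℕ → K S W := fun t => ⟨nu S en t, nu_mem hen t⟩
  have hν : Function.Surjective ν := by
    intro k
    obtain ⟨t, ht⟩ := hsurj k
    exact ⟨t, Subtype.ext ht⟩
  have hνa : ∀ s t, ν (aT s t) = ν s + ν t := fun s t => Subtype.ext (nu_aT S en s t)
  have hνm : ∀ s t, ν (mT s t) = ν s * ν t := fun s t => Subtype.ext (nu_mT S en s t)
  have hν1 : ν one = 1 := Subtype.ext (nu_one S en)
  have hνm1 : ν mone = -1 := Subtype.ext (nu_mone S en)
  have hEq : ∀ s t, ν s = ν t ↔ Cl (Ax S en) Rule (s, t) := by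
    intro s t
    rw [← hE s t]
    exact Subtype.ext_iff
  have hdec : ComputablePred fun p : ℕ × ℕ => ν p.1 = ν p.2 := by
    rw [ComputablePred.computable_iff_re_compl_re']
    constructor
    · refine hcl.of_eq fun q => ?_
      exact (hEq q.1 q.2).symm
    · have h1 : REPred fun q : (ℕ × ℕ) × ℕ =>
          Cl (Ax S en) Rule (mT (aT q.1.1 (mT mone q.1.2)) q.2, one) := by
        apply re_comp hcl
        apply Computable.pair _ (Computable.const one)
        apply primrec_mT.to_comp.comp _ Computable.snd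
        apply primrec_aT.to_comp.comp (Computable.fst.comp Computable.fst)
        exact primrec_mT.to_comp.comp (Computable.const mone) (Computable.snd.comp Computable.fst)
      refine (re_exists (p := fun (q : ℕ × ℕ) (r : ℕ) =>
        Cl (Ax S en) Rule (mT (aT q.1 (mT mone q.2)) r, one)) h1).of_eq fun q => ?_
      have h2 : ∀ r, Cl (Ax S en) Rule (mT (aT q.1 (mT mone q.2)) r, one) ↔
          (ν q.1 - ν q.2) * ν r = 1 := by
        intro r
        rw [← hEq, hνm, hνa, hνm, hνm1, hν1]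
        have : ν q.1 + -1 * ν q.2 = ν q.1 - ν q.2 := by ring
        rw [this]
      constructor
      · rintro ⟨r, hr⟩ heq
        rw [h2, heq, sub_self, zero_mul] at hr
        exact zero_ne_one hr
      · intro hne
        obtain ⟨r, hr⟩ := hν (ν q.1 - ν q.2)⁻¹
        refine ⟨r, (h2 r).2 ?_⟩
        rw [hr]
        exact mul_inv_cancel₀ (sub_ne_zero.2 hne)
  have : CharZero (K S W) := inferInstance
  have : Infinite (K S W) := Infinite.of_injective (fun n : ℕ => (n : K S W)) Nat.cast_injective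
  obtain ⟨e, q, idx, hq, hidx, hqe, hie⟩ := bijective_naming ν hν hdec
  refine ⟨fun i j => idx (aT (q i) (q j)), fun i j => idx (mT (q i) (q j)), e,
    fun u => idx (xT u), ?_, ?_, ?_, ?_, ?_⟩
  · exact hidx.comp (primrec_aT.to_comp.comp (hq.comp Computable.fst) (hq.comp Computable.snd))
  · exact hidx.comp (primrec_mT.to_comp.comp (hq.comp Computable.fst) (hq.comp Computable.snd))
  · exact hidx.comp primrec_xT.to_comp
  · intro i j
    rw [hie, hie, hνa, hνm, hqe, hqe]
    exact ⟨rfl, rfl⟩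
  · intro u
    rw [hie]
    exact nu_xT S en u

end Pool.Agent.H91.CD.COMP
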