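import Mathlib
import Pool.Agent.H91.CD.COMPe

set_option autoImplicit false

/-!
MODULE COMP: computable copies. The files COMPa, ..., COMPe prove

* `computable_pr`, `computable_ell`, `iso_computable`, `ring_ops` exactly as in the skeleton;
* `COMP.presentation_of`: the theorem `presentation`, given the ALG theorems
  `rho_pow` and `universal` as hypotheses, that is
  `presentation S hSc hS W hW = COMP.presentation_of S hSc W hW (rho_pow S)
    (fun R _ _ X Y h0 h1 h2 => universal S hS W R X Y h0 h1 h2)`.
-/
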