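import Mathlib
import Pool.Agent.H91.CD.ALG
import Pool.Agent.H91.CD.COMP

set_option autoImplicit false

/-!
MODULE ASM: assembly of the frozen statement S14833 from the abstract dynamics theorem.
-/

namespace Pool.Agent.H91.CD

namespace ASM

open COMP

/-! ### The generators and ring homomorphisms -/

section Hom

variable {S : ℕ → ℕ × ℕ} {W W' : ℕ × Bool → Prop}

theorem x_mem (S : ℕ → ℕ × ℕ) (W : ℕ × Bool → Prop) (u : ℕ) : x u ∈ K S W :=
  Subfield.subset_closure (Or.inl ⟨u, rfl⟩)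

theorem rho_mem {n : ℕ} {b : Bool} (h : W (n, b)) : rho S n b ∈ K S W :=
  Subfield.subset_closure (Or.inr ⟨n, b, h, rfl⟩)

/-- The square roots as elements of the field. -/
noncomputable def xK (S : ℕ → ℕ × ℕ) (W : ℕ × Bool → Prop) (u : ℕ) : K S W := ⟨x u, x_mem S W u⟩

theorem coe_xK (u : ℕ) : ((xK S W u : K S W) : ℝ) = x u := rfl

theorem xK_sq (u : ℕ) : xK S W u ^ 2 = (pr u : K S W) := by
  apply Subtype.ext
  rw [SubmonoidClass.coe_pow, coe_xK, ALG.x_sq]
  push_cast
  rfl

theorem xK_zero : xK S W 0 = 1 := by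
  apply Subtype.ext
  rw [coe_xK, ALG.x_zero]
  rfl

theorem xK_ne_zero (u : ℕ) : xK S W u ≠ 0 := by
  intro h
  have h1 := xK_sq (S := S) (W := W) u
  rw [h, zero_pow two_ne_zero] at h1
  have h2 : (pr u : K S W) ≠ 0 := by
    have : 0 < pr u := by
      cases u with
      | zero => simp [pr]
      | succ u => exact (pr_spec u).1.pos
    exact_mod_cast this.ne'
  exact h2 h1.symm

theorem sg_xor (a b : Bool) : sg (xor a b) = sg a * sg b := by
  cases a <;> cases b <;> simp [sg]

theorem sg_sq (a : Bool) : sg a * sg a = 1 := by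
  cases a <;> simp [sg]

theorem hom_ext {R : Type} [Field R] (f g : K S W →+* R)
    (hx : ∀ u, f (xK S W u) = g (xK S W u))
    (hr : ∀ n b (h : W (n, b)), f ⟨rho S n b, rho_mem h⟩ = g ⟨rho S n b, rho_mem h⟩) : f = g := by
  have hle : K S W ≤ (f.eqLocusField g).map (K S W).subtype := by
    refine Subfield.closure_le.2 ?_
    rintro _ (⟨u, rfl⟩ | ⟨n, b, hW, rfl⟩)
    · exact ⟨xK S W u, hx u, rfl⟩
    · exact ⟨⟨rho S n b, rho_mem hW⟩, hr n b hW, rfl⟩
  ext z
  obtain ⟨w, hw1, hw2⟩ := hle z.2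
  have : w = z := Subtype.ext hw2
  rw [← this]
  exact hw1

/-- The homomorphism attached to a sign vector. -/
theorem theta_hom (hS : ∀ n, (S n).1 < (S n).2) (ε : ℕ → Bool) (hε : ε 0 = false)
    (hWW : ∀ n b, W (n, b) → W' (n, xor b (xor (ε (S n).1) (ε (S n).2)))) :
    ∃ h : K S W →+* K S W', (∀ u, h (xK S W u) = (sg (ε u) : K S W') * xK S W' u) ∧
      ∀ n b (hw : W (n, b)), h ⟨rho S n b, rho_mem hw⟩ =
        ⟨rho S n (xor b (xor (ε (S n).1) (ε (S n).2))), rho_mem (hWW n b hw)⟩ := by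
  classical
  obtain ⟨h, h1, h2⟩ := universal S hS W (K S W') (fun u => (sg (ε u) : K S W') * xK S W' u)
    (fun n b => if hw : W' (n, xor b (xor (ε (S n).1) (ε (S n).2))) then
      ⟨rho S n (xor b (xor (ε (S n).1) (ε (S n).2))), rho_mem hw⟩ else 0)
    (by
      simp only [hε, xK_zero]
      simp [sg])
    (by
      intro u
      rw [mul_pow, xK_sq, sq, ← Int.cast_mul, sg_sq]
      simp)
    (by
      intro n b hw
      rw [dif_pos (hWW n b hw)]
      apply Subtype.ext
      rw [SubmonoidClass.coe_pow]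
      simp only
      rw [rho_pow, gam, sg_xor, sg_xor]
      push_cast
      rw [coe_xK, coe_xK]
      have h2c : ((2 : K S W') : ℝ) = 2 := rfl
      rw [h2c]
      ring)
  refine ⟨h, fun u => h1 u (x_mem S W u), ?_⟩
  intro n b hw
  have := h2 n b (rho_mem hw) hw
  rw [dif_pos (hWW n b hw)] at this
  exact this

/-- The isomorphism attached to a sign vector. -/
theorem theta (hS : ∀ n, (S n).1 < (S n).2) (ε : ℕ → Bool) (hε : ε 0 = false)
    (hW : W' = Act S ε W) :
    ∃ θ : K S W ≃+* K S W', ∀ u, θ (xK S W u) = (sg (ε u) : K S W') * xK S W' u := by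
  have hxx : ∀ b s : Bool, xor (xor b s) s = b := by decide
  have h1 : ∀ n b, W (n, b) → W' (n, xor b (xor (ε (S n).1) (ε (S n).2))) := by
    intro n b hw
    rw [hW]
    show W (n, _)
    rw [hxx]
    exact hw
  have h2 : ∀ n b, W' (n, b) → W (n, xor b (xor (ε (S n).1) (ε (S n).2))) := by
    intro n b hw
    rw [hW] at hw
    exact hw
  obtain ⟨f, hf1, hf2⟩ := theta_hom hS ε hε h1
  obtain ⟨g, hg1, hg2⟩ := theta_hom hS ε hε h2
  have e1 : f.comp g = RingHom.id (K S W') := by
    apply hom_ext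
    · intro u
      rw [RingHom.comp_apply, hg1, map_mul, map_intCast, hf1, ← mul_assoc, ← Int.cast_mul, sg_sq]
      simp
    · intro n b hw
      rw [RingHom.comp_apply, hg2 n b hw, hf2 n _ (h2 n b hw)]
      apply Subtype.ext
      simp only [RingHom.id_apply]
      rw [hxx]
  have e2 : g.comp f = RingHom.id (K S W) := by
    apply hom_ext
    · intro u
      rw [RingHom.comp_apply, hf1, map_mul, map_intCast, hg1, ← mul_assoc, ← Int.cast_mul, sg_sq]
      simp
    · intro n b hw
      rw [RingHom.comp_apply, hf2 n b hw, hg2 n _ (h1 n b hw)]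
      apply Subtype.ext
      simp only [RingHom.id_apply]
      rw [hxx]
  exact ⟨RingEquiv.ofRingHom f g e1 e2, fun u => hf1 u⟩

/-- A ring isomorphism which multiplies the square roots by signs acts on the index sets. -/
theorem act_of_equiv (hS : ∀ n, (S n).1 < (S n).2) (ε : ℕ → Bool) (Ψ : K S W ≃+* K S W')
    (hΨ : ∀ u, Ψ (xK S W u) = (sg (ε u) : K S W') * xK S W' u) : W' = Act S ε W := by
  have hxx : ∀ b s : Bool, xor (xor b s) s = b := by decide
  have hΨs : ∀ u, Ψ.symm (xK S W' u) = (sg (ε u) : K S W) * xK S W u := by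
    intro u
    rw [RingEquiv.symm_apply_eq, map_mul, map_intCast, hΨ, ← mul_assoc, ← Int.cast_mul, sg_sq]
    simp
  have hcoe : ∀ (W : ℕ × Bool → Prop) (n : ℕ) (b : Bool),
      (((2 : K S W) + (sg b : K S W) * (xK S W (S n).1 * xK S W (S n).2) : K S W) : ℝ) =
        gam S n b := by
    intro W n b
    push_cast
    rw [coe_xK, coe_xK, gam]
    rfl
  funext p
  obtain ⟨n, b⟩ := p
  apply propext
  show W' (n, b) ↔ W (n, xor b (xor (ε (S n).1) (ε (S n).2)))
  constructor
  · intro hw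
    by_contra hcon
    apply no_root S hS W n _ hcon (Ψ.symm ⟨rho S n b, rho_mem hw⟩ : K S W) (Subtype.mem _)
    rw [← SubmonoidClass.coe_pow, ← map_pow, ← hcoe W]
    congr 1
    have e1 : (⟨rho S n b, rho_mem hw⟩ : K S W') ^ ell n =
        2 + (sg b : K S W') * (xK S W' (S n).1 * xK S W' (S n).2) := by
      apply Subtype.ext
      rw [SubmonoidClass.coe_pow, hcoe W']
      exact rho_pow S n b
    rw [e1, map_add, map_mul, map_mul, map_intCast, map_ofNat, hΨs, hΨs, sg_xor, sg_xor]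
    push_cast
    ring
  · intro hw
    by_contra hcon
    apply no_root S hS W' n _ hcon (Ψ ⟨rho S n _, rho_mem hw⟩ : K S W') (Subtype.mem _)
    rw [← SubmonoidClass.coe_pow, ← map_pow, ← hcoe W']
    congr 1
    have e1 : (⟨rho S n _, rho_mem hw⟩ : K S W) ^ ell n =
        2 + (sg (xor b (xor (ε (S n).1) (ε (S n).2))) : K S W) *
          (xK S W (S n).1 * xK S W (S n).2) := by
      apply Subtype.ext
      rw [SubmonoidClass.coe_pow, hcoe W]
      exact rho_pow S n _
    rw [e1, map_add, map_mul, map_mul, map_intCast, map_ofNat, hΨ, hΨ, sg_xor, sg_xor]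
    push_cast
    have s1 := sg_sq (ε (S n).1)
    have s2 := sg_sq (ε (S n).2)
    have s1' : ((sg (ε (S n).1) : ℤ) : K S W') * (sg (ε (S n).1) : ℤ) = 1 := by
      exact_mod_cast congrArg (Int.cast : ℤ → K S W') s1
    have s2' : ((sg (ε (S n).2) : ℤ) : K S W') * (sg (ε (S n).2) : ℤ) = 1 := by
      exact_mod_cast congrArg (Int.cast : ℤ → K S W') s2
    linear_combination (sg b : K S W') * (xK S W' (S n).1 * xK S W' (S n).2) *
      ((sg (ε (S n).2) : ℤ) : K S W') * (sg (ε (S n).2) : ℤ) * s1' +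
      (sg b : K S W') * (xK S W' (S n).1 * xK S W' (S n).2) * s2'

end Hom

/-! ### Copies -/

section Copies

variable {S : ℕ → ℕ × ℕ} {W W' A : ℕ × Bool → Prop}

/-- The ring isomorphism attached to an isomorphism of copies. -/
theorem equiv_of_copies {F F' : Type} [Field F] [Field F'] {a m a' m' : ℕ → ℕ → ℕ}
    (e : ℕ ≃ F) (e' : ℕ ≃ F') (he : ∀ i j, e (a i j) = e i + e j ∧ e (m i j) = e i * e j)
    (he' : ∀ i j, e' (a' i j) = e' i + e' j ∧ e' (m' i j) = e' i * e' j) (f : ℕ ≃ ℕ)
    (hf : ∀ i j, f (a i j) = a' (f i) (f j) ∧ f (m i j) = m' (f i) (f j)) :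
    ∃ Ψ : F ≃+* F', ∀ i, Ψ (e i) = e' (f i) := by
  refine ⟨{ (e.symm.trans (f.trans e')) with map_mul' := ?_, map_add' := ?_ }, ?_⟩
  · intro p q
    simp only [Equiv.toFun_as_coe, Equiv.trans_apply]
    have h : e.symm (p * q) = m (e.symm p) (e.symm q) := by
      rw [Equiv.symm_apply_eq, (he _ _).2, Equiv.apply_symm_apply, Equiv.apply_symm_apply]
    rw [h, (hf _ _).2, (he' _ _).2]
  · intro p q
    simp only [Equiv.toFun_as_coe, Equiv.trans_apply]
    have h : e.symm (p + q) = a (e.symm p) (e.symm q) := by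
      rw [Equiv.symm_apply_eq, (he _ _).1, Equiv.apply_symm_apply, Equiv.apply_symm_apply]
    rw [h, (hf _ _).1, (he' _ _).1]
  · intro i
    show (e.symm.trans (f.trans e')) (e i) = e' (f i)
    simp

/-- Computable isomorphisms of the standard copies act by computable sign vectors. -/
theorem act_of_iso (hS : ∀ n, (S n).1 < (S n).2) {a m a' m' : ℕ → ℕ → ℕ}
    (e : ℕ ≃ K S W) (e' : ℕ ≃ K S W') {gx gx' : ℕ → ℕ}
    (he : ∀ i j, e (a i j) = e i + e j ∧ e (m i j) = e i * e j)
    (he' : ∀ i j, e' (a' i j) = e' i + e' j ∧ e' (m' i j) = e' i * e' j)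
    (hgx : ∀ u, e (gx u) = xK S W u) (hgx' : ∀ u, e' (gx' u) = xK S W' u)
    (hgc : Computable gx) (hgc' : Computable gx') (f : ℕ ≃ ℕ) (hfc : Computable f)
    (hf : ∀ i j, f (a i j) = a' (f i) (f j) ∧ f (m i j) = m' (f i) (f j)) :
    ∃ ε : ℕ → Bool, Computable ε ∧ ε 0 = false ∧ W' = Act S ε W := by
  obtain ⟨Ψ, hΨ⟩ := equiv_of_copies e e' he he' f hf
  have hx : ∀ u, Ψ (xK S W u) = e' (f (gx u)) := by
    intro u
    rw [← hgx u, hΨ]
  refine ⟨fun u => ! decide (f (gx u) = gx' u), ?_, ?_, ?_⟩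
  · have h1 : Computable fun u => decide (f (gx u) = gx' u) :=
      (Primrec.eq.decide.to_comp).comp (hfc.comp hgc) hgc'
    exact Primrec.not.to_comp.comp h1
  · have h1 : e' (f (gx 0)) = e' (gx' 0) := by
      rw [← hx 0, xK_zero, map_one, hgx' 0, xK_zero]
    have h2 := e'.injective h1
    simp [h2]
  · apply act_of_equiv hS _ Ψ
    intro u
    have hsq : (Ψ (xK S W u)) ^ 2 = (xK S W' u) ^ 2 := by
      rw [← map_pow, xK_sq, map_natCast, xK_sq]
    rcases sq_eq_sq_iff_eq_or_eq_neg.1 hsq with h1 | h1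
    · have h2 : f (gx u) = gx' u := by
        apply e'.injective
        rw [← hx u, h1, hgx' u]
      rw [h1]
      simp [h2, sg]
    · have h2 : f (gx u) ≠ gx' u := by
        intro hcon
        have h3 : Ψ (xK S W u) = xK S W' u := by rw [hx u, hcon, hgx' u]
        rw [h3] at h1
        have h4 : (2 : K S W') * xK S W' u = 0 := by linear_combination h1
        rcases mul_eq_zero.1 h4 with h5 | h5
        · exact two_ne_zero h5
        · exact xK_ne_zero u h5
      rw [h1]
      simp [h2, sg]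

/-- The code of `2 + (-1)^b c_u c_v` in a copy. -/
def rhsC (a m : ℕ → ℕ → ℕ) (num neg : ℕ → ℕ) (S : ℕ → ℕ × ℕ) (c : ℕ → ℕ) (p : ℕ × Bool) : ℕ :=
  a (num 2) (m (cond p.2 (neg (num 1)) (num 1)) (m (c (S p.1).1) (c (S p.1).2)))

theorem computable_rhsC {a m : ℕ → ℕ → ℕ} {num neg : ℕ → ℕ} {c : ℕ → ℕ}
    (ha : Computable₂ a) (hm : Computable₂ m) (hS : Computable S) (hc : Computable c) :
    Computable (rhsC a m num neg S c) := by
  have hS1 : Computable fun p : ℕ × Bool => S p.1 := hS.comp Computable.fst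
  have h1 : Computable fun p : ℕ × Bool => c (S p.1).1 := hc.comp (Computable.fst.comp hS1)
  have h2 : Computable fun p : ℕ × Bool => c (S p.1).2 := hc.comp (Computable.snd.comp hS1)
  have h3 : Computable fun p : ℕ × Bool => cond p.2 (neg (num 1)) (num 1) :=
    Computable.cond Computable.snd (Computable.const _) (Computable.const _)
  exact ha.comp (Computable.const (num 2)) (hm.comp h3 (hm.comp h1 h2))

theorem eval_rhsC {F : Type} [Field F] {a m : ℕ → ℕ → ℕ} {num neg : ℕ → ℕ} {e : ℕ ≃ F}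
    (he : ∀ i j, e (a i j) = e i + e j ∧ e (m i j) = e i * e j)
    (hnum : ∀ k, e (num k) = k) (hneg : ∀ i, e (neg i) = - e i) (c : ℕ → ℕ) (p : ℕ × Bool) :
    e (rhsC a m num neg S c p) = 2 + (sg p.2 : F) * (e (c (S p.1).1) * e (c (S p.1).2)) := by
  rw [rhsC, (he _ _).1, (he _ _).2, (he _ _).2, hnum]
  cases p.2
  · rw [Bool.cond_false, hnum]
    simp [sg]
  · rw [Bool.cond_true, hneg, hnum]
    simp [sg]

/-- The r.e. index set read off from a copy. -/
theorem Z_eq (hS : ∀ n, (S n).1 < (S n).2) {a m : ℕ → ℕ → ℕ} {num neg : ℕ → ℕ}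
    {pw : ℕ → ℕ → ℕ} {e : ℕ ≃ K S A}
    (he : ∀ i j, e (a i j) = e i + e j ∧ e (m i j) = e i * e j)
    (hnum : ∀ k, e (num k) = k) (hneg : ∀ i, e (neg i) = - e i)
    (hpw : ∀ i k, e (pw i k) = e i ^ k) (c : ℕ → ℕ) (η : ℕ → Bool)
    (hc : ∀ u, e (c u) = (sg (η u) : K S A) * xK S A u) :
    (fun p : ℕ × Bool => ∃ y, pw y (ell p.1) = rhsC a m num neg S c p) = Act S η A := by
  have hcoe : ∀ (n : ℕ) (b : Bool),
      (((2 : K S A) + (sg b : K S A) * (e (c (S n).1) * e (c (S n).2)) : K S A) : ℝ) =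
        gam S n (xor b (xor (η (S n).1) (η (S n).2))) := by
    intro n b
    rw [hc, hc]
    push_cast
    rw [coe_xK, coe_xK, gam, sg_xor, sg_xor]
    push_cast
    have : ((2 : K S A) : ℝ) = 2 := rfl
    rw [this]
    ring
  funext p
  obtain ⟨n, b⟩ := p
  apply propext
  show (∃ y, pw y (ell n) = rhsC a m num neg S c (n, b)) ↔
    A (n, xor b (xor (η (S n).1) (η (S n).2)))
  constructor
  · rintro ⟨y, hy⟩
    by_contra hcon
    apply no_root S hS A n _ hcon (e y : K S A) (Subtype.mem _)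
    rw [← SubmonoidClass.coe_pow, ← hpw, hy, eval_rhsC he hnum hneg, ← hcoe n b]
  · intro hA
    refine ⟨e.symm ⟨rho S n _, rho_mem hA⟩, ?_⟩
    apply e.injective
    rw [hpw, eval_rhsC he hnum hneg, Equiv.apply_symm_apply]
    apply Subtype.ext
    rw [SubmonoidClass.coe_pow, hcoe n b]
    exact rho_pow S n _

/-- Third clause, given the sign vectors. -/
theorem third (hS : ∀ n, (S n).1 < (S n).2) (hSc : Computable S)
    {a m a' m' : ℕ → ℕ → ℕ} (ha : Computable₂ a) (hm : Computable₂ m) (ha' : Computable₂ a')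
    (hm' : Computable₂ m') (e : ℕ ≃ K S A) (e' : ℕ ≃ K S W)
    (he : ∀ i j, e (a i j) = e i + e j ∧ e (m i j) = e i * e j)
    (he' : ∀ i j, e' (a' i j) = e' i + e' j ∧ e' (m' i j) = e' i * e' j)
    {gx' : ℕ → ℕ} (hgx' : ∀ u, e' (gx' u) = xK S W u) (hgc' : Computable gx')
    (c : ℕ → ℕ) (hcc : Computable c) (η : ℕ → Bool) (hη : η 0 = false)
    (hc : ∀ u, e (c u) = (sg (η u) : K S A) * xK S A u)
    (δ : ℕ → Bool) (hδc : Computable δ) (hδ : δ 0 = false) (hact : Act S η A = Act S δ W) :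
    ∃ f : ℕ ≃ ℕ, Computable f ∧
      ∀ i j, f (a i j) = a' (f i) (f j) ∧ f (m i j) = m' (f i) (f j) := by
  obtain ⟨num, neg, pw, -, -, hpwc, hnum, hneg, hpw⟩ := ring_ops a m ha hm e he
  obtain ⟨num', neg', pw', -, hnegc', hpwc', hnum', hneg', hpw'⟩ := ring_ops a' m' ha' hm' e' he'
  -- the isomorphism
  have hW : W = Act S (fun u => xor (η u) (δ u)) A := by
    funext p
    obtain ⟨n, b⟩ := p
    have h1 := congrFun hact (n, xor b (xor (δ (S n).1) (δ (S n).2)))
    simp only [Act] at h1 ⊢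
    have e1 : xor (xor b (xor (δ (S n).1) (δ (S n).2))) (xor (δ (S n).1) (δ (S n).2)) = b := by
      cases b <;> cases δ (S n).1 <;> cases δ (S n).2 <;> rfl
    have e2 : xor (xor b (xor (δ (S n).1) (δ (S n).2))) (xor (η (S n).1) (η (S n).2)) =
        xor b (xor (xor (η (S n).1) (δ (S n).1)) (xor (η (S n).2) (δ (S n).2))) := by
      cases b <;> cases δ (S n).1 <;> cases δ (S n).2 <;> cases η (S n).1 <;>
        cases η (S n).2 <;> rfl
    rw [e1, e2] at h1
    exact h1.symm
  obtain ⟨θ, hθ⟩ := theta (W := A) (W' := W) hS (fun u => xor (η u) (δ u)) (by simp [hη, hδ]) hW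
  let f : ℕ ≃ ℕ := e.trans (θ.toEquiv.trans e'.symm)
  have hf : ∀ i, e' (f i) = θ (e i) := by
    intro i
    simp [f]
  have hfops : ∀ i j, f (a i j) = a' (f i) (f j) ∧ f (m i j) = m' (f i) (f j) := by
    intro i j
    constructor
    · apply e'.injective
      rw [hf, (he _ _).1, (he' _ _).1, map_add, hf, hf]
    · apply e'.injective
      rw [hf, (he _ _).2, (he' _ _).2, map_mul, hf, hf]
  -- codes of the signed square roots in the second copy
  let c' : ℕ → ℕ := fun u => cond (δ u) (neg' (gx' u)) (gx' u)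
  have hc' : ∀ u, e' (c' u) = (sg (δ u) : K S W) * xK S W u := by
    intro u
    show e' (cond (δ u) (neg' (gx' u)) (gx' u)) = _
    cases δ u
    · rw [Bool.cond_false, hgx']
      simp [sg]
    · rw [Bool.cond_true, hneg', hgx']
      simp [sg]
  have hcc' : Computable c' := Computable.cond hδc (hnegc'.comp hgc') hgc'
  have hfc : ∀ u, f (c u) = c' u := by
    intro u
    apply e'.injective
    rw [hf, hc, hc', map_mul, map_intCast, hθ, ← mul_assoc, ← Int.cast_mul, sg_xor, ← mul_assoc,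
      sg_sq, one_mul]
  refine ⟨f, ?_, hfops⟩
  apply iso_computable a m a' m' ha hm ha' hm' e e' he he' f θ hf
    (fun q => (∃ u, q = (c u, c' u)) ∨ ∃ p : ℕ × Bool,
      pw q.1 (ell p.1) = rhsC a m num neg S c p ∧ pw' q.2 (ell p.1) = rhsC a' m' num' neg' S c' p)
  · apply re_or
    · exact re_range (f := fun u => (c u, c' u)) (hcc.pair hcc')
    · apply re_exists (p := fun (q : ℕ × ℕ) (p : ℕ × Bool) =>
        pw q.1 (ell p.1) = rhsC a m num neg S c p ∧ pw' q.2 (ell p.1) = rhsC a' m' num' neg' S c' p)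
      apply re_and
      · apply re_eq
        · exact hpwc.comp (Computable.fst.comp Computable.fst)
            (computable_ell.comp (Computable.fst.comp Computable.snd))
        · exact (computable_rhsC ha hm hSc hcc).comp Computable.snd
      · apply re_eq
        · exact hpwc'.comp (Computable.snd.comp Computable.fst)
            (computable_ell.comp (Computable.fst.comp Computable.snd))
        · exact (computable_rhsC ha' hm' hSc hcc').comp Computable.snd
  · rintro ⟨y, y'⟩ (⟨u, hu⟩ | ⟨p, hp1, hp2⟩)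
    · obtain ⟨h1, h2⟩ := Prod.mk.inj hu
      simp only
      rw [h1, h2, hfc]
    · simp only at hp1 hp2 ⊢
      apply e'.injective
      rw [hf]
      have h1 := congrArg e hp1
      rw [hpw, eval_rhsC he hnum hneg] at h1
      have h2 := congrArg e' hp2
      rw [hpw', eval_rhsC he' hnum' hneg', ← hfc, ← hfc, hf, hf] at h2
      have h3 := congrArg θ h1
      rw [map_pow, map_add, map_mul, map_mul, map_intCast, map_ofNat] at h3
      have h4 : (e' y') ^ ell p.1 = (θ (e y)) ^ ell p.1 := by rw [h2, h3]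
      apply Subtype.ext
      apply (ALG.ell_odd p.1).strictMono_pow.injective
      show ((e' y' : K S W) : ℝ) ^ ell p.1 = ((θ (e y) : K S W) : ℝ) ^ ell p.1
      rw [← SubmonoidClass.coe_pow, ← SubmonoidClass.coe_pow, h4]
  · -- generation
    set T := {k : K S A | ∃ q : ℕ × ℕ, ((∃ u, q = (c u, c' u)) ∨ ∃ p : ℕ × Bool,
      pw q.1 (ell p.1) = rhsC a m num neg S c p ∧
      pw' q.2 (ell p.1) = rhsC a' m' num' neg' S c' p) ∧ k = e q.1} with hT
    have hxT : ∀ u, xK S A u ∈ Subfield.closure T := by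
      intro u
      have h1 : e (c u) ∈ Subfield.closure T :=
        Subfield.subset_closure ⟨(c u, c' u), Or.inl ⟨u, rfl⟩, rfl⟩
      rw [hc] at h1
      have h2 : xK S A u = (sg (η u) : K S A) * ((sg (η u) : K S A) * xK S A u) := by
        rw [← mul_assoc, ← Int.cast_mul, sg_sq]
        simp
      rw [h2]
      exact mul_mem (intCast_mem _ _) h1
    have hle : K S A ≤ (Subfield.closure T).map (K S A).subtype := by
      refine Subfield.closure_le.2 ?_
      rintro _ (⟨u, rfl⟩ | ⟨n, b, hA, rfl⟩)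
      · exact ⟨xK S A u, hxT u, rfl⟩
      · refine ⟨⟨rho S n b, rho_mem hA⟩, ?_, rfl⟩
        apply Subfield.subset_closure
        set y := e.symm ⟨rho S n b, rho_mem hA⟩ with hy
        have hey : e y = ⟨rho S n b, rho_mem hA⟩ := by rw [hy, Equiv.apply_symm_apply]
        set b' := xor b (xor (η (S n).1) (η (S n).2)) with hb'
        have h1 : pw y (ell n) = rhsC a m num neg S c (n, b') := by
          apply e.injective
          rw [hpw, eval_rhsC he hnum hneg, hey]
          apply Subtype.ext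
          rw [SubmonoidClass.coe_pow]
          simp only
          rw [rho_pow, gam, hc, hc, hb', sg_xor, sg_xor]
          push_cast
          rw [coe_xK, coe_xK]
          have h2c : ((2 : K S A) : ℝ) = 2 := rfl
          rw [h2c]
          have s1' : ((sg (η (S n).1) : ℤ) : ℝ) * (sg (η (S n).1) : ℤ) = 1 := by
            exact_mod_cast congrArg (Int.cast : ℤ → ℝ) (sg_sq (η (S n).1))
          have s2' : ((sg (η (S n).2) : ℤ) : ℝ) * (sg (η (S n).2) : ℤ) = 1 := by
            exact_mod_cast congrArg (Int.cast : ℤ → ℝ) (sg_sq (η (S n).2))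
          linear_combination -(sg b : ℝ) * (x (S n).1 * x (S n).2) *
            ((sg (η (S n).2) : ℤ) : ℝ) * (sg (η (S n).2) : ℤ) * s1' -
            (sg b : ℝ) * (x (S n).1 * x (S n).2) * s2'
        refine ⟨(y, f y), Or.inr ⟨(n, b'), h1, ?_⟩, hey.symm⟩
        simp only
        apply e'.injective
        rw [hpw', eval_rhsC he' hnum' hneg', ← hfc, ← hfc, hf, hf, hf]
        have h3 := congrArg θ (congrArg e h1)
        rw [hpw, eval_rhsC he hnum hneg, map_pow, map_add, map_mul, map_mul, map_intCast,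
          map_ofNat] at h3
        exact h3
    rw [eq_top_iff]
    intro z _
    obtain ⟨w, hw1, hw2⟩ := hle z.2
    have : w = z := Subtype.ext hw2
    rw [← this]
    exact hw1

end Copies

end ASM

open ASM COMP in
/-- MODULE ASM. -/
theorem assemble
    (dyn : ∃ (S : ℕ → ℕ × ℕ) (A B : ℕ × Bool → Prop),
      Computable S ∧ (∀ n, (S n).1 < (S n).2) ∧ REPred A ∧ REPred B ∧
      (∃ ε : ℕ → Bool, ε 0 = false ∧ B = Act S ε A) ∧
      (¬ ∃ ε : ℕ → Bool, Computable ε ∧ ε 0 = false ∧ B = Act S ε A) ∧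
      (∀ Z : ℕ × Bool → Prop, REPred Z → (∃ ε : ℕ → Bool, ε 0 = false ∧ Z = Act S ε A) →
        ∃ δ : ℕ → Bool, Computable δ ∧ δ 0 = false ∧ (Z = Act S δ A ∨ Z = Act S δ B))) :
    ∃ (K : Type) (_ : Field K), Algebra.IsAlgebraic (⊥ : Subfield K) K ∧
      ∃ n : ℕ, 2 ≤ n ∧ ∃ (A M : Fin n → ℕ → ℕ → ℕ),
        (∀ i, Computable₂ (A i) ∧ Computable₂ (M i) ∧
            ∃ e : ℕ ≃ K, ∀ x y : ℕ, e (A i x y) = e x + e y ∧ e (M i x y) = e x * e y) ∧
        (∀ i j : Fin n, i ≠ j →
            ¬ ∃ f : ℕ ≃ ℕ, Computable (⇑f) ∧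
              ∀ x y : ℕ, f (A i x y) = A j (f x) (f y) ∧ f (M i x y) = M j (f x) (f y)) ∧
        (∀ a m : ℕ → ℕ → ℕ, Computable₂ a → Computable₂ m →
            (∃ e : ℕ ≃ K, ∀ x y : ℕ, e (a x y) = e x + e y ∧ e (m x y) = e x * e y) →
            ∃ i : Fin n, ∃ f : ℕ ≃ ℕ, Computable (⇑f) ∧
              ∀ x y : ℕ, f (a x y) = A i (f x) (f y) ∧ f (m x y) = M i (f x) (f y)) := by
  classical
  obtain ⟨S, A, B, hSc, hS, hA, hB, ⟨ε0, hε0, hBA⟩, hnc, hthird⟩ := dyn
  obtain ⟨a0, m0, e0, gx0, ha0, hm0, hgc0, he0, hgx0⟩ := COMP.presentation_of S hSc A hA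
    (rho_pow S) (fun R _ _ X Y h0 h1 h2 => universal S hS A R X Y h0 h1 h2)
  obtain ⟨a1, m1, e1, gx1, ha1, hm1, hgc1, he1, hgx1⟩ := COMP.presentation_of S hSc B hB
    (rho_pow S) (fun R _ _ X Y h0 h1 h2 => universal S hS B R X Y h0 h1 h2)
  have hgx0' : ∀ u, e0 (gx0 u) = xK S A u := fun u => Subtype.ext (hgx0 u)
  have hgx1' : ∀ u, e1 (gx1 u) = xK S B u := fun u => Subtype.ext (hgx1 u)
  obtain ⟨θ, hθ⟩ := theta (W := A) (W' := B) hS ε0 hε0 hBA
  have hno01 : ¬ ∃ f : ℕ ≃ ℕ, Computable (⇑f) ∧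
      ∀ x y : ℕ, f (a0 x y) = a1 (f x) (f y) ∧ f (m0 x y) = m1 (f x) (f y) := by
    rintro ⟨f, hfc, hf⟩
    exact hnc (act_of_iso hS e0 e1 he0 he1 hgx0' hgx1' hgc0 hgc1 f hfc hf)
  have hno10 : ¬ ∃ f : ℕ ≃ ℕ, Computable (⇑f) ∧
      ∀ x y : ℕ, f (a1 x y) = a0 (f x) (f y) ∧ f (m1 x y) = m0 (f x) (f y) := by
    rintro ⟨f, hfc, hf⟩
    obtain ⟨ε, hεc, hε, hact⟩ := act_of_iso hS e1 e0 he1 he0 hgx1' hgx0' hgc1 hgc0 f hfc hf
    apply hnc
    refine ⟨ε, hεc, hε, ?_⟩
    rw [hact]
    funext p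
    obtain ⟨n, b⟩ := p
    simp only [Act]
    congr 2
    cases b <;> cases ε (S n).1 <;> cases ε (S n).2 <;> rfl
  refine ⟨K S A, inferInstance, isAlgebraic S A, 2, le_rfl, ![a0, a1], ![m0, m1], ?_, ?_, ?_⟩
  · intro i
    fin_cases i
    · exact ⟨ha0, hm0, e0, he0⟩
    · refine ⟨ha1, hm1, e1.trans θ.symm.toEquiv, ?_⟩
      intro x y
      constructor
      · show θ.symm (e1 (a1 x y)) = θ.symm (e1 x) + θ.symm (e1 y)
        rw [(he1 x y).1, map_add]
      · show θ.symm (e1 (m1 x y)) = θ.symm (e1 x) * θ.symm (e1 y)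
        rw [(he1 x y).2, map_mul]
  · intro i j hij
    fin_cases i <;> fin_cases j
    · exact absurd rfl hij
    · exact hno01
    · exact hno10
    · exact absurd rfl hij
  · intro a m ha hm ⟨e, he⟩
    obtain ⟨num, neg, pw, hnumc, hnegc, hpwc, hnum, hneg, hpw⟩ := ring_ops a m ha hm e he
    -- choice of square roots
    have hP : ComputablePred fun q : ℕ × ℕ => m q.2 q.2 = num (pr q.1) := by
      apply Computable.computablePred
      exact (Primrec.eq.decide.to_comp).comp (hm.comp Computable.snd Computable.snd)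
        (hnumc.comp (computable_pr.comp Computable.fst))
    have hex : ∀ u : ℕ, ∃ y, m y y = num (pr u) := by
      intro u
      refine ⟨e.symm (xK S A u), ?_⟩
      apply e.injective
      rw [(he _ _).2, Equiv.apply_symm_apply, ← sq, xK_sq, hnum]
    have hfind : Computable fun u => Nat.find (hex u) :=
      Computable.find (P := fun u y : ℕ => m y y = num (pr u)) hP hex
    let c : ℕ → ℕ := fun u => cond (decide (u = 0)) (num 1) (Nat.find (hex u))
    have hcc : Computable c :=
      Computable.cond ((Primrec.eq.decide.to_comp).comp Computable.id (Computable.const 0))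
        (Computable.const _) hfind
    have hcsq : ∀ u, e (c u) ^ 2 = (pr u : K S A) := by
      intro u
      by_cases hu : u = 0
      · subst hu
        show e (cond (decide (0 = 0)) (num 1) _) ^ 2 = _
        simp only [decide_true, cond_true]
        rw [hnum]
        simp [pr]
      · show e (cond (decide (u = 0)) (num 1) _) ^ 2 = _
        simp only [hu, decide_false, cond_false]
        rw [sq, ← (he _ _).2, Nat.find_spec (hex u), hnum]
    have hη : ∀ u, ∃ b : Bool, e (c u) = (sg b : K S A) * xK S A u := by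
      intro u
      have h1 : e (c u) ^ 2 = xK S A u ^ 2 := by rw [hcsq, xK_sq]
      rcases sq_eq_sq_iff_eq_or_eq_neg.1 h1 with h2 | h2
      · exact ⟨false, by rw [h2]; simp [sg]⟩
      · exact ⟨true, by rw [h2]; simp [sg]⟩
    choose η hη using hη
    have hη0 : η 0 = false := by
      by_contra hcon
      have h1 : η 0 = true := by simpa using hcon
      have h2 := hη 0
      have h3 : e (c 0) = 1 := by
        show e (cond (decide (0 = 0)) (num 1) _) = _
        simp only [decide_true, cond_true]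
        rw [hnum]
        simp
      rw [h1, h3, xK_zero] at h2
      simp only [sg, if_true] at h2
      have h4 : (2 : K S A) = 0 := by
        push_cast at h2
        linear_combination h2
      exact two_ne_zero h4
    have hZ := Z_eq hS he hnum hneg hpw c η hη
    have hZre : REPred (fun p : ℕ × Bool => ∃ y, pw y (ell p.1) = rhsC a m num neg S c p) := by
      apply re_exists (p := fun (p : ℕ × Bool) (y : ℕ) => pw y (ell p.1) = rhsC a m num neg S c p)
      apply re_eq
      · exact hpwc.comp Computable.snd (computable_ell.comp (Computable.fst.comp Computable.fst))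
      · exact (computable_rhsC ha hm hSc hcc).comp Computable.fst
    rw [hZ] at hZre
    obtain ⟨δ, hδc, hδ, hcase⟩ := hthird _ hZre ⟨η, hη0, rfl⟩
    rcases hcase with hcase | hcase
    · obtain ⟨f, hfc, hf⟩ := third hS hSc ha hm ha0 hm0 e e0 he he0 hgx0' hgc0 c hcc η hη0 hη
        δ hδc hδ hcase
      exact ⟨0, f, hfc, hf⟩
    · obtain ⟨f, hfc, hf⟩ := third hS hSc ha hm ha1 hm1 e e1 he he1 hgx1' hgc1 c hcc η hη0 hη
        δ hδc hδ hcase
      exact ⟨1, f, hfc, hf⟩

end Pool.Agent.H91.CD
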