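import Pool.Agent.H91.CD.Elem
import Pool.Agent.H91.CD.COMP

set_option autoImplicit false

/-!
MODULE DC: computability of the stage construction.
-/

namespace Pool.Agent.H91.CD.Dyn

namespace DC

variable {α : Type} [Primcodable α]

/-! ### Small closure lemmas -/

theorem add' {f g : α → ℕ} (hf : Primrec f) (hg : Primrec g) :
    Primrec fun a => f a + g a := Primrec.nat_add.comp hf hg

theorem sub' {f g : α → ℕ} (hf : Primrec f) (hg : Primrec g) :
    Primrec fun a => f a - g a := Primrec.nat_sub.comp hf hg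

theorem mul' {f g : α → ℕ} (hf : Primrec f) (hg : Primrec g) :
    Primrec fun a => f a * g a := Primrec.nat_mul.comp hf hg

theorem mod' {f g : α → ℕ} (hf : Primrec f) (hg : Primrec g) :
    Primrec fun a => f a % g a := Primrec.nat_mod.comp hf hg

theorem div' {f g : α → ℕ} (hf : Primrec f) (hg : Primrec g) :
    Primrec fun a => f a / g a := Primrec.nat_div.comp hf hg

theorem cn (n : ℕ) : Primrec fun _ : α => n := Primrec.const n

theorem eq' {β : Type} [Primcodable β] {f g : α → β} (hf : Primrec f) (hg : Primrec g) :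
    PrimrecPred fun a => f a = g a := Primrec.eq.comp hf hg

theorem le' {f g : α → ℕ} (hf : Primrec f) (hg : Primrec g) :
    PrimrecPred fun a => f a ≤ g a := Primrec.nat_le.comp hf hg

theorem lt' {f g : α → ℕ} (hf : Primrec f) (hg : Primrec g) :
    PrimrecPred fun a => f a < g a := Primrec.nat_lt.comp hf hg

theorem imp' {p q : α → Prop} (hp : PrimrecPred p) (hq : PrimrecPred q) :
    PrimrecPred fun a => p a → q a := (hp.not.or hq).of_eq fun a => by tauto

theorem forall_lt' {R : ℕ → α → Prop} (hR : PrimrecRel R) {n : α → ℕ} (hn : Primrec n) :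
    PrimrecPred fun a => ∀ x < n a, R x a :=
  (hR.forall_mem_list.comp (Primrec.list_range.comp hn) Primrec.id).of_eq (by simp)

theorem rd' {m : α → Mem} {k : α → ℕ} (hm : Primrec m) (hk : Primrec k) :
    Primrec fun a => rd (m a) (k a) :=
  Primrec.option_getD.comp (Primrec.listLookup.comp hk hm) (Primrec.const 0)

theorem cons' {m : α → Mem} {k v : α → ℕ} (hk : Primrec k) (hv : Primrec v) (hm : Primrec m) :
    Primrec fun a => (k a, v a) :: m a :=
  Primrec.list_cons.comp (hk.pair hv) hm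

section Keys

variable {f g : α → ℕ}

theorem k1 (hf : Primrec f) (c : ℕ) : Primrec fun a => 24 * f a + c :=
  add' (mul' (cn 24) hf) (cn c)

theorem kRoot' (hf : Primrec f) : Primrec fun a => kRoot (f a) := mul' (cn 24) hf
theorem kPar' (hf : Primrec f) : Primrec fun a => kPar (f a) := k1 hf 1
theorem kPlab' (hf : Primrec f) : Primrec fun a => kPlab (f a) := k1 hf 2
theorem kMd' (hf : Primrec f) : Primrec fun a => kMd (f a) := k1 hf 3
theorem kLab' (hf : Primrec f) : Primrec fun a => kLab (f a) := k1 hf 4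
theorem kNJ' (hf : Primrec f) : Primrec fun a => kNJ (f a) := k1 hf 5
theorem kNH' (hf : Primrec f) : Primrec fun a => kNH (f a) := k1 hf 6
theorem kMark' (hf : Primrec f) : Primrec fun a => kMark (f a) := k1 hf 7
theorem kAw' (hf : Primrec f) (hg : Primrec g) : Primrec fun a => kAw (f a) (g a) :=
  add' (k1 hf 8) hg
theorem kCh' (hf : Primrec f) (hg : Primrec g) : Primrec fun a => kCh (f a) (g a) :=
  add' (k1 hf 12) hg
theorem kCst' (hf : Primrec f) : Primrec fun a => kCst (f a) := k1 hf 17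
theorem kClab' (hf : Primrec f) : Primrec fun a => kClab (f a) := k1 hf 18
theorem kEu' (hf : Primrec f) : Primrec fun a => kEu (f a) := k1 hf 19
theorem kEv' (hf : Primrec f) : Primrec fun a => kEv (f a) := k1 hf 20

theorem joined' (hf : Primrec f) : PrimrecPred fun a => joined (f a) :=
  (eq' hf (cn 1)).or ((eq' hf (cn 2)).or (eq' hf (cn 5)))

theorem held' (hf : Primrec f) : PrimrecPred fun a => held (f a) :=
  (eq' hf (cn 2)).or ((eq' hf (cn 3)).or ((eq' hf (cn 4)).or (eq' hf (cn 5))))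

theorem pend' (hf : Primrec f) : PrimrecPred fun a => pend (f a) :=
  (eq' hf (cn 2)).or (eq' hf (cn 5))

end Keys

variable {U : ℕ → ℕ → ℕ → Bool → Bool} {φ : ℕ → ℕ → ℕ → ℕ}

/-- The hypothesis on `U`. -/
abbrev HU (U : ℕ → ℕ → ℕ → Bool → Bool) : Prop :=
  Primrec fun p : ((ℕ × ℕ) × ℕ) × Bool => U p.1.1.1 p.1.1.2 p.1.2 p.2

/-- The hypothesis on `φ`. -/
abbrev HP (φ : ℕ → ℕ → ℕ → ℕ) : Prop :=
  Primrec fun p : (ℕ × ℕ) × ℕ => φ p.1.1 p.1.2 p.2

theorem U' (hU : HU U) {i s n : α → ℕ} {b : α → Bool} (hi : Primrec i) (hs : Primrec s)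
    (hn : Primrec n) (hb : Primrec b) : Primrec fun a => U (i a) (s a) (n a) (b a) :=
  (show Primrec fun p : ((ℕ × ℕ) × ℕ) × Bool => U p.1.1.1 p.1.1.2 p.1.2 p.2 from hU).comp
    (((hi.pair hs).pair hn).pair hb)

theorem P' (hP : HP φ) {i s x : α → ℕ} (hi : Primrec i) (hs : Primrec s) (hx : Primrec x) :
    Primrec fun a => φ (i a) (s a) (x a) :=
  (show Primrec fun p : (ℕ × ℕ) × ℕ => φ p.1.1 p.1.2 p.2 from hP).comp ((hi.pair hs).pair hx)

theorem one' (hU : HU U) {i s n : α → ℕ} (hi : Primrec i) (hs : Primrec s) (hn : Primrec n) :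
    Primrec fun a => one U (i a) (s a) (n a) :=
  (Primrec.dom_bool₂ xor).comp (U' hU hi hs hn (Primrec.const false))
    (U' hU hi hs hn (Primrec.const true))

theorem toNat' {b : α → Bool} (hb : Primrec b) : Primrec fun a => (b a).toNat :=
  (Primrec.dom_bool Bool.toNat).comp hb

theorem cux' (hU : HU U) {i s mk x : α → ℕ} {m : α → Mem} (hi : Primrec i) (hs : Primrec s)
    (hm : Primrec m) (hmk : Primrec mk) (hx : Primrec x) :
    PrimrecPred fun a => cux U (i a) (s a) (m a) (mk a) (x a) := by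
  have hd := rd' hm (kMd' hx)
  have hJ := rd' hm (kNJ' hx)
  have hH := rd' hm (kNH' hx)
  have hR := rd' hm (kNH' (rd' hm (kRoot' hx)))
  refine PrimrecPred.and ?_ (PrimrecPred.and ?_ ?_)
  · exact imp' (joined' hd) (imp' (le' hJ hmk) (eq' (one' hU hi hs hJ) (Primrec.const true)))
  · exact imp' (held' hd) (imp' (le' hH hmk) (eq' (one' hU hi hs hH) (Primrec.const true)))
  · exact imp' (pend' hd) (imp' (le' hJ hmk) (imp' (le' hH hmk) (imp' (le' hR hmk)
      (eq' (U' hU hi hs hH (Primrec.const true))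
        ((Primrec.dom_bool₂ xor).comp (U' hU hi hs hR (Primrec.const true))
          (U' hU hi hs hJ (Primrec.const true)))))))

theorem cu' (hU : HU U) {i s mk : α → ℕ} {m : α → Mem} (hi : Primrec i) (hs : Primrec s)
    (hm : Primrec m) (hmk : Primrec mk) :
    PrimrecPred fun a => cu U (i a) (s a) (m a) (mk a) := by
  have h : PrimrecRel fun (x : ℕ) (a : α) => cux U (i a) (s a) (m a) (mk a) x :=
    PrimrecPred.primrecRel (p := fun q : ℕ × α => cux U (i q.2) (s q.2) (m q.2) (mk q.2) q.1)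
      (cux' hU (hi.comp Primrec.snd) (hs.comp Primrec.snd) (hm.comp Primrec.snd)
        (hmk.comp Primrec.snd) Primrec.fst)
  exact forall_lt' h (add' hs (cn 2))

theorem start' (hP : HP φ) {k y w l s : α → ℕ} (hk : Primrec k) (hy : Primrec y)
    (hw : Primrec w) (hl : Primrec l) (hs : Primrec s) :
    PrimrecPred fun a => start φ (k a) (y a) (w a) (l a) (s a) := by
  have h1 := mod' hk (cn 2)
  have h2 := P' hP (div' hk (cn 2)) hs hy
  refine PrimrecPred.or ?_ ?_
  · exact (eq' h1 (cn 0)).and (eq' hw hl).not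
  · exact (eq' h1 (cn 1)).and ((eq' h2 (cn 0)).not.and (eq' h2 (add' hw (cn 1))).not)

theorem chosen' (hU : HU U) {i s y : α → ℕ} {m : α → Mem} (hi : Primrec i) (hs : Primrec s)
    (hm : Primrec m) (hy : Primrec y) :
    Primrec fun a => chosen U (i a) (s a) (m a) (y a) := by
  have h0 : Primrec fun a => (U (i a) (s a) (rd (m a) (kNH (y a))) true).toNat :=
    toNat' (U' hU hi hs (rd' hm (kNH' hy)) (Primrec.const true))
  have hl := rd' hm (kLab' hy)
  have h1 := add' (cn 2) (mod' (add' h0 hl) (cn 2))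
  exact Primrec.ite (eq' (rd' hm (kAw' hy h0)) hl) h0
    (Primrec.ite (eq' (rd' hm (kAw' hy h1)) hl) h1 (cn 4))

section Loc

variable {s k : α → ℕ} {m : α → Mem} {l : α → Loc}

theorem act' (hU : HU U) (hP : HP φ) (hs : Primrec s) (hm : Primrec m) (hk : Primrec k)
    (hl : Primrec l) : Primrec fun a => act U φ (s a) (m a) (k a) (l a) := by
  have hl1 : Primrec fun a => (l a).1 := Primrec.fst.comp hl
  have hl2 : Primrec fun a => (l a).2.1 := Primrec.fst.comp (Primrec.snd.comp hl)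
  have hl3 : Primrec fun a => (l a).2.2.1 :=
    Primrec.fst.comp (Primrec.snd.comp (Primrec.snd.comp hl))
  have hl4 : Primrec fun a => (l a).2.2.2 :=
    Primrec.snd.comp (Primrec.snd.comp (Primrec.snd.comp hl))
  have hy := rd' hm (kCh' hl1 hl2)
  have hd := rd' hm (kMd' hy)
  have hlab := rd' hm (kLab' hy)
  have hk2 := div' hk (cn 2)
  have hkm := mod' hk (cn 2)
  have hcu := cu' hU hk2 hs hm (rd' hm (kMark' hy))
  exact Primrec.ite ((eq' hd (cn 0)).or (eq' hd (cn 6))) (cn 1)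
    (Primrec.ite (eq' hd (cn 1))
      (Primrec.ite (start' hP hk hy hl4 hlab hs) (cn 2) (cn 0))
      (Primrec.ite (eq' hd (cn 3))
        (Primrec.ite ((eq' hkm (cn 0)).and hcu) (cn 3) (cn 0))
        (Primrec.ite (eq' hd (cn 4))
          (Primrec.ite ((eq' hkm (cn 0)).and ((eq' hl4 hlab).and hcu)) (cn 4) (cn 0))
          (cn 5))))

theorem nxt' (hU : HU U) (hP : HP φ) (hs : Primrec s) (hm : Primrec m) (hk : Primrec k)
    (hl : Primrec l) : Primrec fun a => nxt U φ (s a) (m a) (k a) (l a) := by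
  have hl1 : Primrec fun a => (l a).1 := Primrec.fst.comp hl
  have hl2 : Primrec fun a => (l a).2.1 := Primrec.fst.comp (Primrec.snd.comp hl)
  have hl3 : Primrec fun a => (l a).2.2.1 :=
    Primrec.fst.comp (Primrec.snd.comp (Primrec.snd.comp hl))
  have hl4 : Primrec fun a => (l a).2.2.2 :=
    Primrec.snd.comp (Primrec.snd.comp (Primrec.snd.comp hl))
  have hy := rd' hm (kCh' hl1 hl2)
  have hlab := rd' hm (kLab' hy)
  have hc := act' hU hP hs hm hk hl
  have hch := chosen' hU (div' hk (cn 2)) hs hm hy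
  exact Primrec.ite (eq' hc (cn 0))
    (Primrec.option_some.comp (hy.pair ((cn 4).pair (hl3.pair hl4))))
    (Primrec.ite ((eq' hc (cn 3)).and (lt' hch (cn 4)))
      (Primrec.option_some.comp (hy.pair (hch.pair (hy.pair hlab)))) (Primrec.const none))

theorem wrs' (hU : HU U) (hP : HP φ) {M : α → Mem} (hs : Primrec s) (hm : Primrec m)
    (hk : Primrec k) (hl : Primrec l) (hM : Primrec M) :
    Primrec fun a => wrs U φ (s a) (m a) (k a) (l a) (M a) := by
  have hl1 : Primrec fun a => (l a).1 := Primrec.fst.comp hl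
  have hl2 : Primrec fun a => (l a).2.1 := Primrec.fst.comp (Primrec.snd.comp hl)
  have hl3 : Primrec fun a => (l a).2.2.1 :=
    Primrec.fst.comp (Primrec.snd.comp (Primrec.snd.comp hl))
  have hl4 : Primrec fun a => (l a).2.2.2 :=
    Primrec.snd.comp (Primrec.snd.comp (Primrec.snd.comp hl))
  have hy := rd' hm (kCh' hl1 hl2)
  have hc := act' hU hP hs hm hk hl
  have hch := chosen' hU (div' hk (cn 2)) hs hm hy
  have hs2 := add' hs (cn 2)
  refine Primrec.ite (eq' hc (cn 1)) ?_ (Primrec.ite (eq' hc (cn 2)) ?_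
    (Primrec.ite (eq' hc (cn 3)) (Primrec.ite (lt' hch (cn 4)) ?_ ?_)
      (Primrec.ite (eq' hc (cn 4)) ?_ hM)))
  · exact cons' (kRoot' hs2) hl3 (cons' (kPar' hs2) hl1 (cons' (kPlab' hs2) hl2
      (cons' (kMd' hs2) (cn 1) (cons' (kNJ' hs2) hs (cons' (kCh' hl1 hl2) hs2
        (cons' (kEu' hs) hl3 (cons' (kEv' hs) hs2 hM)))))))
  · exact cons' (kMd' hy) (cn 2) (cons' (kLab' hy) hl4 (cons' (kNH' hy) hs
      (cons' (kMark' hy) hs (cons' (kEv' hs) hy hM))))
  · exact cons' (kMd' hy) (cn 4) (cons' (kMark' hy) hs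
      (cons' (kAw' hy hch) (sub' (cn 1) (rd' hm (kAw' hy hch)))
        (cons' (kCst' hy) (add' hs (cn 1)) (cons' (kClab' hy) hch hM))))
  · exact cons' (kMd' hy) (cn 4) (cons' (kMark' hy) hs hM)
  · exact cons' (kMd' hy) (cn 5) (cons' (kNJ' hy) hs (cons' (kEu' hs) hl3
      (cons' (kEv' hs) hy hM)))

theorem locm' (hU : HU U) (hP : HP φ) (hs : Primrec s) (hm : Primrec m) (hk : Primrec k) :
    Primrec fun a => locm U φ (s a) (m a) (k a) := by
  have h : Primrec₂ fun (a : α) (q : ℕ × Option Loc) => q.2.bind (nxt U φ (s a) (m a) q.1) := by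
    refine Primrec.option_bind (Primrec.snd.comp Primrec.snd) ?_
    exact nxt' hU hP (α := (α × (ℕ × Option Loc)) × Loc)
      (hs.comp (Primrec.fst.comp Primrec.fst)) (hm.comp (Primrec.fst.comp Primrec.fst))
      (Primrec.fst.comp (Primrec.snd.comp Primrec.fst)) Primrec.snd
  have h0 : Primrec fun a => (some (1, 4, 1, s a % 2) : Option Loc) :=
    Primrec.option_some.comp ((cn 1).pair ((cn 4).pair ((cn 1).pair (mod' hs (cn 2)))))
  refine (Primrec.nat_rec' hk h0 h).of_eq fun a => ?_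
  induction k a with
  | zero => rfl
  | succ n ih => exact congrArg (fun o => Option.bind o (nxt U φ (s a) (m a) n)) ih

theorem acc' (hU : HU U) (hP : HP φ) (hs : Primrec s) (hm : Primrec m) (hk : Primrec k) :
    Primrec fun a => acc U φ (s a) (m a) (k a) := by
  have h : Primrec₂ fun (a : α) (q : ℕ × Mem) =>
      (Option.casesOn (locm U φ (s a) (m a) q.1) q.2
        (fun l => wrs U φ (s a) (m a) q.1 l q.2) : Mem) := by
    refine Primrec.option_casesOn ?_ (Primrec.snd.comp Primrec.snd) ?_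
    · exact locm' hU hP (α := α × (ℕ × Mem)) (hs.comp Primrec.fst) (hm.comp Primrec.fst)
        (Primrec.fst.comp Primrec.snd)
    · exact wrs' hU hP (α := (α × (ℕ × Mem)) × Loc) (hs.comp (Primrec.fst.comp Primrec.fst))
        (hm.comp (Primrec.fst.comp Primrec.fst)) (Primrec.fst.comp (Primrec.snd.comp Primrec.fst))
        Primrec.snd (Primrec.snd.comp (Primrec.snd.comp Primrec.fst))
  refine (Primrec.nat_rec' hk hm h).of_eq fun a => ?_
  induction k a with
  | zero => rfl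
  | succ n ih =>
    rw [acc]
    change (Option.casesOn (locm U φ (s a) (m a) n) _ _ : Mem) = _
    rw [ih]
    cases locm U φ (s a) (m a) n <;> rfl

theorem newmd' {x : α → ℕ} {m1 : α → Mem} (hs : Primrec s) (hm1 : Primrec m1) (hm : Primrec m)
    (hx : Primrec x) : Primrec fun a => newmd (s a) (m1 a) (m a) (x a) := by
  have hd := rd' hm1 (kMd' hx)
  have hp := rd' hm1 (kPar' hx)
  have hr := rd' hm1 (kRoot' hx)
  have hrm := rd' hm (kMd' hr)
  refine Primrec.ite (eq' hd (cn 0)) (cn 0) (Primrec.ite ?_ (cn 6)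
    (Primrec.ite ?_ (Primrec.ite (eq' hd (cn 2)) (cn 3) (cn 1)) hd))
  · exact (eq' hd (cn 6)).or ((eq' (rd' hm (kMd' hp)) (cn 6)).or
      ((eq' (rd' hm1 (kCst' hp)) (add' hs (cn 1))).and
        (lt' (rd' hm1 (kClab' hp)) (rd' hm1 (kPlab' hx)))))
  · exact (pend' hd).and ((eq' hr (cn 1)).or ((pend' (rd' hm1 (kMd' hr))).and
      ((eq' hrm (cn 1)).or (eq' hrm (cn 3)))))

theorem sweep' {x : α → ℕ} {m1 : α → Mem} (hs : Primrec s) (hm1 : Primrec m1)
    (hx : Primrec x) : Primrec fun a => sweep (s a) (m1 a) (x a) := by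
  have h : Primrec₂ fun (a : α) (q : ℕ × Mem) =>
      if q.1 < 2 then q.2 else (kMd q.1, newmd (s a) (m1 a) q.2 q.1) :: q.2 := by
    have hq1 : Primrec fun p : α × (ℕ × Mem) => p.2.1 := Primrec.fst.comp Primrec.snd
    have hq2 : Primrec fun p : α × (ℕ × Mem) => p.2.2 := Primrec.snd.comp Primrec.snd
    exact Primrec.ite (lt' hq1 (cn 2)) hq2
      (cons' (kMd' hq1) (newmd' (hs.comp Primrec.fst) (hm1.comp Primrec.fst) hq2 hq1) hq2)
  refine (Primrec.nat_rec' hx hm1 h).of_eq fun a => ?_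
  induction x a with
  | zero => rfl
  | succ n ih =>
    rw [sweep]
    change (if n < 2 then _ else _) = _
    rw [ih]

end Loc

end DC

open DC

section DC
variable {U : ℕ → ℕ → ℕ → Bool → Bool} {φ : ℕ → ℕ → ℕ → ℕ}

theorem primrec_st (hU : Primrec fun p : ((ℕ × ℕ) × ℕ) × Bool => U p.1.1.1 p.1.1.2 p.1.2 p.2)
    (hφ : Primrec fun p : (ℕ × ℕ) × ℕ => φ p.1.1 p.1.2 p.2) : Primrec (st U φ) := by
  have h : Primrec₂ fun (s : ℕ) (M : Mem) => sweep s (acc U φ s M s) (s + 3) :=
    sweep' (α := ℕ × Mem) Primrec.fst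
      (acc' hU hφ (α := ℕ × Mem) Primrec.fst Primrec.snd Primrec.fst)
      (add' Primrec.fst (cn 3))
  refine (Primrec.nat_rec₁ [(24, 1)] h).of_eq fun s => ?_
  induction s with
  | zero => rfl
  | succ n ih =>
    change sweep n (acc U φ n (Nat.rec [(24, 1)] (fun s M => sweep s (acc U φ s M s) (s + 3)) n) n)
      (n + 3) = _
    rw [ih]
    rfl

/-- Reading any cell. -/
theorem primrec_read (hU : Primrec fun p : ((ℕ × ℕ) × ℕ) × Bool => U p.1.1.1 p.1.1.2 p.1.2 p.2)
    (hφ : Primrec fun p : (ℕ × ℕ) × ℕ => φ p.1.1 p.1.2 p.2) :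
    Primrec fun p : ℕ × ℕ => rd (st U φ p.1) p.2 :=
  rd' ((primrec_st hU hφ).comp Primrec.fst) Primrec.snd

theorem primrec_vF (hU : Primrec fun p : ((ℕ × ℕ) × ℕ) × Bool => U p.1.1.1 p.1.1.2 p.1.2 p.2)
    (hφ : Primrec fun p : (ℕ × ℕ) × ℕ => φ p.1.1 p.1.2 p.2) : Primrec (vF U φ) :=
  rd' ((primrec_st hU hφ).comp Primrec.succ) (kEv' Primrec.id)

theorem primrec_eF (hU : Primrec fun p : ((ℕ × ℕ) × ℕ) × Bool => U p.1.1.1 p.1.1.2 p.1.2 p.2)
    (hφ : Primrec fun p : (ℕ × ℕ) × ℕ => φ p.1.1 p.1.2 p.2) : Primrec (eF U φ) :=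
  rd' ((primrec_st hU hφ).comp Primrec.succ) (kEu' Primrec.id)

theorem primrec_SS (hU : Primrec fun p : ((ℕ × ℕ) × ℕ) × Bool => U p.1.1.1 p.1.1.2 p.1.2 p.2)
    (hφ : Primrec fun p : (ℕ × ℕ) × ℕ => φ p.1.1 p.1.2 p.2) : Primrec (SS U φ) :=
  Primrec.ite (eq' (primrec_vF hU hφ) (cn 0)) (Primrec.const (0, 1))
    ((primrec_eF hU hφ).pair (primrec_vF hU hφ))

theorem primrec_lbl (hU : Primrec fun p : ((ℕ × ℕ) × ℕ) × Bool => U p.1.1.1 p.1.1.2 p.1.2 p.2)
    (hφ : Primrec fun p : (ℕ × ℕ) × ℕ => φ p.1.1 p.1.2 p.2) : Primrec (lbl U φ) :=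
  Primrec.ite (eq' (primrec_eF hU hφ) (cn 0))
    (eq' (rd' ((primrec_st hU hφ).comp Primrec.succ) (kLab' (primrec_vF hU hφ))) (cn 1)).decide
    (Primrec.const false)

theorem primrec_live (hU : Primrec fun p : ((ℕ × ℕ) × ℕ) × Bool => U p.1.1.1 p.1.1.2 p.1.2 p.2)
    (hφ : Primrec fun p : (ℕ × ℕ) × ℕ => φ p.1.1 p.1.2 p.2) :
    PrimrecPred fun q : ℕ × ℕ => live U φ q.1 q.2 := by
  have hv : Primrec fun q : ℕ × ℕ => vF U φ q.2 := (primrec_vF hU hφ).comp Primrec.snd
  have he : Primrec fun q : ℕ × ℕ => eF U φ q.2 := (primrec_eF hU hφ).comp Primrec.snd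
  have hst : Primrec fun q : ℕ × ℕ => st U φ q.1 := (primrec_st hU hφ).comp Primrec.fst
  exact (eq' hv (cn 0)).not.and
    (((eq' he (cn 0)).not.and ((joined' (rd' hst (kMd' hv))).and
        (eq' (rd' hst (kNJ' hv)) Primrec.snd))).or
      ((eq' he (cn 0)).and ((held' (rd' hst (kMd' hv))).and
        (eq' (rd' hst (kNH' hv)) Primrec.snd))))

theorem re_of_primrec {α : Type} [Primcodable α] {p : α → Prop} (hp : PrimrecPred p) :
    REPred p := by
  classical
  exact ComputablePred.to_re (hp.decide.to_comp.computablePred)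

theorem re_XS (hU : Primrec fun p : ((ℕ × ℕ) × ℕ) × Bool => U p.1.1.1 p.1.1.2 p.1.2 p.2)
    (hφ : Primrec fun p : (ℕ × ℕ) × ℕ => φ p.1.1 p.1.2 p.2) (f : ℕ → Bool)
    (hf : Computable f) : REPred (XS U φ f) := by
  have h1 : REPred fun p : ℕ × Bool => vF U φ p.1 ≠ 0 :=
    re_of_primrec (eq' ((primrec_vF hU hφ).comp Primrec.fst) (cn 0)).not
  have h2 : REPred fun p : ℕ × Bool => p.2 = f p.1 :=
    COMP.re_eq Computable.snd (hf.comp Computable.fst)
  have h3 : REPred fun q : (ℕ × Bool) × ℕ => q.2 > q.1.1 ∧ ¬ live U φ q.2 q.1.1 :=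
    re_of_primrec ((lt' (Primrec.fst.comp Primrec.fst) Primrec.snd).and
      ((primrec_live hU hφ).comp
        (Primrec.snd.pair (Primrec.fst.comp Primrec.fst))).not)
  have h4 : REPred fun p : ℕ × Bool => ∃ s, s > p.1 ∧ ¬ live U φ s p.1 :=
    COMP.re_exists (p := fun (p : ℕ × Bool) (s : ℕ) => s > p.1 ∧ ¬ live U φ s p.1) h3
  exact COMP.re_and h1 (COMP.re_or h2 h4)

open Nat.Partrec (Code)
open Nat.Partrec.Code Encodable Denumerable

/-- A uniform enumeration of the r.e. subsets of `ℕ × Bool`. -/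
theorem exists_U : ∃ U : ℕ → ℕ → ℕ → Bool → Bool,
    (Primrec fun p : ((ℕ × ℕ) × ℕ) × Bool => U p.1.1.1 p.1.1.2 p.1.2 p.2) ∧
    (∀ i s t n b, s ≤ t → U i s n b = true → U i t n b = true) ∧
    ∀ Z : ℕ × Bool → Prop, REPred Z → ∃ i, ∀ n b, Z (n, b) ↔ ∃ s, U i s n b = true := by
  refine ⟨fun i s n b => (evaln s (ofNat Code i) (encode (n, b))).isSome, ?_, ?_, ?_⟩
  · have h1 : Primrec fun p : ((ℕ × ℕ) × ℕ) × Bool => p.1.1.1 :=
      Primrec.fst.comp (Primrec.fst.comp Primrec.fst)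
    have h2 : Primrec fun p : ((ℕ × ℕ) × ℕ) × Bool => p.1.1.2 :=
      Primrec.snd.comp (Primrec.fst.comp Primrec.fst)
    have h3 : Primrec fun p : ((ℕ × ℕ) × ℕ) × Bool => p.1.2 := Primrec.snd.comp Primrec.fst
    have h4 := (h2.pair ((Primrec.ofNat Code).comp h1)).pair
      (Primrec.encode.comp (h3.pair Primrec.snd))
    exact Primrec.option_isSome.comp (primrec_evaln.comp h4)
  · intro i s t n b hst h
    obtain ⟨y, hy⟩ := Option.isSome_iff_exists.1 h
    exact Option.isSome_iff_exists.2 ⟨y, evaln_mono hst hy⟩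
  · intro Z hZ
    obtain ⟨c, hc⟩ := Code.exists_code.1 hZ
    refine ⟨encode c, fun n b => ?_⟩
    have h1 : (eval c (encode (n, b))).Dom ↔ Z (n, b) := by
      rw [hc]
      simp [Part.dom_iff_mem, encodek]
    rw [← h1, Part.dom_iff_mem]
    simp only [ofNat_encode]
    constructor
    · rintro ⟨y, hy⟩
      obtain ⟨k, hk⟩ := evaln_complete.1 hy
      exact ⟨k, Option.isSome_iff_exists.2 ⟨y, hk⟩⟩
    · rintro ⟨k, hk⟩
      obtain ⟨y, hy⟩ := Option.isSome_iff_exists.1 hk
      exact ⟨y, evaln_complete.2 ⟨k, hy⟩⟩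

/-- A uniform enumeration of the computable sign vectors. -/
theorem exists_phi : ∃ φ : ℕ → ℕ → ℕ → ℕ,
    (Primrec fun p : (ℕ × ℕ) × ℕ => φ p.1.1 p.1.2 p.2) ∧
    (∀ i s t x, s ≤ t → φ i s x ≠ 0 → φ i t x = φ i s x) ∧
    ∀ ε : ℕ → Bool, Computable ε → ∃ i, ∀ x, ∃ s, φ i s x = (ε x).toNat + 1 := by
  refine ⟨fun i s x => ((evaln s (ofNat Code i) x).map Nat.succ).getD 0, ?_, ?_, ?_⟩
  · have h1 : Primrec fun p : (ℕ × ℕ) × ℕ => p.1.1 := Primrec.fst.comp Primrec.fst
    have h2 : Primrec fun p : (ℕ × ℕ) × ℕ => p.1.2 := Primrec.snd.comp Primrec.fst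
    have h4 := (h2.pair ((Primrec.ofNat Code).comp h1)).pair
      (Primrec.snd (α := ℕ × ℕ) (β := ℕ))
    have h5 : Primrec₂ fun (_ : (ℕ × ℕ) × ℕ) (y : ℕ) => Nat.succ y :=
      Primrec.succ.comp Primrec.snd
    exact Primrec.option_getD.comp (Primrec.option_map (primrec_evaln.comp h4) h5)
      (Primrec.const 0)
  · intro i s t x hst h
    cases hy : evaln s (ofNat Code i) x with
    | none => simp [hy] at h
    | some y =>
      have : evaln t (ofNat Code i) x = some y := evaln_mono hst hy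
      simp [this, hy]
  · intro ε hε
    have h1 : Computable fun x => (ε x).toNat :=
      ((Primrec.dom_bool Bool.toNat).to_comp).comp hε
    obtain ⟨c, hc⟩ := Code.exists_code.1 (Partrec.nat_iff.1 h1.partrec)
    refine ⟨encode c, fun x => ?_⟩
    have h2 : (ε x).toNat ∈ eval c x := by
      rw [hc]
      exact Part.mem_some _
    obtain ⟨s, hs⟩ := evaln_complete.1 h2
    refine ⟨s, ?_⟩
    have hs' : evaln s c x = some (ε x).toNat := hs
    simp [ofNat_encode, hs']

end DC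

end Pool.Agent.H91.CD.Dyn
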