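import Mathlib

set_option autoImplicit false

/-!
The stage construction (module DYN).
-/

namespace Pool.Agent.H91.CD.Dyn

/-! ### Memory -/

abbrev Mem : Type := List (ℕ × ℕ)

/-- Read a cell (default `0`). -/
def rd (m : Mem) (k : ℕ) : ℕ := (m.lookup k).getD 0

theorem rd_cons (k v : ℕ) (m : Mem) (j : ℕ) :
    rd ((k, v) :: m) j = if j = k then v else rd m j := by
  unfold rd
  by_cases h : j = k
  · subst h; simp [List.lookup]
  · rw [if_neg h, List.lookup]
    have : (j == k) = false := by simpa using h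
    simp [this]

theorem rd_nil (j : ℕ) : rd [] j = 0 := rfl

def kRoot (x : ℕ) : ℕ := 24 * x
def kPar (x : ℕ) : ℕ := 24 * x + 1
def kPlab (x : ℕ) : ℕ := 24 * x + 2
def kMd (x : ℕ) : ℕ := 24 * x + 3
def kLab (x : ℕ) : ℕ := 24 * x + 4
def kNJ (x : ℕ) : ℕ := 24 * x + 5
def kNH (x : ℕ) : ℕ := 24 * x + 6
def kMark (x : ℕ) : ℕ := 24 * x + 7
def kAw (x o : ℕ) : ℕ := 24 * x + 8 + o
def kCh (x q : ℕ) : ℕ := 24 * x + 12 + q
def kCst (x : ℕ) : ℕ := 24 * x + 17
def kClab (x : ℕ) : ℕ := 24 * x + 18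
def kEu (n : ℕ) : ℕ := 24 * n + 19
def kEv (n : ℕ) : ℕ := 24 * n + 20

/-! ### Modes: 0 not created, 1 joined, 2 pending hold, 3 held (waiting), 4 held (after a
choice), 5 pending join, 6 dead -/

def joined (d : ℕ) : Prop := d = 1 ∨ d = 2 ∨ d = 5
def held (d : ℕ) : Prop := d = 2 ∨ d = 3 ∨ d = 4 ∨ d = 5
def pend (d : ℕ) : Prop := d = 2 ∨ d = 5

instance : DecidablePred joined := fun d => by unfold joined; infer_instance
instance : DecidablePred held := fun d => by unfold held; infer_instance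
instance : DecidablePred pend := fun d => by unfold pend; infer_instance

variable (U : ℕ → ℕ → ℕ → Bool → Bool) (φ : ℕ → ℕ → ℕ → ℕ)

/-- Exactly one side of `n` has been enumerated. -/
def one (i s n : ℕ) : Bool := xor (U i s n false) (U i s n true)

/-- The local part of the catch-up condition. -/
def cux (i s : ℕ) (m : Mem) (mk x : ℕ) : Prop :=
  (joined (rd m (kMd x)) → rd m (kNJ x) ≤ mk → one U i s (rd m (kNJ x)) = true) ∧
  (held (rd m (kMd x)) → rd m (kNH x) ≤ mk → one U i s (rd m (kNH x)) = true) ∧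
  (pend (rd m (kMd x)) → rd m (kNJ x) ≤ mk → rd m (kNH x) ≤ mk →
    rd m (kNH (rd m (kRoot x))) ≤ mk →
    U i s (rd m (kNH x)) true =
      xor (U i s (rd m (kNH (rd m (kRoot x)))) true) (U i s (rd m (kNJ x)) true))

instance (i s : ℕ) (m : Mem) (mk : ℕ) : DecidablePred (cux U i s m mk) := fun x => by
  unfold cux; infer_instance

/-- The catch-up condition. -/
def cu (i s : ℕ) (m : Mem) (mk : ℕ) : Prop := ∀ x < s + 2, cux U i s m mk x

instance (i s : ℕ) (m : Mem) (mk : ℕ) : Decidable (cu U i s m mk) := by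
  unfold cu; infer_instance

/-- The condition to start a hold. -/
def start (k y a l s : ℕ) : Prop :=
  (k % 2 = 0 ∧ a ≠ l) ∨ (k % 2 = 1 ∧ φ (k / 2) s y ≠ 0 ∧ φ (k / 2) s y ≠ a + 1)

instance (k y a l s : ℕ) : Decidable (start φ k y a l s) := by
  unfold start; infer_instance

/-- The chosen kind (`4` = none). -/
def chosen (i s : ℕ) (m : Mem) (y : ℕ) : ℕ :=
  if rd m (kAw y (U i s (rd m (kNH y)) true).toNat) = rd m (kLab y) then
    (U i s (rd m (kNH y)) true).toNat
  else if rd m (kAw y (2 + ((U i s (rd m (kNH y)) true).toNat + rd m (kLab y)) % 2)) =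
      rd m (kLab y) then
    2 + ((U i s (rd m (kNH y)) true).toNat + rd m (kLab y)) % 2
  else 4

/-- Locations `(p, o, r, a)`: child `o` of node `p`, with root `r` and current value `a`. -/
abbrev Loc : Type := ℕ × ℕ × ℕ × ℕ

/-- The action at depth `k`: 0 pass to the waiting child, 1 create, 2 hold, 3 choose, 4 join,
5 stop. -/
def act (s : ℕ) (m : Mem) (k : ℕ) (l : Loc) : ℕ :=
  let y := rd m (kCh l.1 l.2.1)
  let d := rd m (kMd y)
  if d = 0 ∨ d = 6 then 1
  else if d = 1 then (if start φ k y l.2.2.2 (rd m (kLab y)) s then 2 else 0)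
  else if d = 3 then (if k % 2 = 0 ∧ cu U (k / 2) s m (rd m (kMark y)) then 3 else 0)
  else if d = 4 then
    (if k % 2 = 0 ∧ l.2.2.2 = rd m (kLab y) ∧ cu U (k / 2) s m (rd m (kMark y)) then 4 else 0)
  else 5

/-- The next location. -/
def nxt (s : ℕ) (m : Mem) (k : ℕ) (l : Loc) : Option Loc :=
  let y := rd m (kCh l.1 l.2.1)
  let c := act U φ s m k l
  if c = 0 then some (y, 4, l.2.2.1, l.2.2.2)
  else if c = 3 ∧ chosen U (k / 2) s m y < 4 then
    some (y, chosen U (k / 2) s m y, y, rd m (kLab y))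
  else none

/-- The writes at depth `k`, put in front of the memory `M`. -/
def wrs (s : ℕ) (m : Mem) (k : ℕ) (l : Loc) (M : Mem) : Mem :=
  let y := rd m (kCh l.1 l.2.1)
  let c := act U φ s m k l
  if c = 1 then
    (kRoot (s + 2), l.2.2.1) :: (kPar (s + 2), l.1) :: (kPlab (s + 2), l.2.1) ::
      (kMd (s + 2), 1) :: (kNJ (s + 2), s) :: (kCh l.1 l.2.1, s + 2) :: (kEu s, l.2.2.1) ::
      (kEv s, s + 2) :: M
  else if c = 2 then
    (kMd y, 2) :: (kLab y, l.2.2.2) :: (kNH y, s) :: (kMark y, s) :: (kEv s, y) :: M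
  else if c = 3 then
    (if chosen U (k / 2) s m y < 4 then
      (kMd y, 4) :: (kMark y, s) ::
        (kAw y (chosen U (k / 2) s m y), 1 - rd m (kAw y (chosen U (k / 2) s m y))) ::
        (kCst y, s + 1) :: (kClab y, chosen U (k / 2) s m y) :: M
    else (kMd y, 4) :: (kMark y, s) :: M)
  else if c = 4 then
    (kMd y, 5) :: (kNJ y, s) :: (kEu s, l.2.2.1) :: (kEv s, y) :: M
  else M

/-- The path of stage `s`. -/
def locm (s : ℕ) (m : Mem) : ℕ → Option Loc
  | 0 => some (1, 4, 1, s % 2)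
  | k + 1 => (locm s m k).bind (nxt U φ s m k)

/-- The memory during the pass. -/
def acc (s : ℕ) (m : Mem) : ℕ → Mem
  | 0 => m
  | k + 1 => match locm U φ s m k with
    | none => acc s m k
    | some l => wrs U φ s m k l (acc s m k)

/-- The new mode of `x` in the final sweep. -/
def newmd (s : ℕ) (m1 m : Mem) (x : ℕ) : ℕ :=
  let d := rd m1 (kMd x)
  let p := rd m1 (kPar x)
  let r := rd m1 (kRoot x)
  if d = 0 then 0
  else if d = 6 ∨ rd m (kMd p) = 6 ∨ (rd m1 (kCst p) = s + 1 ∧ rd m1 (kClab p) < rd m1 (kPlab x))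
    then 6
  else if pend d ∧ (r = 1 ∨ (pend (rd m1 (kMd r)) ∧ (rd m (kMd r) = 1 ∨ rd m (kMd r) = 3))) then
    (if d = 2 then 3 else 1)
  else d

/-- The final sweep. -/
def sweep (s : ℕ) (m1 : Mem) : ℕ → Mem
  | 0 => m1
  | x + 1 => if x < 2 then sweep s m1 x
      else (kMd x, newmd s m1 (sweep s m1 x) x) :: sweep s m1 x

/-- The memory at the beginning of stage `s`. -/
def st : ℕ → Mem
  | 0 => [(24, 1)]
  | s + 1 => sweep s (acc U φ s (st s) s) (s + 3)

/-! ### Readable names -/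

/-- Mode of `x` at the beginning of stage `s`. -/
def md (s x : ℕ) : ℕ := rd (st U φ s) (kMd x)
def lab (s x : ℕ) : ℕ := rd (st U φ s) (kLab x)
def nJ (s x : ℕ) : ℕ := rd (st U φ s) (kNJ x)
def nH (s x : ℕ) : ℕ := rd (st U φ s) (kNH x)
def mark (s x : ℕ) : ℕ := rd (st U φ s) (kMark x)
def aw (s x o : ℕ) : ℕ := rd (st U φ s) (kAw x o)
def ch (s x q : ℕ) : ℕ := rd (st U φ s) (kCh x q)
def root (s x : ℕ) : ℕ := rd (st U φ s) (kRoot x)
def par (s x : ℕ) : ℕ := rd (st U φ s) (kPar x)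
def plab (s x : ℕ) : ℕ := rd (st U φ s) (kPlab x)
def cst (s x : ℕ) : ℕ := rd (st U φ s) (kCst x)
def clab (s x : ℕ) : ℕ := rd (st U φ s) (kClab x)
def eu (s n : ℕ) : ℕ := rd (st U φ s) (kEu n)
def ev (s n : ℕ) : ℕ := rd (st U φ s) (kEv n)
def loc (s k : ℕ) : Option Loc := locm U φ s (st U φ s) k
/-- The mode after the pass, before the sweep. -/
def md1 (s x : ℕ) : ℕ := rd (acc U φ s (st U φ s) s) (kMd x)

end Pool.Agent.H91.CD.Dyn
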