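import Mathlib
import Pool.Agent.H91.CD.Run

set_option autoImplicit false

/-!
Basic lemmas on the stage construction.
-/

namespace Pool.Agent.H91.CD.Dyn

variable (U : ℕ → ℕ → ℕ → Bool → Bool) (φ : ℕ → ℕ → ℕ → ℕ)

/-! ### Single writes -/

theorem rd_wrs_node (s : ℕ) (m : Mem) (k : ℕ) (l : Loc) (M : Mem) (x f : ℕ)
    (hf : f < 12 ∨ f = 17 ∨ f = 18) (hxy : x ≠ rd m (kCh l.1 l.2.1)) (hxs : x ≠ s + 2)
    (ho : l.2.1 ≤ 4) :
    rd (wrs U φ s m k l M) (24 * x + f) = rd M (24 * x + f) := by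
  unfold wrs
  simp only
  generalize rd m (kCh l.1 l.2.1) = y at *
  split_ifs with h1 h2 h3 h4 h5
  · simp only [rd_cons, kRoot, kPar, kPlab, kMd, kNJ, kCh, kEu, kEv]
    repeat rw [if_neg (by omega)]
  · simp only [rd_cons, kMd, kLab, kNH, kMark, kEv]
    repeat rw [if_neg (by omega)]
  · simp only [rd_cons, kMd, kMark, kAw, kCst, kClab]
    repeat rw [if_neg (by omega)]
  · simp only [rd_cons, kMd, kMark]
    repeat rw [if_neg (by omega)]
  · simp only [rd_cons, kMd, kNJ, kEu, kEv]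
    repeat rw [if_neg (by omega)]
  · rfl

theorem rd_wrs_struct (s : ℕ) (m : Mem) (k : ℕ) (l : Loc) (M : Mem) (x f : ℕ)
    (hf : f < 3) (hxs : x ≠ s + 2) (ho : l.2.1 ≤ 4) :
    rd (wrs U φ s m k l M) (24 * x + f) = rd M (24 * x + f) := by
  unfold wrs
  simp only
  generalize rd m (kCh l.1 l.2.1) = y at *
  split_ifs with h1 h2 h3 h4 h5
  · simp only [rd_cons, kRoot, kPar, kPlab, kMd, kNJ, kCh, kEu, kEv]
    repeat rw [if_neg (by omega)]
  · simp only [rd_cons, kMd, kLab, kNH, kMark, kEv]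
    repeat rw [if_neg (by omega)]
  · simp only [rd_cons, kMd, kMark, kAw, kCst, kClab]
    repeat rw [if_neg (by omega)]
  · simp only [rd_cons, kMd, kMark]
    repeat rw [if_neg (by omega)]
  · simp only [rd_cons, kMd, kNJ, kEu, kEv]
    repeat rw [if_neg (by omega)]
  · rfl

theorem rd_wrs_ch (s : ℕ) (m : Mem) (k : ℕ) (l : Loc) (M : Mem) (x q : ℕ)
    (hq : q ≤ 4) (ho : l.2.1 ≤ 4) :
    rd (wrs U φ s m k l M) (kCh x q) =
      if act U φ s m k l = 1 ∧ l.1 = x ∧ l.2.1 = q then s + 2 else rd M (kCh x q) := by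
  unfold wrs
  simp only
  generalize rd m (kCh l.1 l.2.1) = y at *
  by_cases h : act U φ s m k l = 1 ∧ l.1 = x ∧ l.2.1 = q
  · rw [if_pos h, if_pos h.1]
    simp only [rd_cons, kRoot, kPar, kPlab, kMd, kNJ, kCh, kEu, kEv]
    repeat rw [if_neg (by omega)]
    rw [if_pos (by omega)]
  · rw [if_neg h]
    split_ifs with h1 h2 h3 h4 h5
    · simp only [rd_cons, kRoot, kPar, kPlab, kMd, kNJ, kCh, kEu, kEv]
      repeat rw [if_neg (by omega)]
    · simp only [rd_cons, kMd, kLab, kNH, kMark, kEv, kCh]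
      repeat rw [if_neg (by omega)]
    · simp only [rd_cons, kMd, kMark, kAw, kCst, kClab, kCh]
      repeat rw [if_neg (by omega)]
    · simp only [rd_cons, kMd, kMark, kCh]
      repeat rw [if_neg (by omega)]
    · simp only [rd_cons, kMd, kNJ, kEu, kEv, kCh]
      repeat rw [if_neg (by omega)]
    · rfl

theorem rd_wrs_log (s : ℕ) (m : Mem) (k : ℕ) (l : Loc) (M : Mem) (x f : ℕ)
    (hf : f = 19 ∨ f = 20) (hxs : x ≠ s) (ho : l.2.1 ≤ 4) :
    rd (wrs U φ s m k l M) (24 * x + f) = rd M (24 * x + f) := by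
  unfold wrs
  simp only
  generalize rd m (kCh l.1 l.2.1) = y at *
  split_ifs with h1 h2 h3 h4 h5
  · simp only [rd_cons, kRoot, kPar, kPlab, kMd, kNJ, kCh, kEu, kEv]
    repeat rw [if_neg (by omega)]
  · simp only [rd_cons, kMd, kLab, kNH, kMark, kEv]
    repeat rw [if_neg (by omega)]
  · simp only [rd_cons, kMd, kMark, kAw, kCst, kClab]
    repeat rw [if_neg (by omega)]
  · simp only [rd_cons, kMd, kMark]
    repeat rw [if_neg (by omega)]
  · simp only [rd_cons, kMd, kNJ, kEu, kEv]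
    repeat rw [if_neg (by omega)]
  · rfl

/-! ### Actions -/

theorem act_eq_one {s : ℕ} {m : Mem} {k : ℕ} {l : Loc} :
    act U φ s m k l = 1 ↔ rd m (kMd (rd m (kCh l.1 l.2.1))) = 0 ∨
      rd m (kMd (rd m (kCh l.1 l.2.1))) = 6 := by
  unfold act
  simp only
  split_ifs with h1 h2 h3 h4 h5 h6 h7 <;> simp_all

theorem act_eq_zero {s : ℕ} {m : Mem} {k : ℕ} {l : Loc} :
    act U φ s m k l = 0 ↔
      (rd m (kMd (rd m (kCh l.1 l.2.1))) = 1 ∧
        ¬ start φ k (rd m (kCh l.1 l.2.1)) l.2.2.2 (rd m (kLab (rd m (kCh l.1 l.2.1)))) s) ∨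
      (rd m (kMd (rd m (kCh l.1 l.2.1))) = 3 ∧
        ¬ (k % 2 = 0 ∧ cu U (k / 2) s m (rd m (kMark (rd m (kCh l.1 l.2.1)))))) ∨
      (rd m (kMd (rd m (kCh l.1 l.2.1))) = 4 ∧
        ¬ (k % 2 = 0 ∧ l.2.2.2 = rd m (kLab (rd m (kCh l.1 l.2.1))) ∧
          cu U (k / 2) s m (rd m (kMark (rd m (kCh l.1 l.2.1)))))) := by
  unfold act
  simp only
  split_ifs with h1 h2 h3 h4 h5 h6 h7 <;> simp_all
  omega

theorem act_eq_two {s : ℕ} {m : Mem} {k : ℕ} {l : Loc} :
    act U φ s m k l = 2 ↔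
      (rd m (kMd (rd m (kCh l.1 l.2.1))) = 1 ∧
        start φ k (rd m (kCh l.1 l.2.1)) l.2.2.2 (rd m (kLab (rd m (kCh l.1 l.2.1)))) s) := by
  unfold act
  simp only
  split_ifs with h1 h2 h3 h4 h5 h6 h7 <;> simp_all
  omega

theorem act_eq_three {s : ℕ} {m : Mem} {k : ℕ} {l : Loc} :
    act U φ s m k l = 3 ↔
      (rd m (kMd (rd m (kCh l.1 l.2.1))) = 3 ∧
        k % 2 = 0 ∧ cu U (k / 2) s m (rd m (kMark (rd m (kCh l.1 l.2.1))))) := by
  unfold act
  simp only
  split_ifs with h1 h2 h3 h4 h5 h6 h7 <;> simp_all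
  omega

theorem act_eq_four {s : ℕ} {m : Mem} {k : ℕ} {l : Loc} :
    act U φ s m k l = 4 ↔
      (rd m (kMd (rd m (kCh l.1 l.2.1))) = 4 ∧
        k % 2 = 0 ∧ l.2.2.2 = rd m (kLab (rd m (kCh l.1 l.2.1))) ∧
          cu U (k / 2) s m (rd m (kMark (rd m (kCh l.1 l.2.1))))) := by
  unfold act
  simp only
  split_ifs with h1 h2 h3 h4 h5 h6 h7 <;> simp_all
  omega

theorem act_lt {s : ℕ} {m : Mem} {k : ℕ} {l : Loc} : act U φ s m k l ≤ 5 := by
  unfold act
  simp only
  split_ifs <;> omega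

theorem nxt_eq_some {s : ℕ} {m : Mem} {k : ℕ} {l l' : Loc} :
    nxt U φ s m k l = some l' ↔
      (act U φ s m k l = 0 ∧ l' = (rd m (kCh l.1 l.2.1), 4, l.2.2.1, l.2.2.2)) ∨
      (act U φ s m k l = 3 ∧ chosen U (k / 2) s m (rd m (kCh l.1 l.2.1)) < 4 ∧
        l' = (rd m (kCh l.1 l.2.1), chosen U (k / 2) s m (rd m (kCh l.1 l.2.1)),
          rd m (kCh l.1 l.2.1), rd m (kLab (rd m (kCh l.1 l.2.1))))) := by
  unfold nxt
  simp only
  split_ifs with h1 h2
  · constructor
    · intro h; left; exact ⟨h1, (Option.some.inj h).symm⟩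
    · rintro (⟨-, h⟩ | ⟨h, -⟩)
      · rw [h]
      · omega
  · constructor
    · intro h; right; exact ⟨h2.1, h2.2, (Option.some.inj h).symm⟩
    · rintro (⟨h, -⟩ | ⟨-, -, h⟩)
      · omega
      · rw [h]
  · constructor
    · intro h; simp at h
    · rintro (⟨h, -⟩ | ⟨h, h', -⟩)
      · exact absurd h h1
      · exact absurd ⟨h, h'⟩ h2

theorem chosen_le {i s : ℕ} {m : Mem} {y : ℕ} : chosen U i s m y ≤ 4 := by
  unfold chosen
  split_ifs
  · cases U i s (rd m (kNH y)) true <;> simp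
  · omega
  · omega

/-! ### Paths -/

/-- Pointers increase and stay below `s + 2`. -/
def PInc (s : ℕ) (m : Mem) : Prop :=
  (∀ p q, q ≤ 4 → rd m (kCh p q) ≠ 0 → p < rd m (kCh p q) ∧ rd m (kCh p q) < s + 2) ∧
  rd m (kMd 0) = 0 ∧ rd m (kMd 1) = 0

/-- The node visited from a location. -/
abbrev nd (m : Mem) (l : Loc) : ℕ := rd m (kCh l.1 l.2.1)

variable {U φ}

theorem locm_succ {s : ℕ} {m : Mem} {k : ℕ} {l : Loc} (h : locm U φ s m k = some l) :
    locm U φ s m (k + 1) = nxt U φ s m k l := by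
  simp [locm, h]

theorem locm_pred {s : ℕ} {m : Mem} {k : ℕ} {l' : Loc} (h : locm U φ s m (k + 1) = some l') :
    ∃ l, locm U φ s m k = some l ∧ nxt U φ s m k l = some l' := by
  simpa [locm, Option.bind_eq_some_iff] using h

theorem md_of_next {s : ℕ} {m : Mem} {k : ℕ} {l l' : Loc} (h : nxt U φ s m k l = some l') :
    l'.1 = nd m l ∧ (rd m (kMd (nd m l)) = 1 ∨ rd m (kMd (nd m l)) = 3 ∨
      rd m (kMd (nd m l)) = 4) := by
  rcases (nxt_eq_some U φ).1 h with ⟨h1, rfl⟩ | ⟨h1, h2, rfl⟩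
  · refine ⟨rfl, ?_⟩
    rcases (act_eq_zero U φ).1 h1 with h | h | h
    · exact Or.inl h.1
    · exact Or.inr (Or.inl h.1)
    · exact Or.inr (Or.inr h.1)
  · exact ⟨rfl, Or.inr (Or.inl ((act_eq_three U φ).1 h1).1)⟩

theorem nd_ne_zero {s : ℕ} {m : Mem} (hm : PInc s m) {l : Loc}
    (h : rd m (kMd (nd m l)) ≠ 0) : nd m l ≠ 0 := by
  intro h0
  rw [h0] at h
  exact h hm.2.1

theorem locm_bd {s : ℕ} {m : Mem} (hm : PInc s m) {k : ℕ} :
    ∀ {l : Loc}, locm U φ s m k = some l → 1 ≤ l.1 ∧ l.1 < s + 2 ∧ l.2.1 ≤ 4 := by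
  induction k with
  | zero =>
    intro l h
    simp only [locm, Option.some.injEq] at h
    subst h
    simp
  | succ k ih =>
    intro l' h
    obtain ⟨l, hl, hn⟩ := locm_pred h
    obtain ⟨h1, h2⟩ := md_of_next hn
    have h3 : nd m l ≠ 0 := nd_ne_zero hm (by omega)
    have h4 := hm.1 l.1 l.2.1 (ih hl).2.2 h3
    refine ⟨by rw [h1]; omega, by rw [h1]; exact h4.2, ?_⟩
    rcases (nxt_eq_some U φ).1 hn with ⟨-, rfl⟩ | ⟨-, h2, rfl⟩
    · exact le_rfl
    · exact h2.le

theorem nd_lt {s : ℕ} {m : Mem} (hm : PInc s m) {k : ℕ} {l : Loc}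
    (hl : locm U φ s m k = some l) (h : nd m l ≠ 0) : l.1 < nd m l ∧ nd m l < s + 2 :=
  hm.1 l.1 l.2.1 (locm_bd hm hl).2.2 h

/-- Nodes on the path increase. -/
theorem locm_mono {s : ℕ} {m : Mem} (hm : PInc s m) {k : ℕ} {l : Loc}
    (hl : locm U φ s m k = some l) : ∀ {j : ℕ} {l' : Loc}, k < j → locm U φ s m j = some l' →
      nd m l ≤ l'.1 ∧ l.1 < l'.1 ∧ nd m l ≠ 0 := by
  intro j
  induction j with
  | zero => intro l' h; omega
  | succ j ih =>
    intro l' hkj h'
    obtain ⟨l1, hl1, hn⟩ := locm_pred h'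
    obtain ⟨h1, h2⟩ := md_of_next hn
    have h3 : nd m l1 ≠ 0 := nd_ne_zero hm (by omega)
    have h4 := nd_lt hm hl1 h3
    rcases Nat.lt_succ_iff_lt_or_eq.1 hkj with h | h
    · obtain ⟨h5, h6, h7⟩ := ih h hl1
      rw [h1]
      exact ⟨by omega, by omega, h7⟩
    · subst h
      rw [hl1] at hl
      have : l1 = l := Option.some.inj hl
      subst this
      rw [h1]
      exact ⟨le_rfl, h4.1, h3⟩

/-- A node is visited at most once. -/
theorem nd_inj {s : ℕ} {m : Mem} (hm : PInc s m) {k j : ℕ} {l l' : Loc}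
    (hl : locm U φ s m k = some l) (hl' : locm U φ s m j = some l') (h : nd m l = nd m l')
    (h0 : nd m l ≠ 0) : k = j ∧ l = l' := by
  rcases Nat.lt_trichotomy k j with hk | hk | hk
  · obtain ⟨h1, h2, h3⟩ := locm_mono hm hl hk hl'
    have := nd_lt hm hl' (by rw [← h]; exact h0)
    omega
  · subst hk
    rw [hl] at hl'
    exact ⟨rfl, Option.some.inj hl'⟩
  · obtain ⟨h1, h2, h3⟩ := locm_mono hm hl' hk hl
    have := nd_lt hm hl h0
    omega

/-- If the action at a location is not a pass, the path stops there or goes on by a choice. -/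
theorem locm_stop {s : ℕ} {m : Mem} {k : ℕ} {l : Loc}
    (hl : locm U φ s m k = some l) (h0 : act U φ s m k l ≠ 0) (h3 : act U φ s m k l ≠ 3) :
    ∀ {j : ℕ}, k < j → locm U φ s m j = none := by
  intro j
  induction j with
  | zero => intro h; omega
  | succ j ih =>
    intro hkj
    rcases Nat.lt_succ_iff_lt_or_eq.1 hkj with h | h
    · simp [locm, ih h]
    · subst h
      rw [locm_succ hl]
      rcases hn : nxt U φ s m k l with _ | l'
      · rfl
      · rcases (nxt_eq_some U φ).1 hn with h | h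
        · exact absurd h.1 h0
        · exact absurd h.1 h3

/-! ### The memory after the pass -/

theorem acc_node_unch {s : ℕ} {m : Mem} (hm : PInc s m) (n x f : ℕ)
    (hf : f < 12 ∨ f = 17 ∨ f = 18) (hxs : x ≠ s + 2)
    (h : ∀ k < n, ∀ l, locm U φ s m k = some l → nd m l ≠ x) :
    rd (acc U φ s m n) (24 * x + f) = rd m (24 * x + f) := by
  induction n with
  | zero => rfl
  | succ n ih =>
    have ih' := ih (fun k hk => h k (by omega))
    simp only [acc]
    rcases hl : locm U φ s m n with _ | l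
    · exact ih'
    · simp only
      rw [rd_wrs_node U φ s m n l _ x f hf (h n (by omega) l hl).symm hxs (locm_bd hm hl).2.2]
      exact ih'

theorem acc_node_chg {s : ℕ} {m : Mem} (hm : PInc s m) (n x f : ℕ)
    (hf : f < 12 ∨ f = 17 ∨ f = 18) (hx0 : x ≠ 0) (hxs : x ≠ s + 2) {k : ℕ} {l : Loc} (hk : k < n)
    (hl : locm U φ s m k = some l) (hx : nd m l = x) :
    rd (acc U φ s m n) (24 * x + f) = rd (wrs U φ s m k l (acc U φ s m k)) (24 * x + f) := by
  induction n with
  | zero => omega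
  | succ n ih =>
    simp only [acc]
    rcases Nat.lt_succ_iff_lt_or_eq.1 hk with h | h
    · rcases hl' : locm U φ s m n with _ | l'
      · exact ih h
      · simp only
        have hne : x ≠ nd m l' := by
          intro he
          have := nd_inj hm hl hl' (by rw [hx, he]) (by rw [hx]; exact hx0)
          omega
        rw [rd_wrs_node U φ s m n l' _ x f hf hne hxs (locm_bd hm hl').2.2]
        exact ih h
    · subst h
      rw [hl]

theorem acc_struct_unch {s : ℕ} {m : Mem} (hm : PInc s m) (n x f : ℕ)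
    (hf : f < 3) (hxs : x ≠ s + 2) :
    rd (acc U φ s m n) (24 * x + f) = rd m (24 * x + f) := by
  induction n with
  | zero => rfl
  | succ n ih =>
    simp only [acc]
    rcases hl : locm U φ s m n with _ | l
    · exact ih
    · simp only
      rw [rd_wrs_struct U φ s m n l _ x f hf hxs (locm_bd hm hl).2.2]
      exact ih

theorem acc_log_unch {s : ℕ} {m : Mem} (hm : PInc s m) (n x f : ℕ)
    (hf : f = 19 ∨ f = 20) (hxs : x ≠ s) :
    rd (acc U φ s m n) (24 * x + f) = rd m (24 * x + f) := by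
  induction n with
  | zero => rfl
  | succ n ih =>
    simp only [acc]
    rcases hl : locm U φ s m n with _ | l
    · exact ih
    · simp only
      rw [rd_wrs_log U φ s m n l _ x f hf hxs (locm_bd hm hl).2.2]
      exact ih

theorem acc_ch {s : ℕ} {m : Mem} (hm : PInc s m) (n p q : ℕ) (hq : q ≤ 4) :
    ((∃ k < n, ∃ r a, locm U φ s m k = some (p, q, r, a) ∧ act U φ s m k (p, q, r, a) = 1) ∧
      rd (acc U φ s m n) (kCh p q) = s + 2) ∨
    ((¬ ∃ k < n, ∃ r a, locm U φ s m k = some (p, q, r, a) ∧ act U φ s m k (p, q, r, a) = 1) ∧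
      rd (acc U φ s m n) (kCh p q) = rd m (kCh p q)) := by
  induction n with
  | zero => right; exact ⟨by rintro ⟨k, hk, -⟩; omega, rfl⟩
  | succ n ih =>
    simp only [acc]
    rcases hl : locm U φ s m n with _ | l
    · simp only
      rcases ih with ⟨⟨k, hk, h⟩, h2⟩ | ⟨h1, h2⟩
      · exact Or.inl ⟨⟨k, by omega, h⟩, h2⟩
      · refine Or.inr ⟨?_, h2⟩
        rintro ⟨k, hk, r, a, h3, h4⟩
        rcases Nat.lt_succ_iff_lt_or_eq.1 hk with h | h
        · exact h1 ⟨k, h, r, a, h3, h4⟩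
        · subst h; rw [hl] at h3; exact absurd h3 (by simp)
    · simp only
      rw [rd_wrs_ch U φ s m n l _ p q hq (locm_bd hm hl).2.2]
      split_ifs with hc
      · left
        refine ⟨⟨n, by omega, l.2.2.1, l.2.2.2, ?_, ?_⟩, rfl⟩
        · rw [hl, ← hc.2.1, ← hc.2.2]
        · have : (p, q, l.2.2.1, l.2.2.2) = l := by rw [← hc.2.1, ← hc.2.2]
          rw [this]; exact hc.1
      · rcases ih with ⟨⟨k, hk, h⟩, h2⟩ | ⟨h1, h2⟩
        · exact Or.inl ⟨⟨k, by omega, h⟩, h2⟩
        · refine Or.inr ⟨?_, h2⟩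
          rintro ⟨k, hk, r, a, h3, h4⟩
          rcases Nat.lt_succ_iff_lt_or_eq.1 hk with h | h
          · exact h1 ⟨k, h, r, a, h3, h4⟩
          · subst h
            rw [hl] at h3
            have := Option.some.inj h3
            subst this
            exact hc ⟨h4, rfl, rfl⟩

/-! ### The sweep -/

theorem sweep_other (s : ℕ) (m1 : Mem) (n κ : ℕ) (h : ∀ x, 2 ≤ x → x < n → κ ≠ kMd x) :
    rd (sweep s m1 n) κ = rd m1 κ := by
  induction n with
  | zero => rfl
  | succ n ih =>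
    simp only [sweep]
    split_ifs with hn
    · exact ih (fun x h2 hx => h x h2 (by omega))
    · rw [rd_cons, if_neg (h n (by omega) (by omega))]
      exact ih (fun x h2 hx => h x h2 (by omega))

theorem sweep_md_stable (s : ℕ) (m1 : Mem) (x : ℕ) (n : ℕ) (hn : x < n) :
    rd (sweep s m1 n) (kMd x) = rd (sweep s m1 (x + 1)) (kMd x) := by
  induction n with
  | zero => omega
  | succ n ih =>
    rcases Nat.lt_succ_iff_lt_or_eq.1 hn with h | h
    · rw [← ih h]
      conv_lhs => rw [sweep]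
      split_ifs with h2
      · rfl
      · rw [rd_cons, if_neg]
        unfold kMd; omega
    · subst h; rfl

theorem sweep_md_lt2 (s : ℕ) (m1 : Mem) (x : ℕ) (n : ℕ) (hx : x < 2) :
    rd (sweep s m1 n) (kMd x) = rd m1 (kMd x) := by
  apply sweep_other
  intro y hy _
  unfold kMd; omega

theorem sweep_md_ge (s : ℕ) (m1 : Mem) (x : ℕ) (n : ℕ) (hx : n ≤ x) :
    rd (sweep s m1 n) (kMd x) = rd m1 (kMd x) := by
  apply sweep_other
  intro y hy _
  unfold kMd; omega

theorem newmd_congr (s : ℕ) (m1 M M' : Mem) (x : ℕ)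
    (h1 : rd M (kMd (rd m1 (kPar x))) = rd M' (kMd (rd m1 (kPar x))))
    (h2 : rd M (kMd (rd m1 (kRoot x))) = rd M' (kMd (rd m1 (kRoot x)))) :
    newmd s m1 M x = newmd s m1 M' x := by
  unfold newmd
  simp only [h1, h2]

theorem sweep_md (s : ℕ) (m1 : Mem) (x : ℕ) (n : ℕ) (h2 : 2 ≤ x) (hn : x < n)
    (hp : rd m1 (kPar x) < x) (hr : rd m1 (kRoot x) < x) :
    rd (sweep s m1 n) (kMd x) = newmd s m1 (sweep s m1 n) x := by
  rw [sweep_md_stable s m1 x n hn, sweep, if_neg (by omega), rd_cons, if_pos rfl]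
  apply newmd_congr
  · rcases Nat.lt_or_ge (rd m1 (kPar x)) 2 with h | h
    · rw [sweep_md_lt2 _ _ _ _ h, sweep_md_lt2 _ _ _ _ h]
    · rw [sweep_md_stable s m1 _ n (by omega), sweep_md_stable s m1 _ x hp]
  · rcases Nat.lt_or_ge (rd m1 (kRoot x)) 2 with h | h
    · rw [sweep_md_lt2 _ _ _ _ h, sweep_md_lt2 _ _ _ _ h]
    · rw [sweep_md_stable s m1 _ n (by omega), sweep_md_stable s m1 _ x hr]

/-! ### Basic invariants of the memory -/

theorem rd_wrs_create (s : ℕ) (m : Mem) (k : ℕ) (l : Loc) (M : Mem) (x f : ℕ)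
    (hf : f < 12 ∨ f = 17 ∨ f = 18) (hxs : x ≠ s + 2)
    (ho : l.2.1 ≤ 4) (hact : act U φ s m k l = 1) :
    rd (wrs U φ s m k l M) (24 * x + f) = rd M (24 * x + f) := by
  unfold wrs
  simp only
  rw [if_pos hact]
  simp only [rd_cons, kRoot, kPar, kPlab, kMd, kNJ, kCh, kEu, kEv]
  repeat rw [if_neg (by omega)]

theorem acc_node_unch' {s : ℕ} {m : Mem} (hm : PInc s m) (n x f : ℕ)
    (hf : f < 12 ∨ f = 17 ∨ f = 18) (hxs : x ≠ s + 2)
    (h : ∀ k < n, ∀ l, locm U φ s m k = some l → nd m l ≠ x ∨ act U φ s m k l = 1) :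
    rd (acc U φ s m n) (24 * x + f) = rd m (24 * x + f) := by
  induction n with
  | zero => rfl
  | succ n ih =>
    have ih' := ih (fun k hk => h k (by omega))
    simp only [acc]
    rcases hl : locm U φ s m n with _ | l
    · exact ih'
    · simp only
      rcases h n (by omega) l hl with h | h
      · rw [rd_wrs_node U φ s m n l _ x f hf h.symm hxs (locm_bd hm hl).2.2]
        exact ih'
      · rw [rd_wrs_create s m n l _ x f hf hxs (locm_bd hm hl).2.2 h]
        exact ih'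

structure Bas (s : ℕ) (m : Mem) : Prop where
  pinc : PInc s m
  fresh : ∀ x, s + 2 ≤ x → ∀ f < 19, rd m (24 * x + f) = 0
  freshlog : ∀ n, s ≤ n → rd m (24 * n + 19) = 0 ∧ rd m (24 * n + 20) = 0
  root_one : rd m (kRoot 1) = 1
  low : ∀ x < 2, ∀ f, 3 ≤ f → f < 12 ∨ f = 17 ∨ f = 18 → rd m (24 * x + f) = 0

theorem acc_low {s : ℕ} {m : Mem} (hm : PInc s m) (n x f : ℕ) (hx : x < 2)
    (hf : f < 12 ∨ f = 17 ∨ f = 18) :
    rd (acc U φ s m n) (24 * x + f) = rd m (24 * x + f) := by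
  apply acc_node_unch' hm n x f hf (by omega)
  intro k hk l hl
  by_cases h : nd m l = 0
  · right
    rw [act_eq_one]
    left
    change rd m (kMd (nd m l)) = 0
    rw [h]; exact hm.2.1
  · left
    have := nd_lt hm hl h
    have := (locm_bd hm hl).1
    omega

theorem acc_high {s : ℕ} {m : Mem} (hm : PInc s m) (n x f : ℕ) (hx : s + 3 ≤ x)
    (hf : f < 19) :
    rd (acc U φ s m n) (24 * x + f) = rd m (24 * x + f) := by
  rcases Nat.lt_or_ge f 12 with h | h
  · apply acc_node_unch' hm n x f (Or.inl h) (by omega)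
    intro k hk l hl
    left
    by_cases h : nd m l = 0
    · omega
    · have := nd_lt hm hl h
      omega
  rcases Nat.lt_or_ge f 17 with h' | h'
  · have e : 24 * x + f = kCh x (f - 12) := by unfold kCh; omega
    rw [e]
    rcases acc_ch (U := U) (φ := φ) hm n x (f - 12) (by omega) with h1 | h1
    · obtain ⟨⟨k, hk, r, a, h2, h3⟩, h4⟩ := h1
      have := (locm_bd hm h2).2.1
      simp only at this
      omega
    · exact h1.2
  · apply acc_node_unch' hm n x f (by omega) (by omega)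
    intro k hk l hl
    left
    by_cases h : nd m l = 0
    · omega
    · have := nd_lt hm hl h
      omega

theorem rd_st_succ_of_ne (s κ : ℕ) (h : ∀ x, 2 ≤ x → x < s + 3 → κ ≠ kMd x) :
    rd (st U φ (s + 1)) κ = rd (acc U φ s (st U φ s) s) κ := by
  rw [st]
  exact sweep_other _ _ _ _ h

theorem bas (s : ℕ) : Bas s (st U φ s) := by
  induction s with
  | zero =>
    have h0 : ∀ j, j ≠ 24 → rd (st U φ 0) j = 0 := by
      intro j hj
      rw [st, rd_cons, if_neg hj, rd_nil]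
    refine ⟨⟨?_, h0 _ (by unfold kMd; omega), h0 _ (by unfold kMd; omega)⟩, ?_, ?_, ?_, ?_⟩
    · intro p q hq h
      exact absurd (h0 _ (by unfold kCh; omega)) h
    · intro x hx f hf
      exact h0 _ (by omega)
    · intro n hn
      exact ⟨h0 _ (by omega), h0 _ (by omega)⟩
    · rfl
    · intro x hx f h3 hf
      exact h0 _ (by omega)
  | succ s ih =>
    have hm := ih.pinc
    refine ⟨⟨?_, ?_, ?_⟩, ?_, ?_, ?_, ?_⟩
    · intro p q hq h
      rw [rd_st_succ_of_ne _ _ (by intro x h2 h3; unfold kCh kMd; omega)] at h ⊢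
      rcases acc_ch (U := U) (φ := φ) hm s p q hq with h1 | h1
      · obtain ⟨⟨k, hk, r, a, h2, h3⟩, h4⟩ := h1
        have := (locm_bd hm h2).2.1
        simp only at this
        rw [h4]
        omega
      · rw [h1.2] at h ⊢
        have := hm.1 p q hq h
        omega
    · rw [rd_st_succ_of_ne _ _ (by intro x h2 h3; unfold kMd; omega)]
      have := acc_low (U := U) (φ := φ) hm s 0 3 (by omega) (by omega)
      unfold kMd
      rw [this]
      exact hm.2.1
    · rw [rd_st_succ_of_ne _ _ (by intro x h2 h3; unfold kMd; omega)]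
      have := acc_low (U := U) (φ := φ) hm s 1 3 (by omega) (by omega)
      unfold kMd
      rw [this]
      exact hm.2.2
    · intro x hx f hf
      rw [rd_st_succ_of_ne _ _ (by intro y h2 h3; unfold kMd; omega)]
      rw [acc_high hm s x f (by omega) hf]
      exact ih.fresh x (by omega) f hf
    · intro n hn
      rw [rd_st_succ_of_ne _ _ (by intro y h2 h3; unfold kMd; omega),
        rd_st_succ_of_ne _ _ (by intro y h2 h3; unfold kMd; omega),
        acc_log_unch hm s n 19 (by omega) (by omega),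
        acc_log_unch hm s n 20 (by omega) (by omega)]
      exact ih.freshlog n (by omega)
    · rw [rd_st_succ_of_ne _ _ (by intro x h2 h3; unfold kMd kRoot; omega)]
      have := acc_low (U := U) (φ := φ) hm s 1 0 (by omega) (by omega)
      unfold kRoot
      rw [this]
      exact ih.root_one
    · intro x hx f h3 hf
      rw [rd_st_succ_of_ne _ _ (by intro y h2 h3; unfold kMd; omega)]
      rw [acc_low hm s x f hx (by omega)]
      exact ih.low x hx f h3 hf

end Pool.Agent.H91.CD.Dyn
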