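import Mathlib
import Pool.Agent.H91.CD.Trans

set_option autoImplicit false

/-!
The interface of the stage construction: transitions of all fields.
-/

namespace Pool.Agent.H91.CD.Dyn

variable (U : ℕ → ℕ → ℕ → Bool → Bool) (φ : ℕ → ℕ → ℕ → ℕ)

/-- Event `c` at depth `k < s` of stage `s`, at node `y`, from location `l`. -/
def Ev (c s k y : ℕ) (l : Loc) : Prop :=
  k < s ∧ loc U φ s k = some l ∧ ch U φ s l.1 l.2.1 = y ∧ act U φ s (st U φ s) k l = c

variable {U φ}

theorem pinc (s : ℕ) : PInc s (st U φ s) := (bas s).pinc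

theorem ev_unique {c s k y : ℕ} {l : Loc} {c' k' : ℕ} {l' : Loc} (hy : y ≠ 0)
    (h : Ev U φ c s k y l) (h' : Ev U φ c' s k' y l') : k = k' ∧ l = l' ∧ c = c' := by
  obtain ⟨h1, h2, h3, h4⟩ := h
  obtain ⟨h1', h2', h3', h4'⟩ := h'
  have := nd_inj (pinc s) h2 h2' (by rw [nd, nd]; exact h3.trans h3'.symm)
    (by rw [nd]; change ch U φ s l.1 l.2.1 ≠ 0; rw [h3]; exact hy)
  obtain ⟨rfl, rfl⟩ := this
  exact ⟨rfl, rfl, h4.symm.trans h4'⟩

theorem ev_range {c s k y : ℕ} {l : Loc} (hy : y ≠ 0) (h : Ev U φ c s k y l) :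
    2 ≤ y ∧ y < s + 2 ∧ l.1 < y := by
  obtain ⟨h1, h2, h3, h4⟩ := h
  have h5 := nd_lt (pinc s) h2 (by rw [nd]; change ch U φ s l.1 l.2.1 ≠ 0; rw [h3]; exact hy)
  have h6 := locm_bd (pinc s) h2
  have h7 : nd (st U φ s) l = y := h3
  omega

/-- Reading a node field of a visited node after the pass. -/
theorem acc_vis {s k y : ℕ} {l : Loc} (hy : y ≠ 0) {c : ℕ} (h : Ev U φ c s k y l) (f : ℕ)
    (hf : f < 12 ∨ f = 17 ∨ f = 18) :
    rd (acc U φ s (st U φ s) s) (24 * y + f) =
      rd (wrs U φ s (st U φ s) k l (acc U φ s (st U φ s) k)) (24 * y + f) ∧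
    rd (acc U φ s (st U φ s) k) (24 * y + f) = rd (st U φ s) (24 * y + f) := by
  have hr := ev_range hy h
  obtain ⟨h1, h2, h3, h4⟩ := h
  refine ⟨acc_node_chg (pinc s) s y f hf hy (by omega) h1 h2 h3, ?_⟩
  apply acc_node_unch (pinc s) k y f hf (by omega)
  intro k' hk' l' hl' he
  have := nd_inj (pinc s) hl' h2 (by rw [he]; exact h3.symm) (by rw [he]; exact hy)
  omega

/-- Reading a node field of a node which is not visited. -/
theorem acc_nvis {s y : ℕ} (hy : y < s + 2)
    (h : ∀ k l, ¬ (k < s ∧ loc U φ s k = some l ∧ ch U φ s l.1 l.2.1 = y ∧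
      act U φ s (st U φ s) k l ≠ 1)) (f : ℕ) (hf : f < 12 ∨ f = 17 ∨ f = 18) :
    rd (acc U φ s (st U φ s) s) (24 * y + f) = rd (st U φ s) (24 * y + f) := by
  apply acc_node_unch' (pinc s) s y f hf (by omega)
  intro k hk l hl
  by_contra hcon
  push Not at hcon
  exact h k l ⟨hk, hl, hcon.1, hcon.2⟩

theorem fld_succ (s y f : ℕ) (hf : f < 24) (hf3 : f ≠ 3) :
    rd (st U φ (s + 1)) (24 * y + f) = rd (acc U φ s (st U φ s) s) (24 * y + f) := by
  apply rd_st_succ_of_ne
  intro x _ _
  unfold kMd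
  omega

theorem tr_hold {s k y : ℕ} {l : Loc} (hy : y ≠ 0) (h : Ev U φ 2 s k y l) :
    md1 U φ s y = 2 ∧ lab U φ (s + 1) y = l.2.2.2 ∧ nH U φ (s + 1) y = s ∧
    mark U φ (s + 1) y = s ∧ nJ U φ (s + 1) y = nJ U φ s y ∧
    (∀ o < 4, aw U φ (s + 1) y o = aw U φ s y o) ∧ cst U φ (s + 1) y = cst U φ s y ∧
    clab U φ (s + 1) y = clab U φ s y := by
  have hv := fun f hf => acc_vis hy h f hf
  obtain ⟨h1, h2, h3, h4⟩ := h
  have hy' : rd (st U φ s) (kCh l.1 l.2.1) = y := h3
  have hw : ∀ M, wrs U φ s (st U φ s) k l M =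
      (kMd y, 2) :: (kLab y, l.2.2.2) :: (kNH y, s) :: (kMark y, s) :: (kEv s, y) :: M := by
    intro M
    unfold wrs
    simp only [hy', h4]
    norm_num
  simp only [hw] at hv
  refine ⟨?_, ?_, ?_, ?_, ?_, ?_, ?_, ?_⟩
  · unfold md1 kMd
    rw [(hv 3 (by omega)).1]
    simp only [rd_cons, kMd]
    rw [if_pos trivial]
  · unfold lab kLab
    rw [fld_succ s y 4 (by omega) (by omega), (hv 4 (by omega)).1]
    simp only [rd_cons, kMd, kLab]
    rw [if_neg (by omega), if_pos trivial]
  · unfold nH kNH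
    rw [fld_succ s y 6 (by omega) (by omega), (hv 6 (by omega)).1]
    simp only [rd_cons, kMd, kLab, kNH]
    rw [if_neg (by omega), if_neg (by omega), if_pos trivial]
  · unfold mark kMark
    rw [fld_succ s y 7 (by omega) (by omega), (hv 7 (by omega)).1]
    simp only [rd_cons, kMd, kLab, kNH, kMark]
    rw [if_neg (by omega), if_neg (by omega), if_neg (by omega), if_pos trivial]
  · unfold nJ kNJ
    rw [fld_succ s y 5 (by omega) (by omega), (hv 5 (by omega)).1]
    simp only [rd_cons, kMd, kLab, kNH, kMark, kEv]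
    repeat rw [if_neg (by omega)]
    exact (hv 5 (by omega)).2
  · intro o ho
    unfold aw kAw
    rw [add_assoc, fld_succ s y (8 + o) (by omega) (by omega), (hv (8 + o) (by omega)).1]
    simp only [rd_cons, kMd, kLab, kNH, kMark, kEv]
    repeat rw [if_neg (by omega)]
    exact (hv (8 + o) (by omega)).2
  · unfold cst kCst
    rw [fld_succ s y 17 (by omega) (by omega), (hv 17 (by omega)).1]
    simp only [rd_cons, kMd, kLab, kNH, kMark, kEv]
    repeat rw [if_neg (by omega)]
    exact (hv 17 (by omega)).2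
  · unfold clab kClab
    rw [fld_succ s y 18 (by omega) (by omega), (hv 18 (by omega)).1]
    simp only [rd_cons, kMd, kLab, kNH, kMark, kEv]
    repeat rw [if_neg (by omega)]
    exact (hv 18 (by omega)).2

/-- The chosen kind at an event of type 3. -/
abbrev chs (U : ℕ → ℕ → ℕ → Bool → Bool) (φ : ℕ → ℕ → ℕ → ℕ) (s k y : ℕ) : ℕ :=
  chosen U (k / 2) s (st U φ s) y

theorem tr_choose {s k y : ℕ} {l : Loc} (hy : y ≠ 0) (h : Ev U φ 3 s k y l)
    (hc : chs U φ s k y < 4) :
    md1 U φ s y = 4 ∧ lab U φ (s + 1) y = lab U φ s y ∧ nH U φ (s + 1) y = nH U φ s y ∧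
    mark U φ (s + 1) y = s ∧ nJ U φ (s + 1) y = nJ U φ s y ∧
    (∀ o < 4, aw U φ (s + 1) y o =
      if o = chs U φ s k y then 1 - aw U φ s y o else aw U φ s y o) ∧
    cst U φ (s + 1) y = s + 1 ∧
    clab U φ (s + 1) y = chs U φ s k y := by
  have hv := fun f hf => acc_vis hy h f hf
  obtain ⟨h1, h2, h3, h4⟩ := h
  have hy' : rd (st U φ s) (kCh l.1 l.2.1) = y := h3
  have hw : ∀ M, wrs U φ s (st U φ s) k l M =
      (kMd y, 4) :: (kMark y, s) ::
        (kAw y (chs U φ s k y), 1 - rd (st U φ s) (kAw y (chs U φ s k y))) ::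
        (kCst y, s + 1) :: (kClab y, chs U φ s k y) :: M := by
    intro M
    unfold wrs
    simp only [hy', h4]
    norm_num
    intro h; exact absurd hc (by unfold chs; omega)
  simp only [hw] at hv
  generalize chs U φ s k y = q at *
  refine ⟨?_, ?_, ?_, ?_, ?_, ?_, ?_, ?_⟩
  · unfold md1 kMd
    rw [(hv 3 (by omega)).1]
    simp only [rd_cons, kMd]
    rw [if_pos trivial]
  · unfold lab kLab
    rw [fld_succ s y 4 (by omega) (by omega), (hv 4 (by omega)).1]
    simp only [rd_cons, kMd, kMark, kAw, kCst, kClab]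
    repeat rw [if_neg (by omega)]
    exact (hv 4 (by omega)).2
  · unfold nH kNH
    rw [fld_succ s y 6 (by omega) (by omega), (hv 6 (by omega)).1]
    simp only [rd_cons, kMd, kMark, kAw, kCst, kClab]
    repeat rw [if_neg (by omega)]
    exact (hv 6 (by omega)).2
  · unfold mark kMark
    rw [fld_succ s y 7 (by omega) (by omega), (hv 7 (by omega)).1]
    simp only [rd_cons, kMd, kMark, kAw, kCst, kClab]
    rw [if_neg (by omega), if_pos trivial]
  · unfold nJ kNJ
    rw [fld_succ s y 5 (by omega) (by omega), (hv 5 (by omega)).1]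
    simp only [rd_cons, kMd, kMark, kAw, kCst, kClab]
    repeat rw [if_neg (by omega)]
    exact (hv 5 (by omega)).2
  · intro o ho
    unfold aw kAw
    rw [add_assoc, fld_succ s y (8 + o) (by omega) (by omega), (hv (8 + o) (by omega)).1]
    simp only [rd_cons, kMd, kMark, kAw, kCst, kClab]
    rw [if_neg (by omega), if_neg (by omega)]
    split_ifs with h5 h6 h6
    · subst h6; rw [add_assoc]
    · omega
    · omega
    · exfalso; omega
    · exfalso; omega
    · exfalso; omega
    · exfalso; omega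
    · exact (hv (8 + o) (by omega)).2
  · unfold cst kCst
    rw [fld_succ s y 17 (by omega) (by omega), (hv 17 (by omega)).1]
    simp only [rd_cons, kMd, kMark, kAw, kCst, kClab]
    rw [if_neg (by omega), if_neg (by omega), if_neg (by omega), if_pos trivial]
  · unfold clab kClab
    rw [fld_succ s y 18 (by omega) (by omega), (hv 18 (by omega)).1]
    simp only [rd_cons, kMd, kMark, kAw, kCst, kClab]
    rw [if_neg (by omega), if_neg (by omega), if_neg (by omega), if_neg (by omega),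
      if_pos trivial]

theorem tr_none {s k y : ℕ} {l : Loc} (hy : y ≠ 0) (h : Ev U φ 3 s k y l)
    (hc : ¬ chs U φ s k y < 4) :
    md1 U φ s y = 4 ∧ lab U φ (s + 1) y = lab U φ s y ∧ nH U φ (s + 1) y = nH U φ s y ∧
    mark U φ (s + 1) y = s ∧ nJ U φ (s + 1) y = nJ U φ s y ∧
    (∀ o < 4, aw U φ (s + 1) y o = aw U φ s y o) ∧
    cst U φ (s + 1) y = cst U φ s y ∧
    clab U φ (s + 1) y = clab U φ s y := by
  have hv := fun f hf => acc_vis hy h f hf
  obtain ⟨h1, h2, h3, h4⟩ := h
  have hy' : rd (st U φ s) (kCh l.1 l.2.1) = y := h3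
  have hw : ∀ M, wrs U φ s (st U φ s) k l M = (kMd y, 4) :: (kMark y, s) :: M := by
    intro M
    unfold wrs
    simp only [hy', h4]
    norm_num
    intro h; exact absurd h hc
  simp only [hw] at hv
  refine ⟨?_, ?_, ?_, ?_, ?_, ?_, ?_, ?_⟩
  · unfold md1 kMd
    rw [(hv 3 (by omega)).1]
    simp only [rd_cons, kMd]
    rw [if_pos trivial]
  · unfold lab kLab
    rw [fld_succ s y 4 (by omega) (by omega), (hv 4 (by omega)).1]
    simp only [rd_cons, kMd, kMark]
    repeat rw [if_neg (by omega)]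
    exact (hv 4 (by omega)).2
  · unfold nH kNH
    rw [fld_succ s y 6 (by omega) (by omega), (hv 6 (by omega)).1]
    simp only [rd_cons, kMd, kMark]
    repeat rw [if_neg (by omega)]
    exact (hv 6 (by omega)).2
  · unfold mark kMark
    rw [fld_succ s y 7 (by omega) (by omega), (hv 7 (by omega)).1]
    simp only [rd_cons, kMd, kMark]
    rw [if_neg (by omega), if_pos trivial]
  · unfold nJ kNJ
    rw [fld_succ s y 5 (by omega) (by omega), (hv 5 (by omega)).1]
    simp only [rd_cons, kMd, kMark]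
    repeat rw [if_neg (by omega)]
    exact (hv 5 (by omega)).2
  · intro o ho
    unfold aw kAw
    rw [add_assoc, fld_succ s y (8 + o) (by omega) (by omega), (hv (8 + o) (by omega)).1]
    simp only [rd_cons, kMd, kMark]
    repeat rw [if_neg (by omega)]
    exact (hv (8 + o) (by omega)).2
  · unfold cst kCst
    rw [fld_succ s y 17 (by omega) (by omega), (hv 17 (by omega)).1]
    simp only [rd_cons, kMd, kMark]
    repeat rw [if_neg (by omega)]
    exact (hv 17 (by omega)).2
  · unfold clab kClab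
    rw [fld_succ s y 18 (by omega) (by omega), (hv 18 (by omega)).1]
    simp only [rd_cons, kMd, kMark]
    repeat rw [if_neg (by omega)]
    exact (hv 18 (by omega)).2

theorem tr_join {s k y : ℕ} {l : Loc} (hy : y ≠ 0) (h : Ev U φ 4 s k y l) :
    md1 U φ s y = 5 ∧ lab U φ (s + 1) y = lab U φ s y ∧ nH U φ (s + 1) y = nH U φ s y ∧
    mark U φ (s + 1) y = mark U φ s y ∧ nJ U φ (s + 1) y = s ∧
    (∀ o < 4, aw U φ (s + 1) y o = aw U φ s y o) ∧
    cst U φ (s + 1) y = cst U φ s y ∧
    clab U φ (s + 1) y = clab U φ s y := by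
  have hv := fun f hf => acc_vis hy h f hf
  obtain ⟨h1, h2, h3, h4⟩ := h
  have hy' : rd (st U φ s) (kCh l.1 l.2.1) = y := h3
  have hw : ∀ M, wrs U φ s (st U φ s) k l M =
      (kMd y, 5) :: (kNJ y, s) :: (kEu s, l.2.2.1) :: (kEv s, y) :: M := by
    intro M
    unfold wrs
    simp only [hy', h4]
    norm_num
  simp only [hw] at hv
  refine ⟨?_, ?_, ?_, ?_, ?_, ?_, ?_, ?_⟩
  · unfold md1 kMd
    rw [(hv 3 (by omega)).1]
    simp only [rd_cons, kMd]
    rw [if_pos trivial]
  · unfold lab kLab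
    rw [fld_succ s y 4 (by omega) (by omega), (hv 4 (by omega)).1]
    simp only [rd_cons, kMd, kNJ, kEu, kEv]
    repeat rw [if_neg (by omega)]
    exact (hv 4 (by omega)).2
  · unfold nH kNH
    rw [fld_succ s y 6 (by omega) (by omega), (hv 6 (by omega)).1]
    simp only [rd_cons, kMd, kNJ, kEu, kEv]
    repeat rw [if_neg (by omega)]
    exact (hv 6 (by omega)).2
  · unfold mark kMark
    rw [fld_succ s y 7 (by omega) (by omega), (hv 7 (by omega)).1]
    simp only [rd_cons, kMd, kNJ, kEu, kEv]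
    repeat rw [if_neg (by omega)]
    exact (hv 7 (by omega)).2
  · unfold nJ kNJ
    rw [fld_succ s y 5 (by omega) (by omega), (hv 5 (by omega)).1]
    simp only [rd_cons, kMd, kNJ, kEu, kEv]
    rw [if_neg (by omega), if_pos trivial]
  · intro o ho
    unfold aw kAw
    rw [add_assoc, fld_succ s y (8 + o) (by omega) (by omega), (hv (8 + o) (by omega)).1]
    simp only [rd_cons, kMd, kNJ, kEu, kEv]
    repeat rw [if_neg (by omega)]
    exact (hv (8 + o) (by omega)).2
  · unfold cst kCst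
    rw [fld_succ s y 17 (by omega) (by omega), (hv 17 (by omega)).1]
    simp only [rd_cons, kMd, kNJ, kEu, kEv]
    repeat rw [if_neg (by omega)]
    exact (hv 17 (by omega)).2
  · unfold clab kClab
    rw [fld_succ s y 18 (by omega) (by omega), (hv 18 (by omega)).1]
    simp only [rd_cons, kMd, kNJ, kEu, kEv]
    repeat rw [if_neg (by omega)]
    exact (hv 18 (by omega)).2

/-- Fields of a node with no event (neither hold, nor choice, nor join). -/
theorem tr_idle {s y : ℕ} (hy : y ≠ 0) (hys : y < s + 2)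
    (h : ∀ k l, ¬ Ev U φ 2 s k y l ∧ ¬ Ev U φ 3 s k y l ∧ ¬ Ev U φ 4 s k y l) :
    md1 U φ s y = md U φ s y ∧ lab U φ (s + 1) y = lab U φ s y ∧
    nH U φ (s + 1) y = nH U φ s y ∧
    mark U φ (s + 1) y = mark U φ s y ∧ nJ U φ (s + 1) y = nJ U φ s y ∧
    (∀ o < 4, aw U φ (s + 1) y o = aw U φ s y o) ∧
    cst U φ (s + 1) y = cst U φ s y ∧
    clab U φ (s + 1) y = clab U φ s y := by
  have hv : ∀ f, (f < 12 ∨ f = 17 ∨ f = 18) →
      rd (acc U φ s (st U φ s) s) (24 * y + f) = rd (st U φ s) (24 * y + f) := by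
    intro f hf
    by_cases hex : ∃ k l, k < s ∧ loc U φ s k = some l ∧ ch U φ s l.1 l.2.1 = y ∧
      act U φ s (st U φ s) k l ≠ 1
    · obtain ⟨k, l, h1, h2, h3, h4⟩ := hex
      have hEv : Ev U φ (act U φ s (st U φ s) k l) s k y l := ⟨h1, h2, h3, rfl⟩
      obtain ⟨g1, g2⟩ := acc_vis hy hEv f hf
      rw [g1]
      have e2 : act U φ s (st U φ s) k l ≠ 2 := fun he => (h k l).1 (he ▸ hEv)
      have e3 : act U φ s (st U φ s) k l ≠ 3 := fun he => (h k l).2.1 (he ▸ hEv)
      have e4 : act U φ s (st U φ s) k l ≠ 4 := fun he => (h k l).2.2 (he ▸ hEv)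
      have hw : wrs U φ s (st U φ s) k l (acc U φ s (st U φ s) k) = acc U φ s (st U φ s) k := by
        unfold wrs
        simp only [if_neg h4, if_neg e2, if_neg e3, if_neg e4]
      rw [hw, g2]
    · apply acc_nvis hys _ f hf
      intro k l hcon
      exact hex ⟨k, l, hcon⟩
  refine ⟨hv 3 (by omega), ?_, ?_, ?_, ?_, ?_, ?_, ?_⟩
  · unfold lab kLab
    rw [fld_succ s y 4 (by omega) (by omega), hv 4 (by omega)]
  · unfold nH kNH
    rw [fld_succ s y 6 (by omega) (by omega), hv 6 (by omega)]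
  · unfold mark kMark
    rw [fld_succ s y 7 (by omega) (by omega), hv 7 (by omega)]
  · unfold nJ kNJ
    rw [fld_succ s y 5 (by omega) (by omega), hv 5 (by omega)]
  · intro o ho
    unfold aw kAw
    rw [add_assoc, fld_succ s y (8 + o) (by omega) (by omega), hv (8 + o) (by omega)]
  · unfold cst kCst
    rw [fld_succ s y 17 (by omega) (by omega), hv 17 (by omega)]
  · unfold clab kClab
    rw [fld_succ s y 18 (by omega) (by omega), hv 18 (by omega)]

/-! ### Creation, pointers, logs -/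

/-- Creation at depth `k < s` of stage `s` from location `l`. -/
def Cr (U : ℕ → ℕ → ℕ → Bool → Bool) (φ : ℕ → ℕ → ℕ → ℕ) (s k : ℕ) (l : Loc) : Prop :=
  k < s ∧ loc U φ s k = some l ∧ act U φ s (st U φ s) k l = 1

theorem acc_stop {s k : ℕ} {m : Mem} {l : Loc} (hl : locm U φ s m k = some l)
    (h0 : act U φ s m k l ≠ 0) (h3 : act U φ s m k l ≠ 3) (n : ℕ) (hk : k < n) :
    acc U φ s m n = wrs U φ s m k l (acc U φ s m k) := by
  induction n with
  | zero => omega
  | succ n ih =>
    rcases Nat.lt_succ_iff_lt_or_eq.1 hk with h | h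
    · simp only [acc, locm_stop hl h0 h3 h]
      exact ih h
    · subst h
      simp only [acc, hl]

/-- Only events of type 0 and 3 before a given location. -/
theorem act_before {s k j : ℕ} {m : Mem} {l l' : Loc} (hl : locm U φ s m k = some l)
    (hl' : locm U φ s m j = some l') (hj : j < k) :
    act U φ s m j l' = 0 ∨ act U φ s m j l' = 3 := by
  by_contra hcon
  push Not at hcon
  have := locm_stop hl' hcon.1 hcon.2 hj
  rw [this] at hl
  exact absurd hl (by simp)

theorem rd_wrs_new {s : ℕ} {m : Mem} {k : ℕ} {l : Loc} (M : Mem) (f : ℕ) (hf : f < 19)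
    (hy : nd m l < s + 2) (hact : act U φ s m k l ≠ 1) :
    rd (wrs U φ s m k l M) (24 * (s + 2) + f) = rd M (24 * (s + 2) + f) := by
  unfold wrs
  simp only [nd] at hy
  simp only
  generalize rd m (kCh l.1 l.2.1) = y at *
  rw [if_neg hact]
  split_ifs with h2 h3 h4 h5
  · simp only [rd_cons, kMd, kLab, kNH, kMark, kEv]
    repeat rw [if_neg (by omega)]
  · simp only [rd_cons, kMd, kMark, kAw, kCst, kClab]
    repeat rw [if_neg (by omega)]
  · simp only [rd_cons, kMd, kMark]
    repeat rw [if_neg (by omega)]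
  · simp only [rd_cons, kMd, kNJ, kEu, kEv]
    repeat rw [if_neg (by omega)]
  · rfl

theorem rd_wrs_log' {s : ℕ} {m : Mem} {k : ℕ} {l : Loc} (M : Mem) (n f : ℕ)
    (hf : f = 19 ∨ f = 20)
    (hact : act U φ s m k l ≠ 1) (hact2 : act U φ s m k l ≠ 2) (hact4 : act U φ s m k l ≠ 4) :
    rd (wrs U φ s m k l M) (24 * n + f) = rd M (24 * n + f) := by
  unfold wrs
  simp only
  generalize rd m (kCh l.1 l.2.1) = y at *
  rw [if_neg hact, if_neg hact2]
  split_ifs with h3 h4
  · simp only [rd_cons, kMd, kMark, kAw, kCst, kClab]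
    repeat rw [if_neg (by omega)]
  · simp only [rd_cons, kMd, kMark]
    repeat rw [if_neg (by omega)]
  · rfl

theorem acc_new {s n : ℕ} (f : ℕ) (hf : f < 19)
    (h : ∀ k < n, ∀ l, loc U φ s k = some l → act U φ s (st U φ s) k l ≠ 1) :
    rd (acc U φ s (st U φ s) n) (24 * (s + 2) + f) = 0 := by
  induction n with
  | zero => exact (bas s).fresh (s + 2) le_rfl f hf
  | succ n ih =>
    simp only [acc]
    rcases hl : locm U φ s (st U φ s) n with _ | l
    · exact ih (fun k hk => h k (by omega))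
    · simp only
      have h1 := h n (by omega) l hl
      have hy : nd (st U φ s) l < s + 2 := by
        by_cases h0 : nd (st U φ s) l = 0
        · omega
        · exact (nd_lt (pinc s) hl h0).2
      rw [rd_wrs_new _ f hf hy h1]
      exact ih (fun k hk => h k (by omega))

theorem acc_log {s n : ℕ} (f : ℕ) (hf : f = 19 ∨ f = 20)
    (h : ∀ k < n, ∀ l, loc U φ s k = some l → act U φ s (st U φ s) k l ≠ 1 ∧
      act U φ s (st U φ s) k l ≠ 2 ∧ act U φ s (st U φ s) k l ≠ 4) :
    rd (acc U φ s (st U φ s) n) (24 * s + f) = 0 := by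
  induction n with
  | zero =>
    rcases hf with rfl | rfl
    · exact ((bas s).freshlog s le_rfl).1
    · exact ((bas s).freshlog s le_rfl).2
  | succ n ih =>
    simp only [acc]
    rcases hl : locm U φ s (st U φ s) n with _ | l
    · exact ih (fun k hk => h k (by omega))
    · simp only
      obtain ⟨h1, h2, h4⟩ := h n (by omega) l hl
      rw [rd_wrs_log' _ s f hf h1 h2 h4]
      exact ih (fun k hk => h k (by omega))

/-- The new coordinate after a creation. -/
theorem tr_create {s k : ℕ} {l : Loc} (h : Cr U φ s k l) :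
    root U φ (s + 1) (s + 2) = l.2.2.1 ∧ par U φ (s + 1) (s + 2) = l.1 ∧
    plab U φ (s + 1) (s + 2) = l.2.1 ∧ md1 U φ s (s + 2) = 1 ∧ nJ U φ (s + 1) (s + 2) = s ∧
    lab U φ (s + 1) (s + 2) = 0 ∧ (∀ o < 4, aw U φ (s + 1) (s + 2) o = 0) ∧
    cst U φ (s + 1) (s + 2) = 0 ∧
    eu U φ (s + 1) s = l.2.2.1 ∧ ev U φ (s + 1) s = s + 2 := by
  obtain ⟨h1, h2, h3⟩ := h
  have hacc := acc_stop (U := U) (φ := φ) h2 (by rw [h3]; omega) (by rw [h3]; omega) s h1
  have hbd := locm_bd (pinc s) h2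
  have hw : ∀ M, wrs U φ s (st U φ s) k l M =
      (kRoot (s + 2), l.2.2.1) :: (kPar (s + 2), l.1) :: (kPlab (s + 2), l.2.1) ::
      (kMd (s + 2), 1) :: (kNJ (s + 2), s) :: (kCh l.1 l.2.1, s + 2) :: (kEu s, l.2.2.1) ::
      (kEv s, s + 2) :: M := by
    intro M
    unfold wrs
    simp only [h3]
    norm_num
  rw [hw] at hacc
  have hnew : ∀ f < 19, rd (acc U φ s (st U φ s) k) (24 * (s + 2) + f) = 0 := by
    intro f hf
    apply acc_new f hf
    intro j hj l' hl'
    rcases act_before h2 hl' hj with h | h <;> omega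
  refine ⟨?_, ?_, ?_, ?_, ?_, ?_, ?_, ?_, ?_, ?_⟩
  · unfold root
    rw [rd_st_succ_of_ne _ _ (by intro x _ _; unfold kRoot kMd; omega), hacc]
    simp only [rd_cons]
    rw [if_pos trivial]
  · unfold par
    rw [rd_st_succ_of_ne _ _ (by intro x _ _; unfold kPar kMd; omega), hacc]
    simp only [rd_cons, kRoot, kPar]
    rw [if_neg (by omega), if_pos trivial]
  · unfold plab
    rw [rd_st_succ_of_ne _ _ (by intro x _ _; unfold kPlab kMd; omega), hacc]
    simp only [rd_cons, kRoot, kPar, kPlab]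
    rw [if_neg (by omega), if_neg (by omega), if_pos trivial]
  · unfold md1
    rw [hacc]
    simp only [rd_cons, kRoot, kPar, kPlab, kMd]
    rw [if_neg (by omega), if_neg (by omega), if_neg (by omega), if_pos trivial]
  · unfold nJ
    rw [rd_st_succ_of_ne _ _ (by intro x _ _; unfold kNJ kMd; omega), hacc]
    simp only [rd_cons, kRoot, kPar, kPlab, kMd, kNJ]
    rw [if_neg (by omega), if_neg (by omega), if_neg (by omega), if_neg (by omega),
      if_pos trivial]
  · unfold lab
    rw [rd_st_succ_of_ne _ _ (by intro x _ _; unfold kLab kMd; omega), hacc]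
    simp only [rd_cons, kRoot, kPar, kPlab, kMd, kNJ, kLab, kCh, kEu, kEv]
    repeat rw [if_neg (by omega)]
    exact hnew 4 (by omega)
  · intro o ho
    unfold aw
    rw [rd_st_succ_of_ne _ _ (by intro x _ _; unfold kAw kMd; omega), hacc]
    simp only [rd_cons, kRoot, kPar, kPlab, kMd, kNJ, kAw, kCh, kEu, kEv]
    repeat rw [if_neg (by omega)]
    rw [add_assoc]
    exact hnew (8 + o) (by omega)
  · unfold cst
    rw [rd_st_succ_of_ne _ _ (by intro x _ _; unfold kCst kMd; omega), hacc]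
    simp only [rd_cons, kRoot, kPar, kPlab, kMd, kNJ, kCst, kCh, kEu, kEv]
    repeat rw [if_neg (by omega)]
    exact hnew 17 (by omega)
  · unfold eu
    rw [rd_st_succ_of_ne _ _ (by intro x _ _; unfold kEu kMd; omega), hacc]
    simp only [rd_cons, kRoot, kPar, kPlab, kMd, kNJ, kCh, kEu, kEv]
    repeat rw [if_neg (by omega)]
    rw [if_pos trivial]
  · unfold ev
    rw [rd_st_succ_of_ne _ _ (by intro x _ _; unfold kEv kMd; omega), hacc]
    simp only [rd_cons, kRoot, kPar, kPlab, kMd, kNJ, kCh, kEu, kEv]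
    repeat rw [if_neg (by omega)]
    rw [if_pos trivial]

/-- No creation. -/
theorem tr_nocreate {s : ℕ} (h : ∀ k l, ¬ Cr U φ s k l) : md1 U φ s (s + 2) = 0 := by
  unfold md1 kMd
  apply acc_new 3 (by omega)
  intro k hk l hl h1
  exact h k l ⟨hk, hl, h1⟩

theorem tr_hold_log {s k y : ℕ} {l : Loc} (h : Ev U φ 2 s k y l) :
    eu U φ (s + 1) s = 0 ∧ ev U φ (s + 1) s = y := by
  obtain ⟨h1, h2, h3, h4⟩ := h
  have hy' : rd (st U φ s) (kCh l.1 l.2.1) = y := h3
  have hacc := acc_stop (U := U) (φ := φ) h2 (by rw [h4]; omega) (by rw [h4]; omega) s h1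
  have hw : ∀ M, wrs U φ s (st U φ s) k l M =
      (kMd y, 2) :: (kLab y, l.2.2.2) :: (kNH y, s) :: (kMark y, s) :: (kEv s, y) :: M := by
    intro M
    unfold wrs
    simp only [hy', h4]
    norm_num
  rw [hw] at hacc
  constructor
  · unfold eu
    rw [rd_st_succ_of_ne _ _ (by intro x _ _; unfold kEu kMd; omega), hacc]
    simp only [rd_cons, kMd, kLab, kNH, kMark, kEv, kEu]
    repeat rw [if_neg (by omega)]
    apply acc_log 19 (by omega)
    intro j hj l' hl'
    rcases act_before h2 hl' hj with h | h <;> omega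
  · unfold ev
    rw [rd_st_succ_of_ne _ _ (by intro x _ _; unfold kEv kMd; omega), hacc]
    simp only [rd_cons, kMd, kLab, kNH, kMark, kEv]
    repeat rw [if_neg (by omega)]
    rw [if_pos trivial]

theorem tr_join_log {s k y : ℕ} {l : Loc} (h : Ev U φ 4 s k y l) :
    eu U φ (s + 1) s = l.2.2.1 ∧ ev U φ (s + 1) s = y := by
  obtain ⟨h1, h2, h3, h4⟩ := h
  have hy' : rd (st U φ s) (kCh l.1 l.2.1) = y := h3
  have hacc := acc_stop (U := U) (φ := φ) h2 (by rw [h4]; omega) (by rw [h4]; omega) s h1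
  have hw : ∀ M, wrs U φ s (st U φ s) k l M =
      (kMd y, 5) :: (kNJ y, s) :: (kEu s, l.2.2.1) :: (kEv s, y) :: M := by
    intro M
    unfold wrs
    simp only [hy', h4]
    norm_num
  rw [hw] at hacc
  constructor
  · unfold eu
    rw [rd_st_succ_of_ne _ _ (by intro x _ _; unfold kEu kMd; omega), hacc]
    simp only [rd_cons, kMd, kNJ, kEu]
    repeat rw [if_neg (by omega)]
    rw [if_pos trivial]
  · unfold ev
    rw [rd_st_succ_of_ne _ _ (by intro x _ _; unfold kEv kMd; omega), hacc]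
    simp only [rd_cons, kMd, kNJ, kEu, kEv]
    repeat rw [if_neg (by omega)]
    rw [if_pos trivial]

theorem tr_nolog {s : ℕ} (h : ∀ k < s, ∀ l, loc U φ s k = some l →
      act U φ s (st U φ s) k l ≠ 1 ∧
      act U φ s (st U φ s) k l ≠ 2 ∧ act U φ s (st U φ s) k l ≠ 4) :
    eu U φ (s + 1) s = 0 ∧ ev U φ (s + 1) s = 0 := by
  constructor
  · unfold eu
    rw [rd_st_succ_of_ne _ _ (by intro x _ _; unfold kEu kMd; omega)]
    exact acc_log 19 (by omega) h
  · unfold ev
    rw [rd_st_succ_of_ne _ _ (by intro x _ _; unfold kEv kMd; omega)]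
    exact acc_log 20 (by omega) h

theorem log_old {s n : ℕ} (hn : n ≠ s) :
    eu U φ (s + 1) n = eu U φ s n ∧ ev U φ (s + 1) n = ev U φ s n := by
  constructor
  · unfold eu
    rw [rd_st_succ_of_ne _ _ (by intro x _ _; unfold kEu kMd; omega)]
    exact acc_log_unch (pinc s) s n 19 (by omega) hn
  · unfold ev
    rw [rd_st_succ_of_ne _ _ (by intro x _ _; unfold kEv kMd; omega)]
    exact acc_log_unch (pinc s) s n 20 (by omega) hn

theorem struct_old {s x : ℕ} (hx : x ≠ s + 2) :
    root U φ (s + 1) x = root U φ s x ∧ par U φ (s + 1) x = par U φ s x ∧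
      plab U φ (s + 1) x = plab U φ s x := by
  refine ⟨?_, ?_, ?_⟩
  · unfold root
    rw [rd_st_succ_of_ne _ _ (by intro y _ _; unfold kRoot kMd; omega)]
    exact acc_struct_unch (pinc s) s x 0 (by omega) hx
  · unfold par
    rw [rd_st_succ_of_ne _ _ (by intro y _ _; unfold kPar kMd; omega)]
    exact acc_struct_unch (pinc s) s x 1 (by omega) hx
  · unfold plab
    rw [rd_st_succ_of_ne _ _ (by intro y _ _; unfold kPlab kMd; omega)]
    exact acc_struct_unch (pinc s) s x 2 (by omega) hx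

theorem ch_succ (s p q : ℕ) (hq : q ≤ 4) :
    ((∃ k r a, Cr U φ s k (p, q, r, a)) ∧ ch U φ (s + 1) p q = s + 2) ∨
    ((¬ ∃ k r a, Cr U φ s k (p, q, r, a)) ∧ ch U φ (s + 1) p q = ch U φ s p q) := by
  unfold ch
  rw [rd_st_succ_of_ne _ _ (by intro y _ _; unfold kCh kMd; omega)]
  rcases acc_ch (U := U) (φ := φ) (pinc s) s p q hq with h | h
  · left
    obtain ⟨⟨k, hk, r, a, h1, h2⟩, h3⟩ := h
    exact ⟨⟨k, r, a, hk, h1, h2⟩, h3⟩
  · right
    refine ⟨?_, h.2⟩
    rintro ⟨k, r, a, hk, h1, h2⟩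
    exact h.1 ⟨k, hk, r, a, h1, h2⟩

/-- The mode after the sweep. -/
theorem md_succ {s x : ℕ} (h2 : 2 ≤ x) (hx : x < s + 3)
    (hp : par U φ (s + 1) x < x) (hr : root U φ (s + 1) x < x) :
    md U φ (s + 1) x =
      if md1 U φ s x = 0 then 0
      else if md1 U φ s x = 6 ∨ md U φ (s + 1) (par U φ (s + 1) x) = 6 ∨
          (cst U φ (s + 1) (par U φ (s + 1) x) = s + 1 ∧
            clab U φ (s + 1) (par U φ (s + 1) x) < plab U φ (s + 1) x) then 6
      else if pend (md1 U φ s x) ∧ (root U φ (s + 1) x = 1 ∨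
          (pend (md1 U φ s (root U φ (s + 1) x)) ∧
            (md U φ (s + 1) (root U φ (s + 1) x) = 1 ∨
              md U φ (s + 1) (root U φ (s + 1) x) = 3))) then
        (if md1 U φ s x = 2 then 3 else 1)
      else md1 U φ s x := by
  have e1 : ∀ x, par U φ (s + 1) x = rd (acc U φ s (st U φ s) s) (kPar x) := by
    intro x
    unfold par
    rw [rd_st_succ_of_ne _ _ (by intro y _ _; unfold kPar kMd; omega)]
  have e2 : ∀ x, root U φ (s + 1) x = rd (acc U φ s (st U φ s) s) (kRoot x) := by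
    intro x
    unfold root
    rw [rd_st_succ_of_ne _ _ (by intro y _ _; unfold kRoot kMd; omega)]
  have e3 : ∀ x, plab U φ (s + 1) x = rd (acc U φ s (st U φ s) s) (kPlab x) := by
    intro x
    unfold plab
    rw [rd_st_succ_of_ne _ _ (by intro y _ _; unfold kPlab kMd; omega)]
  have e4 : ∀ x, cst U φ (s + 1) x = rd (acc U φ s (st U φ s) s) (kCst x) := by
    intro x
    unfold cst
    rw [rd_st_succ_of_ne _ _ (by intro y _ _; unfold kCst kMd; omega)]
  have e5 : ∀ x, clab U φ (s + 1) x = rd (acc U φ s (st U φ s) s) (kClab x) := by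
    intro x
    unfold clab
    rw [rd_st_succ_of_ne _ _ (by intro y _ _; unfold kClab kMd; omega)]
  have key := sweep_md s (acc U φ s (st U φ s) s) x (s + 3) h2 hx
    (by rw [← e1]; exact hp) (by rw [← e2]; exact hr)
  have e6 : ∀ x, md U φ (s + 1) x = rd (sweep s (acc U φ s (st U φ s) s) (s + 3)) (kMd x) :=
    fun x => rfl
  rw [e6, key, newmd]
  simp only [e1, e2, e3, e4, e5, e6, md1]
  split_ifs with g1 g2 g3 g4
  · rfl
  · rfl
  · first | rfl | exact (if_pos g4).symm
  · first | rfl | exact (if_neg g4).symm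
  · rfl

theorem md_zero_of_ge {s x : ℕ} (hx : s + 2 ≤ x) : md U φ s x = 0 :=
  (bas s).fresh x hx 3 (by omega)

theorem md_low {s x : ℕ} (hx : x < 2) : md U φ s x = 0 :=
  (bas s).low x hx 3 (by omega) (by omega)

theorem root_one (s : ℕ) : root U φ s 1 = 1 := (bas s).root_one

theorem cst_low {s x : ℕ} (hx : x < 2) : cst U φ s x = 0 :=
  (bas s).low x hx 17 (by omega) (by omega)

theorem md_succ_zero {s x : ℕ} (h : md1 U φ s x = 0) : md U φ (s + 1) x = 0 := by
  rcases Nat.lt_or_ge x 2 with h2 | h2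
  · exact md_low h2
  rcases Nat.lt_or_ge x (s + 3) with h3 | h3
  · unfold md st
    rw [sweep_md_stable s _ x (s + 3) h3, sweep, if_neg (by omega), rd_cons, if_pos rfl]
    unfold newmd
    unfold md1 at h
    simp only [h, if_true]
  · exact md_zero_of_ge (by omega)

end Pool.Agent.H91.CD.Dyn
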