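import Mathlib
import Pool.Agent.H91.CD.Inter

set_option autoImplicit false

/-!
Invariants of the stage construction.
-/

namespace Pool.Agent.H91.CD.Dyn

variable (U : ℕ → ℕ → ℕ → Bool → Bool) (φ : ℕ → ℕ → ℕ → ℕ)

/-- Final structural data of a coordinate. -/
def rt (x : ℕ) : ℕ := root U φ (x - 1) x
def pa (x : ℕ) : ℕ := par U φ (x - 1) x
def pl (x : ℕ) : ℕ := plab U φ (x - 1) x
/-- Final log of a stage. -/
def eF (n : ℕ) : ℕ := eu U φ (n + 1) n
def vF (n : ℕ) : ℕ := ev U φ (n + 1) n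

variable {U φ}

theorem rt_one : rt U φ 1 = 1 := root_one 0

theorem struct_eq (x : ℕ) (d : ℕ) :
    root U φ (x - 1 + d) x = rt U φ x ∧ par U φ (x - 1 + d) x = pa U φ x ∧
      plab U φ (x - 1 + d) x = pl U φ x := by
  induction d with
  | zero => exact ⟨rfl, rfl, rfl⟩
  | succ d ih =>
    obtain ⟨h1, h2, h3⟩ := struct_old (U := U) (φ := φ) (s := x - 1 + d) (x := x) (by omega)
    rw [← add_assoc]
    exact ⟨h1.trans ih.1, h2.trans ih.2.1, h3.trans ih.2.2⟩

theorem root_eq {s x : ℕ} (h : x < s + 2) : root U φ s x = rt U φ x := by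
  have := (struct_eq (U := U) (φ := φ) x (s - (x - 1))).1
  rwa [show x - 1 + (s - (x - 1)) = s by omega] at this

theorem par_eq {s x : ℕ} (h : x < s + 2) : par U φ s x = pa U φ x := by
  have := (struct_eq (U := U) (φ := φ) x (s - (x - 1))).2.1
  rwa [show x - 1 + (s - (x - 1)) = s by omega] at this

theorem plab_eq {s x : ℕ} (h : x < s + 2) : plab U φ s x = pl U φ x := by
  have := (struct_eq (U := U) (φ := φ) x (s - (x - 1))).2.2
  rwa [show x - 1 + (s - (x - 1)) = s by omega] at this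

theorem log_eq {s n : ℕ} (h : n < s) : eu U φ s n = eF U φ n ∧ ev U φ s n = vF U φ n := by
  obtain ⟨d, rfl⟩ := Nat.exists_eq_add_of_lt h
  induction d with
  | zero => exact ⟨rfl, rfl⟩
  | succ d ih =>
    obtain ⟨h1, h2⟩ := log_old (U := U) (φ := φ) (s := n + d + 1) (n := n) (by omega)
    have := ih (by omega)
    rw [← add_assoc]
    exact ⟨h1.trans this.1, h2.trans this.2⟩

/-- The main invariant. -/
structure Inv (U : ℕ → ℕ → ℕ → Bool → Bool) (φ : ℕ → ℕ → ℕ → ℕ) (s : ℕ) : Prop where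
  rng : ∀ x, md U φ s x ≠ 0 → 2 ≤ x ∧ x < s + 2 ∧ md U φ s x ≤ 6
  str : ∀ x, md U φ s x ≠ 0 → 1 ≤ pa U φ x ∧ pa U φ x < x ∧ 1 ≤ rt U φ x ∧ rt U φ x < x ∧
    pl U φ x ≤ 4 ∧ (pa U φ x = 1 → pl U φ x = 4) ∧ (pa U φ x ≠ 1 → md U φ s (pa U φ x) ≠ 0) ∧
    rt U φ x = (if pl U φ x = 4 then rt U φ (pa U φ x) else pa U φ x)
  ptr : ∀ p o, o ≤ 4 → ch U φ s p o ≠ 0 → md U φ s (ch U φ s p o) ≠ 0 ∧
    pa U φ (ch U φ s p o) = p ∧ pl U φ (ch U φ s p o) = o
  alv : ∀ x, md U φ s x ≠ 0 → md U φ s x ≠ 6 → ch U φ s (pa U φ x) (pl U φ x) = x ∧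
    md U φ s (pa U φ x) ≠ 6
  pnd : ∀ x, pend (md U φ s x) → rt U φ x ≠ 1 ∧
    (md U φ s (rt U φ x) = 4 ∨ md U φ s (rt U φ x) = 5) ∧ lab U φ s x = lab U φ s (rt U φ x)
  bit : ∀ x, md U φ s x ≠ 0 → lab U φ s x ≤ 1 ∧ (∀ o < 4, aw U φ s x o ≤ 1) ∧ cst U φ s x ≤ s
  idJ : ∀ x, joined (md U φ s x) → nJ U φ s x < s ∧ eF U φ (nJ U φ s x) = rt U φ x ∧
    vF U φ (nJ U φ s x) = x
  idH : ∀ x, held (md U φ s x) → nH U φ s x < s ∧ eF U φ (nH U φ s x) = 0 ∧
    vF U φ (nH U φ s x) = x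

theorem inv_zero : Inv U φ 0 := by
  have h0 : ∀ j, j ≠ 24 → rd (st U φ 0) j = 0 := by
    intro j hj
    rw [st, rd_cons, if_neg hj, rd_nil]
  have hm : ∀ x, md U φ 0 x = 0 := fun x => h0 _ (by unfold kMd; omega)
  refine ⟨?_, ?_, ?_, ?_, ?_, ?_, ?_, ?_⟩
  · intro x h; exact absurd (hm x) h
  · intro x h; exact absurd (hm x) h
  · intro p o ho h
    exact absurd (h0 _ (by unfold kCh; omega)) h
  · intro x h; exact absurd (hm x) h
  · intro x h; rw [hm x] at h; exact absurd h (by unfold pend; omega)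
  · intro x h; exact absurd (hm x) h
  · intro x h; rw [hm x] at h; exact absurd h (by unfold joined; omega)
  · intro x h; rw [hm x] at h; exact absurd h (by unfold held; omega)

/-- Roots of alive nodes are alive (or `1`). -/
theorem root_alive {s : ℕ} (hI : Inv U φ s) : ∀ x, md U φ s x ≠ 0 → md U φ s x ≠ 6 →
    rt U φ x ≠ 1 → md U φ s (rt U φ x) ≠ 0 ∧ md U φ s (rt U φ x) ≠ 6 := by
  intro x
  induction x using Nat.strong_induction_on with
  | _ x ih =>
    intro h0 h6 h1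
    obtain ⟨g1, g2, g3, g4, g5, g6, g7, g8⟩ := hI.str x h0
    have ha := hI.alv x h0 h6
    by_cases hp : pa U φ x = 1
    · exfalso
      apply h1
      rw [g8, if_pos (g6 hp), hp]
      exact rt_one
    · by_cases h4 : pl U φ x = 4
      · rw [if_pos h4] at g8
        rw [g8]
        exact ih _ g2 (g7 hp) ha.2 (by rw [← g8]; exact h1)
      · rw [if_neg h4] at g8
        rw [g8]
        exact ⟨g7 hp, ha.2⟩

/-- Structure of the node visited from a location. -/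
theorem vis_str {s : ℕ} (hI : Inv U φ s) {k : ℕ} {l : Loc} (hl : loc U φ s k = some l)
    (h0 : md U φ s (ch U φ s l.1 l.2.1) ≠ 0) :
    ch U φ s l.1 l.2.1 ≠ 0 ∧ pa U φ (ch U φ s l.1 l.2.1) = l.1 ∧
      pl U φ (ch U φ s l.1 l.2.1) = l.2.1 := by
  have hne : ch U φ s l.1 l.2.1 ≠ 0 := by
    intro h
    rw [h] at h0
    exact h0 (md_low (by omega))
  have := hI.ptr l.1 l.2.1 (locm_bd (pinc s) hl).2.2 hne
  exact ⟨hne, this.2⟩

theorem path_info {s : ℕ} (hI : Inv U φ s) {k : ℕ} : ∀ {l : Loc}, loc U φ s k = some l →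
    (l.1 = 1 ∨ (2 ≤ l.1 ∧ (md U φ s l.1 = 1 ∨ md U φ s l.1 = 3 ∨ md U φ s l.1 = 4))) ∧
    (l.1 = 1 → l.2.1 = 4 ∧ k = 0) ∧
    l.2.2.1 = (if l.2.1 = 4 then rt U φ l.1 else l.1) ∧ l.2.2.2 ≤ 1 ∧
    ((l.2.2.1 = 1 ∧ l.2.2.2 = s % 2) ∨
      (2 ≤ l.2.2.1 ∧ md U φ s l.2.2.1 = 3 ∧ l.2.2.2 = lab U φ s l.2.2.1 ∧
        ∃ j l', j < k ∧ loc U φ s j = some l' ∧ ch U φ s l'.1 l'.2.1 = l.2.2.1 ∧
          act U φ s (st U φ s) j l' = 3 ∧ chs U φ s j l.2.2.1 < 4)) := by
  induction k with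
  | zero =>
    intro l hl
    have : l = (1, 4, 1, s % 2) := by
      unfold loc locm at hl
      exact (Option.some.inj hl).symm
    subst this
    refine ⟨Or.inl rfl, fun _ => ⟨rfl, rfl⟩, ?_, ?_, Or.inl ⟨rfl, rfl⟩⟩
    · simp [rt_one]
    · simp only; omega
  | succ k ih =>
    intro l hl
    obtain ⟨l0, hl0, hn⟩ := locm_pred hl
    obtain ⟨i1, i2, i3, i4, i5⟩ := ih hl0
    have hmd := md_of_next hn
    have hy0 : md U φ s (ch U φ s l0.1 l0.2.1) ≠ 0 := by
      have := hmd.2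
      unfold md ch
      unfold nd at this
      omega
    obtain ⟨v1, v2, v3⟩ := vis_str hI hl0 hy0
    have hbd := nd_lt (pinc s) hl0 v1
    have hb1 := (locm_bd (pinc s) hl0).1
    have hs := hI.str _ hy0
    have hrt : rt U φ (ch U φ s l0.1 l0.2.1) = l0.2.2.1 := by
      rw [hs.2.2.2.2.2.2.2, v2, v3, i3]
    have hmd2 : md U φ s (ch U φ s l0.1 l0.2.1) = 1 ∨ md U φ s (ch U φ s l0.1 l0.2.1) = 3 ∨
        md U φ s (ch U φ s l0.1 l0.2.1) = 4 := hmd.2
    have hgt : 2 ≤ ch U φ s l0.1 l0.2.1 := by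
      have : l0.1 < ch U φ s l0.1 l0.2.1 := hbd.1
      omega
    rcases (nxt_eq_some U φ).1 hn with ⟨ha, rfl⟩ | ⟨ha, hc, rfl⟩
    · change _ ∧ _ ∧ _ ∧ _ ∧ _
      refine ⟨Or.inr ⟨hgt, hmd2⟩, ?_, ?_, i4, ?_⟩
      · intro h
        exfalso
        have : ch U φ s l0.1 l0.2.1 = 1 := h
        omega
      · simp only [if_true]
        exact hrt.symm
      · rcases i5 with h | ⟨h1, h2, h3, j, l', hj, h4⟩
        · exact Or.inl h
        · exact Or.inr ⟨h1, h2, h3, j, l', by omega, h4⟩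
    · have h3 := ((act_eq_three U φ).1 ha).1
      have hb := (hI.bit _ hy0).1
      refine ⟨Or.inr ⟨hgt, hmd2⟩, ?_, ?_, hb, Or.inr ⟨hgt, h3, rfl, k, l0, by omega, hl0, rfl,
        ha, hc⟩⟩
      · intro h
        exfalso
        have : ch U φ s l0.1 l0.2.1 = 1 := h
        omega
      · simp only
        rw [if_neg (by omega)]

/-! ### One stage -/

theorem md1_spec {s x : ℕ} (h0 : md U φ s x ≠ 0) :
    (md U φ s x = 1 ∧ md1 U φ s x = 2 ∧ ∃ k l, Ev U φ 2 s k x l) ∨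
    (md U φ s x = 3 ∧ md1 U φ s x = 4 ∧ ∃ k l, Ev U φ 3 s k x l) ∨
    (md U φ s x = 4 ∧ md1 U φ s x = 5 ∧ ∃ k l, Ev U φ 4 s k x l) ∨
    (md1 U φ s x = md U φ s x ∧
      ∀ k l, ¬ Ev U φ 2 s k x l ∧ ¬ Ev U φ 3 s k x l ∧ ¬ Ev U φ 4 s k x l) := by
  have hx0 : x ≠ 0 := by
    rintro rfl; exact h0 (md_low (by omega))
  have hxs : x < s + 2 := by
    by_contra hcon
    exact h0 (md_zero_of_ge (by omega))
  by_cases e2 : ∃ k l, Ev U φ 2 s k x l
  · obtain ⟨k, l, h⟩ := e2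
    have := ((act_eq_two U φ).1 h.2.2.2).1
    have h3 : rd (st U φ s) (kCh l.1 l.2.1) = x := h.2.2.1
    rw [h3] at this
    exact Or.inl ⟨this, (tr_hold hx0 h).1, k, l, h⟩
  by_cases e3 : ∃ k l, Ev U φ 3 s k x l
  · obtain ⟨k, l, h⟩ := e3
    have := ((act_eq_three U φ).1 h.2.2.2).1
    have h3 : rd (st U φ s) (kCh l.1 l.2.1) = x := h.2.2.1
    rw [h3] at this
    refine Or.inr (Or.inl ⟨this, ?_, k, l, h⟩)
    by_cases hc : chs U φ s k x < 4
    · exact (tr_choose hx0 h hc).1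
    · exact (tr_none hx0 h hc).1
  by_cases e4 : ∃ k l, Ev U φ 4 s k x l
  · obtain ⟨k, l, h⟩ := e4
    have := ((act_eq_four U φ).1 h.2.2.2).1
    have h3 : rd (st U φ s) (kCh l.1 l.2.1) = x := h.2.2.1
    rw [h3] at this
    exact Or.inr (Or.inr (Or.inl ⟨this, (tr_join hx0 h).1, k, l, h⟩))
  have hno : ∀ k l, ¬ Ev U φ 2 s k x l ∧ ¬ Ev U φ 3 s k x l ∧ ¬ Ev U φ 4 s k x l :=
    fun k l => ⟨fun h => e2 ⟨k, l, h⟩, fun h => e3 ⟨k, l, h⟩, fun h => e4 ⟨k, l, h⟩⟩
  exact Or.inr (Or.inr (Or.inr ⟨(tr_idle hx0 hxs hno).1, hno⟩))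

theorem md1_ne_zero {s x : ℕ} (h0 : md U φ s x ≠ 0) : md1 U φ s x ≠ 0 := by
  rcases md1_spec h0 with h | h | h | h
  · rw [h.2.1]; omega
  · rw [h.2.1]; omega
  · rw [h.2.1]; omega
  · rw [h.1]; exact h0

theorem md1_of_zero {s x : ℕ} (hx : x < s + 2) (h0 : md U φ s x = 0) : md1 U φ s x = 0 := by
  rcases Nat.eq_zero_or_pos x with rfl | hx0
  · have := acc_low (U := U) (φ := φ) (pinc (U := U) (φ := φ) s) s 0 3 (by omega) (by omega)
    unfold md1 kMd
    rw [this]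
    exact h0
  have hno : ∀ k l, ¬ Ev U φ 2 s k x l ∧ ¬ Ev U φ 3 s k x l ∧ ¬ Ev U φ 4 s k x l := by
    intro k l
    refine ⟨?_, ?_, ?_⟩
    · intro h
      have h1 := ((act_eq_two U φ).1 h.2.2.2).1
      have h3 : rd (st U φ s) (kCh l.1 l.2.1) = x := h.2.2.1
      rw [h3] at h1
      change md U φ s x = 1 at h1
      omega
    · intro h
      have h1 := ((act_eq_three U φ).1 h.2.2.2).1
      have h3 : rd (st U φ s) (kCh l.1 l.2.1) = x := h.2.2.1
      rw [h3] at h1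
      change md U φ s x = 3 at h1
      omega
    · intro h
      have h1 := ((act_eq_four U φ).1 h.2.2.2).1
      have h3 : rd (st U φ s) (kCh l.1 l.2.1) = x := h.2.2.1
      rw [h3] at h1
      change md U φ s x = 4 at h1
      omega
  rw [(tr_idle (by omega) hx hno).1, h0]

/-- The kill condition of stage `s`. -/
def Kill (U : ℕ → ℕ → ℕ → Bool → Bool) (φ : ℕ → ℕ → ℕ → ℕ) (s x : ℕ) : Prop :=
  md U φ (s + 1) (pa U φ x) = 6 ∨
    (cst U φ (s + 1) (pa U φ x) = s + 1 ∧ clab U φ (s + 1) (pa U φ x) < pl U φ x)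

/-- The resolve condition of stage `s`. -/
def Res (U : ℕ → ℕ → ℕ → Bool → Bool) (φ : ℕ → ℕ → ℕ → ℕ) (s x : ℕ) : Prop :=
  rt U φ x = 1 ∨ (pend (md1 U φ s (rt U φ x)) ∧
    (md U φ (s + 1) (rt U φ x) = 1 ∨ md U φ (s + 1) (rt U φ x) = 3))

theorem md_next {s x : ℕ} (h2 : 2 ≤ x) (hx : x < s + 3) (hp : pa U φ x < x) (hr : rt U φ x < x)
    (h1 : md1 U φ s x ≠ 0) :
    ((md1 U φ s x = 6 ∨ Kill U φ s x) ∧ md U φ (s + 1) x = 6) ∨
    (md1 U φ s x ≠ 6 ∧ ¬ Kill U φ s x ∧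
      ((md1 U φ s x = 2 ∧ Res U φ s x ∧ md U φ (s + 1) x = 3) ∨
       (md1 U φ s x = 5 ∧ Res U φ s x ∧ md U φ (s + 1) x = 1) ∨
       (¬ (pend (md1 U φ s x) ∧ Res U φ s x) ∧ md U φ (s + 1) x = md1 U φ s x))) := by
  have e1 : par U φ (s + 1) x = pa U φ x := par_eq (by omega)
  have e2 : root U φ (s + 1) x = rt U φ x := root_eq (by omega)
  have e3 : plab U φ (s + 1) x = pl U φ x := plab_eq (by omega)
  have key := md_succ (U := U) (φ := φ) h2 hx (by rw [e1]; exact hp) (by rw [e2]; exact hr)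
  rw [e1, e2, e3, if_neg h1] at key
  split_ifs at key with g1 g2 g3
  · left
    refine ⟨?_, key⟩
    rcases g1 with g | g | g
    · exact Or.inl g
    · exact Or.inr (Or.inl g)
    · exact Or.inr (Or.inr g)
  · right
    push Not at g1
    refine ⟨g1.1, ?_, Or.inl ⟨g3, g2.2, key⟩⟩
    rintro (h | h)
    · exact g1.2.1 h
    · exact absurd h.2 (not_lt.2 (g1.2.2 h.1))
  · right
    push Not at g1
    refine ⟨g1.1, ?_, Or.inr (Or.inl ⟨?_, g2.2, key⟩)⟩
    · rintro (h | h)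
      · exact g1.2.1 h
      · exact absurd h.2 (not_lt.2 (g1.2.2 h.1))
    · rcases g2.1 with h | h
      · exact absurd h g3
      · exact h
  · right
    push Not at g1
    refine ⟨g1.1, ?_, Or.inr (Or.inr ⟨g2, key⟩)⟩
    rintro (h | h)
    · exact g1.2.1 h
    · exact absurd h.2 (not_lt.2 (g1.2.2 h.1))

/-- Data of a creation. -/
theorem cr_info {s k : ℕ} {l : Loc} (hI : Inv U φ s) (h : Cr U φ s k l) :
    pa U φ (s + 2) = l.1 ∧ pl U φ (s + 2) = l.2.1 ∧ rt U φ (s + 2) = l.2.2.1 ∧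
    1 ≤ l.1 ∧ l.1 < s + 2 ∧ 1 ≤ l.2.2.1 ∧ l.2.2.1 < s + 2 ∧ l.2.1 ≤ 4 ∧
    (l.1 ≠ 1 → md U φ s l.1 ≠ 0) ∧ (l.1 = 1 → l.2.1 = 4) ∧
    l.2.2.1 = (if l.2.1 = 4 then rt U φ l.1 else l.1) := by
  obtain ⟨c1, c2, c3, -⟩ := tr_create h
  have hbd := locm_bd (pinc s) h.2.1
  obtain ⟨i1, i2, i3, i4, i5⟩ := path_info hI h.2.1
  have e1 : pa U φ (s + 2) = l.1 := by
    rw [← par_eq (s := s + 1) (by omega)]; exact c2
  have e2 : pl U φ (s + 2) = l.2.1 := by
    rw [← plab_eq (s := s + 1) (by omega)]; exact c3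
  have e3 : rt U φ (s + 2) = l.2.2.1 := by
    rw [← root_eq (s := s + 1) (by omega)]; exact c1
  have hmd : l.1 ≠ 1 → md U φ s l.1 ≠ 0 := by
    intro h1
    rcases i1 with h | h
    · exact absurd h h1
    · omega
  have hr : 1 ≤ l.2.2.1 ∧ l.2.2.1 < s + 2 := by
    rw [i3]
    split_ifs with h4
    · by_cases h1 : l.1 = 1
      · rw [h1, rt_one]; omega
      · have := hI.str _ (hmd h1)
        omega
    · omega
  exact ⟨e1, e2, e3, hbd.1, hbd.2.1, hr.1, hr.2, hbd.2.2, hmd, fun h => (i2 h).1, i3⟩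

/-- Structural data of all coordinates which exist after stage `s`. -/
theorem str_next {s x : ℕ} (hI : Inv U φ s) (h1 : md1 U φ s x ≠ 0) (hx : x < s + 3) :
    2 ≤ x ∧ 1 ≤ pa U φ x ∧ pa U φ x < x ∧ 1 ≤ rt U φ x ∧ rt U φ x < x ∧
    pl U φ x ≤ 4 ∧ (pa U φ x = 1 → pl U φ x = 4) ∧ (pa U φ x ≠ 1 → md U φ s (pa U φ x) ≠ 0) ∧
    rt U φ x = (if pl U φ x = 4 then rt U φ (pa U φ x) else pa U φ x) ∧
    ((x < s + 2 ∧ md U φ s x ≠ 0) ∨ (x = s + 2 ∧ ∃ k l, Cr U φ s k l)) := by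
  rcases Nat.lt_or_ge x (s + 2) with hlt | hge
  · have h0 : md U φ s x ≠ 0 := fun h => h1 (md1_of_zero hlt h)
    obtain ⟨g1, g2, g3, g4, g5, g6, g7, g8⟩ := hI.str x h0
    exact ⟨(hI.rng x h0).1, g1, g2, g3, g4, g5, g6, g7, g8, Or.inl ⟨hlt, h0⟩⟩
  · have hx2 : x = s + 2 := by omega
    subst hx2
    by_cases hc : ∃ k l, Cr U φ s k l
    · obtain ⟨k, l, h⟩ := hc
      obtain ⟨e1, e2, e3, e4, e5, e6, e7, e8, e9, e10, e11⟩ := cr_info hI h
      rw [e1, e2, e3]
      exact ⟨by omega, e4, e5, e6, e7, e8, e10, e9, e11, Or.inr ⟨rfl, k, l, h⟩⟩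
    · exfalso
      push Not at hc
      exact h1 (tr_nocreate hc)

theorem md_next' {s x : ℕ} (hI : Inv U φ s) (h1 : md1 U φ s x ≠ 0) (hx : x < s + 3) :
    ((md1 U φ s x = 6 ∨ Kill U φ s x) ∧ md U φ (s + 1) x = 6) ∨
    (md1 U φ s x ≠ 6 ∧ ¬ Kill U φ s x ∧
      ((md1 U φ s x = 2 ∧ Res U φ s x ∧ md U φ (s + 1) x = 3) ∨
       (md1 U φ s x = 5 ∧ Res U φ s x ∧ md U φ (s + 1) x = 1) ∨
       (¬ (pend (md1 U φ s x) ∧ Res U φ s x) ∧ md U φ (s + 1) x = md1 U φ s x))) := by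
  obtain ⟨g1, g2, g3, g4, g5, -⟩ := str_next hI h1 hx
  exact md_next g1 hx g3 g5 h1

theorem md_next_ne_zero {s x : ℕ} (hI : Inv U φ s) (h1 : md1 U φ s x ≠ 0) (hx : x < s + 3) :
    md U φ (s + 1) x ≠ 0 := by
  rcases md_next' hI h1 hx with h | ⟨h2, h3, h | h | h⟩
  · rw [h.2]; omega
  · rw [h.2.2]; omega
  · rw [h.2.2]; omega
  · rw [h.2]; exact h1

theorem md_persist {s x : ℕ} (hI : Inv U φ s) (h0 : md U φ s x ≠ 0) : md U φ (s + 1) x ≠ 0 := by
  have := (hI.rng x h0).2.1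
  exact md_next_ne_zero hI (md1_ne_zero h0) (by omega)

theorem md1_ne_zero_of_succ {s x : ℕ} (h : md U φ (s + 1) x ≠ 0) : md1 U φ s x ≠ 0 :=
  fun h1 => h (md_succ_zero h1)

theorem lt_of_succ {s x : ℕ} (h : md U φ (s + 1) x ≠ 0) : x < s + 3 := by
  by_contra hcon
  exact h (md_zero_of_ge (by omega))

theorem dead_stays {s x : ℕ} (hI : Inv U φ s) (h : md U φ s x = 6) : md U φ (s + 1) x = 6 := by
  have h0 : md U φ s x ≠ 0 := by omega
  have h1 : md1 U φ s x = 6 := by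
    rcases md1_spec h0 with g | g | g | g
    · omega
    · omega
    · omega
    · rw [g.1, h]
  rcases md_next' hI (md1_ne_zero h0) (by have := (hI.rng x h0).2.1; omega) with g | ⟨g, -⟩
  · exact g.2
  · exact absurd h1 g

/-- The mode of the new coordinate. -/
theorem md_new {s : ℕ} (hI : Inv U φ s) (h : md U φ (s + 1) (s + 2) ≠ 0) :
    (md U φ (s + 1) (s + 2) = 1 ∨ md U φ (s + 1) (s + 2) = 6) ∧ ∃ k l, Cr U φ s k l := by
  have h1 := md1_ne_zero_of_succ h
  obtain ⟨-, -, -, -, -, -, -, -, -, hcase⟩ := str_next hI h1 (by omega)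
  rcases hcase with ⟨h2, -⟩ | ⟨-, k, l, hC⟩
  · omega
  · refine ⟨?_, k, l, hC⟩
    have hm := (tr_create hC).2.2.2.1
    rcases md_next' hI h1 (by omega) with g | ⟨g1, g2, g | g | g⟩
    · exact Or.inr g.2
    · omega
    · omega
    · left; rw [g.2, hm]

theorem inv_succ {s : ℕ} (hI : Inv U φ s) : Inv U φ (s + 1) := by
  have hrng : ∀ x, md U φ (s + 1) x ≠ 0 → 2 ≤ x ∧ x < s + 3 ∧ md U φ (s + 1) x ≤ 6 := by
    intro x h
    have h1 := md1_ne_zero_of_succ h
    have h3 := lt_of_succ h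
    obtain ⟨g1, -, -, -, -, -, -, -, -, hcase⟩ := str_next hI h1 h3
    refine ⟨g1, h3, ?_⟩
    have hm : md1 U φ s x ≤ 6 := by
      rcases hcase with ⟨h2, h0⟩ | ⟨rfl, k, l, hC⟩
      · rcases md1_spec h0 with g | g | g | g
        · omega
        · omega
        · omega
        · rw [g.1]; exact (hI.rng x h0).2.2
      · rw [(tr_create hC).2.2.2.1]; omega
    rcases md_next' hI h1 h3 with g | ⟨g1, g2, g | g | g⟩ <;> omega
  refine ⟨?_, ?_, ?_, ?_, ?_, ?_, ?_, ?_⟩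
  · intro x h
    have := hrng x h
    omega
  · -- str
    intro x h
    have h1 := md1_ne_zero_of_succ h
    have h3 := lt_of_succ h
    obtain ⟨g1, g2, g3, g4, g5, g6, g7, g8, g9, hcase⟩ := str_next hI h1 h3
    exact ⟨g2, g3, g4, g5, g6, g7, fun hp => md_persist hI (g8 hp), g9⟩
  · -- ptr
    intro p o ho hne
    rcases ch_succ (U := U) (φ := φ) s p o ho with ⟨⟨k, r, a, hC⟩, he⟩ | ⟨hno, he⟩
    · rw [he]
      obtain ⟨e1, e2, -⟩ := cr_info hI hC
      refine ⟨?_, e1, e2⟩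
      apply md_next_ne_zero hI _ (by omega)
      rw [(tr_create hC).2.2.2.1]; omega
    · rw [he] at hne ⊢
      obtain ⟨h1, h2, h3⟩ := hI.ptr p o ho hne
      exact ⟨md_persist hI h1, h2, h3⟩
  · -- alv
    intro x h0 h6
    have h1 := md1_ne_zero_of_succ h0
    have h3 := lt_of_succ h0
    obtain ⟨g1, g2, g3, g4, g5, g6, g7, g8, g9, hcase⟩ := str_next hI h1 h3
    have hnk : md1 U φ s x ≠ 6 ∧ ¬ Kill U φ s x := by
      rcases md_next' hI h1 h3 with g | ⟨k1, k2, -⟩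
      · exact absurd g.2 h6
      · exact ⟨k1, k2⟩
    refine ⟨?_, fun h => hnk.2 (Or.inl h)⟩
    rcases hcase with ⟨h2, h00⟩ | ⟨rfl, k, l, hC⟩
    · have h66 : md U φ s x ≠ 6 := fun h => h6 (dead_stays hI h)
      have ha := hI.alv x h00 h66
      rcases ch_succ (U := U) (φ := φ) s (pa U φ x) (pl U φ x) g6 with
        ⟨⟨k, r, a, hC⟩, he⟩ | ⟨hno, he⟩
      · exfalso
        have := (act_eq_one U φ).1 hC.2.2
        change md U φ s (ch U φ s (pa U φ x) (pl U φ x)) = 0 ∨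
          md U φ s (ch U φ s (pa U φ x) (pl U φ x)) = 6 at this
        rw [ha.1] at this
        omega
      · rw [he]; exact ha.1
    · obtain ⟨e1, e2, -⟩ := cr_info hI hC
      rw [e1, e2]
      rcases ch_succ (U := U) (φ := φ) s l.1 l.2.1 (by rw [← e2]; exact g6) with
        ⟨-, he⟩ | ⟨hno, he⟩
      · exact he
      · exfalso
        exact hno ⟨k, l.2.2.1, l.2.2.2, hC⟩
  · -- pnd
    intro x hp
    have h0 : md U φ (s + 1) x ≠ 0 := by rcases hp with h | h <;> omega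
    have h6 : md U φ (s + 1) x ≠ 6 := by rcases hp with h | h <;> omega
    have h1 := md1_ne_zero_of_succ h0
    have h3 := lt_of_succ h0
    obtain ⟨g1, g2, g3, g4, g5, g6, g7, g8, g9, hcase⟩ := str_next hI h1 h3
    -- `x` is old
    rcases hcase with ⟨h2, h00⟩ | ⟨rfl, k, l, hC⟩
    swap
    · exfalso
      rcases (md_new hI h0).1 with h | h
      · rw [h] at hp; rcases hp with h | h <;> omega
      · exact h6 h
    have h66 : md U φ s x ≠ 6 := fun h => h6 (dead_stays hI h)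
    -- `x` is not resolved
    obtain ⟨k1, k2, k3⟩ : md1 U φ s x ≠ 6 ∧ ¬ Kill U φ s x ∧
        (pend (md1 U φ s x) ∧ ¬ Res U φ s x) := by
      rcases md_next' hI h1 h3 with g | ⟨k1, k2, g | g | g⟩
      · exact absurd g.2 h6
      · rw [g.2.2] at hp; rcases hp with h | h <;> omega
      · rw [g.2.2] at hp; rcases hp with h | h <;> omega
      · refine ⟨k1, k2, ?_, ?_⟩
        · rw [← g.2]; exact hp
        · intro hR
          exact g.1 ⟨by rw [← g.2]; exact hp, hR⟩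
    have hr1 : rt U φ x ≠ 1 := fun h => k3.2 (Or.inl h)
    obtain ⟨ra, rb⟩ := root_alive hI x h00 h66 hr1
    have hrs : rt U φ x < s + 2 := (hI.rng _ ra).2.1
    -- the root is in mode 4 or 5 after the pass, and labels agree
    have key : (md1 U φ s (rt U φ x) = 4 ∨ md1 U φ s (rt U φ x) = 5) ∧
        lab U φ (s + 1) x = lab U φ (s + 1) (rt U φ x) := by
      have hr0 : rt U φ x ≠ 0 := by omega
      have hx0 : x ≠ 0 := by omega
      -- labels of nodes in modes other than one do not change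
      have hlab : ∀ y, md U φ s y ≠ 0 → md U φ s y ≠ 1 →
          lab U φ (s + 1) y = lab U φ s y := by
        intro y hy hy1
        have hy0 : y ≠ 0 := by have := (hI.rng y hy).1; omega
        rcases md1_spec hy with g | ⟨-, -, k, l, hE⟩ | ⟨-, -, k, l, hE⟩ | ⟨-, g⟩
        · exact absurd g.1 hy1
        · by_cases hc : chs U φ s k y < 4
          · exact (tr_choose hy0 hE hc).2.1
          · exact (tr_none hy0 hE hc).2.1
        · exact (tr_join hy0 hE).2.1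
        · exact (tr_idle hy0 (hI.rng y hy).2.1 g).2.1
      rcases md1_spec h00 with ⟨a1, a2, k, l, hE⟩ | ⟨a1, a2, -⟩ | ⟨a1, a2, k, l, hE⟩ | ⟨a1, a2⟩
      · -- hold
        have hl := hE.2.1
        have hch := hE.2.2.1
        obtain ⟨i1, i2, i3, i4, i5⟩ := path_info hI hl
        obtain ⟨v1, v2, v3⟩ := vis_str hI hl (by rw [hch]; exact h00)
        rw [hch] at v2 v3
        have hrx : rt U φ x = l.2.2.1 := by rw [g9, v2, v3, i3]
        rcases i5 with h | ⟨j1, j2, j3, j, l', j4, j5, j6, j7, j8⟩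
        · exact absurd (hrx.trans h.1) hr1
        · rw [← hrx] at j2 j3 j6 j8
          have hE' : Ev U φ 3 s j (rt U φ x) l' := ⟨by have := hE.1; omega, j5, j6, j7⟩
          refine ⟨Or.inl (tr_choose hr0 hE' j8).1, ?_⟩
          rw [(tr_hold hx0 hE).2.1, (tr_choose hr0 hE' j8).2.1, j3]
      · rw [a2] at k3; rcases k3.1 with h | h <;> omega
      · -- join
        have hl := hE.2.1
        have hch := hE.2.2.1
        obtain ⟨i1, i2, i3, i4, i5⟩ := path_info hI hl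
        obtain ⟨v1, v2, v3⟩ := vis_str hI hl (by rw [hch]; exact h00)
        rw [hch] at v2 v3
        have hrx : rt U φ x = l.2.2.1 := by rw [g9, v2, v3, i3]
        have hlx : l.2.2.2 = lab U φ s x := by
          have := ((act_eq_four U φ).1 hE.2.2.2).2.2.1
          have h3' : rd (st U φ s) (kCh l.1 l.2.1) = x := hch
          rw [h3'] at this
          exact this
        rcases i5 with h | ⟨j1, j2, j3, j, l', j4, j5, j6, j7, j8⟩
        · exact absurd (hrx.trans h.1) hr1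
        · rw [← hrx] at j2 j3 j6 j8
          have hE' : Ev U φ 3 s j (rt U φ x) l' := ⟨by have := hE.1; omega, j5, j6, j7⟩
          refine ⟨Or.inl (tr_choose hr0 hE' j8).1, ?_⟩
          rw [(tr_join hx0 hE).2.1, (tr_choose hr0 hE' j8).2.1, ← hlx, j3]
      · -- idle
        rw [a1] at k3
        obtain ⟨p1, p2, p3⟩ := hI.pnd x k3.1
        have q1 : md U φ s x ≠ 1 := by rcases k3.1 with h | h <;> omega
        have q2 : md U φ s (rt U φ x) ≠ 1 := by omega
        refine ⟨?_, ?_⟩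
        · rcases md1_spec ra with b | b | b | b
          · omega
          · omega
          · exact Or.inr b.2.1
          · rw [b.1]; exact p2
        · rw [hlab x h00 q1, hlab _ ra q2, p3]
    refine ⟨hr1, ?_, key.2⟩
    -- the root is not dead
    have hr6 : md U φ (s + 1) (rt U φ x) ≠ 6 := by
      -- follow the parent chain
      have halive : ∀ y, md U φ s y ≠ 0 → md U φ (s + 1) y ≠ 6 → rt U φ y ≠ 1 →
          md U φ (s + 1) (rt U φ y) ≠ 6 := by
        intro y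
        induction y using Nat.strong_induction_on with
        | _ y ih =>
          intro hy0 hy6 hy1
          obtain ⟨s1, s2, s3, s4, s5, s6, s7, s8⟩ := hI.str y hy0
          have hpk : md U φ (s + 1) (pa U φ y) ≠ 6 := by
            intro h
            rcases md_next' hI (md1_ne_zero hy0) (by have := (hI.rng y hy0).2.1; omega) with
              g | ⟨b1, b2, -⟩
            · exact hy6 g.2
            · exact b2 (Or.inl h)
          by_cases hp1 : pa U φ y = 1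
          · exfalso; apply hy1
            rw [s8, if_pos (s6 hp1), hp1]; exact rt_one
          · by_cases h4 : pl U φ y = 4
            · rw [if_pos h4] at s8
              rw [s8]
              exact ih _ s2 (s7 hp1) hpk (by rw [← s8]; exact hy1)
            · rw [if_neg h4] at s8
              rw [s8]; exact hpk
      exact halive x h00 h6 hr1
    rcases md_next' hI (md1_ne_zero ra) (by omega) with g | ⟨b1, b2, g | g | g⟩
    · exact absurd g.2 hr6
    · omega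
    · -- resolved root: then `x` is resolved
      exfalso
      apply k3.2
      right
      exact ⟨Or.inr g.1, Or.inl g.2.2⟩
    · rw [g.2]; exact key.1
  · -- bit
    intro x h0
    have h1 := md1_ne_zero_of_succ h0
    have h3 := lt_of_succ h0
    obtain ⟨g1, g2, g3, g4, g5, g6, g7, g8, g9, hcase⟩ := str_next hI h1 h3
    have hx0 : x ≠ 0 := by omega
    rcases hcase with ⟨h2, h00⟩ | ⟨rfl, k, l, hC⟩
    · obtain ⟨b1, b2, b3⟩ := hI.bit x h00
      rcases md1_spec h00 with ⟨a1, a2, k, l, hE⟩ | ⟨a1, a2, k, l, hE⟩ | ⟨a1, a2, k, l, hE⟩ |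
        ⟨a1, a2⟩
      · obtain ⟨t1, t2, t3, t4, t5, t6, t7, t8⟩ := tr_hold hx0 hE
        obtain ⟨i1, i2, i3, i4, i5⟩ := path_info hI hE.2.1
        refine ⟨by rw [t2]; exact i4, fun o ho => by rw [t6 o ho]; exact b2 o ho, by omega⟩
      · by_cases hc : chs U φ s k x < 4
        · obtain ⟨t1, t2, t3, t4, t5, t6, t7, t8⟩ := tr_choose hx0 hE hc
          refine ⟨by omega, fun o ho => ?_, by omega⟩
          rw [t6 o ho]
          split_ifs
          · omega
          · exact b2 o ho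
        · obtain ⟨t1, t2, t3, t4, t5, t6, t7, t8⟩ := tr_none hx0 hE hc
          exact ⟨by omega, fun o ho => by rw [t6 o ho]; exact b2 o ho, by omega⟩
      · obtain ⟨t1, t2, t3, t4, t5, t6, t7, t8⟩ := tr_join hx0 hE
        exact ⟨by omega, fun o ho => by rw [t6 o ho]; exact b2 o ho, by omega⟩
      · obtain ⟨t1, t2, t3, t4, t5, t6, t7, t8⟩ := tr_idle hx0 h2 a2
        exact ⟨by omega, fun o ho => by rw [t6 o ho]; exact b2 o ho, by omega⟩
    · obtain ⟨-, -, -, -, -, c6, c7, c8, -, -⟩ := tr_create hC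
      exact ⟨by omega, fun o ho => by rw [c7 o ho]; omega, by omega⟩
  · -- idJ
    intro x hj
    have h0 : md U φ (s + 1) x ≠ 0 := by rcases hj with h | h | h <;> omega
    have h6 : md U φ (s + 1) x ≠ 6 := by rcases hj with h | h | h <;> omega
    have h1 := md1_ne_zero_of_succ h0
    have h3 := lt_of_succ h0
    obtain ⟨g1, g2, g3, g4, g5, g6, g7, g8, g9, hcase⟩ := str_next hI h1 h3
    have hx0 : x ≠ 0 := by omega
    rcases hcase with ⟨h2, h00⟩ | ⟨rfl, k, l, hC⟩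
    · rcases md1_spec h00 with ⟨a1, a2, k, l, hE⟩ | ⟨a1, a2, k, l, hE⟩ | ⟨a1, a2, k, l, hE⟩ |
        ⟨a1, a2⟩
      · obtain ⟨t1, t2, t3, t4, t5, t6, t7, t8⟩ := tr_hold hx0 hE
        obtain ⟨b1, b2, b3⟩ := hI.idJ x (Or.inl a1)
        rw [t5]
        exact ⟨by omega, b2, b3⟩
      · exfalso
        rcases md_next' hI h1 h3 with g | ⟨k1, k2, g | g | g⟩
        · exact h6 g.2
        · omega
        · omega
        · rw [g.2, a2] at hj; rcases hj with h | h | h <;> omega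
      · obtain ⟨t1, t2, t3, t4, t5, t6, t7, t8⟩ := tr_join hx0 hE
        obtain ⟨u1, u2⟩ := tr_join_log hE
        have hl := hE.2.1
        have hch := hE.2.2.1
        obtain ⟨i1, i2, i3, i4, i5⟩ := path_info hI hl
        obtain ⟨v1, v2, v3⟩ := vis_str hI hl (by rw [hch]; exact h00)
        rw [hch] at v2 v3
        have hrx : rt U φ x = l.2.2.1 := by rw [g9, v2, v3, i3]
        rw [t5]
        exact ⟨by omega, by rw [hrx]; exact u1, u2⟩
      · obtain ⟨t1, t2, t3, t4, t5, t6, t7, t8⟩ := tr_idle hx0 h2 a2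
        have hj' : joined (md U φ s x) := by
          rcases md_next' hI h1 h3 with g | ⟨k1, k2, g | g | g⟩
          · exact absurd g.2 h6
          · rw [g.2.2] at hj; rcases hj with h | h | h <;> omega
          · rw [← a1, g.1]; exact Or.inr (Or.inr rfl)
          · rw [← a1, ← g.2]; exact hj
        obtain ⟨b1, b2, b3⟩ := hI.idJ x hj'
        rw [t5]
        exact ⟨by omega, b2, b3⟩
    · obtain ⟨c1, c2, c3, c4, c5, c6, c7, c8, c9, c10⟩ := tr_create hC
      obtain ⟨e1, e2, e3, -⟩ := cr_info hI hC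
      rw [c5, e3]
      exact ⟨by omega, c9, c10⟩
  · -- idH
    intro x hh
    have h0 : md U φ (s + 1) x ≠ 0 := by rcases hh with h | h | h | h <;> omega
    have h6 : md U φ (s + 1) x ≠ 6 := by rcases hh with h | h | h | h <;> omega
    have h1 := md1_ne_zero_of_succ h0
    have h3 := lt_of_succ h0
    obtain ⟨g1, g2, g3, g4, g5, g6, g7, g8, g9, hcase⟩ := str_next hI h1 h3
    have hx0 : x ≠ 0 := by omega
    rcases hcase with ⟨h2, h00⟩ | ⟨rfl, k, l, hC⟩
    · rcases md1_spec h00 with ⟨a1, a2, k, l, hE⟩ | ⟨a1, a2, k, l, hE⟩ | ⟨a1, a2, k, l, hE⟩ |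
        ⟨a1, a2⟩
      · obtain ⟨t1, t2, t3, t4, t5, t6, t7, t8⟩ := tr_hold hx0 hE
        obtain ⟨u1, u2⟩ := tr_hold_log hE
        rw [t3]
        exact ⟨by omega, u1, u2⟩
      · have : nH U φ (s + 1) x = nH U φ s x := by
          by_cases hc : chs U φ s k x < 4
          · exact (tr_choose hx0 hE hc).2.2.1
          · exact (tr_none hx0 hE hc).2.2.1
        obtain ⟨b1, b2, b3⟩ := hI.idH x (Or.inr (Or.inl a1))
        rw [this]
        exact ⟨by omega, b2, b3⟩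
      · obtain ⟨t1, t2, t3, t4, t5, t6, t7, t8⟩ := tr_join hx0 hE
        obtain ⟨b1, b2, b3⟩ := hI.idH x (Or.inr (Or.inr (Or.inl a1)))
        rw [t3]
        exact ⟨by omega, b2, b3⟩
      · obtain ⟨t1, t2, t3, t4, t5, t6, t7, t8⟩ := tr_idle hx0 h2 a2
        have hj' : held (md U φ s x) := by
          rcases md_next' hI h1 h3 with g | ⟨k1, k2, g | g | g⟩
          · exact absurd g.2 h6
          · rw [← a1, g.1]; exact Or.inl rfl
          · rw [g.2.2] at hh; rcases hh with h | h | h | h <;> omega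
          · rw [← a1, ← g.2]; exact hh
        obtain ⟨b1, b2, b3⟩ := hI.idH x hj'
        rw [t3]
        exact ⟨by omega, b2, b3⟩
    · exfalso
      rcases (md_new hI h0).1 with h | h
      · rw [h] at hh; rcases hh with h | h | h | h <;> omega
      · exact h6 h

theorem inv (s : ℕ) : Inv U φ s := by
  induction s with
  | zero => exact inv_zero
  | succ s ih => exact inv_succ ih

end Pool.Agent.H91.CD.Dyn
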