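import Mathlib
import Pool.Agent.H91.CD.Inv

set_option autoImplicit false

/-!
Visits, kills and the true path.
-/

namespace Pool.Agent.H91.CD.Dyn

variable {U : ℕ → ℕ → ℕ → Bool → Bool} {φ : ℕ → ℕ → ℕ → ℕ}

/-- `y` is alive at the beginning of stage `s`. -/
def Alive (U : ℕ → ℕ → ℕ → Bool → Bool) (φ : ℕ → ℕ → ℕ → ℕ) (s y : ℕ) : Prop :=
  md U φ s y ≠ 0 ∧ md U φ s y ≠ 6

theorem Alive.two_le {s y : ℕ} (h : Alive U φ s y) : 2 ≤ y := ((inv s).rng y h.1).1

theorem Alive.lt {s y : ℕ} (h : Alive U φ s y) : y < s + 2 := ((inv s).rng y h.1).2.1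

theorem alive_of_succ {s y : ℕ} (h : Alive U φ (s + 1) y) (hy : y < s + 2) : Alive U φ s y :=
  ⟨fun h0 => md1_ne_zero_of_succ h.1 (md1_of_zero hy h0), fun h6 => h.2 (dead_stays (inv s) h6)⟩

theorem alive_mono {s t y : ℕ} (hst : s ≤ t) (hy : y < s + 2) (h : Alive U φ t y) :
    Alive U φ s y := by
  induction t with
  | zero => have : s = 0 := by omega
            subst this; exact h
  | succ t ih =>
    rcases Nat.lt_or_ge t s with h' | h'
    · have : s = t + 1 := by omega
      subst this; exact h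
    · exact ih h' (alive_of_succ h (by omega))

/-- A visited node is not pending. -/
theorem vis_mode {s k : ℕ} {l : Loc} (hl : loc U φ s k = some l)
    (h : Alive U φ s (ch U φ s l.1 l.2.1)) :
    md U φ s (ch U φ s l.1 l.2.1) = 1 ∨ md U φ s (ch U φ s l.1 l.2.1) = 3 ∨
      md U φ s (ch U φ s l.1 l.2.1) = 4 := by
  have hI := inv (U := U) (φ := φ) s
  obtain ⟨v1, v2, v3⟩ := vis_str hI hl h.1
  obtain ⟨i1, i2, i3, i4, i5⟩ := path_info hI hl
  have hs := hI.str _ h.1
  have hrx : rt U φ (ch U φ s l.1 l.2.1) = l.2.2.1 := by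
    rw [hs.2.2.2.2.2.2.2, v2, v3, i3]
  have hr := (hI.rng _ h.1).2.2
  have h0 := h.1
  have h6 := h.2
  by_contra hcon
  have hp : pend (md U φ s (ch U φ s l.1 l.2.1)) := by
    unfold pend
    omega
  obtain ⟨p1, p2, p3⟩ := hI.pnd _ hp
  rw [hrx] at p1 p2
  rcases i5 with g | g
  · exact p1 g.1
  · omega

/-- Locations with the same node have the same depth. -/
theorem depth_eq {s s' : ℕ} : ∀ {j j' : ℕ} {l l' : Loc}, loc U φ s j = some l →
    loc U φ s' j' = some l' → l.1 = l'.1 → j = j' := by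
  intro j
  induction j with
  | zero =>
    intro j' l l' h h' he
    have h1 : l = (1, 4, 1, s % 2) := by
      unfold loc locm at h
      exact (Option.some.inj h).symm
    rcases (path_info (inv s') h').1 with g | g
    · exact ((path_info (inv s') h').2.1 g).2.symm
    · rw [h1] at he; simp only at he; omega
  | succ j ih =>
    intro j' l l' h h' he
    have hgt : 2 ≤ l.1 := by
      rcases (path_info (inv s) h).1 with g | g
      · have := ((path_info (inv s) h).2.1 g).2; omega
      · exact g.1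
    cases j' with
    | zero =>
      have h1 : l' = (1, 4, 1, s' % 2) := by
        unfold loc locm at h'
        exact (Option.some.inj h').symm
      rw [h1] at he; simp only at he; omega
    | succ j' =>
      obtain ⟨l0, hl0, hn0⟩ := locm_pred h
      obtain ⟨l1, hl1, hn1⟩ := locm_pred h'
      have m0 := md_of_next hn0
      have m1 := md_of_next hn1
      have a0 : md U φ s (ch U φ s l0.1 l0.2.1) ≠ 0 := by
        have := m0.2; unfold md ch; unfold nd at this; omega
      have a1 : md U φ s' (ch U φ s' l1.1 l1.2.1) ≠ 0 := by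
        have := m1.2; unfold md ch; unfold nd at this; omega
      have v0 := vis_str (inv s) hl0 a0
      have v1 := vis_str (inv s') hl1 a1
      have e : ch U φ s l0.1 l0.2.1 = ch U φ s' l1.1 l1.2.1 := by
        have e0 : l.1 = ch U φ s l0.1 l0.2.1 := m0.1
        have e1 : l'.1 = ch U φ s' l1.1 l1.2.1 := m1.1
        rw [← e0, ← e1, he]
      have := ih hl0 hl1 (by rw [← v0.2.1, ← v1.2.1, e])
      omega

/-- The parent location of a location of positive depth. -/
theorem loc_parent {s k : ℕ} {l : Loc} (h : loc U φ s (k + 1) = some l) :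
    ∃ l0, loc U φ s k = some l0 ∧ nxt U φ s (st U φ s) k l0 = some l ∧
      ch U φ s l0.1 l0.2.1 = l.1 ∧ pa U φ l.1 = l0.1 ∧ pl U φ l.1 = l0.2.1 ∧
      Alive U φ s l.1 := by
  obtain ⟨l0, hl0, hn0⟩ := locm_pred h
  have m0 := md_of_next hn0
  have e0 : l.1 = ch U φ s l0.1 l0.2.1 := m0.1
  have m2 : md U φ s (ch U φ s l0.1 l0.2.1) = 1 ∨ md U φ s (ch U φ s l0.1 l0.2.1) = 3 ∨
    md U φ s (ch U φ s l0.1 l0.2.1) = 4 := m0.2
  have a0 : md U φ s (ch U φ s l0.1 l0.2.1) ≠ 0 := by omega
  have v0 := vis_str (inv s) hl0 a0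
  refine ⟨l0, hl0, hn0, e0.symm, by rw [e0]; exact v0.2.1, by rw [e0]; exact v0.2.2, ?_⟩
  rw [e0]
  exact ⟨a0, by omega⟩

/-- Uniqueness of events of type 3 along the path: the location after it. -/
theorem loc_after_choice {s k : ℕ} {l : Loc} (h : loc U φ s (k + 1) = some l) {j : ℕ} {l' : Loc}
    (hE : Ev U φ 3 s j l.1 l') : l.2.1 = chs U φ s j l.1 ∧ j = k ∧ chs U φ s j l.1 < 4 := by
  obtain ⟨l0, hl0, hn0, e0, -, -, ha⟩ := loc_parent h
  have hy : l.1 ≠ 0 := by have := ha.two_le; omega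
  obtain ⟨j1, j2, j3, j4⟩ := hE
  have := nd_inj (pinc s) hl0 j2 (by rw [nd, nd]; exact e0.trans j3.symm)
    (by rw [nd]; change ch U φ s l0.1 l0.2.1 ≠ 0; rw [e0]; exact hy)
  obtain ⟨rfl, rfl⟩ := this
  have e0' : rd (st U φ s) (kCh l0.1 l0.2.1) = l.1 := e0
  rcases (nxt_eq_some U φ).1 hn0 with ⟨g1, g2⟩ | ⟨g1, g2, g3⟩
  · omega
  · rw [e0'] at g2 g3
    refine ⟨?_, rfl, g2⟩
    rw [g3]

theorem cst_succ_iff {s p : ℕ} (hp : md U φ s p ≠ 0) :
    cst U φ (s + 1) p = s + 1 ↔ ∃ j l, Ev U φ 3 s j p l ∧ chs U φ s j p < 4 := by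
  have hI := inv (U := U) (φ := φ) s
  have hr := hI.rng p hp
  have hb := (hI.bit p hp).2.2
  have hp0 : p ≠ 0 := by omega
  constructor
  · intro h
    rcases md1_spec hp with ⟨-, -, k, l, hE⟩ | ⟨-, -, k, l, hE⟩ | ⟨-, -, k, l, hE⟩ | ⟨-, g⟩
    · have := (tr_hold hp0 hE).2.2.2.2.2.2.1; omega
    · by_cases hc : chs U φ s k p < 4
      · exact ⟨k, l, hE, hc⟩
      · have := (tr_none hp0 hE hc).2.2.2.2.2.2.1; omega
    · have := (tr_join hp0 hE).2.2.2.2.2.2.1; omega
    · have := (tr_idle hp0 hr.2.1 g).2.2.2.2.2.2.1; omega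
  · rintro ⟨j, l, hE, hc⟩
    exact (tr_choose hp0 hE hc).2.2.2.2.2.2.1

/-- Nodes on the path are not killed. -/
theorem path_not_killed {s : ℕ} {k : ℕ} : ∀ {l : Loc}, k ≤ s → loc U φ s k = some l →
    ∀ x, pa U φ x = l.1 → pl U φ x = l.2.1 → ¬ Kill U φ s x := by
  induction k with
  | zero =>
    intro l hk hl x h1 h2
    have h3 : l = (1, 4, 1, s % 2) := by
      unfold loc locm at hl
      exact (Option.some.inj hl).symm
    rw [h3] at h1
    simp only at h1
    rintro (h | h)
    · rw [h1, md_low (by omega)] at h; omega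
    · rw [h1, cst_low (by omega)] at h; omega
  | succ k ih =>
    intro l hk hl x h1 h2
    obtain ⟨l0, hl0, hn0, e0, p1, p2, ha⟩ := loc_parent hl
    have hnk := ih (by omega) hl0 l.1 p1 p2
    rintro (h | h)
    · rw [h1] at h
      rcases md_next' (inv s) (md1_ne_zero ha.1) (by have := ha.lt; omega) with g | ⟨g1, g2, -⟩
      · rcases g.1 with g | g
        · rcases md1_spec ha.1 with b | b | b | b
          · omega
          · omega
          · omega
          · exact ha.2 (b.1.symm.trans g)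
        · exact hnk g
      · have := (md_next' (inv s) (md1_ne_zero ha.1) (by have := ha.lt; omega))
        rcases this with g | ⟨g3, g4, g | g | g⟩
        · rcases g.1 with g | g
          · exact g1 g
          · exact g2 g
        · omega
        · omega
        · rw [g.2] at h; exact g1 h
    · rw [h1] at h
      obtain ⟨j, l', hE, hc⟩ := (cst_succ_iff ha.1).1 h.1
      have h5 := loc_after_choice hl hE
      have hy : l.1 ≠ 0 := by have := ha.two_le; omega
      have h6 := (tr_choose hy hE hc).2.2.2.2.2.2.2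
      rw [h6, h2, h5.1] at h
      omega

theorem path_alive {s : ℕ} {k : ℕ} {l : Loc} (hk : k ≤ s) (hl : loc U φ s k = some l)
    (ha : Alive U φ s (ch U φ s l.1 l.2.1)) : Alive U φ (s + 1) (ch U φ s l.1 l.2.1) := by
  have v := vis_str (inv s) hl ha.1
  have hnk := path_not_killed hk hl _ v.2.1 v.2.2
  refine ⟨md_persist (inv s) ha.1, ?_⟩
  intro h
  rcases md_next' (inv s) (md1_ne_zero ha.1) (by have := ha.lt; omega) with g | ⟨g1, g2, g | g | g⟩
  · rcases g.1 with g | g
    · rcases md1_spec ha.1 with b | b | b | b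
      · omega
      · omega
      · omega
      · exact ha.2 (b.1.symm.trans g)
    · exact hnk g
  · omega
  · omega
  · rw [g.2] at h; exact g1 h

theorem created_mode {s k : ℕ} {l : Loc} (h : Cr U φ s k l) : md U φ (s + 1) (s + 2) = 1 := by
  obtain ⟨e1, e2, -⟩ := cr_info (inv s) h
  have hnk := path_not_killed (by have := h.1; omega) h.2.1 (s + 2) e1 e2
  have hm := (tr_create h).2.2.2.1
  rcases md_next' (inv s) (by rw [hm]; omega) (by omega) with g | ⟨g1, g2, g | g | g⟩
  · rcases g.1 with g | g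
    · omega
    · exact absurd g hnk
  · omega
  · omega
  · rw [g.2, hm]

/-- The possible transitions of an alive node which stays alive. -/
theorem mode_step {s y : ℕ} (ha : Alive U φ s y) (ha' : Alive U φ (s + 1) y) :
    (md U φ s y = 1 ∧ (md U φ (s + 1) y = 2 ∨ md U φ (s + 1) y = 3) ∧
      ∃ k l, Ev U φ 2 s k y l) ∨
    (md U φ s y = 3 ∧ md U φ (s + 1) y = 4 ∧ ∃ k l, Ev U φ 3 s k y l) ∨
    (md U φ s y = 4 ∧ (md U φ (s + 1) y = 5 ∨ md U φ (s + 1) y = 1) ∧
      ∃ k l, Ev U φ 4 s k y l) ∨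
    ((md U φ (s + 1) y = md U φ s y ∨ (md U φ s y = 2 ∧ md U φ (s + 1) y = 3) ∨
        (md U φ s y = 5 ∧ md U φ (s + 1) y = 1)) ∧
      ∀ k l, ¬ Ev U φ 2 s k y l ∧ ¬ Ev U φ 3 s k y l ∧ ¬ Ev U φ 4 s k y l) := by
  have h6 := ha'.2
  have hn := md_next' (inv s) (md1_ne_zero ha.1) (by have := ha.lt; omega)
  rcases md1_spec ha.1 with b | b | b | b
  · left
    refine ⟨b.1, ?_, b.2.2⟩
    rcases hn with g | ⟨g1, g2, g | g | g⟩
    · exact absurd g.2 h6
    · exact Or.inr g.2.2
    · omega
    · left; rw [g.2]; exact b.2.1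
  · right; left
    refine ⟨b.1, ?_, b.2.2⟩
    rcases hn with g | ⟨g1, g2, g | g | g⟩
    · exact absurd g.2 h6
    · omega
    · omega
    · rw [g.2]; exact b.2.1
  · right; right; left
    refine ⟨b.1, ?_, b.2.2⟩
    rcases hn with g | ⟨g1, g2, g | g | g⟩
    · exact absurd g.2 h6
    · omega
    · exact Or.inr g.2.2
    · left; rw [g.2]; exact b.2.1
  · right; right; right
    refine ⟨?_, b.2⟩
    rcases hn with g | ⟨g1, g2, g | g | g⟩
    · exact absurd g.2 h6
    · right; left; exact ⟨b.1.symm.trans g.1, g.2.2⟩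
    · right; right; exact ⟨b.1.symm.trans g.1, g.2.2⟩
    · left; rw [g.2]; exact b.1

/-- Killing by a choice. -/
theorem killed_of_choice {s j p x : ℕ} {l : Loc} (hE : Ev U φ 3 s j p l)
    (hc : chs U φ s j p < 4) (hp0 : p ≠ 0) (hx : md U φ s x ≠ 0) (hpx : pa U φ x = p)
    (hlt : chs U φ s j p < pl U φ x) : md U φ (s + 1) x = 6 := by
  have hK : Kill U φ s x := by
    right
    rw [hpx]
    obtain ⟨t1, t2, t3, t4, t5, t6, t7, t8⟩ := tr_choose hp0 hE hc
    exact ⟨t7, by rw [t8]; exact hlt⟩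
  rcases md_next' (inv s) (md1_ne_zero hx) (by have := ((inv s).rng x hx).2.1; omega) with
    g | ⟨g1, g2, -⟩
  · exact g.2
  · exact absurd hK g2

theorem killed_of_parent {s x : ℕ} (hx : md U φ s x ≠ 0) (hpx : md U φ (s + 1) (pa U φ x) = 6) :
    md U φ (s + 1) x = 6 := by
  rcases md_next' (inv s) (md1_ne_zero hx) (by have := ((inv s).rng x hx).2.1; omega) with
    g | ⟨g1, g2, -⟩
  · exact g.2
  · exact absurd (Or.inl hpx) g2

/-- An alive node stays alive if its parent does and does not choose a smaller label. -/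
theorem alive_step {s x : ℕ} (ha : Alive U φ s x)
    (hp : pa U φ x = 1 ∨ Alive U φ (s + 1) (pa U φ x))
    (hc : ∀ j l, Ev U φ 3 s j (pa U φ x) l → chs U φ s j (pa U φ x) < 4 →
      pl U φ x ≤ chs U φ s j (pa U φ x)) : Alive U φ (s + 1) x := by
  refine ⟨md_persist (inv s) ha.1, ?_⟩
  intro h
  have hnk : ¬ Kill U φ s x := by
    rintro (h | h)
    · rcases hp with hp | hp
      · rw [hp, md_low (by omega)] at h; omega
      · exact hp.2 h
    · rcases hp with hp | hp
      · rw [hp, cst_low (by omega)] at h; omega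
      · have hp0 : md U φ s (pa U φ x) ≠ 0 := by
          by_cases h1 : pa U φ x = 1
          · rw [h1] at hp
            exact absurd (md_low (by omega)) hp.1
          · exact ((inv s).str x ha.1).2.2.2.2.2.2.1 h1
        obtain ⟨j, l, hE, hc'⟩ := (cst_succ_iff hp0).1 h.1
        have h1 := hc j l hE hc'
        have hne : pa U φ x ≠ 0 := by have := ((inv s).rng _ hp0).1; omega
        have h2 := (tr_choose hne hE hc').2.2.2.2.2.2.2
        rw [h2] at h
        omega
  rcases md_next' (inv s) (md1_ne_zero ha.1) (by have := ha.lt; omega) with g | ⟨g1, g2, g | g | g⟩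
  · rcases g.1 with g | g
    · rcases md1_spec ha.1 with b | b | b | b
      · omega
      · omega
      · omega
      · exact ha.2 (b.1.symm.trans g)
    · exact hnk g
  · omega
  · omega
  · rw [g.2] at h; exact g1 h

end Pool.Agent.H91.CD.Dyn
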