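import Mathlib
import Pool.Agent.H91.CD.Path

set_option autoImplicit false

/-!
The true path.
-/

namespace Pool.Agent.H91.CD.Dyn

/-- The location `(p, o)` at depth `k` is on the true path. -/
structure Good (U : ℕ → ℕ → ℕ → Bool → Bool) (φ : ℕ → ℕ → ℕ → ℕ) (k p o : ℕ) : Prop where
  o_le : o ≤ 4
  often : ∀ a ≤ 1, ∀ N, ∃ s ≥ N, ∃ r, loc U φ s k = some (p, o, r, a)
  keep : ∃ N, ∀ s ≥ N, (p = 1 ∨ Alive U φ s p) ∧
    ∀ j l, Ev U φ 3 s j p l → chs U φ s j p < 4 → o ≤ chs U φ s j p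

/-- The node `y` of level `k` on the true path, stable from stage `N` on. -/
structure TN (U : ℕ → ℕ → ℕ → Bool → Bool) (φ : ℕ → ℕ → ℕ → ℕ) (k p o y N : ℕ) : Prop where
  good : Good U φ k p o
  hpa : pa U φ y = p
  hpl : pl U φ y = o
  hN : k < N
  stab : ∀ s ≥ N, ch U φ s p o = y ∧ Alive U φ s y

variable {U : ℕ → ℕ → ℕ → Bool → Bool} {φ : ℕ → ℕ → ℕ → ℕ}

theorem good_zero : Good U φ 0 1 4 := by
  refine ⟨le_rfl, ?_, 0, fun s _ => ⟨Or.inl rfl, ?_⟩⟩
  · intro a ha N
    refine ⟨2 * N + a, by omega, 1, ?_⟩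
    unfold loc locm
    rw [show (2 * N + a) % 2 = a by omega]
  · intro j l hE
    exfalso
    have h1 := ((act_eq_three U φ).1 hE.2.2.2).1
    have h3 : rd (st U φ s) (kCh l.1 l.2.1) = 1 := hE.2.2.1
    rw [h3] at h1
    have : md U φ s 1 = 3 := h1
    rw [md_low (by omega)] at this
    omega

theorem child_stable {k p o : ℕ} (h : Good U φ k p o) : ∃ y N, TN U φ k p o y N := by
  obtain ⟨N0, hN0⟩ := h.keep
  obtain ⟨s, hs, r, hl⟩ := h.often 0 (by omega) (max N0 (k + 1))
  have hsN : N0 ≤ s := le_trans (le_max_left _ _) hs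
  have hsk : k < s := lt_of_lt_of_le (Nat.lt_succ_self k) (le_trans (le_max_right _ _) hs)
  -- propagation
  have prop : ∀ y t, N0 ≤ t → Alive U φ t y → pa U φ y = p → pl U φ y = o →
      ∀ s' ≥ t, ch U φ s' p o = y ∧ Alive U φ s' y := by
    intro y t ht hy hp ho s' hs'
    have hal : Alive U φ s' y := by
      induction s', hs' using Nat.le_induction with
      | base => exact hy
      | succ s' hs' ih =>
        apply alive_step ih
        · rcases (hN0 (s' + 1) (by omega)).1 with g | g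
          · left; rw [hp, g]
          · right; rw [hp]; exact g
        · intro j l hE hc
          rw [hp] at hE hc ⊢
          rw [ho]
          exact (hN0 s' (by omega)).2 j l hE hc
    have := ((inv s').alv y hal.1 hal.2).1
    rw [hp, ho] at this
    exact ⟨this, hal⟩
  by_cases ha : Alive U φ s (ch U φ s p o)
  · have v := vis_str (inv s) hl ha.1
    refine ⟨ch U φ s p o, s, h, v.2.1, v.2.2, hsk, ?_⟩
    exact prop _ s hsN ha v.2.1 v.2.2
  · have hact : act U φ s (st U φ s) k (p, o, r, 0) = 1 := by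
      rw [act_eq_one]
      by_contra hcon
      push Not at hcon
      exact ha ⟨hcon.1, hcon.2⟩
    have hC : Cr U φ s k (p, o, r, 0) := ⟨hsk, hl, hact⟩
    obtain ⟨e1, e2, -⟩ := cr_info (inv s) hC
    have hm := created_mode hC
    refine ⟨s + 2, s + 1, h, e1, e2, by omega, ?_⟩
    exact prop _ (s + 1) (by omega) ⟨by omega, by omega⟩ e1 e2

section

variable {k p o y N : ℕ} (T : TN U φ k p o y N)

include T

theorem TN.two_le : 2 ≤ y := (T.stab N le_rfl).2.two_le

theorem TN.ev {c s j : ℕ} {l : Loc} (hs : N ≤ s) (hE : Ev U φ c s j y l) :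
    l.1 = p ∧ l.2.1 = o ∧ j = k := by
  have ha := (T.stab s hs).2
  obtain ⟨h1, h2, h3, h4⟩ := hE
  have v := vis_str (inv s) h2 (by rw [h3]; exact ha.1)
  rw [h3] at v
  obtain ⟨s', -, r, hl'⟩ := T.good.often 0 (by omega) 0
  refine ⟨v.2.1.symm.trans T.hpa, v.2.2.symm.trans T.hpl, ?_⟩
  exact depth_eq h2 hl' (v.2.1.symm.trans T.hpa)

theorem TN.mode {s : ℕ} (hs : N ≤ s) : 
    (md U φ s y = 1 ∧ (md U φ (s + 1) y = 2 ∨ md U φ (s + 1) y = 3) ∧
      ∃ k l, Ev U φ 2 s k y l) ∨
    (md U φ s y = 3 ∧ md U φ (s + 1) y = 4 ∧ ∃ k l, Ev U φ 3 s k y l) ∨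
    (md U φ s y = 4 ∧ (md U φ (s + 1) y = 5 ∨ md U φ (s + 1) y = 1) ∧
      ∃ k l, Ev U φ 4 s k y l) ∨
    ((md U φ (s + 1) y = md U φ s y ∨ (md U φ s y = 2 ∧ md U φ (s + 1) y = 3) ∨
        (md U φ s y = 5 ∧ md U φ (s + 1) y = 1)) ∧
      ∀ k l, ¬ Ev U φ 2 s k y l ∧ ¬ Ev U φ 3 s k y l ∧ ¬ Ev U φ 4 s k y l) :=
  mode_step (T.stab s hs).2 (T.stab (s + 1) (by omega)).2

/-- A visit of `y`. -/
theorem TN.visit {s r a : ℕ} (hs : N ≤ s) (hl : loc U φ s k = some (p, o, r, a)) :
    (md U φ s y = 1 ∨ md U φ s y = 3 ∨ md U φ s y = 4) ∧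
    Ev U φ (act U φ s (st U φ s) k (p, o, r, a)) s k y (p, o, r, a) ∧
    (act U φ s (st U φ s) k (p, o, r, a) = 0 ∨ act U φ s (st U φ s) k (p, o, r, a) = 2 ∨
      act U φ s (st U φ s) k (p, o, r, a) = 3 ∨ act U φ s (st U φ s) k (p, o, r, a) = 4) := by
  obtain ⟨h1, h2⟩ := T.stab s hs
  have hm := vis_mode hl (by simp only; rw [h1]; exact h2)
  simp only at hm
  rw [h1] at hm
  refine ⟨hm, ⟨by have := T.hN; omega, hl, h1, rfl⟩, ?_⟩
  have h3 : rd (st U φ s) (kCh p o) = y := h1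
  have hm' : rd (st U φ s) (kMd y) = 1 ∨ rd (st U φ s) (kMd y) = 3 ∨
    rd (st U φ s) (kMd y) = 4 := hm
  unfold act
  simp only [h3]
  rcases hm' with g | g | g
  · rw [if_neg (by omega), if_pos g]
    split_ifs <;> simp
  · rw [if_neg (by omega), if_neg (by omega), if_pos g]
    split_ifs <;> simp
  · rw [if_neg (by omega), if_neg (by omega), if_neg (by omega), if_pos g]
    split_ifs <;> simp

/-- Without choices from some point on there are no events from some point on. -/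
theorem TN.quiet (h3 : ∃ M, ∀ s ≥ M, ∀ j l, ¬ Ev U φ 3 s j y l) :
    ∃ M ≥ N, ∀ s ≥ M, ∀ j l, ¬ Ev U φ 2 s j y l ∧ ¬ Ev U φ 3 s j y l ∧ ¬ Ev U φ 4 s j y l := by
  obtain ⟨M0, hM0⟩ := h3
  -- no joins from some point on
  obtain ⟨M1, hM1N, hM10, hM1⟩ : ∃ M1, N ≤ M1 ∧ M0 ≤ M1 ∧
      ∀ s ≥ M1, ∀ j l, ¬ Ev U φ 4 s j y l := by
    by_contra hcon
    push Not at hcon
    obtain ⟨s1, hs1, j1, l1, hE1⟩ := hcon (max N M0) (le_max_left _ _) (le_max_right _ _)
    have hN1 : N ≤ s1 := le_trans (le_max_left _ _) hs1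
    have hM01 : M0 ≤ s1 := le_trans (le_max_right _ _) hs1
    obtain ⟨s2, hs2, j2, l2, hE2⟩ := hcon (s1 + 1) (by omega) (by omega)
    have hmd : ∀ (s j : ℕ) (l : Loc), Ev U φ 4 s j y l → md U φ s y = 4 := by
      intro s j l hE
      have h1 := ((act_eq_four U φ).1 hE.2.2.2).1
      have h3 : rd (st U φ s) (kCh l.1 l.2.1) = y := hE.2.2.1
      rw [h3] at h1
      exact h1
    have key : ∀ t ≥ s1 + 1, md U φ t y ≠ 4 := by
      intro t ht
      induction t, ht using Nat.le_induction with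
      | base =>
        rcases T.mode hN1 with g | g | g | g
        · rw [hmd s1 j1 l1 hE1] at g; omega
        · rw [hmd s1 j1 l1 hE1] at g; omega
        · omega
        · exact absurd hE1 (g.2 j1 l1).2.2
      | succ t ht ih =>
        rcases T.mode (s := t) (by omega) with g | g | g | g
        · omega
        · obtain ⟨j, l, hE⟩ := g.2.2
          exact absurd hE (hM0 t (by omega) j l)
        · omega
        · omega
    exact key s2 hs2 (hmd s2 j2 l2 hE2)
  -- no holds from some point on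
  obtain ⟨M2, hM21, hM2⟩ : ∃ M2, M1 ≤ M2 ∧ ∀ s ≥ M2, ∀ j l, ¬ Ev U φ 2 s j y l := by
    by_contra hcon
    push Not at hcon
    obtain ⟨s1, hs1, j1, l1, hE1⟩ := hcon M1 le_rfl
    obtain ⟨s2, hs2, j2, l2, hE2⟩ := hcon (s1 + 1) (by omega)
    have hmd : ∀ (s j : ℕ) (l : Loc), Ev U φ 2 s j y l → md U φ s y = 1 := by
      intro s j l hE
      have h1 := ((act_eq_two U φ).1 hE.2.2.2).1
      have h3 : rd (st U φ s) (kCh l.1 l.2.1) = y := hE.2.2.1
      rw [h3] at h1
      exact h1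
    have key : ∀ t ≥ s1 + 1, md U φ t y ≠ 1 ∧ md U φ t y ≠ 5 := by
      intro t ht
      induction t, ht using Nat.le_induction with
      | base =>
        rcases T.mode (s := s1) (by omega) with g | g | g | g
        · omega
        · rw [hmd s1 j1 l1 hE1] at g; omega
        · rw [hmd s1 j1 l1 hE1] at g; omega
        · exact absurd hE1 (g.2 j1 l1).1
      | succ t ht ih =>
        rcases T.mode (s := t) (by omega) with g | g | g | g
        · omega
        · omega
        · obtain ⟨j, l, hE⟩ := g.2.2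
          exact absurd hE (hM1 t (by omega) j l)
        · omega
    exact (key s2 hs2).1 (hmd s2 j2 l2 hE2)
  exact ⟨M2, by omega, fun s hs j l => ⟨hM2 s hs j l, hM0 s (by omega) j l,
    hM1 s (by omega) j l⟩⟩

theorem TN.good_w (h3 : ∃ M, ∀ s ≥ M, ∀ j l, ¬ Ev U φ 3 s j y l) :
    Good U φ (k + 1) y 4 := by
  obtain ⟨M, hMN, hM⟩ := T.quiet h3
  refine ⟨le_rfl, ?_, M, fun s hs => ⟨Or.inr (T.stab s (by omega)).2, ?_⟩⟩
  · intro a ha N'
    obtain ⟨s, hs, r, hl⟩ := T.good.often a ha (max M N')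
    have hsM : M ≤ s := le_trans (le_max_left _ _) hs
    refine ⟨s, le_trans (le_max_right _ _) hs, r, ?_⟩
    obtain ⟨v1, v2, v3⟩ := T.visit (by omega) hl
    have hno := hM s hsM k (p, o, r, a)
    have h0 : act U φ s (st U φ s) k (p, o, r, a) = 0 := by
      rcases v3 with g | g | g | g
      · exact g
      · rw [g] at v2; exact absurd v2 hno.1
      · rw [g] at v2; exact absurd v2 hno.2.1
      · rw [g] at v2; exact absurd v2 hno.2.2
    have h1 : rd (st U φ s) (kCh p o) = y := (T.stab s (by omega)).1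
    have := locm_succ (U := U) (φ := φ) hl
    unfold loc
    rw [this, nxt_eq_some]
    left
    exact ⟨h0, by simp only; rw [h1]⟩
  · intro j l hE _
    exact absurd hE (hM s hs j l).2.1

end

/-- What a choice says. -/
theorem chosen_spec {i s : ℕ} {m : Mem} {y : ℕ} :
    (chosen U i s m y < 4 ∧ rd m (kAw y (chosen U i s m y)) = rd m (kLab y) ∧
      (chosen U i s m y = (U i s (rd m (kNH y)) true).toNat ∨
        chosen U i s m y = 2 + ((U i s (rd m (kNH y)) true).toNat + rd m (kLab y)) % 2)) ∨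
    (chosen U i s m y = 4 ∧ rd m (kAw y (U i s (rd m (kNH y)) true).toNat) ≠ rd m (kLab y) ∧
      rd m (kAw y (2 + ((U i s (rd m (kNH y)) true).toNat + rd m (kLab y)) % 2)) ≠
        rd m (kLab y)) := by
  unfold chosen
  split_ifs with h1 h2
  · left
    refine ⟨?_, h1, Or.inl rfl⟩
    cases U i s (rd m (kNH y)) true <;> simp
  · left
    exact ⟨by omega, h2, Or.inr rfl⟩
  · right
    exact ⟨rfl, h1, h2⟩

/-- Case B: infinitely many choices. -/
structure TB (U : ℕ → ℕ → ℕ → Bool → Bool) (φ : ℕ → ℕ → ℕ → ℕ) (k p o y N : ℕ) : Prop where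
  tn : TN U φ k p o y N
  inf : ∀ M, ∃ s ≥ M, ∃ j l, Ev U φ 3 s j y l

section

variable {k p o y N : ℕ} (T : TB U φ k p o y N)

include T

theorem TB.even : k % 2 = 0 := by
  obtain ⟨s, hs, j, l, hE⟩ := T.inf N
  have := (T.tn.ev hs hE).2.2
  subst this
  exact ((act_eq_three U φ).1 hE.2.2.2).2.1

/-- The next choice has the other label. -/
theorem TB.next {s : ℕ} (hs : N ≤ s) (h : ∃ l, Ev U φ 3 s k y l) :
    ∃ s' > s, (∃ l, Ev U φ 3 s' k y l) ∧ lab U φ s' y = 1 - lab U φ s y ∧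
      (∀ t, s < t → t < s' → ∀ j l, ¬ Ev U φ 3 t j y l) ∧
      (∃ t, s < t ∧ t < s' ∧ (∃ l, Ev U φ 4 t k y l) ∧
        (∀ t', s < t' → t' ≤ t → md U φ t' y = 4) ∧
        (∀ t', t < t' → t' < s' → ∀ j l, ¬ Ev U φ 4 t' j y l)) := by
  classical
  have hex : ∃ s', s < s' ∧ ∃ j l, Ev U φ 3 s' j y l := by
    obtain ⟨s', h1, h2⟩ := T.inf (s + 1)
    exact ⟨s', by omega, h2⟩
  set s' := Nat.find hex with hs'
  obtain ⟨g1, j', l', g2⟩ := Nat.find_spec hex
  have hmin : ∀ t, s < t → t < s' → ∀ j l, ¬ Ev U φ 3 t j y l := by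
    intro t ht1 ht2 j l hE
    exact Nat.find_min hex ht2 ⟨ht1, j, l, hE⟩
  have hj' := (T.tn.ev (by omega) g2).2.2
  rw [hj'] at g2
  have hy0 : y ≠ 0 := by have := T.tn.two_le; omega
  have hlab : lab U φ s y ≤ 1 := ((inv s).bit y (T.tn.stab s hs).2.1).1
  -- mode at s+1 is four
  obtain ⟨l0, hE0⟩ := h
  have hs1 : md U φ (s + 1) y = 4 ∧ lab U φ (s + 1) y = lab U φ s y := by
    constructor
    · rcases T.tn.mode hs with g | g | g | g
      · obtain ⟨j, l, hE⟩ := g.2.2
        have := (ev_unique hy0 hE0 hE).2.2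
        omega
      · exact g.2.1
      · obtain ⟨j, l, hE⟩ := g.2.2
        have := (ev_unique hy0 hE0 hE).2.2
        omega
      · exact absurd hE0 (g.2 k l0).2.1
    · by_cases hc : chs U φ s k y < 4
      · exact (tr_choose hy0 hE0 hc).2.1
      · exact (tr_none hy0 hE0 hc).2.1
  -- the invariant in between
  have key : ∀ t, s < t → t ≤ s' →
      ((md U φ t y = 4 ∨ md U φ t y = 5 ∨ md U φ t y = 1) ∧ lab U φ t y = lab U φ s y) ∨
      ((md U φ t y = 2 ∨ md U φ t y = 3) ∧ lab U φ t y = 1 - lab U φ s y) := by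
    intro t ht
    induction t, ht using Nat.le_induction with
    | base => intro _; exact Or.inl ⟨Or.inl hs1.1, hs1.2⟩
    | succ t ht ih =>
      intro hle
      have ht' : s < t := ht
      have ih' := ih (by omega)
      have hlt2 : y < t + 2 := (T.tn.stab t (by omega)).2.lt
      rcases T.tn.mode (s := t) (by omega) with g | g | g | g
      · obtain ⟨j, l, hE⟩ := g.2.2
        have hlt := (tr_hold hy0 hE).2.1
        obtain ⟨e1, e2, e3⟩ := T.tn.ev (by omega) hE
        subst e3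
        have hst := ((act_eq_two U φ).1 hE.2.2.2).2
        have h3 : rd (st U φ t) (kCh l.1 l.2.1) = y := hE.2.2.1
        rw [h3] at hst
        have hst' : start φ j y l.2.2.2 (lab U φ t y) t := hst
        have ha := (path_info (inv t) hE.2.1).2.2.2.1
        have hev := T.even
        right
        refine ⟨g.2.1, ?_⟩
        rw [hlt]
        rcases hst' with h | h
        · rcases ih' with i | i
          · rw [i.2] at h; omega
          · omega
        · omega
      · obtain ⟨j, l, hE⟩ := g.2.2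
        exact absurd hE (hmin t ht' (by omega) j l)
      · obtain ⟨j, l, hE⟩ := g.2.2
        have hlt := (tr_join hy0 hE).2.1
        left
        rcases ih' with i | i
        · exact ⟨by omega, by rw [hlt]; exact i.2⟩
        · omega
      · have hlt := (tr_idle hy0 hlt2 g.2).2.1
        rcases ih' with i | i
        · left
          exact ⟨by omega, by rw [hlt]; exact i.2⟩
        · right
          exact ⟨by omega, by rw [hlt]; exact i.2⟩
  have hmd3 : md U φ s' y = 3 := by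
    have h1 := ((act_eq_three U φ).1 g2.2.2.2).1
    have h3 : rd (st U φ s') (kCh l'.1 l'.2.1) = y := g2.2.2.1
    rw [h3] at h1
    exact h1
  -- the first stage where mode four is left
  have hex4 : ∃ t, s < t ∧ md U φ (t + 1) y ≠ 4 := ⟨s' - 1, by
      rcases Nat.lt_or_ge (s + 1) s' with h | h
      · omega
      · have : s' = s + 1 := by omega
        rw [this] at hmd3; omega, by
      rw [show s' - 1 + 1 = s' by omega, hmd3]; omega⟩
  obtain ⟨q1, q2⟩ := Nat.find_spec hex4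
  have hq3 : ∀ t', s < t' → t' ≤ Nat.find hex4 → md U φ t' y = 4 := by
    intro t' h1 h2
    by_contra hcon
    rcases Nat.lt_or_ge (s + 1) t' with h | h
    · exact Nat.find_min hex4 (m := t' - 1) (by omega)
        ⟨by omega, by rw [show t' - 1 + 1 = t' by omega]; exact hcon⟩
    · have : t' = s + 1 := by omega
      rw [this] at hcon; exact hcon hs1.1
  have hq4 : Nat.find hex4 < s' := by
    rcases Nat.lt_or_ge (Nat.find hex4) s' with h | h
    · exact h
    · have := hq3 s' g1 h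
      omega
  refine ⟨s', g1, ⟨l', g2⟩, ?_, hmin, Nat.find hex4, q1, hq4, ?_, hq3, ?_⟩
  · rcases key s' g1 le_rfl with i | i
    · omega
    · exact i.2
  · rcases T.tn.mode (s := Nat.find hex4) (by omega) with g | g | g | g
    · have := hq3 _ q1 le_rfl; omega
    · have := hq3 _ q1 le_rfl; omega
    · obtain ⟨j, l, hE⟩ := g.2.2
      have hj := (T.tn.ev (by omega) hE).2.2
      rw [hj] at hE
      exact ⟨l, hE⟩
    · have := hq3 _ q1 le_rfl; omega
  · -- no second join: mode four is not entered again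
    have h5 : ∀ t', Nat.find hex4 < t' → t' ≤ s' → md U φ t' y ≠ 4 := by
      intro t' ht'
      induction t', ht' using Nat.le_induction with
      | base => intro _; exact q2
      | succ t' ht' ih =>
        intro hle
        have ih' := ih (by omega)
        rcases T.tn.mode (s := t') (by omega) with g | g | g | g
        · omega
        · obtain ⟨j, l, hE⟩ := g.2.2
          exact absurd hE (hmin t' (by omega) (by omega) j l)
        · omega
        · omega
    intro t' h1 h2 j l hE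
    have h3 := ((act_eq_four U φ).1 hE.2.2.2).1
    have h4 : rd (st U φ t') (kCh l.1 l.2.1) = y := hE.2.2.1
    rw [h4] at h3
    exact h5 t' h1 (by omega) h3

theorem TB.both (c : ℕ) (hc : c ≤ 1) (M : ℕ) :
    ∃ s ≥ M, N ≤ s ∧ (∃ l, Ev U φ 3 s k y l) ∧ lab U φ s y = c := by
  obtain ⟨s, hs, j, l, hE⟩ := T.inf (max M N)
  have h1 : N ≤ s := le_trans (le_max_right _ _) hs
  have h2 : M ≤ s := le_trans (le_max_left _ _) hs
  have hj := (T.tn.ev h1 hE).2.2
  rw [hj] at hE
  have hlab : lab U φ s y ≤ 1 := ((inv s).bit y (T.tn.stab s h1).2.1).1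
  by_cases h : lab U φ s y = c
  · exact ⟨s, h2, h1, ⟨l, hE⟩, h⟩
  · obtain ⟨s', g1, g2, g3, -⟩ := T.next h1 ⟨l, hE⟩
    exact ⟨s', by omega, by omega, g2, by omega⟩

/-- The bits `aw` only change by choices. -/
theorem TB.aw_const {κ s s' : ℕ} (hκ : κ < 4) (hs : N ≤ s) (hss : s ≤ s')
    (h : ∀ t, s ≤ t → t < s' → ∀ l, Ev U φ 3 t k y l → chs U φ t k y ≠ κ) :
    aw U φ s' y κ = aw U φ s y κ := by
  have hy0 : y ≠ 0 := by have := T.tn.two_le; omega
  induction s', hss using Nat.le_induction with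
  | base => rfl
  | succ t ht ih =>
    rw [← ih (fun t' h1 h2 => h t' h1 (by omega))]
    have hlt2 : y < t + 2 := (T.tn.stab t (by omega)).2.lt
    rcases T.tn.mode (s := t) (by omega) with g | g | g | g
    · obtain ⟨j, l, hE⟩ := g.2.2
      exact (tr_hold hy0 hE).2.2.2.2.2.1 κ hκ
    · obtain ⟨j, l, hE⟩ := g.2.2
      have hj := (T.tn.ev (by omega) hE).2.2
      rw [hj] at hE
      by_cases hc : chs U φ t k y < 4
      · rw [(tr_choose hy0 hE hc).2.2.2.2.2.1 κ hκ, if_neg]
        exact fun he => h t ht (by omega) l hE he.symm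
      · exact (tr_none hy0 hE hc).2.2.2.2.2.1 κ hκ
    · obtain ⟨j, l, hE⟩ := g.2.2
      exact (tr_join hy0 hE).2.2.2.2.2.1 κ hκ
    · exact (tr_idle hy0 hlt2 g.2).2.2.2.2.2.1 κ hκ

theorem TB.some_kind : ∃ κ < 4, ∀ M, ∃ s ≥ M, ∃ l, Ev U φ 3 s k y l ∧ chs U φ s k y = κ := by
  by_contra hcon
  push Not at hcon
  obtain ⟨M0, h0⟩ := hcon 0 (by omega)
  obtain ⟨M1, h1⟩ := hcon 1 (by omega)
  obtain ⟨M2, h2⟩ := hcon 2 (by omega)
  obtain ⟨M3, h3⟩ := hcon 3 (by omega)
  set M := max N (max (max M0 M1) (max M2 M3)) with hM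
  have e0 : M0 ≤ M := by omega
  have e1 : M1 ≤ M := by omega
  have e2 : M2 ≤ M := by omega
  have e3 : M3 ≤ M := by omega
  have eN : N ≤ M := by omega
  have hno : ∀ s ≥ M, ∀ l, Ev U φ 3 s k y l → ¬ chs U φ s k y < 4 := by
    intro s hs l hE hlt
    have a0 := h0 s (by omega) l hE
    have a1 := h1 s (by omega) l hE
    have a2 := h2 s (by omega) l hE
    have a3 := h3 s (by omega) l hE
    omega
  have hconst : ∀ κ < 4, ∀ s ≥ M, aw U φ s y κ = aw U φ M y κ := by
    intro κ hκ s hs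
    apply T.aw_const hκ eN hs
    intro t ht1 ht2 l hE he
    exact hno t ht1 l hE (by omega)
  have hb : ∀ κ < 4, aw U φ M y κ ≤ 1 :=
    ((inv M).bit y (T.tn.stab M eN).2.1).2.1
  -- a choice with each label
  have main : ∀ c ≤ 1, ∃ z ≤ 1, aw U φ M y z ≠ c ∧ aw U φ M y (2 + (z + c) % 2) ≠ c := by
    intro c hc
    obtain ⟨s, hs, hsN, ⟨l, hE⟩, hl⟩ := T.both c hc M
    rcases chosen_spec (U := U) (i := k / 2) (s := s) (m := st U φ s) (y := y) with g | g
    · exact absurd g.1 (hno s hs l hE)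
    · obtain ⟨-, g2, g3⟩ := g
      have hl' : rd (st U φ s) (kLab y) = c := hl
      rw [hl'] at g2 g3
      have hz : (U (k / 2) s (rd (st U φ s) (kNH y)) true).toNat ≤ 1 := by
        cases U (k / 2) s (rd (st U φ s) (kNH y)) true <;> simp
      generalize (U (k / 2) s (rd (st U φ s) (kNH y)) true).toNat = z at *
      refine ⟨z, hz, ?_, ?_⟩
      · rw [← hconst z (by omega) s hs]; exact g2
      · rw [← hconst _ (by omega) s hs]; exact g3
  obtain ⟨z0, hz0, p0, q0⟩ := main 0 (by omega)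
  obtain ⟨z1, hz1, p1, q1⟩ := main 1 (by omega)
  have b0 := hb z0 (by omega)
  have b1 := hb z1 (by omega)
  have b2 := hb (2 + (z0 + 0) % 2) (by omega)
  have b3 := hb (2 + (z1 + 1) % 2) (by omega)
  rcases Nat.lt_or_ge z0 z1 with h | h
  · have z0e : z0 = 0 := by omega
    have z1e : z1 = 1 := by omega
    subst z0e z1e
    norm_num at *
    omega
  · rcases Nat.lt_or_ge z1 z0 with h' | h'
    · have z0e : z0 = 1 := by omega
      have z1e : z1 = 0 := by omega
      subst z0e z1e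
      norm_num at *
      omega
    · have : z0 = z1 := by omega
      subst this
      omega

/-- The true kind. -/
theorem TB.kind : ∃ κ < 4, (∀ c ≤ 1, ∀ M, ∃ s ≥ M, (∃ l, Ev U φ 3 s k y l) ∧
      chs U φ s k y = κ ∧ lab U φ s y = c) ∧
    (∃ M, ∀ s ≥ M, ∀ l, Ev U φ 3 s k y l → κ ≤ chs U φ s k y) ∧ Good U φ (k + 1) y κ := by
  classical
  have hex := T.some_kind
  set κ := Nat.find hex with hκ
  obtain ⟨h4, hinf⟩ := Nat.find_spec hex
  have hy0 : y ≠ 0 := by have := T.tn.two_le; omega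
  have hsmall : ∃ M, ∀ s ≥ M, ∀ l, Ev U φ 3 s k y l → κ ≤ chs U φ s k y := by
    have : ∀ κ' < κ, ∃ M, ∀ s ≥ M, ∀ l, Ev U φ 3 s k y l → chs U φ s k y ≠ κ' := by
      intro κ' hκ'
      have := Nat.find_min hex hκ'
      push Not at this
      obtain ⟨M, hM⟩ := this (by omega)
      exact ⟨M, fun s hs l hE => hM s hs l hE⟩
    choose! f hf using this
    refine ⟨(Finset.range κ).sup f, fun s hs l hE => ?_⟩
    by_contra hcon
    push Not at hcon
    have h1 : f (chs U φ s k y) ≤ s :=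
      le_trans (Finset.le_sup (f := f) (Finset.mem_range.2 hcon)) hs
    exact hf _ hcon s h1 l hE rfl
  have hboth : ∀ c ≤ 1, ∀ M, ∃ s ≥ M, (∃ l, Ev U φ 3 s k y l) ∧
      chs U φ s k y = κ ∧ lab U φ s y = c := by
    intro c hc M
    obtain ⟨s, hs, l, hE, hk⟩ := hinf (max M N)
    have hsN : N ≤ s := le_trans (le_max_right _ _) hs
    have hsM : M ≤ s := le_trans (le_max_left _ _) hs
    have hlab : lab U φ s y ≤ 1 := ((inv s).bit y (T.tn.stab s hsN).2.1).1
    by_cases hl : lab U φ s y = c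
    · exact ⟨s, hsM, ⟨l, hE⟩, hk, hl⟩
    have hex2 : ∃ s', s < s' ∧ ∃ l, Ev U φ 3 s' k y l ∧ chs U φ s' k y = κ := by
      obtain ⟨s', h1, h2⟩ := hinf (s + 1)
      exact ⟨s', by omega, h2⟩
    obtain ⟨g1, l', g2, g3⟩ := Nat.find_spec hex2
    set s' := Nat.find hex2 with hs'
    have hmin : ∀ t, s < t → t < s' → ∀ l, Ev U φ 3 t k y l → chs U φ t k y ≠ κ := by
      intro t h1 h2 l hE he
      exact Nat.find_min hex2 h2 ⟨h1, l, hE, he⟩
    have haw : ∀ s l, Ev U φ 3 s k y l → chs U φ s k y = κ → aw U φ s y κ = lab U φ s y := by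
      intro s l hE hk
      rcases chosen_spec (U := U) (i := k / 2) (s := s) (m := st U φ s) (y := y) with g | g
      · have := g.2.1
        have hk' : chosen U (k / 2) s (st U φ s) y = κ := hk
        rw [hk'] at this
        exact this
      · have : chosen U (k / 2) s (st U φ s) y = κ := hk
        omega
    have e1 : aw U φ s' y κ = aw U φ (s + 1) y κ := by
      apply T.aw_const h4 (by omega) g1
      intro t h1 h2 l hE
      exact hmin t (by omega) h2 l hE
    have e2 : aw U φ (s + 1) y κ = 1 - aw U φ s y κ := by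
      rw [(tr_choose hy0 hE (by omega)).2.2.2.2.2.1 κ h4, if_pos hk.symm]
    have e3 := haw s l hE hk
    have e4 := haw s' l' g2 g3
    refine ⟨s', by omega, ⟨l', g2⟩, g3, ?_⟩
    omega
  refine ⟨κ, h4, hboth, hsmall, ⟨by omega, ?_, ?_⟩⟩
  · intro a ha M
    obtain ⟨s, hs, ⟨l, hE⟩, hk, hl⟩ := hboth a ha M
    refine ⟨s, hs, y, ?_⟩
    have h1 : rd (st U φ s) (kCh l.1 l.2.1) = y := hE.2.2.1
    have := locm_succ (U := U) (φ := φ) hE.2.1
    unfold loc
    rw [this, nxt_eq_some]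
    right
    rw [h1]
    have hk' : chosen U (k / 2) s (st U φ s) y = κ := hk
    have hl' : rd (st U φ s) (kLab y) = a := hl
    rw [hk', hl']
    exact ⟨hE.2.2.2, h4, rfl⟩
  · obtain ⟨M, hM⟩ := hsmall
    refine ⟨max M N, fun s hs => ?_⟩
    have hsN : N ≤ s := le_trans (le_max_right _ _) hs
    have hsM : M ≤ s := le_trans (le_max_left _ _) hs
    refine ⟨Or.inr (T.tn.stab s hsN).2, ?_⟩
    intro j l hE _
    have hj := (T.tn.ev hsN hE).2.2
    rw [hj] at hE ⊢
    exact hM s hsM l hE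

end

/-- The true path goes on. -/
theorem good_succ {k p o y N : ℕ} (T : TN U φ k p o y N) :
    ∃ q, Good U φ (k + 1) y q := by
  by_cases h3 : ∃ M, ∀ s ≥ M, ∀ j l, ¬ Ev U φ 3 s j y l
  · exact ⟨4, T.good_w h3⟩
  · push Not at h3
    have TB' : TB U φ k p o y N := ⟨T, fun M => by
      obtain ⟨s, hs, j, l, h⟩ := h3 M
      exact ⟨s, hs, j, l, h⟩⟩
    obtain ⟨κ, -, -, -, hG⟩ := TB'.kind
    exact ⟨κ, hG⟩

/-- On each level there is a node of the true path. -/
theorem true_node (k : ℕ) : ∃ p o y N, TN U φ k p o y N := by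
  induction k with
  | zero =>
    obtain ⟨y, N, h⟩ := child_stable (U := U) (φ := φ) good_zero
    exact ⟨1, 4, y, N, h⟩
  | succ k ih =>
    obtain ⟨p, o, y, N, h⟩ := ih
    obtain ⟨q, hq⟩ := good_succ h
    obtain ⟨y', N', h'⟩ := child_stable hq
    exact ⟨y, q, y', N', h'⟩

end Pool.Agent.H91.CD.Dyn
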