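import Mathlib
import Pool.Agent.H91.CD.True
import Pool.Agent.H91.CD.Defs

set_option autoImplicit false

/-!
Elements, the two sets and their conjugacy.
-/

namespace Pool.Agent.H91.CD.Dyn

open Pool.Agent.H91.CD

variable (U : ℕ → ℕ → ℕ → Bool → Bool) (φ : ℕ → ℕ → ℕ → ℕ)

/-- The element `n` is present with one side at the beginning of stage `s`. -/
def live (s n : ℕ) : Prop :=
  vF U φ n ≠ 0 ∧
    ((eF U φ n ≠ 0 ∧ joined (md U φ s (vF U φ n)) ∧ nJ U φ s (vF U φ n) = n) ∨
      (eF U φ n = 0 ∧ held (md U φ s (vF U φ n)) ∧ nH U φ s (vF U φ n) = n))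

instance (s n : ℕ) : Decidable (live U φ s n) := by unfold live; infer_instance

/-- The element `n` stays one-sided for ever. -/
def perm (n : ℕ) : Prop := vF U φ n ≠ 0 ∧ ∀ s > n, live U φ s n

/-- The label of the element `n` in the second set. -/
def lbl (n : ℕ) : Bool :=
  if eF U φ n = 0 then decide (lab U φ (n + 1) (vF U φ n) = 1) else false

/-- The set with label function `f`. -/
def XS (f : ℕ → Bool) : ℕ × Bool → Prop :=
  fun p => vF U φ p.1 ≠ 0 ∧ (p.2 = f p.1 ∨ ∃ s > p.1, ¬ live U φ s p.1)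

/-- The endpoints. -/
def SS (n : ℕ) : ℕ × ℕ := if vF U φ n = 0 then (0, 1) else (eF U φ n, vF U φ n)

variable {U φ}

theorem not_perm {n : ℕ} (h : vF U φ n ≠ 0) : ¬ perm U φ n ↔ ∃ s > n, ¬ live U φ s n := by
  unfold perm
  push Not
  constructor
  · intro g; exact g h
  · intro g _; exact g

/-- Where elements come from. -/
theorem log_event {n : ℕ} (h : vF U φ n ≠ 0) :
    (∃ k l, Cr U φ n k l ∧ vF U φ n = n + 2 ∧ eF U φ n = l.2.2.1) ∨
    (∃ k l, Ev U φ 2 n k (vF U φ n) l ∧ eF U φ n = 0) ∨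
    (∃ k l, Ev U φ 4 n k (vF U φ n) l ∧ eF U φ n = l.2.2.1) := by
  by_cases h1 : ∃ k < n, ∃ l, loc U φ n k = some l ∧ act U φ n (st U φ n) k l = 1
  · obtain ⟨k, hk, l, hl, ha⟩ := h1
    have hC : Cr U φ n k l := ⟨hk, hl, ha⟩
    obtain ⟨-, -, -, -, -, -, -, -, c9, c10⟩ := tr_create hC
    exact Or.inl ⟨k, l, hC, c10, c9⟩
  by_cases h2 : ∃ k < n, ∃ l, loc U φ n k = some l ∧ act U φ n (st U φ n) k l = 2
  · obtain ⟨k, hk, l, hl, ha⟩ := h2
    have hE : Ev U φ 2 n k (ch U φ n l.1 l.2.1) l := ⟨hk, hl, rfl, ha⟩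
    obtain ⟨c1, c2⟩ := tr_hold_log hE
    have c2' : vF U φ n = ch U φ n l.1 l.2.1 := c2
    refine Or.inr (Or.inl ⟨k, l, ?_, c1⟩)
    rw [c2']; exact hE
  by_cases h4 : ∃ k < n, ∃ l, loc U φ n k = some l ∧ act U φ n (st U φ n) k l = 4
  · obtain ⟨k, hk, l, hl, ha⟩ := h4
    have hE : Ev U φ 4 n k (ch U φ n l.1 l.2.1) l := ⟨hk, hl, rfl, ha⟩
    obtain ⟨c1, c2⟩ := tr_join_log hE
    have c2' : vF U φ n = ch U φ n l.1 l.2.1 := c2
    refine Or.inr (Or.inr ⟨k, l, ?_, c1⟩)
    rw [c2']; exact hE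
  exfalso
  apply h
  refine (tr_nolog ?_).2
  intro k hk l hl
  exact ⟨fun e => h1 ⟨k, hk, l, hl, e⟩, fun e => h2 ⟨k, hk, l, hl, e⟩,
    fun e => h4 ⟨k, hk, l, hl, e⟩⟩

theorem ev_md {c s k y : ℕ} {l : Loc} (hE : Ev U φ c s k y l) :
    (c = 2 → md U φ s y = 1) ∧ (c = 3 → md U φ s y = 3) ∧ (c = 4 → md U φ s y = 4) := by
  have h3 : rd (st U φ s) (kCh l.1 l.2.1) = y := hE.2.2.1
  refine ⟨?_, ?_, ?_⟩
  · rintro rfl
    have h1 := ((act_eq_two U φ).1 hE.2.2.2).1
    rw [h3] at h1; exact h1
  · rintro rfl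
    have h1 := ((act_eq_three U φ).1 hE.2.2.2).1
    rw [h3] at h1; exact h1
  · rintro rfl
    have h1 := ((act_eq_four U φ).1 hE.2.2.2).1
    rw [h3] at h1; exact h1

theorem loc_root_pos {s k : ℕ} {l : Loc} (hl : loc U φ s k = some l) : 1 ≤ l.2.2.1 := by
  obtain ⟨i1, i2, i3, i4, i5⟩ := path_info (inv s) hl
  rcases i5 with h | h
  · omega
  · omega

/-- Elements are live right after their stage. -/
theorem live_init {n : ℕ} (h : vF U φ n ≠ 0) : live U φ (n + 1) n := by
  refine ⟨h, ?_⟩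
  rcases log_event h with ⟨k, l, hC, e1, e2⟩ | ⟨k, l, hE, e2⟩ | ⟨k, l, hE, e2⟩
  · left
    have hm := created_mode hC
    have hr := loc_root_pos hC.2.1
    rw [e1]
    exact ⟨by omega, Or.inl hm, (tr_create hC).2.2.2.2.1⟩
  · right
    have hmd := (ev_md hE).1 rfl
    have ha : Alive U φ n (vF U φ n) := ⟨by omega, by omega⟩
    have ha' : Alive U φ (n + 1) (vF U φ n) := by
      have := path_alive (k := k) (l := l) (by have := hE.1; omega) hE.2.1
        (by rw [hE.2.2.1]; exact ha)
      rw [hE.2.2.1] at this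
      exact this
    refine ⟨e2, ?_, (tr_hold h hE).2.2.1⟩
    rcases mode_step ha ha' with g | g | g | g
    · unfold held; omega
    · omega
    · omega
    · exact absurd hE (g.2 k l).1
  · left
    have hmd := (ev_md hE).2.2 rfl
    have hr := loc_root_pos hE.2.1
    have ha : Alive U φ n (vF U φ n) := ⟨by omega, by omega⟩
    have ha' : Alive U φ (n + 1) (vF U φ n) := by
      have := path_alive (k := k) (l := l) (by have := hE.1; omega) hE.2.1
        (by rw [hE.2.2.1]; exact ha)
      rw [hE.2.2.1] at this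
      exact this
    refine ⟨by omega, ?_, (tr_join h hE).2.2.2.2.1⟩
    rcases mode_step ha ha' with g | g | g | g
    · omega
    · omega
    · unfold joined; omega
    · exact absurd hE (g.2 k l).2.2

theorem live_alive {s n : ℕ} (h : live U φ s n) : Alive U φ s (vF U φ n) := by
  rcases h.2 with g | g
  · have := g.2.1
    unfold joined at this
    exact ⟨by omega, by omega⟩
  · have := g.2.1
    unfold held at this
    exact ⟨by omega, by omega⟩

theorem vF_lt {n : ℕ} (h : vF U φ n ≠ 0) : vF U φ n < n + 3 := (live_alive (live_init h)).lt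

/-- Liveness only gets lost. -/
theorem live_anti_succ {s n : ℕ} (hs : n < s) (h : live U φ (s + 1) n) : live U φ s n := by
  have h0 := h.1
  have hlt := vF_lt h0
  have ha' := live_alive h
  have ha : Alive U φ s (vF U φ n) := alive_of_succ ha' (by omega)
  refine ⟨h0, ?_⟩
  rcases h.2 with ⟨g1, g2, g3⟩ | ⟨g1, g2, g3⟩
  · left
    refine ⟨g1, ?_⟩
    rcases mode_step ha ha' with m | m | m | m
    · obtain ⟨k, l, hE⟩ := m.2.2
      have := (tr_hold h0 hE).2.2.2.2.1
      exact ⟨Or.inl m.1, by rw [← this]; exact g3⟩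
    · rw [m.2.1] at g2; unfold joined at g2; omega
    · obtain ⟨k, l, hE⟩ := m.2.2
      have := (tr_join h0 hE).2.2.2.2.1
      omega
    · have := (tr_idle h0 ha.lt m.2).2.2.2.2.1
      refine ⟨?_, by rw [← this]; exact g3⟩
      unfold joined at g2 ⊢
      omega
  · right
    refine ⟨g1, ?_⟩
    rcases mode_step ha ha' with m | m | m | m
    · obtain ⟨k, l, hE⟩ := m.2.2
      have := (tr_hold h0 hE).2.2.1
      omega
    · obtain ⟨k, l, hE⟩ := m.2.2
      have : nH U φ (s + 1) (vF U φ n) = nH U φ s (vF U φ n) := by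
        by_cases hc : chs U φ s k (vF U φ n) < 4
        · exact (tr_choose h0 hE hc).2.2.1
        · exact (tr_none h0 hE hc).2.2.1
      refine ⟨?_, by rw [← this]; exact g3⟩
      unfold held; omega
    · obtain ⟨k, l, hE⟩ := m.2.2
      have := (tr_join h0 hE).2.2.1
      refine ⟨?_, by rw [← this]; exact g3⟩
      unfold held; omega
    · have := (tr_idle h0 ha.lt m.2).2.2.1
      refine ⟨?_, by rw [← this]; exact g3⟩
      unfold held at g2 ⊢
      omega

theorem live_anti {s t n : ℕ} (hs : n < s) (hst : s ≤ t) (h : live U φ t n) : live U φ s n := by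
  induction t, hst using Nat.le_induction with
  | base => exact h
  | succ t ht ih => exact ih (live_anti_succ (by omega) h)

/-- The label does not change while the element is live. -/
theorem lab_live {s n : ℕ} (hs : n < s) (h : live U φ s n) (he : eF U φ n = 0) :
    lab U φ s (vF U φ n) = lab U φ (n + 1) (vF U φ n) := by
  induction s, hs using Nat.le_induction with
  | base => rfl
  | succ s hs ih =>
    have hs' : n < s := hs
    have h' := live_anti_succ hs' h
    rw [← ih h']
    have ha' := live_alive h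
    have ha := live_alive h'
    have h0 := h.1
    rcases mode_step ha ha' with m | m | m | m
    · obtain ⟨k, l, hE⟩ := m.2.2
      have := (tr_hold h0 hE).2.2.1
      rcases h.2 with g | g
      · exact absurd he g.1
      · omega
    · obtain ⟨k, l, hE⟩ := m.2.2
      by_cases hc : chs U φ s k (vF U φ n) < 4
      · exact (tr_choose h0 hE hc).2.1
      · exact (tr_none h0 hE hc).2.1
    · obtain ⟨k, l, hE⟩ := m.2.2
      exact (tr_join h0 hE).2.1
    · exact (tr_idle h0 ha.lt m.2).2.1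

/-- Elements attached to nodes are live. -/
theorem live_nJ {s x : ℕ} (h : joined (md U φ s x)) : live U φ s (nJ U φ s x) := by
  obtain ⟨h1, h2, h3⟩ := (inv s).idJ x h
  have h0 : md U φ s x ≠ 0 := by unfold joined at h; omega
  have hx := ((inv s).rng x h0).1
  have hr := ((inv s).str x h0).2.2.1
  refine ⟨by omega, Or.inl ⟨by omega, ?_, ?_⟩⟩
  · rw [h3]; exact h
  · rw [h3]

theorem live_nH {s x : ℕ} (h : held (md U φ s x)) : live U φ s (nH U φ s x) := by
  obtain ⟨h1, h2, h3⟩ := (inv s).idH x h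
  have h0 : md U φ s x ≠ 0 := by unfold held at h; omega
  have hx := ((inv s).rng x h0).1
  refine ⟨by omega, Or.inr ⟨by omega, ?_, ?_⟩⟩
  · rw [h3]; exact h
  · rw [h3]

theorem lbl_nH {s x : ℕ} (h : held (md U φ s x)) :
    lbl U φ (nH U φ s x) = decide (lab U φ s x = 1) := by
  obtain ⟨h1, h2, h3⟩ := (inv s).idH x h
  have hl := lab_live h1 (live_nH h) h2
  unfold lbl
  rw [if_pos h2, ← hl, h3]

theorem lbl_nJ {s x : ℕ} (h : joined (md U φ s x)) : lbl U φ (nJ U φ s x) = false := by
  obtain ⟨h1, h2, h3⟩ := (inv s).idJ x h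
  have h0 : md U φ s x ≠ 0 := by unfold joined at h; omega
  have hr := ((inv s).str x h0).2.2.1
  unfold lbl
  rw [if_neg (by omega)]

/-! ### Actions -/

theorem act_XS (ε : ℕ → Bool) (f : ℕ → Bool) :
    Act (SS U φ) ε (XS U φ f) =
      XS U φ (fun n => xor (f n) (xor (ε (SS U φ n).1) (ε (SS U φ n).2))) := by
  funext p
  obtain ⟨n, b⟩ := p
  simp only [Act, XS, eq_iff_iff]
  constructor
  · rintro ⟨h1, h2⟩
    refine ⟨h1, ?_⟩
    rcases h2 with h | h
    · left
      rw [← h]
      cases b <;> cases ε (SS U φ n).1 <;> cases ε (SS U φ n).2 <;> rfl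
    · exact Or.inr h
  · rintro ⟨h1, h2⟩
    refine ⟨h1, ?_⟩
    rcases h2 with h | h
    · left
      rw [h]
      cases f n <;> cases ε (SS U φ n).1 <;> cases ε (SS U φ n).2 <;> rfl
    · exact Or.inr h

theorem XS_eq_iff (f g : ℕ → Bool) :
    XS U φ f = XS U φ g ↔ ∀ n, perm U φ n → f n = g n := by
  constructor
  · intro h n hn
    have h1 : XS U φ f (n, f n) := ⟨hn.1, Or.inl rfl⟩
    rw [h] at h1
    rcases h1.2 with h2 | h2
    · exact h2
    · obtain ⟨s, hs, hl⟩ := h2
      exact absurd (hn.2 s hs) hl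
  · intro h
    funext p
    obtain ⟨n, b⟩ := p
    simp only [XS, eq_iff_iff]
    constructor
    · rintro ⟨h1, h2⟩
      refine ⟨h1, ?_⟩
      by_cases hp : perm U φ n
      · rw [← h n hp]; exact h2
      · exact Or.inr ((not_perm h1).1 hp)
    · rintro ⟨h1, h2⟩
      refine ⟨h1, ?_⟩
      by_cases hp : perm U φ n
      · rw [h n hp]; exact h2
      · exact Or.inr ((not_perm h1).1 hp)

theorem SS_perm {n : ℕ} (h : perm U φ n) : SS U φ n = (eF U φ n, vF U φ n) := by
  unfold SS
  rw [if_neg h.1]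

/-- `XS g = Act ε (XS f)` in terms of permanent elements. -/
theorem act_eq_iff (ε f g : ℕ → Bool) :
    XS U φ g = Act (SS U φ) ε (XS U φ f) ↔
      ∀ n, perm U φ n → g n = xor (f n) (xor (ε (eF U φ n)) (ε (vF U φ n))) := by
  rw [act_XS, XS_eq_iff]
  constructor
  · intro h n hn
    have := h n hn
    rw [SS_perm hn] at this
    exact this
  · intro h n hn
    rw [SS_perm hn]
    exact h n hn

/-! ### Potentials -/

/-- The potential of stage `s`. -/
def pot (U : ℕ → ℕ → ℕ → Bool → Bool) (φ : ℕ → ℕ → ℕ → ℕ) (s : ℕ) : ℕ → Bool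
  | x => if held (md U φ s x) then decide (lab U φ s x = 1)
    else if h : md U φ s x = 1 ∧ rt U φ x < x then pot U φ s (rt U φ x) else false
termination_by x => x
decreasing_by exact h.2

theorem pot_held {s x : ℕ} (h : held (md U φ s x)) :
    pot U φ s x = decide (lab U φ s x = 1) := by
  rw [pot, if_pos h]

theorem pot_one {s x : ℕ} (h : md U φ s x = 1) : pot U φ s x = pot U φ s (rt U φ x) := by
  have h0 : md U φ s x ≠ 0 := by omega
  have hr := ((inv s).str x h0).2.2.2.1
  have hh : ¬ held (md U φ s x) := by unfold held; omega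
  rw [pot, if_neg hh, dif_pos ⟨h, hr⟩]

theorem pot_zero (s : ℕ) : pot U φ s 0 = false := by
  have h : md U φ s 0 = 0 := md_low (by omega)
  have hh : ¬ held (md U φ s 0) := by unfold held; omega
  rw [pot, if_neg hh, dif_neg (by omega)]

theorem pot_live {s n : ℕ} (h : live U φ s n) :
    lbl U φ n = xor (pot U φ s (eF U φ n)) (pot U φ s (vF U φ n)) := by
  rcases h.2 with ⟨g1, g2, g3⟩ | ⟨g1, g2, g3⟩
  · have hid := (inv s).idJ _ g2
    rw [g3] at hid
    have hl : lbl U φ n = false := by unfold lbl; rw [if_neg g1]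
    rw [hl, hid.2.1]
    by_cases h1 : md U φ s (vF U φ n) = 1
    · rw [pot_one h1]; simp
    · have hp : pend (md U φ s (vF U φ n)) := by
        unfold joined at g2; unfold pend; omega
      obtain ⟨p1, p2, p3⟩ := (inv s).pnd _ hp
      have h2 : held (md U φ s (vF U φ n)) := by unfold pend at hp; unfold held; omega
      have h3 : held (md U φ s (rt U φ (vF U φ n))) := by unfold held; omega
      rw [pot_held h2, pot_held h3, p3]; simp
  · have := lbl_nH g2
    rw [g3] at this
    rw [this, g1, pot_zero, pot_held g2]; simp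

/-- The two sets are conjugate. -/
theorem conj : ∃ ε : ℕ → Bool, ε 0 = false ∧
    (∀ n, perm U φ n → lbl U φ n = xor (ε (eF U φ n)) (ε (vF U φ n))) := by
  classical
  let F := Filter.hyperfilter ℕ
  let ε : ℕ → Bool := fun x => decide (∀ᶠ s in (F : Filter ℕ), pot U φ s x = true)
  have hε : ∀ x, ∀ᶠ s in (F : Filter ℕ), pot U φ s x = ε x := by
    intro x
    by_cases h : ∀ᶠ s in (F : Filter ℕ), pot U φ s x = true
    · have : ε x = true := by simp only [ε, decide_eq_true_eq]; exact h
      rw [this]; exact h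
    · have h1 : ε x = false := by simp only [ε, decide_eq_false_iff_not]; exact h
      rw [h1]
      have := (Ultrafilter.eventually_not (f := F)).2 h
      exact this.mono fun s hs => by simpa using hs
  refine ⟨ε, ?_, ?_⟩
  · obtain ⟨s, hs⟩ := (hε 0).exists
    rw [← hs]; exact pot_zero s
  · intro n hn
    have h1 : ∀ᶠ s in (F : Filter ℕ), n < s := by
      have h2 : ∀ᶠ s in Filter.atTop, n < s := Filter.eventually_gt_atTop n
      exact Nat.hyperfilter_le_atTop h2
    obtain ⟨s, ⟨h2, h3⟩, h4⟩ := (((hε (eF U φ n)).and (hε (vF U φ n))).and h1).exists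
    rw [← h2, ← h3]
    exact pot_live (hn.2 s h4)

end Pool.Agent.H91.CD.Dyn
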