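import Mathlib
import Pool.Agent.H91.CD.Elem

set_option autoImplicit false

/-!
The two sets are not conjugate by a computable sign vector.
-/

namespace Pool.Agent.H91.CD.Dyn

variable {U : ℕ → ℕ → ℕ → Bool → Bool} {φ : ℕ → ℕ → ℕ → ℕ}

section

variable {k p o y N : ℕ} (T : TN U φ k p o y N)

include T

/-- If there are no choices, the mode is finally constant, one of `1`, `3`, `4`. -/
theorem TN.mode_const (h3 : ∃ M, ∀ s ≥ M, ∀ j l, ¬ Ev U φ 3 s j y l) :
    ∃ M ≥ N, (∀ s ≥ M, ∀ j l, ¬ Ev U φ 2 s j y l ∧ ¬ Ev U φ 3 s j y l ∧ ¬ Ev U φ 4 s j y l) ∧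
      (md U φ M y = 1 ∨ md U φ M y = 3 ∨ md U φ M y = 4) ∧
      ∀ s ≥ M, md U φ s y = md U φ M y := by
  obtain ⟨M, hMN, hM⟩ := T.quiet h3
  obtain ⟨s, hs, r, hl⟩ := T.good.often 0 (by omega) M
  have hm := (T.visit (by omega) hl).1
  refine ⟨s, by omega, fun t ht => hM t (by omega), hm, ?_⟩
  intro t ht
  induction t, ht using Nat.le_induction with
  | base => rfl
  | succ t ht ih =>
    rcases T.mode (s := t) (by omega) with g | g | g | g
    · obtain ⟨j, l, hE⟩ := g.2.2
      exact absurd hE (hM t (by omega) j l).1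
    · obtain ⟨j, l, hE⟩ := g.2.2
      exact absurd hE (hM t (by omega) j l).2.1
    · obtain ⟨j, l, hE⟩ := g.2.2
      exact absurd hE (hM t (by omega) j l).2.2
    · omega

/-- The location of every visit of the node of the true path. -/
theorem TN.ev' {c s j : ℕ} {l : Loc} (hE : Ev U φ c s j y l) (h0 : md U φ s y ≠ 0) :
    l.1 = p ∧ l.2.1 = o ∧ j = k := by
  obtain ⟨h1, h2, h3, h4⟩ := hE
  have v := vis_str (inv s) h2 (by rw [h3]; exact h0)
  rw [h3] at v
  obtain ⟨s', -, r, hl'⟩ := T.good.often 0 (by omega) 0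
  refine ⟨v.2.1.symm.trans T.hpa, v.2.2.symm.trans T.hpl, ?_⟩
  exact depth_eq h2 hl' (v.2.1.symm.trans T.hpa)

end

theorem noncomp (hφ : ∀ i s t x, s ≤ t → φ i s x ≠ 0 → φ i t x = φ i s x) (ε : ℕ → Bool)
    (hε0 : ε 0 = false) (i : ℕ) (hi : ∀ x, ∃ s, φ i s x = (ε x).toNat + 1) :
    ¬ ∀ n, perm U φ n → lbl U φ n = xor (ε (eF U φ n)) (ε (vF U φ n)) := by
  intro hcb
  obtain ⟨p, o, y, N, T⟩ := true_node (U := U) (φ := φ) (2 * i + 1)
  have h3 : ∃ M, ∀ s ≥ M, ∀ j l, ¬ Ev U φ 3 s j y l := by
    refine ⟨N, fun s hs j l hE => ?_⟩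
    have hj := (T.ev hs hE).2.2
    have := ((act_eq_three U φ).1 hE.2.2.2).2.1
    omega
  obtain ⟨M, hMN, hM, hmode, hconst⟩ := T.mode_const h3
  have hy2 := T.two_le
  have hφε : ∀ s x, φ i s x ≠ 0 → φ i s x = (ε x).toNat + 1 := by
    intro s x hs
    obtain ⟨s0, h0⟩ := hi x
    rcases le_total s s0 with h | h
    · rw [← hφ i s s0 x h hs]; exact h0
    · rw [hφ i s0 s x h (by omega)]; exact h0
  have hdiv : (2 * i + 1) / 2 = i := by omega
  by_cases h1 : md U φ M y = 1
  · -- the node would start a hold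
    obtain ⟨s0, h0⟩ := hi y
    have ha : 1 - (ε y).toNat ≤ 1 := by omega
    obtain ⟨s, hs, r, hl⟩ := T.good.often (1 - (ε y).toNat) ha (max M s0)
    have hsM : M ≤ s := le_trans (le_max_left _ _) hs
    have hs0 : s0 ≤ s := le_trans (le_max_right _ _) hs
    obtain ⟨-, v2, -⟩ := T.visit (by omega) hl
    have hact : act U φ s (st U φ s) (2 * i + 1) (p, o, r, 1 - (ε y).toNat) = 2 := by
      rw [act_eq_two]
      have h3' : rd (st U φ s) (kCh p o) = y := (T.stab s (by omega)).1
      simp only [h3']
      refine ⟨?_, ?_⟩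
      · have := hconst s hsM
        rw [h1] at this
        exact this
      · right
        have e1 : φ i s y = (ε y).toNat + 1 := by
          rw [hφ i s0 s y hs0 (by omega)]; exact h0
        rw [hdiv, e1]
        have : (ε y).toNat ≤ 1 := by cases ε y <;> simp
        exact ⟨by omega, by omega, by omega⟩
    rw [hact] at v2
    exact (hM s hsM _ _).1 v2
  · -- held for ever
    have hheld : ∀ s ≥ M, held (md U φ s y) := by
      intro s hs
      rw [hconst s hs]
      unfold held; omega
    have hnH : ∀ s ≥ M, nH U φ s y = nH U φ M y := by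
      intro s hs
      induction s, hs using Nat.le_induction with
      | base => rfl
      | succ s hs ih =>
        rw [← ih]
        exact (tr_idle (by omega) (T.stab s (by omega)).2.lt (hM s (by omega))).2.2.1
    set n := nH U φ M y with hn
    obtain ⟨n1, n2, n3⟩ := (inv M).idH y (hheld M le_rfl)
    rw [← hn] at n1 n2 n3
    have hperm : perm U φ n := by
      refine ⟨by omega, fun s hs => ?_⟩
      rcases le_total M s with h | h
      · have := live_nH (hheld s h)
        rw [hnH s h] at this
        exact this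
      · apply live_anti hs h
        have := live_nH (hheld M le_rfl)
        rw [← hn] at this
        exact this
    have hlab := hcb n hperm
    rw [n2, n3, hε0] at hlab
    rcases log_event (U := U) (φ := φ) (n := n) (by omega) with
      ⟨k', l, hC, e1, e2⟩ | ⟨k', l, hE, e2⟩ | ⟨k', l, hE, e2⟩
    · have := loc_root_pos hC.2.1
      omega
    · rw [n3] at hE
      have hmd : md U φ n y = 1 := (ev_md hE).1 rfl
      obtain ⟨q1, q2, q3⟩ := T.ev' hE (by omega)
      subst q3
      have hst := ((act_eq_two U φ).1 hE.2.2.2).2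
      have h3' : rd (st U φ n) (kCh l.1 l.2.1) = y := hE.2.2.1
      rw [h3'] at hst
      have hal := (path_info (inv n) hE.2.1).2.2.2.1
      have hlb := (tr_hold (by omega) hE).2.1
      have hlbl : lbl U φ n = decide (l.2.2.2 = 1) := by
        unfold lbl
        rw [if_pos n2, n3, hlb]
      rw [hlbl] at hlab
      rcases hst with h | h
      · omega
      · rw [hdiv] at h
        have e1 := hφε n y h.2.1
        have hb : (ε y).toNat ≤ 1 := by cases ε y <;> simp
        cases hy : ε y with
        | true =>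
          rw [hy] at hlab e1
          simp only [Bool.toNat_true] at e1
          have : l.2.2.2 = 1 := by simpa using hlab
          omega
        | false =>
          rw [hy] at hlab e1
          simp only [Bool.toNat_false] at e1
          have : l.2.2.2 ≠ 1 := by simpa using hlab
          omega
    · have := loc_root_pos hE.2.1
      omega

end Pool.Agent.H91.CD.Dyn
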