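import Mathlib
import Pool.Agent.H91.CD.NonComp

set_option autoImplicit false

/-!
Lines: the descendants of a true choice.
-/

namespace Pool.Agent.H91.CD.Dyn

/-- Stage `s` is a choice of kind `κ` at `y`. -/
def KS (U : ℕ → ℕ → ℕ → Bool → Bool) (φ : ℕ → ℕ → ℕ → ℕ) (k y κ s : ℕ) : Prop :=
  (∃ l, Ev U φ 3 s k y l) ∧ chs U φ s k y = κ

/-- The node `y` chooses `κ` infinitely often, and `z` is its child for this label. -/
structure Ln (U : ℕ → ℕ → ℕ → Bool → Bool) (φ : ℕ → ℕ → ℕ → ℕ)
    (k p o y N κ z N2 : ℕ) : Prop where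
  tb : TB U φ k p o y N
  tz : TN U φ (k + 1) y κ z N2
  hκ : κ < 4
  inf : ∀ M, ∃ s ≥ M, KS U φ k y κ s

variable {U : ℕ → ℕ → ℕ → Bool → Bool} {φ : ℕ → ℕ → ℕ → ℕ}

/-- Creation data of a coordinate. -/
theorem created {s x : ℕ} (h : md U φ s x ≠ 0) : ∃ j l, Cr U φ (x - 2) j l ∧
    pa U φ x = l.1 ∧ pl U φ x = l.2.1 ∧ rt U φ x = l.2.2.1 := by
  induction s with
  | zero =>
    have := (inv (U := U) (φ := φ) 0).rng x h
    omega
  | succ s ih =>
    obtain ⟨-, -, -, -, -, -, -, -, -, hc⟩ :=
      str_next (inv s) (md1_ne_zero_of_succ h) (lt_of_succ h)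
    rcases hc with ⟨-, h1⟩ | ⟨rfl, k, l, hC⟩
    · exact ih h1
    · obtain ⟨e1, e2, e3, -⟩ := cr_info (inv s) hC
      refine ⟨k, l, ?_, e1, e2, e3⟩
      rw [show s + 2 - 2 = s by omega]
      exact hC

theorem md_ge {s t x : ℕ} (hst : s ≤ t) (h : md U φ s x ≠ 0) : md U φ t x ≠ 0 := by
  induction t, hst using Nat.le_induction with
  | base => exact h
  | succ t ht ih => exact md_persist (inv t) ih

theorem dead_ge {s t x : ℕ} (hst : s ≤ t) (h : md U φ s x = 6) : md U φ t x = 6 := by
  induction t, hst using Nat.le_induction with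
  | base => exact h
  | succ t ht ih => exact dead_stays (inv t) ih

/-- Parents of alive nodes are alive. -/
theorem Alive.parent {s x : ℕ} (h : Alive U φ s x) (h1 : pa U φ x ≠ 1) :
    Alive U φ s (pa U φ x) :=
  ⟨((inv s).str x h.1).2.2.2.2.2.2.1 h1, ((inv s).alv x h.1 h.2).2⟩

/-- Children of the locations of a path, leading to a node `x`. -/
theorem anc_child {c j x : ℕ} {l : Loc} (hl : loc U φ c j = some l) (hp : pa U φ x = l.1)
    (ho : pl U φ x = l.2.1) {t0 : ℕ} (ht0 : Alive U φ t0 x) : ∀ d m, m + d = j → ∀ l',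
      loc U φ c m = some l' → ∃ w ≤ x, pa U φ w = l'.1 ∧ pl U φ w = l'.2.1 ∧
        ∀ t, Alive U φ t x → Alive U φ t w := by
  intro d
  induction d with
  | zero =>
    intro m hm l' hl'
    have : m = j := by omega
    subst this
    rw [hl] at hl'
    have := Option.some.inj hl'
    subst this
    exact ⟨x, le_rfl, hp, ho, fun t ht => ht⟩
  | succ d ih =>
    intro m hm l' hl'
    -- the next location
    have hex : ∃ l1, loc U φ c (m + 1) = some l1 := by
      by_contra hcon
      push Not at hcon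
      have hnone : ∀ q, m + 1 ≤ q → loc U φ c q = none := by
        intro q hq
        induction q, hq using Nat.le_induction with
        | base =>
          rcases h : loc U φ c (m + 1) with _ | l1
          · rfl
          · exact absurd h (hcon l1)
        | succ q hq ihq =>
          unfold loc at ihq ⊢
          simp [locm, ihq]
      rw [hnone j (by omega)] at hl
      exact absurd hl (by simp)
    obtain ⟨l1, hl1⟩ := hex
    obtain ⟨w1, hw1, e1, e2, e3⟩ := ih (m + 1) (by omega) l1 hl1
    obtain ⟨l0, hl0, hn0, f1, f2, f3, f4⟩ := loc_parent hl1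
    rw [hl'] at hl0
    have := Option.some.inj hl0
    subst this
    have h2 : 2 ≤ l1.1 := f4.two_le
    have hw0 := e3 t0 ht0
    have hlt := ((inv t0).str w1 hw0.1).2.1
    refine ⟨l1.1, by omega, f2, f3, ?_⟩
    intro t ht
    have := (e3 t ht).parent (by rw [e1]; omega)
    rwa [e1] at this

section

variable {k p o y N κ z N2 : ℕ} (L : Ln U φ k p o y N κ z N2)

include L

theorem Ln.y_alive {s : ℕ} (hs : y < s + 2) : Alive U φ s y :=
  alive_mono (le_max_left s N) hs (L.tb.tn.stab _ (le_max_right _ _)).2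

theorem Ln.z_alive {s : ℕ} (hs : z < s + 2) : Alive U φ s z :=
  alive_mono (le_max_left s N2) hs (L.tz.stab _ (le_max_right _ _)).2

theorem Ln.ch_z {s : ℕ} (hs : z < s + 2) : ch U φ s y κ = z := by
  have ha := L.z_alive hs
  have := ((inv s).alv z ha.1 ha.2).1
  rwa [L.tz.hpa, L.tz.hpl] at this

theorem Ln.y_lt_z : y < z := by
  have ha := L.z_alive (s := z) (by omega)
  have := ((inv z).str z ha.1).2.1
  rwa [L.tz.hpa] at this

theorem Ln.y_two : 2 ≤ y := L.tb.tn.two_le

/-- A location `(y, κ)` only occurs at a choice of kind `κ`. -/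
theorem Ln.loc_ks {s j : ℕ} {l : Loc} (hl : loc U φ s j = some l) (h1 : l.1 = y)
    (h2 : l.2.1 = κ) (hjs : j ≤ s) : KS U φ k y κ s ∧ j = k + 1 := by
  cases j with
  | zero =>
    exfalso
    have h3 : l = (1, 4, 1, s % 2) := by
      unfold loc locm at hl
      exact (Option.some.inj hl).symm
    rw [h3] at h1
    simp only at h1
    have := L.y_two
    omega
  | succ j =>
    obtain ⟨l0, hl0, hn0, e0, p1, p2, ha⟩ := loc_parent hl
    have e0' : rd (st U φ s) (kCh l0.1 l0.2.1) = y := e0.trans h1
    rcases (nxt_eq_some U φ).1 hn0 with ⟨g1, g2⟩ | ⟨g1, g2, g3⟩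
    · exfalso
      rw [g2] at h2
      simp only at h2
      have := L.hκ
      omega
    · have hE : Ev U φ 3 s j y l0 := ⟨by omega, hl0, e0', g1⟩
      have hj : j = k := by
        obtain ⟨s', -, r, hl'⟩ := L.tb.tn.good.often 0 (by omega) 0
        apply depth_eq hl0 hl'
        simp only
        rw [← p1, h1]
        exact L.tb.tn.hpa
      subst hj
      refine ⟨⟨⟨l0, hE⟩, ?_⟩, rfl⟩
      rw [e0'] at g3
      rw [g3] at h2
      exact h2

/-- At a choice of kind `κ` the location `(y, κ)` is on the path. -/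
theorem Ln.ks_loc {s : ℕ} (h : KS U φ k y κ s) :
    loc U φ s (k + 1) = some (y, κ, y, lab U φ s y) := by
  obtain ⟨⟨l, hE⟩, hc⟩ := h
  have h1 : rd (st U φ s) (kCh l.1 l.2.1) = y := hE.2.2.1
  have := locm_succ (U := U) (φ := φ) hE.2.1
  unfold loc
  rw [this, nxt_eq_some]
  right
  rw [h1]
  have hc' : chosen U (k / 2) s (st U φ s) y = κ := hc
  rw [hc']
  exact ⟨hE.2.2.2, L.hκ, rfl⟩

/-- The node `z` is created at a choice of kind `κ`. -/
theorem Ln.ks_z : KS U φ k y κ (z - 2) := by
  obtain ⟨j, l, hC, e1, e2, -⟩ := created (L.z_alive (s := z) (by omega)).1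
  rw [L.tz.hpa] at e1
  rw [L.tz.hpl] at e2
  exact (L.loc_ks hC.2.1 e1.symm e2.symm hC.1.le).1

/-- Later choices do not kill `z`. -/
theorem Ln.le_chs {s : ℕ} (hs : z < s + 2) {j : ℕ} {l : Loc} (hE : Ev U φ 3 s j y l)
    (hc : chs U φ s j y < 4) : κ ≤ chs U φ s j y := by
  by_contra hcon
  push Not at hcon
  have := killed_of_choice hE hc (by have := L.y_two; omega) (L.z_alive hs).1 L.tz.hpa
    (by rw [L.tz.hpl]; exact hcon)
  exact (L.z_alive (s := s + 1) (by omega)).2 this

end

/-- Descendants of `z`. -/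
inductive Desc (U : ℕ → ℕ → ℕ → Bool → Bool) (φ : ℕ → ℕ → ℕ → ℕ) (z : ℕ) : ℕ → Prop
  | base : Desc U φ z z
  | step {x : ℕ} : Desc U φ z (pa U φ x) → md U φ (x - 1) x ≠ 0 → Desc U φ z x

theorem md_first {s x : ℕ} (h : md U φ s x ≠ 0) : md U φ (x - 1) x ≠ 0 := by
  induction s with
  | zero =>
    have := (inv (U := U) (φ := φ) 0).rng x h
    omega
  | succ s ih =>
    obtain ⟨-, -, -, -, -, -, -, -, -, hc⟩ :=
      str_next (inv s) (md1_ne_zero_of_succ h) (lt_of_succ h)
    rcases hc with ⟨-, h1⟩ | ⟨rfl, k, l, hC⟩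
    · exact ih h1
    · exact h

section

variable {k p o y N κ z N2 : ℕ} (L : Ln U φ k p o y N κ z N2)

include L

theorem Ln.desc_md {x : ℕ} (h : Desc U φ z x) : md U φ (x - 1) x ≠ 0 := by
  cases h with
  | base =>
    have := L.y_lt_z
    exact (L.z_alive (s := z - 1) (by omega)).1
  | step _ h => exact h

omit L in
theorem desc_ge {x : ℕ} (h : Desc U φ z x) : z ≤ x := by
  induction h with
  | base => exact le_rfl
  | @step x h1 h2 ih =>
    have := ((inv (U := U) (φ := φ) (x - 1)).str x h2).2.1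
    omega

/-- A location inside the zone only occurs at a choice of kind `κ`. -/
theorem Ln.desc_loc {w : ℕ} (h : Desc U φ z w) : ∀ {s j : ℕ} {l : Loc},
    loc U φ s j = some l → l.1 = w → j ≤ s → KS U φ k y κ s := by
  induction h with
  | base =>
    intro s j l hl h1 hjs
    cases j with
    | zero =>
      exfalso
      have h3 : l = (1, 4, 1, s % 2) := by
        unfold loc locm at hl
        exact (Option.some.inj hl).symm
      rw [h3] at h1
      simp only at h1
      have := L.y_lt_z
      have := L.y_two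
      omega
    | succ j =>
      obtain ⟨l0, hl0, -, -, p1, p2, -⟩ := loc_parent hl
      rw [h1, L.tz.hpa] at p1
      rw [h1, L.tz.hpl] at p2
      exact (L.loc_ks hl0 p1.symm p2.symm (by omega)).1
  | @step x hx hx2 ih =>
    intro s j l hl h1 hjs
    cases j with
    | zero =>
      exfalso
      have h3 : l = (1, 4, 1, s % 2) := by
        unfold loc locm at hl
        exact (Option.some.inj hl).symm
      rw [h3] at h1
      simp only at h1
      have h5 := desc_ge hx
      have h4 := ((inv (U := U) (φ := φ) (x - 1)).str x hx2).2.1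
      have h6 := L.y_lt_z
      omega
    | succ j =>
      obtain ⟨l0, hl0, -, -, p1, p2, -⟩ := loc_parent hl
      rw [h1] at p1
      exact ih hl0 p1.symm (by omega)

/-- Descendants are created at choices of kind `κ`. -/
theorem Ln.desc_ks {x : ℕ} (h : Desc U φ z x) : KS U φ k y κ (x - 2) := by
  cases h with
  | base => exact L.ks_z
  | step h1 h2 =>
    obtain ⟨j, l, hC, e1, -, -⟩ := created h2
    exact L.desc_loc h1 hC.2.1 e1.symm hC.1.le

/-- Descendants are visited only at choices of kind `κ`. -/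
theorem Ln.desc_ev {x : ℕ} (h : Desc U φ z x) {c s j : ℕ} {l : Loc} (hE : Ev U φ c s j x l)
    (h0 : md U φ s x ≠ 0) : KS U φ k y κ s := by
  have hv := vis_str (inv s) hE.2.1 (by rw [hE.2.2.1]; exact h0)
  rw [hE.2.2.1] at hv
  cases h with
  | base =>
    rw [L.tz.hpa, L.tz.hpl] at hv
    exact (L.loc_ks hE.2.1 hv.2.1.symm hv.2.2.symm hE.1.le).1
  | step h1 h2 => exact L.desc_loc h1 hE.2.1 hv.2.1.symm hE.1.le

/-- Everything created at a choice of kind `κ` after `z` is a descendant of `z`. -/
theorem Ln.ks_desc {x : ℕ} (hzx : z ≤ x) (h0 : md U φ (x - 1) x ≠ 0)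
    (hK : KS U φ k y κ (x - 2)) : Desc U φ z x := by
  rcases Nat.eq_or_lt_of_le hzx with rfl | hlt
  · exact Desc.base
  have hyz := L.y_lt_z
  have hy2 := L.y_two
  obtain ⟨j, l, hC, e1, e2, -⟩ := created h0
  have hl1 := L.ks_loc hK
  have hz := L.ch_z (s := x - 2) (by omega)
  have hza := L.z_alive (s := x - 2) (by omega)
  -- the creation is deeper
  have hj : k + 2 ≤ j := by
    by_contra hcon
    rcases Nat.lt_or_ge j (k + 1) with h | h
    · have := locm_stop (U := U) (φ := φ) hC.2.1 (by rw [hC.2.2]; omega)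
        (by rw [hC.2.2]; omega) h
      unfold loc at hl1
      rw [this] at hl1
      exact absurd hl1 (by simp)
    · have hjk : j = k + 1 := by omega
      subst hjk
      have hC2 := hC.2.1
      rw [hl1] at hC2
      have hl : l = (y, κ, y, lab U φ (x - 2) y) := (Option.some.inj hC2).symm
      have h1 := (act_eq_one U φ).1 hC.2.2
      rw [hl] at h1
      have h2 : rd (st U φ (x - 2)) (kCh y κ) = z := hz
      simp only [h2] at h1
      rcases h1 with h1 | h1
      · exact hza.1 h1
      · exact hza.2 h1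
  -- all deeper locations are descendants
  have key : ∀ d l', loc U φ (x - 2) (k + 2 + d) = some l' → Desc U φ z l'.1 := by
    intro d
    induction d with
    | zero =>
      intro l' hl'
      obtain ⟨l0, hl0, -, e0, -, -, -⟩ := loc_parent hl'
      rw [hl1] at hl0
      have hl : l0 = (y, κ, y, lab U φ (x - 2) y) := (Option.some.inj hl0).symm
      rw [hl] at e0
      simp only at e0
      rw [hz] at e0
      rw [← e0]
      exact Desc.base
    | succ d ih =>
      intro l' hl'
      obtain ⟨l0, hl0, -, -, e1, -, ha⟩ := loc_parent (k := k + 2 + d) hl'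
      have := ih l0 hl0
      rw [← e1] at this
      exact Desc.step this (md_first ha.1)
  refine Desc.step ?_ h0
  rw [e1]
  apply key (j - (k + 2)) l
  rw [show k + 2 + (j - (k + 2)) = j by omega]
  exact hC.2.1

/-- Roots of descendants. -/
theorem Ln.desc_rt {x : ℕ} (h : Desc U φ z x) : rt U φ x = y ∨ Desc U φ z (rt U φ x) := by
  have hκ := L.hκ
  induction h with
  | base =>
    left
    have ha := L.z_alive (s := z) (by omega)
    have := ((inv z).str z ha.1).2.2.2.2.2.2.2
    rw [this, L.tz.hpl, if_neg (by omega), L.tz.hpa]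
  | @step x h1 h2 ih =>
    have := ((inv (U := U) (φ := φ) (x - 1)).str x h2).2.2.2.2.2.2.2
    rw [this]
    split_ifs with h4
    · exact ih
    · exact Or.inr h1

end

end Pool.Agent.H91.CD.Dyn
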