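import Mathlib
import Pool.Agent.H91.CD.LineA

set_option autoImplicit false

/-!
Lines: everything outside the zone dies; modes inside the zone.
-/

namespace Pool.Agent.H91.CD.Dyn

variable {U : ℕ → ℕ → ℕ → Bool → Bool} {φ : ℕ → ℕ → ℕ → ℕ}

theorem loc_exists {s j m : ℕ} {l : Loc} (hl : loc U φ s j = some l) (hm : m ≤ j) :
    ∃ l', loc U φ s m = some l' := by
  by_contra hcon
  push Not at hcon
  have hnone : ∀ q, m ≤ q → loc U φ s q = none := by
    intro q hq
    induction q, hq using Nat.le_induction with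
    | base =>
      rcases h : loc U φ s m with _ | l1
      · rfl
      · exact absurd h (hcon l1)
    | succ q hq ihq =>
      unfold loc at ihq ⊢
      simp [locm, ihq]
  rw [hnone j hm] at hl
  exact absurd hl (by simp)

theorem Alive.ch_eq {s x : ℕ} (h : Alive U φ s x) : ch U φ s (pa U φ x) (pl U φ x) = x :=
  ((inv s).alv x h.1 h.2).1

section

variable {k p o y N κ z N2 : ℕ} (L : Ln U φ k p o y N κ z N2)

include L

theorem Ln.outside {s x : ℕ} (hK : KS U φ k y κ s) (hzx : z ≤ x) (hxs : x < s + 2)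
    (hnd : ¬ Desc U φ z x) : ¬ Alive U φ (s + 1) x := by
  intro ha
  have hzx' : z < x := by
    rcases Nat.eq_or_lt_of_le hzx with h | h
    · exact absurd (by rw [← h]; exact Desc.base) hnd
    · exact h
  have ha0 : Alive U φ s x := alive_of_succ ha hxs
  have hyz := L.y_lt_z
  have hy2 := L.y_two
  obtain ⟨j, l, hC, e1, e2, -⟩ := created ha.1
  have hS := L.ks_loc hK
  have hks : k < s := by
    obtain ⟨⟨l0, hE⟩, -⟩ := hK
    exact hE.1
  have hzc : Alive U φ (x - 2) z := L.z_alive (by omega)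
  have hzc1 : Alive U φ (x - 2 + 1) z := L.z_alive (by omega)
  have hzs : Alive U φ s z := L.z_alive (by omega)
  have hancS := anc_child hS (x := z) L.tz.hpa L.tz.hpl hzs
  have hancC := anc_child hC.2.1 e1 e2 ha
  -- both paths agree
  have key : ∀ m, m ≤ j → m ≤ k + 1 → ∃ l1 l2, loc U φ (x - 2) m = some l1 ∧
      loc U φ s m = some l2 ∧ l1.1 = l2.1 ∧ l1.2.1 = l2.2.1 := by
    intro m
    induction m with
    | zero =>
      intro _ _
      exact ⟨(1, 4, 1, (x - 2) % 2), (1, 4, 1, s % 2), rfl, rfl, rfl, rfl⟩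
    | succ m ih =>
      intro hmj hmk
      obtain ⟨l1, l2, h1, h2, h3, h4⟩ := ih (by omega) (by omega)
      obtain ⟨l1', h1'⟩ := loc_exists hC.2.1 hmj
      obtain ⟨l2', h2'⟩ := loc_exists hS hmk
      obtain ⟨b1, c1, n1, d1, p1, q1, a1⟩ := loc_parent h1'
      obtain ⟨b2, c2, n2, d2, p2, q2, a2⟩ := loc_parent h2'
      rw [h1] at c1
      rw [h2] at c2
      have hb1 : l1 = b1 := Option.some.inj c1
      have hb2 : l2 = b2 := Option.some.inj c2
      subst hb1
      subst hb2
      -- the same node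
      obtain ⟨w, hwz, f1, f2, f3⟩ := hancS (k + 1 - m) m (by omega) l2 h2
      have hws : w = l2'.1 := by
        have := (f3 s hzs).ch_eq
        rw [f1, f2] at this
        rw [← d2, this]
      have hwc : w = l1'.1 := by
        have := (f3 _ hzc).ch_eq
        rw [f1, f2, ← h3, ← h4] at this
        rw [← d1, this]
      obtain ⟨w1, -, g1, g2, g3⟩ := hancC (j - (m + 1)) (m + 1) (by omega) l1' h1'
      obtain ⟨w2, -, r1, r2, r3⟩ := hancS (k + 1 - (m + 1)) (m + 1) (by omega) l2' h2'
      refine ⟨l1', l2', h1', h2', by rw [← hws, ← hwc], ?_⟩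
      have hw0 : w ≠ 0 := by
        have := (f3 s hzs).two_le
        omega
      have hcm : rd (st U φ (x - 2)) (kCh l1.1 l1.2.1) = w := by rw [hwc]; exact d1
      have hsm : rd (st U φ s) (kCh l2.1 l2.2.1) = w := by rw [hws]; exact d2
      by_contra hne
      rcases Nat.lt_or_ge l2'.2.1 l1'.2.1 with hlt | hge
      · -- killed at stage s
        have hle4 := (locm_bd (pinc (x - 2)) h1').2.2
        rcases (nxt_eq_some U φ).1 n2 with ⟨t1, t2⟩ | ⟨t1, t2, t3⟩
        · rw [t2] at hlt
          simp only at hlt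
          omega
        · rw [hsm] at t2 t3
          have hE : Ev U φ 3 s m w l2 := ⟨by omega, h2, hsm, t1⟩
          have hcs : chs U φ s m w = l2'.2.1 := by rw [t3]
          have hk := killed_of_choice (x := w1) hE t2 hw0 (g3 s ha0).1 (by rw [g1, hwc])
            (by rw [g2, hcs]; exact hlt)
          exact (g3 (s + 1) ha).2 hk
      · have hlt : l1'.2.1 < l2'.2.1 := lt_of_le_of_ne hge hne
        have hle4 := (locm_bd (pinc s) h2').2.2
        rcases (nxt_eq_some U φ).1 n1 with ⟨t1, t2⟩ | ⟨t1, t2, t3⟩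
        · rw [t2] at hlt
          simp only at hlt
          omega
        · rw [hcm] at t2 t3
          have hE : Ev U φ 3 (x - 2) m w l1 := ⟨by have := hC.1; omega, h1, hcm, t1⟩
          have hcs : chs U φ (x - 2) m w = l1'.2.1 := by rw [t3]
          have hk := killed_of_choice (x := w2) hE t2 hw0 (r3 _ hzc).1 (by rw [r1, hws])
            (by rw [r2, hcs]; exact hlt)
          exact (r3 _ hzc1).2 hk
  rcases Nat.lt_or_ge j (k + 1) with hjk | hjk
  · obtain ⟨l1, l2, h1, h2, h3, h4⟩ := key j le_rfl hjk.le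
    rw [hC.2.1] at h1
    have hl1 : l = l1 := Option.some.inj h1
    subst hl1
    obtain ⟨w, hwz, f1, f2, f3⟩ := hancS (k + 1 - j) j (by omega) l2 h2
    have g1 := (f3 s hzs).ch_eq
    have g2 := ha0.ch_eq
    rw [f1, f2] at g1
    rw [e1, e2, h3, h4, g1] at g2
    omega
  · obtain ⟨l1, l2, h1, h2, h3, h4⟩ := key (k + 1) hjk le_rfl
    rw [hS] at h2
    have hl2 : (y, κ, y, lab U φ s y) = l2 := Option.some.inj h2
    subst hl2
    have hKc := (L.loc_ks h1 h3 h4 (by have := hC.1; omega)).1
    exact hnd (L.ks_desc hzx (md_first ha.1) hKc)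

end

end Pool.Agent.H91.CD.Dyn
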