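import Mathlib
import Pool.Agent.H91.CD.LineB

set_option autoImplicit false

/-!
Lines: marks, one-sidedness, and the line invariant.
-/

namespace Pool.Agent.H91.CD.Dyn

variable {U : ℕ → ℕ → ℕ → Bool → Bool} {φ : ℕ → ℕ → ℕ → ℕ}

/-! ### Marks -/

theorem mark_nH {t x : ℕ} (h : md U φ t x = 2 ∨ md U φ t x = 3) :
    mark U φ t x = nH U φ t x := by
  induction t with
  | zero =>
    have := (inv (U := U) (φ := φ) 0).rng x (by omega)
    omega
  | succ t ih =>
    have ha : Alive U φ (t + 1) x := ⟨by omega, by omega⟩
    have hx2 := ha.two_le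
    rcases Nat.lt_or_ge x (t + 2) with hlt | hge
    · have ha0 := alive_of_succ ha hlt
      rcases mode_step ha0 ha with g | g | g | g
      · obtain ⟨j, l, hE⟩ := g.2.2
        have := tr_hold (by omega) hE
        rw [this.2.2.1, this.2.2.2.1]
      · omega
      · omega
      · have := tr_idle (by omega) hlt g.2
        rw [this.2.2.1, this.2.2.2.1]
        apply ih
        omega
    · exfalso
      have hx : x = t + 2 := by have := ha.lt; omega
      subst hx
      have := (md_new (inv t) ha.1).1
      omega

theorem ev3_md {s j y : ℕ} {l : Loc} (hE : Ev U φ 3 s j y l) : md U φ s y = 3 := by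
  have h1 := ((act_eq_three U φ).1 hE.2.2.2).1
  have h3 : rd (st U φ s) (kCh l.1 l.2.1) = y := hE.2.2.1
  rw [h3] at h1
  exact h1

theorem ev3_next {s j y : ℕ} {l : Loc} (hy : y ≠ 0) (hE : Ev U φ 3 s j y l) :
    mark U φ (s + 1) y = s ∧ nH U φ (s + 1) y = nH U φ s y ∧ lab U φ (s + 1) y = lab U φ s y := by
  by_cases hc : chs U φ s j y < 4
  · have := tr_choose hy hE hc
    exact ⟨this.2.2.2.1, this.2.2.1, this.2.1⟩
  · have := tr_none hy hE hc
    exact ⟨this.2.2.2.1, this.2.2.1, this.2.1⟩

theorem live_lt {s n : ℕ} (h : live U φ s n) : n < s := by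
  rcases h.2 with ⟨g1, g2, g3⟩ | ⟨g1, g2, g3⟩
  · have := ((inv s).idJ _ g2).1
    omega
  · have := ((inv s).idH _ g2).1
    omega

/-- A later choice has a hold element of a later stage. -/
theorem nH_gt {n s j j' y : ℕ} {l l' : Loc} (hns : n < s) (hE : Ev U φ 3 n j y l)
    (hE' : Ev U φ 3 s j' y l') (hal : ∀ t, n ≤ t → t ≤ s → Alive U φ t y) :
    n < nH U φ s y := by
  by_contra hcon
  push Not at hcon
  have hy0 : y ≠ 0 := by have := (hal n le_rfl hns.le).two_le; omega
  have hmd := ev3_md hE'
  have hheld : held (md U φ s y) := by rw [hmd]; unfold held; omega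
  obtain ⟨i1, i2, i3⟩ := (inv s).idH y hheld
  have hlive := live_nH hheld
  have hl : ∀ t, n < t → t ≤ s → held (md U φ t y) := by
    intro t h1 h2
    have := live_anti (s := t) (by omega) h2 hlive
    rcases this.2 with g | g
    · exact absurd i2 g.1
    · rw [i3] at g; exact g.2.1
  have key : ∀ t, n + 1 ≤ t → t ≤ s → md U φ t y = 4 ∨ md U φ t y = 5 := by
    intro t ht
    induction t, ht using Nat.le_induction with
    | base =>
      intro _
      left
      rcases mode_step (hal n le_rfl (by omega)) (hal (n + 1) (by omega) (by omega)) with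
        g | g | g | g
      · obtain ⟨_, _, h⟩ := g.2.2
        have := (ev_unique hy0 hE h).2.2
        omega
      · exact g.2.1
      · obtain ⟨_, _, h⟩ := g.2.2
        have := (ev_unique hy0 hE h).2.2
        omega
      · exact absurd hE (g.2 _ _).2.1
    | succ t ht ih =>
      intro hle
      have ih' := ih (by omega)
      have hh := hl (t + 1) (by omega) hle
      unfold held at hh
      rcases mode_step (hal t (by omega) (by omega)) (hal (t + 1) (by omega) (by omega)) with
        g | g | g | g
      · omega
      · omega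
      · omega
      · omega
  have := key s (by omega) le_rfl
  omega

/-- After a choice, while the mode is four, nothing changes. -/
theorem after_choice {s t j y : ℕ} {l : Loc} (hE : Ev U φ 3 s j y l) (hst : s < t)
    (h4 : ∀ t', s < t' → t' ≤ t → md U φ t' y = 4) :
    mark U φ t y = s ∧ nH U φ t y = nH U φ s y ∧ lab U φ t y = lab U φ s y := by
  have hmd := h4 t hst le_rfl
  have hy0 : y ≠ 0 := by
    have := ((inv (U := U) (φ := φ) t).rng y (by omega)).1
    omega
  have hy : y < s + 2 := ((inv s).rng y (by rw [ev3_md hE]; omega)).2.1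
  induction t, hst using Nat.le_induction with
  | base => exact ev3_next hy0 hE
  | succ t ht ih =>
    have ih' := ih (fun t' h1 h2 => h4 t' h1 (by omega)) (h4 t ht (by omega))
    have e1 := h4 t ht (by omega)
    have e2 := h4 (t + 1) (by omega) le_rfl
    have ha1 : Alive U φ t y := ⟨by omega, by omega⟩
    have ha2 : Alive U φ (t + 1) y := ⟨by omega, by omega⟩
    rcases mode_step ha1 ha2 with g | g | g | g
    · omega
    · omega
    · omega
    · have := tr_idle hy0 (by omega) g.2
      rw [this.2.1, this.2.2.1, this.2.2.2.1]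
      exact ih'

/-! ### One-sidedness -/

theorem one_stable (hmono : ∀ i s t n b, s ≤ t → U i s n b = true → U i t n b = true)
    {i s t n : ℕ} (hst : s ≤ t) (h1 : one U i s n = true) (h2 : one U i t n = true) :
    U i t n true = U i s n true := by
  unfold one at h1 h2
  have m1 := hmono i s t n true hst
  have m2 := hmono i s t n false hst
  revert h1 h2 m1 m2
  generalize U i s n true = a
  generalize U i s n false = b
  generalize U i t n true = c
  generalize U i t n false = d
  revert a b c d
  decide

theorem cu_live {i s mk n : ℕ} (h : cu U i s (st U φ s) mk) (hl : live U φ s n)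
    (hn : n ≤ mk) : one U i s n = true := by
  have ha := live_alive hl
  obtain ⟨c1, c2, -⟩ := h _ ha.lt
  rcases hl.2 with ⟨g1, g2, g3⟩ | ⟨g1, g2, g3⟩
  · have g3' : rd (st U φ s) (kNJ (vF U φ n)) = n := g3
    have := c1 g2 (by rw [g3']; exact hn)
    rw [g3'] at this
    exact this
  · have g3' : rd (st U φ s) (kNH (vF U φ n)) = n := g3
    have := c2 g2 (by rw [g3']; exact hn)
    rw [g3'] at this
    exact this

theorem cu_tri {i s mk x : ℕ} (h : cu U i s (st U φ s) mk) (hp : pend (md U φ s x))
    (h1 : nJ U φ s x ≤ mk) (h2 : nH U φ s x ≤ mk) (h3 : nH U φ s (rt U φ x) ≤ mk) :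
    U i s (nH U φ s x) true =
      xor (U i s (nH U φ s (rt U φ x)) true) (U i s (nJ U φ s x) true) := by
  have hx0 : md U φ s x ≠ 0 := by unfold pend at hp; omega
  have hx : x < s + 2 := ((inv s).rng x hx0).2.1
  have hr : rd (st U φ s) (kRoot x) = rt U φ x := root_eq hx
  have := (h x hx).2.2 hp h1 h2 (by rw [hr]; exact h3)
  rw [hr] at this
  exact this

theorem ev3_cu {s k y : ℕ} {l : Loc} (hE : Ev U φ 3 s k y l) :
    cu U (k / 2) s (st U φ s) (mark U φ s y) := by
  have h1 := ((act_eq_three U φ).1 hE.2.2.2).2.2
  have h3 : rd (st U φ s) (kCh l.1 l.2.1) = y := hE.2.2.1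
  rw [h3] at h1
  exact h1

theorem ev4_cu {s k y : ℕ} {l : Loc} (hE : Ev U φ 4 s k y l) :
    cu U (k / 2) s (st U φ s) (mark U φ s y) := by
  have h1 := ((act_eq_four U φ).1 hE.2.2.2).2.2.2
  have h3 : rd (st U φ s) (kCh l.1 l.2.1) = y := hE.2.2.1
  rw [h3] at h1
  exact h1

/-- The line equation for the element `n`. -/
def LI (U : ℕ → ℕ → ℕ → Bool → Bool) (φ : ℕ → ℕ → ℕ → ℕ) (i : ℕ) (T : Bool) (δ : ℕ → Bool)
    (s n : ℕ) : Prop :=
  xor (U i s n true) (T && lbl U φ n) = xor (δ (eF U φ n)) (δ (vF U φ n))

/-- The stable range of `y` starts right after its creation. -/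
theorem TB.base {k p o y N : ℕ} (T : TB U φ k p o y N) : TB U φ k p o y (y - 1) := by
  have hy2 := T.tn.two_le
  have hal : ∀ s, y < s + 2 → Alive U φ s y := fun s hs =>
    alive_mono (le_max_left s N) hs (T.tn.stab _ (le_max_right _ _)).2
  obtain ⟨j, l, hC, e1, e2, -⟩ := created (hal y (by omega)).1
  refine ⟨⟨T.tn.good, T.tn.hpa, T.tn.hpl, ?_, ?_⟩, T.inf⟩
  · obtain ⟨s', -, r, hl'⟩ := T.tn.good.often 0 (by omega) 0
    have := depth_eq hC.2.1 hl' (by simp only; rw [← e1, T.tn.hpa])
    have := hC.1
    omega
  · intro s hs
    have ha := hal s (by omega)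
    have := ha.ch_eq
    rw [T.tn.hpa, T.tn.hpl] at this
    exact ⟨this, ha⟩

section

variable {k p o y N κ z N2 : ℕ} (L : Ln U φ k p o y N κ z N2)

include L

/-- Elements of the zone are created at choices of kind `κ`. -/
theorem Ln.elem_ks {n : ℕ} (h0 : vF U φ n ≠ 0) (h : Desc U φ z (vF U φ n)) :
    KS U φ k y κ n := by
  rcases log_event h0 with ⟨j, l, hC, e1, e2⟩ | ⟨j, l, hE, e2⟩ | ⟨j, l, hE, e2⟩
  · have := L.desc_ks h
    rw [e1] at this
    rwa [show n + 2 - 2 = n by omega] at this
  · exact L.desc_ev h hE (by rw [(ev_md hE).1 rfl]; omega)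
  · exact L.desc_ev h hE (by rw [(ev_md hE).2.2 rfl]; omega)

/-- No pending node of the zone is resolved while `y` has mode four. -/
theorem Ln.no_resolve {t : ℕ} (h4 : md U φ (t + 1) y = 4) : ∀ x, Desc U φ z x →
    Alive U φ (t + 1) x → md U φ (t + 1) x = md1 U φ t x := by
  intro x
  induction x using Nat.strong_induction_on with
  | _ x ih =>
    intro hD ha
    have h1 := md1_ne_zero_of_succ ha.1
    have hrt := (str_next (inv t) h1 (lt_of_succ ha.1)).2.2.2.2.1
    have hres : ¬ Res U φ t x := by
      rintro (h | ⟨h, h'⟩)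
      · rcases L.desc_rt hD with g | g
        · have := L.y_two; omega
        · have g1 := desc_ge g
          have := L.y_lt_z
          have := L.y_two
          omega
      · rcases L.desc_rt hD with g | g
        · rw [g, h4] at h'; omega
        · have := ih _ hrt g ⟨by omega, by omega⟩
          rw [← this] at h
          unfold pend at h
          omega
    rcases md_next' (inv t) h1 (lt_of_succ ha.1) with g | ⟨g1, g2, g | g | g⟩
    · exact absurd g.2 ha.2
    · exact absurd g.2.1 hres
    · exact absurd g.2.1 hres
    · exact g.2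

/-- Modes of the zone between a choice of kind `κ` and the next join of `y`. -/
theorem Ln.mode_zone {s t : ℕ} (hst : s < t) (h4 : ∀ t', s < t' → t' ≤ t → md U φ t' y = 4)
    (hno : ∀ t', s < t' → t' < t → ¬ KS U φ k y κ t') {x : ℕ} (hx : x < s + 2)
    (hD : Desc U φ z x) (ha : Alive U φ t x) : md U φ t x = md1 U φ s x := by
  induction t, hst using Nat.le_induction with
  | base => exact L.no_resolve (h4 (s + 1) (by omega) le_rfl) x hD ha
  | succ t ht ih =>
    have ht' : s < t := ht
    have ha0 := alive_of_succ ha (by omega)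
    have ih' := ih (fun t' h1 h2 => h4 t' h1 (by omega)) (fun t' h1 h2 => hno t' h1 (by omega)) ha0
    rw [L.no_resolve (h4 (t + 1) (by omega) le_rfl) x hD ha, ← ih']
    rcases md1_spec ha0.1 with g | g | g | g
    · obtain ⟨j, l, hE⟩ := g.2.2
      exact absurd (L.desc_ev hD hE ha0.1) (hno t ht' (by omega))
    · obtain ⟨j, l, hE⟩ := g.2.2
      exact absurd (L.desc_ev hD hE ha0.1) (hno t ht' (by omega))
    · obtain ⟨j, l, hE⟩ := g.2.2
      exact absurd (L.desc_ev hD hE ha0.1) (hno t ht' (by omega))
    · exact g.1

/-- The answer of `y` at a choice of kind `κ`. -/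
theorem Ln.answer_y {s : ℕ} (hK : KS U φ k y κ s) (δ : ℕ → Bool) (h0 : δ 0 = false)
    (hy : δ y = decide (κ % 2 = 1)) :
    LI U φ (k / 2) (decide (2 ≤ κ)) δ s (nH U φ s y) := by
  obtain ⟨⟨l, hE⟩, hc⟩ := hK
  have hmd := ev3_md hE
  have hheld : held (md U φ s y) := by rw [hmd]; unfold held; omega
  obtain ⟨i1, i2, i3⟩ := (inv s).idH y hheld
  have hmd0 : md U φ s y ≠ 0 := by omega
  have hlab := ((inv s).bit y hmd0).1
  have hlbl := lbl_nH hheld
  unfold LI
  rw [i2, i3, h0, hy, hlbl]
  have hκ := L.hκ
  have hc' : chosen U (k / 2) s (st U φ s) y = κ := hc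
  have hl' : rd (st U φ s) (kLab y) = lab U φ s y := rfl
  have hn' : rd (st U φ s) (kNH y) = nH U φ s y := rfl
  rcases chosen_spec (U := U) (i := k / 2) (s := s) (m := st U φ s) (y := y) with g | g
  · obtain ⟨-, -, g⟩ := g
    rw [hc', hl', hn'] at g
    generalize U (k / 2) s (nH U φ s y) true = a at g ⊢
    generalize lab U φ s y = b at g hlab ⊢
    have hb : b = 0 ∨ b = 1 := by omega
    rcases g with g | g
    · subst g
      cases a <;> simp
    · subst g
      rcases hb with rfl | rfl <;> cases a <;> simp
  · omega

/-- The line invariant. -/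
theorem Ln.main (hmono : ∀ i s t n b, s ≤ t → U i s n b = true → U i t n b = true)
    (δ : ℕ → Bool) (hδ0 : δ 0 = false) (hδy : δ y = decide (κ % 2 = 1))
    (hδD : ∀ x, Desc U φ z x → ∀ s, KS U φ k y κ s → x ≤ s + 1 →
      (∀ t, x ≤ t + 1 → t < s → ¬ KS U φ k y κ t) →
      δ x = xor (U (k / 2) s (x - 2) true) (δ (rt U φ x))) :
    ∀ s, KS U φ k y κ s → z ≤ s + 1 → ∀ n, live U φ s n → Desc U φ z (vF U φ n) →
      one U (k / 2) s n = true ∧ LI U φ (k / 2) (decide (2 ≤ κ)) δ s n := by
  classical
  intro s
  induction s using Nat.strong_induction_on with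
  | _ s IH =>
    intro hK hz n hn hD
    have hyz := L.y_lt_z
    have hy2 := L.y_two
    have TB' := L.tb.base
    obtain ⟨l, hE⟩ := hK.1
    have hcu := ev3_cu hE
    have hmd3 := ev3_md hE
    have hmark := mark_nH (Or.inr hmd3)
    have hns := live_lt hn
    have hn0 := hn.1
    -- the previous choice of kind `κ`
    obtain ⟨s0, hs0, hK0, hno, hz0⟩ : ∃ s0 < s, KS U φ k y κ s0 ∧
        (∀ t, s0 < t → t < s → ¬ KS U φ k y κ t) ∧ z ≤ s0 + 2 := by
      have h1 : z - 2 ≤ s - 1 := by omega
      refine ⟨Nat.findGreatest (fun t => KS U φ k y κ t) (s - 1), ?_, ?_, ?_, ?_⟩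
      · have := Nat.findGreatest_le (P := fun t => KS U φ k y κ t) (s - 1)
        omega
      · exact Nat.findGreatest_spec (P := fun t => KS U φ k y κ t) h1 L.ks_z
      · intro t ht1 ht2
        exact Nat.findGreatest_is_greatest (P := fun t => KS U φ k y κ t) ht1 (by omega)
      · have := Nat.le_findGreatest (P := fun t => KS U φ k y κ t) h1 L.ks_z
        omega
    have hKn := L.elem_ks hn0 hD
    have hns0 : n ≤ s0 := by
      by_contra hcon
      exact hno n (by omega) hns hKn
    have hgt : s0 < nH U φ s y := by
      obtain ⟨l0, hE0⟩ := hK0.1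
      exact nH_gt hs0 hE0 hE (fun t h1 h2 => L.y_alive (by
        have := (ev_range (by omega) hE0).2.1; omega))
    have hone : one U (k / 2) s n = true := cu_live hcu hn (by rw [hmark]; omega)
    refine ⟨hone, ?_⟩
    have hvn := vF_lt hn0
    have hvz := desc_ge hD
    by_cases hnew : vF U φ n = s0 + 2
    · -- the coordinate is new
      have hn_eq : n = s0 := by omega
      subst hn_eq
      rcases log_event hn0 with ⟨j, l1, hC, e1, e2⟩ | ⟨j, l1, hE1, e2⟩ | ⟨j, l1, hE1, e2⟩
      · obtain ⟨q1, q2, q3, -, -, q4, -⟩ := cr_info (inv n) hC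
        have hl : lbl U φ n = false := by
          unfold lbl
          rw [if_neg (by omega)]
        have hd := hδD (n + 2) (by rw [← hnew]; exact hD) s hK (by omega) (by
          intro t h1 h2
          exact hno t (by omega) h2)
        unfold LI
        rw [hl, hnew, hd, e2, q3, show n + 2 - 2 = n by omega]
        generalize U (k / 2) s n true = a
        generalize δ l1.2.2.1 = b
        revert a b
        simp only [Bool.and_false, Bool.xor_false]
        decide
      · have := (ev_range (by omega) hE1).2.1
        omega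
      · have := (ev_range (by omega) hE1).2.1
        omega
    · -- the coordinate is old
      have hv2 : vF U φ n < s0 + 2 := by omega
      have hz0' : z ≤ s0 + 1 := by omega
      have IH0 := IH s0 hs0 hK0 hz0'
      obtain ⟨l0, hE0⟩ := hK0.1
      obtain ⟨s', hs', ⟨l', hE'⟩, -, hmin, t', ht1, ht2, ⟨l4, hE4⟩, h4, -⟩ :=
        TB'.next (s := s0) (by omega) ⟨l0, hE0⟩
      have hs's : s' ≤ s := by
        by_contra hcon
        exact hmin s hs0 (by omega) k l hE
      obtain ⟨a1, a2, a3⟩ := after_choice hE0 ht1 h4
      have hcu' := ev4_cu hE4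
      rw [a1] at hcu'
      have hno' : ∀ t, s0 < t → t < t' → ¬ KS U φ k y κ t := fun t h1 h2 => hno t h1 (by omega)
      -- transfer from `s0` to `t'`
      have htrans : ∀ m, m < s0 → live U φ t' m → Desc U φ z (vF U φ m) →
          LI U φ (k / 2) (decide (2 ≤ κ)) δ t' m := by
        intro m hm hlm hDm
        have h1 := live_anti hm (by omega) hlm
        obtain ⟨b1, b2⟩ := IH0 m h1 hDm
        have b3 := cu_live hcu' hlm (by omega)
        unfold LI at b2 ⊢
        rw [one_stable hmono (by omega) b1 b3]
        exact b2
      have hlt' : live U φ t' n := live_anti (by omega) (by omega) hn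
      have hone' : one U (k / 2) t' n = true := cu_live hcu' hlt' hns0
      suffices h : LI U φ (k / 2) (decide (2 ≤ κ)) δ t' n by
        unfold LI at h ⊢
        rw [one_stable hmono (by omega) hone' hone]
        exact h
      rcases Nat.lt_or_eq_of_le hns0 with hlt | heq
      · exact htrans n hlt hlt' hD
      · -- the element was created at stage `s0`
        subst heq
        have hax : Alive U φ t' (vF U φ n) := live_alive hlt'
        have hmz := L.mode_zone ht1 h4 hno' hv2 hD hax
        have hpend : pend (md U φ t' (vF U φ n)) := by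
          rw [hmz]
          rcases log_event hn0 with ⟨j, l1, hC, e1, e2⟩ | ⟨j, l1, hE1, e2⟩ | ⟨j, l1, hE1, e2⟩
          · exact absurd e1 hnew
          · rw [(tr_hold hn0 hE1).1]; unfold pend; omega
          · rw [(tr_join hn0 hE1).1]; unfold pend; omega
        have hjoined : joined (md U φ t' (vF U φ n)) := by
          unfold pend at hpend; unfold joined; omega
        have hheld : held (md U φ t' (vF U φ n)) := by
          unfold pend at hpend; unfold held; omega
        obtain ⟨p1, p2, p3⟩ := (inv t').pnd _ hpend
        have hrheld : held (md U φ t' (rt U φ (vF U φ n))) := by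
          unfold held; omega
        have hrx : rt U φ (vF U φ n) < vF U φ n := ((inv t').str _ hax.1).2.2.2.1
        obtain ⟨J1, J2, J3⟩ := (inv t').idJ _ hjoined
        obtain ⟨H1, H2, H3⟩ := (inv t').idH _ hheld
        obtain ⟨R1, R2, R3⟩ := (inv t').idH _ hrheld
        have le_s0 : ∀ m, live U φ t' m → Desc U φ z (vF U φ m) → m ≤ n := by
          intro m hm hDm
          by_contra hcon
          exact hno m (by omega) (by have := live_lt hm; omega) (L.elem_ks hm.1 hDm)
        have hJle : nJ U φ t' (vF U φ n) ≤ n := le_s0 _ (live_nJ hjoined) (by rw [J3]; exact hD)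
        have hHle : nH U φ t' (vF U φ n) ≤ n := le_s0 _ (live_nH hheld) (by rw [H3]; exact hD)
        -- the root
        have hroot : nH U φ t' (rt U φ (vF U φ n)) < n ∧
            LI U φ (k / 2) (decide (2 ≤ κ)) δ t' (nH U φ t' (rt U φ (vF U φ n))) := by
          rcases L.desc_rt hD with g | g
          · have hmd30 := ev3_md hE0
            have hheld0 : held (md U φ n y) := by rw [hmd30]; unfold held; omega
            have hlive0 := live_nH hheld0
            have h1 : nH U φ n y < n := ((inv n).idH y hheld0).1
            have h2 : one U (k / 2) n (nH U φ n y) = true :=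
              cu_live (ev3_cu hE0) hlive0 (by rw [mark_nH (Or.inr hmd30)])
            have h3 : live U φ t' (nH U φ t' y) := by
              rw [g] at hrheld; exact live_nH hrheld
            have h4' : one U (k / 2) t' (nH U φ t' y) = true :=
              cu_live hcu' h3 (by rw [a2]; omega)
            rw [a2] at h4'
            rw [g, a2]
            refine ⟨h1, ?_⟩
            have h5 := L.answer_y hK0 δ hδ0 hδy
            unfold LI at h5 ⊢
            rw [one_stable hmono (by omega) h2 h4']
            exact h5
          · have hlr := live_nH hrheld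
            have h1 := le_s0 _ hlr (by rw [R3]; exact g)
            have h2 : nH U φ t' (rt U φ (vF U φ n)) ≠ n := by
              intro he
              rw [he] at R3
              omega
            have h3 : nH U φ t' (rt U φ (vF U φ n)) < n := by omega
            exact ⟨h3, htrans _ h3 hlr (by rw [R3]; exact g)⟩
        have htri := cu_tri hcu' hpend hJle hHle hroot.1.le
        have hlr := hroot.2
        have lr := lbl_nH hrheld
        have lh := lbl_nH hheld
        have lj := lbl_nJ hjoined
        rw [← p3] at lr
        -- the two elements of the coordinate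
        rcases hlt'.2 with ⟨g1, g2, g3⟩ | ⟨g1, g2, g3⟩
        · -- the join element is new
          have hne : nH U φ t' (vF U φ n) ≠ n := by
            intro he
            rw [he] at H2
            exact g1 H2
          have hlh := htrans _ (by omega) (live_nH hheld) (by rw [H3]; exact hD)
          unfold LI at hlh hlr ⊢
          rw [H2, H3, lh, hδ0] at hlh
          rw [R2, R3, lr, hδ0] at hlr
          rw [g3] at htri J2 lj
          rw [J2, lj]
          rw [htri] at hlh
          revert hlh hlr
          generalize U (k / 2) t' (nH U φ t' (rt U φ (vF U φ n))) true = a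
          generalize U (k / 2) t' n true = b
          generalize (decide (2 ≤ κ) && decide (lab U φ t' (vF U φ n) = 1)) = c
          generalize δ (vF U φ n) = d
          generalize δ (rt U φ (vF U φ n)) = e
          simp only [Bool.and_false]
          revert a b c d e
          decide
        · -- the hold element is new
          have hne : nJ U φ t' (vF U φ n) ≠ n := by
            intro he
            rw [he] at J2
            have := ((inv t').str _ hax.1).2.2.1
            omega
          have hlj := htrans _ (by omega) (live_nJ hjoined) (by rw [J3]; exact hD)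
          unfold LI at hlj hlr ⊢
          rw [J2, J3, lj] at hlj
          rw [R2, R3, lr, hδ0] at hlr
          rw [g3] at htri lh
          rw [g1, lh, hδ0, htri]
          revert hlj hlr
          generalize U (k / 2) t' (nH U φ t' (rt U φ (vF U φ n))) true = a
          generalize U (k / 2) t' (nJ U φ t' (vF U φ n)) true = b
          generalize (decide (2 ≤ κ) && decide (lab U φ t' (vF U φ n) = 1)) = c
          generalize δ (vF U φ n) = d
          generalize δ (rt U φ (vF U φ n)) = e
          simp only [Bool.and_false]
          revert a b c d e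
          decide

end

end Pool.Agent.H91.CD.Dyn
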