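import Mathlib
import Pool.Agent.H91.CD.LineC

set_option autoImplicit false

/-!
Lines: an enumeration of a conjugate set catches up, so lines exist.
-/

namespace Pool.Agent.H91.CD.Dyn

variable {U : ℕ → ℕ → ℕ → Bool → Bool} {φ : ℕ → ℕ → ℕ → ℕ}

/-- `U i` enumerates the image of the first set under `ζ`. -/
structure Enum (U : ℕ → ℕ → ℕ → Bool → Bool) (φ : ℕ → ℕ → ℕ → ℕ) (i : ℕ) (ζ : ℕ → Bool) :
    Prop where
  mono : ∀ i s t n b, s ≤ t → U i s n b = true → U i t n b = true
  zero : ζ 0 = false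
  spec : ∀ n b, vF U φ n ≠ 0 →
    ((∃ s, U i s n b = true) ↔ (b = xor (ζ (eF U φ n)) (ζ (vF U φ n)) ∨ ¬ perm U φ n))

section

variable {i : ℕ} {ζ : ℕ → Bool} (E : Enum U φ i ζ)

include E

/-- The answers on permanent elements. -/
theorem Enum.perm_ans {n : ℕ} (h : perm U φ n) : ∃ M, ∀ s ≥ M, one U i s n = true ∧
    U i s n true = xor (ζ (eF U φ n)) (ζ (vF U φ n)) := by
  have hs := fun b => E.spec n b h.1
  obtain ⟨M, hM⟩ := (hs (xor (ζ (eF U φ n)) (ζ (vF U φ n)))).2 (Or.inl rfl)
  refine ⟨M, fun s hs' => ?_⟩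
  have h1 := E.mono i M s n _ hs' hM
  have h2 : ¬ U i s n (!(xor (ζ (eF U φ n)) (ζ (vF U φ n)))) = true := by
    intro hc
    rcases (hs _).1 ⟨s, hc⟩ with g | g
    · revert g
      generalize xor (ζ (eF U φ n)) (ζ (vF U φ n)) = a
      revert a
      decide
    · exact g h
  unfold one
  revert h1 h2
  generalize xor (ζ (eF U φ n)) (ζ (vF U φ n)) = a
  cases a
  · simp only [Bool.not_false]
    generalize U i s n true = c
    generalize U i s n false = d
    revert c d
    decide
  · simp only [Bool.not_true]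
    generalize U i s n true = c
    generalize U i s n false = d
    revert c d
    decide

theorem Enum.live_ans (μ : ℕ) : ∃ M, ∀ s ≥ M, ∀ n ≤ μ, live U φ s n →
    one U i s n = true ∧ U i s n true = xor (ζ (eF U φ n)) (ζ (vF U φ n)) := by
  have h1 : ∀ n, ∃ M, ∀ s ≥ M, live U φ s n →
      one U i s n = true ∧ U i s n true = xor (ζ (eF U φ n)) (ζ (vF U φ n)) := by
    intro n
    by_cases hp : perm U φ n
    · obtain ⟨M, hM⟩ := E.perm_ans hp
      exact ⟨M, fun s hs _ => hM s hs⟩
    · by_cases h0 : vF U φ n = 0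
      · exact ⟨0, fun s _ hl => absurd h0 hl.1⟩
      · obtain ⟨s0, hs0, hl0⟩ := (not_perm h0).1 hp
        exact ⟨s0, fun s hs hl => absurd (live_anti hs0 hs hl) hl0⟩
  choose f hf using h1
  refine ⟨(Finset.range (μ + 1)).sup f, fun s hs n hn hl => hf n s ?_ hl⟩
  exact le_trans (Finset.le_sup (f := f) (Finset.mem_range.2 (by omega))) hs

theorem Enum.cu_ev (μ : ℕ) : ∃ M, ∀ s ≥ M, cu U i s (st U φ s) μ := by
  obtain ⟨M, hM⟩ := E.live_ans μ
  refine ⟨M, fun s hs x hx => ?_⟩
  have hr : rd (st U φ s) (kRoot x) = rt U φ x := root_eq hx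
  refine ⟨fun h1 h2 => (hM s hs _ h2 (live_nJ h1)).1,
    fun h1 h2 => (hM s hs _ h2 (live_nH h1)).1, fun h1 h2 h3 h4 => ?_⟩
  rw [hr] at h4 ⊢
  have hp : pend (md U φ s x) := h1
  have hj : joined (md U φ s x) := by unfold pend at hp; unfold joined; omega
  have hh : held (md U φ s x) := by unfold pend at hp; unfold held; omega
  obtain ⟨p1, p2, p3⟩ := (inv s).pnd _ hp
  have hrh : held (md U φ s (rt U φ x)) := by unfold held; omega
  have a1 := (hM s hs (nJ U φ s x) h2 (live_nJ hj)).2
  have a2 := (hM s hs (nH U φ s x) h3 (live_nH hh)).2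
  have a3 := (hM s hs (nH U φ s (rt U φ x)) h4 (live_nH hrh)).2
  obtain ⟨J1, J2, J3⟩ := (inv s).idJ _ hj
  obtain ⟨H1, H2, H3⟩ := (inv s).idH _ hh
  obtain ⟨R1, R2, R3⟩ := (inv s).idH _ hrh
  rw [J2, J3] at a1
  rw [H2, H3, E.zero] at a2
  rw [R2, R3, E.zero] at a3
  change U i s (nH U φ s x) true =
      xor (U i s (nH U φ s (rt U φ x)) true) (U i s (nJ U φ s x) true)
  rw [a1, a2, a3]
  generalize ζ x = a
  generalize ζ (rt U φ x) = b
  revert a b
  decide

theorem Enum.tb {p o y N : ℕ} (T : TN U φ (2 * i) p o y N) : TB U φ (2 * i) p o y N := by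
  refine ⟨T, ?_⟩
  by_contra hcon
  push Not at hcon
  obtain ⟨M0, hM0⟩ := hcon
  obtain ⟨M, hMN, hM, hmode, hconst⟩ := T.mode_const ⟨M0, fun s hs j l => hM0 s hs j l⟩
  have hy2 := T.two_le
  have hfix : ∀ s ≥ M, lab U φ s y = lab U φ M y ∧ mark U φ s y = mark U φ M y := by
    intro s hs
    induction s, hs using Nat.le_induction with
    | base => exact ⟨rfl, rfl⟩
    | succ s hs ih =>
      have := tr_idle (by omega) (T.stab s (by omega)).2.lt (hM s (by omega))
      rw [this.2.1, this.2.2.2.1]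
      exact ih
  have hlab : lab U φ M y ≤ 1 := ((inv M).bit y (T.stab M hMN).2.1).1
  have hev : 2 * i % 2 = 0 := by omega
  have hdiv : 2 * i / 2 = i := by omega
  obtain ⟨M1, hM1⟩ := E.cu_ev (mark U φ M y)
  rcases hmode with h | h | h
  · -- mode one
    obtain ⟨s, hs, r, hl⟩ := T.good.often (1 - lab U φ M y) (by omega) M
    obtain ⟨-, v2, -⟩ := T.visit (by omega) hl
    have hact : act U φ s (st U φ s) (2 * i) (p, o, r, 1 - lab U φ M y) = 2 := by
      rw [act_eq_two]
      have h3' : rd (st U φ s) (kCh p o) = y := (T.stab s (by omega)).1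
      simp only [h3']
      refine ⟨?_, Or.inl ⟨hev, ?_⟩⟩
      · have := hconst s hs
        rw [h] at this
        exact this
      · have h5 := (hfix s hs).1
        have h6 : rd (st U φ s) (kLab y) = lab U φ M y := h5
        rw [h6]
        omega
    rw [hact] at v2
    exact (hM s hs _ _).1 v2
  · -- mode three
    obtain ⟨s, hs, r, hl⟩ := T.good.often 0 (by omega) (max M M1)
    have hsM : M ≤ s := le_trans (le_max_left _ _) hs
    have hsM1 : M1 ≤ s := le_trans (le_max_right _ _) hs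
    obtain ⟨-, v2, -⟩ := T.visit (by omega) hl
    have hact : act U φ s (st U φ s) (2 * i) (p, o, r, 0) = 3 := by
      rw [act_eq_three]
      have h3' : rd (st U φ s) (kCh p o) = y := (T.stab s (by omega)).1
      simp only [h3']
      refine ⟨?_, hev, ?_⟩
      · have := hconst s hsM
        rw [h] at this
        exact this
      · have h6 : rd (st U φ s) (kMark y) = mark U φ M y := (hfix s hsM).2
        rw [h6, hdiv]
        exact hM1 s hsM1
    rw [hact] at v2
    exact (hM s hsM _ _).2.1 v2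
  · -- mode four
    obtain ⟨s, hs, r, hl⟩ := T.good.often (lab U φ M y) hlab (max M M1)
    have hsM : M ≤ s := le_trans (le_max_left _ _) hs
    have hsM1 : M1 ≤ s := le_trans (le_max_right _ _) hs
    obtain ⟨-, v2, -⟩ := T.visit (by omega) hl
    have hact : act U φ s (st U φ s) (2 * i) (p, o, r, lab U φ M y) = 4 := by
      rw [act_eq_four]
      have h3' : rd (st U φ s) (kCh p o) = y := (T.stab s (by omega)).1
      simp only [h3']
      refine ⟨?_, hev, ?_, ?_⟩
      · have := hconst s hsM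
        rw [h] at this
        exact this
      · exact (hfix s hsM).1.symm
      · have h6 : rd (st U φ s) (kMark y) = mark U φ M y := (hfix s hsM).2
        rw [h6, hdiv]
        exact hM1 s hsM1
    rw [hact] at v2
    exact (hM s hsM _ _).2.2 v2

/-- The line of level `2 i`. -/
theorem Enum.line : ∃ p o y N κ z N2, Ln U φ (2 * i) p o y N κ z N2 := by
  obtain ⟨p, o, y, N, T⟩ := true_node (U := U) (φ := φ) (2 * i)
  have TB' := E.tb T
  obtain ⟨κ, hκ, hboth, -, hG⟩ := TB'.kind
  obtain ⟨z, N2, T2⟩ := child_stable hG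
  refine ⟨p, o, y, N, κ, z, N2, TB', T2, hκ, fun M => ?_⟩
  obtain ⟨s, hs, h1, h2, -⟩ := hboth 0 (by omega) M
  exact ⟨s, hs, h1, h2⟩

end

/-! ### The component of `y` -/

/-- The component of `y` in the graph of permanent elements. -/
inductive Comp (U : ℕ → ℕ → ℕ → Bool → Bool) (φ : ℕ → ℕ → ℕ → ℕ) (y : ℕ) : ℕ → Prop
  | base : Comp U φ y y
  | step {n : ℕ} : perm U φ n → eF U φ n ≠ 0 → Comp U φ y (eF U φ n) → Comp U φ y (vF U φ n)

/-- Edges go up. -/
theorem eF_lt {n : ℕ} (h : vF U φ n ≠ 0) : eF U φ n < vF U φ n := by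
  have hl := live_init h
  rcases hl.2 with ⟨g1, g2, g3⟩ | ⟨g1, g2, g3⟩
  · obtain ⟨J1, J2, J3⟩ := (inv (n + 1)).idJ _ g2
    rw [g3] at J2
    rw [J2]
    exact ((inv (n + 1)).str _ (live_alive hl).1).2.2.2.1
  · rw [g1]; omega

/-- Permanent elements of one kind on a coordinate are unique, and their endpoints. -/
theorem perm_joined {n s : ℕ} (h : perm U φ n) (h0 : eF U φ n ≠ 0) (hs : n < s) :
    joined (md U φ s (vF U φ n)) ∧ nJ U φ s (vF U φ n) = n ∧ rt U φ (vF U φ n) = eF U φ n := by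
  have hl := h.2 s hs
  rcases hl.2 with ⟨g1, g2, g3⟩ | ⟨g1, g2, g3⟩
  · refine ⟨g2, g3, ?_⟩
    have := ((inv s).idJ _ g2).2.1
    rw [g3] at this
    exact this.symm
  · exact absurd g1 h0

theorem perm_held {n s : ℕ} (h : perm U φ n) (h0 : eF U φ n = 0) (hs : n < s) :
    held (md U φ s (vF U φ n)) ∧ nH U φ s (vF U φ n) = n := by
  have hl := h.2 s hs
  rcases hl.2 with ⟨g1, g2, g3⟩ | ⟨g1, g2, g3⟩
  · exact absurd h0 g1
  · exact ⟨g2, g3⟩

theorem Comp.ge {y x : ℕ} (h : Comp U φ y x) : y ≤ x := by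
  induction h with
  | base => exact le_rfl
  | step h1 h2 h3 ih =>
    have := eF_lt h1.1
    omega

section

variable {k p o y N : ℕ} (T : TB U φ k p o y N)

include T

/-- Nodes of the component are not finally in mode four or five. -/
theorem Comp.mode {x : ℕ} (h : Comp U φ y x) :
    ¬ ∃ M, ∀ s ≥ M, md U φ s x = 4 ∨ md U φ s x = 5 := by
  induction h with
  | base =>
    rintro ⟨M, hM⟩
    obtain ⟨s, hs, j, l, hE⟩ := T.inf M
    have := hM s hs
    rw [ev3_md hE] at this
    omega
  | @step n h1 h2 h3 ih =>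
    rintro ⟨M, hM⟩
    apply ih
    refine ⟨max M (n + 1), fun s hs => ?_⟩
    have hsM : M ≤ s := le_trans (le_max_left _ _) hs
    have hsn : n + 1 ≤ s := le_trans (le_max_right _ _) hs
    obtain ⟨g1, g2, g3⟩ := perm_joined h1 h2 (s := s) (by omega)
    have h4 := hM s hsM
    have hp : pend (md U φ s (vF U φ n)) := by
      unfold joined at g1; unfold pend; omega
    obtain ⟨p1, p2, p3⟩ := (inv s).pnd _ hp
    rwa [g3] at p2

/-- The node `y` itself has no permanent element. -/
theorem TB.no_perm {n : ℕ} (h : perm U φ n) : vF U φ n ≠ y := by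
  intro hv
  have TB' := T
  obtain ⟨s, hs, j, l, hE⟩ := T.inf (max N (n + 1))
  have hsN : N ≤ s := le_trans (le_max_left _ _) hs
  have hsn : n + 1 ≤ s := le_trans (le_max_right _ _) hs
  have hj := (T.tn.ev hsN hE).2.2
  rw [hj] at hE
  by_cases h0 : eF U φ n = 0
  · obtain ⟨s', hs', ⟨l', hE'⟩, -⟩ := T.next hsN ⟨l, hE⟩
    have h1 := nH_gt hs' hE hE' (fun t h1 h2 => (T.tn.stab t (by omega)).2)
    have h2 := (perm_held h h0 (s := s') (by omega)).2
    rw [hv] at h2
    omega
  · have h1 := (perm_joined h h0 (s := s) (by omega)).1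
    rw [hv, ev3_md hE] at h1
    unfold joined at h1
    omega

/-- The component is closed under permanent elements. -/
theorem Comp.closed {n : ℕ} (h : perm U φ n) :
    Comp U φ y (eF U φ n) ↔ Comp U φ y (vF U φ n) := by
  have hy2 := T.tn.two_le
  constructor
  · intro h1
    have := h1.ge
    exact Comp.step h (by omega) h1
  · intro h1
    have hgen : ∀ x, Comp U φ y x → x = vF U φ n → x ≠ y → ∃ m, perm U φ m ∧
        eF U φ m ≠ 0 ∧ Comp U φ y (eF U φ m) ∧ vF U φ m = vF U φ n := by
      intro x hx hxn hne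
      cases hx with
      | base => exact absurd rfl hne
      | @step m q1 q2 q3 => exact ⟨m, q1, q2, q3, hxn⟩
    obtain ⟨m, q1, q2, q3, q4⟩ := hgen _ h1 rfl (T.no_perm h)
    by_cases h0 : eF U φ n = 0
    · exfalso
      apply Comp.mode T q3
      refine ⟨max n m + 1, fun s hs => ?_⟩
      have hsn : n < s := by have := le_max_left n m; omega
      have hsm : m < s := by have := le_max_right n m; omega
      obtain ⟨a1, a2⟩ := perm_held h h0 hsn
      obtain ⟨b1, b2, b3⟩ := perm_joined q1 q2 hsm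
      rw [q4] at b1 b3
      have hp : pend (md U φ s (vF U φ n)) := by
        unfold joined at b1; unfold held at a1; unfold pend; omega
      obtain ⟨p1, p2, p3⟩ := (inv s).pnd _ hp
      rwa [b3] at p2
    · have hsn : n < max n m + 1 := by have := le_max_left n m; omega
      have hsm : m < max n m + 1 := by have := le_max_right n m; omega
      obtain ⟨a1, a2, a3⟩ := perm_joined h h0 hsn
      obtain ⟨b1, b2, b3⟩ := perm_joined q1 q2 hsm
      rw [q4] at b2
      rw [a2] at b2
      rw [b2]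
      exact q3

end

end Pool.Agent.H91.CD.Dyn
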