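import Mathlib
import Pool.Agent.H91.CD.LineD
import Pool.Agent.H91.CD.DC

set_option autoImplicit false

/-!
Lines: the computable sign vector, and the dynamics theorem.
-/

namespace Pool.Agent.H91.CD.Dyn

open Pool.Agent.H91.CD

variable {U : ℕ → ℕ → ℕ → Bool → Bool} {φ : ℕ → ℕ → ℕ → ℕ}

/-! ### Computability lemmas -/

/-- Definition by course-of-values recursion along a root function. -/
theorem computable_rec (z : ℕ) (tab : ℕ → Bool) (D w : ℕ → Bool) (r : ℕ → ℕ)
    (hD : Computable D) (hw : Computable w) (hr : Computable r) :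
    ∃ δ : ℕ → Bool, Computable δ ∧ (∀ x < z, δ x = tab x) ∧
      ∀ x, z ≤ x → D x = true → r x < x → δ x = xor (w x) (δ (r x)) := by
  classical
  -- the recursion step
  let G : ℕ → List Bool → Bool := fun x H =>
    if x < z then ((List.range z).map tab).getD x false
    else if D x = true then xor (w x) (H.getD (r x) false) else false
  have hex : ∃ δ : ℕ → Bool, ∀ x, δ x = G x ((List.range x).map δ) := by
    let H : ℕ → List Bool := fun n => Nat.rec [] (fun n h => h ++ [G n h]) n
    have hH : ∀ n, H n = (List.range n).map fun x => G x (H x) := by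
      intro n
      induction n with
      | zero => rfl
      | succ n ih =>
        rw [List.range_succ, List.map_append, ← ih]
        rfl
    exact ⟨fun x => G x (H x), fun x => by rw [← hH x]⟩
  obtain ⟨δ, hδ⟩ := hex
  refine ⟨δ, ?_, ?_, ?_⟩
  · have hg : Computable₂ fun (_ : Unit) (H : List Bool) => (some (G H.length H) : Option Bool) := by
      have hlen : Computable fun p : Unit × List Bool => p.2.length :=
        (Primrec.list_length.comp Primrec.snd).to_comp
      have h1 : Computable fun p : Unit × List Bool =>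
          ((List.range z).map tab).getD p.2.length false :=
        ((Primrec.list_getD false).comp (Primrec.const _) Primrec.id).to_comp.comp hlen
      have h2 : Computable fun p : Unit × List Bool => p.2.getD (r p.2.length) false :=
        (Primrec.list_getD false).to_comp.comp Computable.snd (hr.comp hlen)
      have h3 : Computable fun p : Unit × List Bool =>
          xor (w p.2.length) (p.2.getD (r p.2.length) false) :=
        (Computable.cond (hw.comp hlen) (Primrec.not.to_comp.comp h2) h2).of_eq fun p => by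
          cases w p.2.length <;> simp
      have h4 : Computable fun p : Unit × List Bool => decide (p.2.length < z) :=
        (Primrec.nat_lt.comp Primrec.id (Primrec.const z)).decide.to_comp.comp hlen
      have h5 : Computable fun p : Unit × List Bool => G p.2.length p.2 := by
        refine (Computable.cond h4 h1
          (Computable.cond (hD.comp hlen) h3 (Computable.const false))).of_eq fun p => ?_
        simp only [G]
        by_cases h : p.2.length < z <;> by_cases h' : D p.2.length = true <;> simp [h, h']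
      exact Computable.option_some.comp h5
    have := Computable.nat_strong_rec (fun (_ : Unit) (x : ℕ) => δ x) hg (by
      intro a n
      rw [hδ n]
      simp)
    exact this.comp (Computable.const ()) Computable.id
  · intro x hx
    rw [hδ x]
    simp only [G, if_pos hx]
    simp [List.getD, hx]
  · intro x hx hDx hrx
    rw [hδ x]
    simp only [G, if_neg (not_lt.2 hx), if_pos hDx]
    simp [List.getD, hrx]

/-- A total search. -/
theorem computable_search {P : ℕ → ℕ → Bool} (hP : Computable₂ P)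
    (h : ∀ x, ∃ s, P x s = true) :
    ∃ f : ℕ → ℕ, Computable f ∧ ∀ x, P x (f x) = true ∧ ∀ t < f x, P x t = false := by
  classical
  refine ⟨fun x => Nat.find (h x), ?_, ?_⟩
  · refine Partrec.of_eq_tot (Partrec.rfind hP.partrec₂) fun x => ?_
    rw [Nat.mem_rfind]
    refine ⟨?_, ?_⟩
    · simpa using (Nat.find_spec (h x)).symm
    · intro m hm
      have := Nat.find_min (h x) hm
      simpa using this
  · intro x
    refine ⟨Nat.find_spec (h x), fun t ht => ?_⟩
    have := Nat.find_min (h x) ht
    simpa using this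

section

variable {k p o y N κ z N2 : ℕ} (L : Ln U φ k p o y N κ z N2)

include L

/-- Choices of kind `κ` in terms of the memory. -/
theorem Ln.ks_iff {s : ℕ} (hs : y < s + 2) :
    KS U φ k y κ s ↔ (cst U φ (s + 1) y = s + 1 ∧ clab U φ (s + 1) y = κ) := by
  have hy := L.y_alive hs
  have hy2 := L.y_two
  have hκ := L.hκ
  constructor
  · rintro ⟨⟨l, hE⟩, hc⟩
    have := tr_choose (by omega) hE (by rw [hc]; exact hκ)
    exact ⟨this.2.2.2.2.2.2.1, by rw [this.2.2.2.2.2.2.2, hc]⟩
  · rintro ⟨h1, h2⟩
    obtain ⟨j, l, hE, hc⟩ := (cst_succ_iff hy.1).1 h1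
    have hj := (L.tb.tn.ev' hE hy.1).2.2
    subst hj
    have := (tr_choose (by omega) hE hc).2.2.2.2.2.2.2
    exact ⟨⟨l, hE⟩, by rw [← this, h2]⟩

/-- The computable sign vector of the line. -/
theorem Ln.delta (hU : Primrec fun p : ((ℕ × ℕ) × ℕ) × Bool => U p.1.1.1 p.1.1.2 p.1.2 p.2)
    (hφ : Primrec fun p : (ℕ × ℕ) × ℕ => φ p.1.1 p.1.2 p.2) (tab : ℕ → Bool) :
    ∃ δ : ℕ → Bool, Computable δ ∧ (∀ x < z, δ x = tab x) ∧
      ∀ x, Desc U φ z x → ∀ s, KS U φ k y κ s → x ≤ s + 1 →
        (∀ t, x ≤ t + 1 → t < s → ¬ KS U φ k y κ t) →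
        δ x = xor (U (k / 2) s (x - 2) true) (δ (rt U φ x)) := by
  classical
  have hrd := (primrec_read hU hφ).to_comp
  have hyz := L.y_lt_z
  have hy2 := L.y_two
  -- reading
  have hcst : Computable fun t : ℕ => cst U φ t y :=
    hrd.comp (Computable.id.pair (Computable.const _))
  have hclab : Computable fun t : ℕ => clab U φ t y :=
    hrd.comp (Computable.id.pair (Computable.const _))
  have heq : Computable₂ fun a b : ℕ => decide (a = b) := Primrec.eq.decide.to_comp
  have hle : Computable₂ fun a b : ℕ => decide (a ≤ b) := Primrec.nat_le.decide.to_comp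
  have hadd : Computable₂ fun a b : ℕ => a + b := Primrec.nat_add.to_comp
  have hsub : Computable₂ fun a b : ℕ => a - b := Primrec.nat_sub.to_comp
  have hand : ∀ {α : Type} [Primcodable α] {f g : α → Bool}, Computable f → Computable g →
      Computable fun a => (f a && g a) := by
    intro α _ f g hf hg
    exact (Computable.cond hf hg (Computable.const false)).of_eq fun a => by
      cases f a <;> simp
  let C : ℕ → Bool := fun t =>
    decide (cst U φ (t + 1) y = t + 1) && decide (clab U φ (t + 1) y = κ)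
  have hC : Computable C := by
    apply hand
    · exact heq.comp (hcst.comp Computable.succ) Computable.succ
    · exact heq.comp (hclab.comp Computable.succ) (Computable.const κ)
  have hCks : ∀ t, y < t + 2 → (C t = true ↔ KS U φ k y κ t) := by
    intro t ht
    rw [L.ks_iff ht]
    simp [C]
  -- the next choice
  let P : ℕ → ℕ → Bool := fun x t => decide (x ≤ t + 1) && C t
  have hP : Computable₂ P :=
    hand (hle.comp Computable.fst (Computable.succ.comp Computable.snd))
      (hC.comp Computable.snd)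
  have hPex : ∀ x, ∃ t, P x t = true := by
    intro x
    obtain ⟨t, ht, hK⟩ := L.inf (x + y)
    refine ⟨t, ?_⟩
    simp only [P, Bool.and_eq_true, decide_eq_true_eq]
    exact ⟨by omega, (hCks t (by omega)).2 hK⟩
  obtain ⟨ns, hns, hns2⟩ := computable_search hP hPex
  have hw : Computable fun x => U (k / 2) (ns x) (x - 2) true :=
    hU.to_comp.comp ((((Computable.const (k / 2)).pair hns).pair
      (hsub.comp Computable.id (Computable.const 2))).pair (Computable.const true))
  have hD : Computable fun x => C (x - 2) :=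
    hC.comp (hsub.comp Computable.id (Computable.const 2))
  have hr : Computable (rt U φ) := by
    have h1 : Computable fun x : ℕ => kRoot x :=
      (Primrec.nat_mul.comp (Primrec.const 24) Primrec.id).to_comp
    exact hrd.comp ((hsub.comp Computable.id (Computable.const 1)).pair h1)
  obtain ⟨δ, h1, h2, h3⟩ := computable_rec z tab _ _ _ hD hw hr
  refine ⟨δ, h1, h2, ?_⟩
  intro x hx s hK hxs hmin
  have hzx := desc_ge hx
  have hrt := ((inv (U := U) (φ := φ) (x - 1)).str x (L.desc_md hx)).2.2.2.1
  rw [h3 x hzx ((hCks (x - 2) (by omega)).2 (L.desc_ks hx)) hrt]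
  have hs : ns x = s := by
    obtain ⟨g1, g2⟩ := hns2 x
    simp only [P, Bool.and_eq_true, decide_eq_true_eq] at g1
    rcases Nat.lt_trichotomy (ns x) s with h | h | h
    · exact absurd ((hCks _ (by omega)).1 g1.2) (hmin _ g1.1 h)
    · exact h
    · have := g2 s h
      have h5 : P x s = true := by
        simp only [P, Bool.and_eq_true, decide_eq_true_eq]
        exact ⟨hxs, (hCks s (by omega)).2 hK⟩
      rw [this] at h5
      exact absurd h5 (by simp)
  rw [hs]

end

/-- The final equation for permanent elements. -/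
theorem final {i p o y N κ z N2 : ℕ} {ζ : ℕ → Bool} (E : Enum U φ i ζ)
    (L : Ln U φ (2 * i) p o y N κ z N2) (ψ : ℕ → Bool) (hψ0 : ψ 0 = false)
    (hψ : ∀ n, perm U φ n → xor (xor (ζ (eF U φ n)) (ζ (vF U φ n)))
      (decide (2 ≤ κ) && lbl U φ n) = xor (ψ (eF U φ n)) (ψ (vF U φ n)))
    (tab : ℕ → Bool) (htab : ∀ x, (Comp U φ y x → tab x = xor (ψ x)
      (xor (ψ y) (decide (κ % 2 = 1)))) ∧ (¬ Comp U φ y x → tab x = ψ x))
    (δ : ℕ → Bool) (hδt : ∀ x < z, δ x = tab x)
    (hδD : ∀ x, Desc U φ z x → ∀ s, KS U φ (2 * i) y κ s → x ≤ s + 1 →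
        (∀ t, x ≤ t + 1 → t < s → ¬ KS U φ (2 * i) y κ t) →
        δ x = xor (U (2 * i / 2) s (x - 2) true) (δ (rt U φ x))) :
    δ 0 = false ∧ ∀ n, perm U φ n → xor (xor (ζ (eF U φ n)) (ζ (vF U φ n)))
      (decide (2 ≤ κ) && lbl U φ n) = xor (δ (eF U φ n)) (δ (vF U φ n)) := by
  have hyz := L.y_lt_z
  have hy2 := L.y_two
  have hδ0 : δ 0 = false := by
    rw [hδt 0 (by omega), (htab 0).2 (fun h => by have := h.ge; omega), hψ0]
  have hδy : δ y = decide (κ % 2 = 1) := by
    rw [hδt y hyz, (htab y).1 Comp.base]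
    generalize ψ y = a
    generalize decide (κ % 2 = 1) = b
    revert a b
    decide
  refine ⟨hδ0, ?_⟩
  intro n hn
  rcases Nat.lt_or_ge (vF U φ n) z with hlt | hge
  · have hlt' := eF_lt hn.1
    have hcl := Comp.closed L.tb hn
    rw [hψ n hn, hδt _ (by omega), hδt _ hlt]
    by_cases hc : Comp U φ y (vF U φ n)
    · rw [(htab _).1 hc, (htab _).1 (hcl.2 hc)]
      generalize ψ y = a
      generalize ψ (eF U φ n) = b
      generalize ψ (vF U φ n) = c
      generalize decide (κ % 2 = 1) = d
      revert a b c d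
      decide
    · rw [(htab _).2 hc, (htab _).2 (fun h => hc (hcl.1 h))]
  · have hD : Desc U φ z (vF U φ n) := by
      by_contra hnd
      obtain ⟨s, hs, hK⟩ := L.inf (vF U φ n + n + 1)
      have h1 := L.outside hK hge (by omega) hnd
      exact h1 (live_alive (hn.2 (s + 1) (by omega)))
    obtain ⟨M, hM⟩ := E.perm_ans hn
    obtain ⟨s, hs, hK⟩ := L.inf (M + n + z + 1)
    have h1 := (L.main E.mono δ hδ0 hδy hδD s hK (by omega) n (hn.2 s (by omega)) hD).2
    have h2 := (hM s (by omega)).2
    unfold LI at h1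
    rw [show 2 * i / 2 = i by omega, h2] at h1
    exact h1

/-- Every enumerable conjugate of the first set is computably conjugate to one of the two
sets. -/
theorem third (hU : Primrec fun p : ((ℕ × ℕ) × ℕ) × Bool => U p.1.1.1 p.1.1.2 p.1.2 p.2)
    (hφ : Primrec fun p : (ℕ × ℕ) × ℕ => φ p.1.1 p.1.2 p.2)
    (hmono : ∀ i s t n b, s ≤ t → U i s n b = true → U i t n b = true)
    (i : ℕ) (Z : ℕ × Bool → Prop) (hZ : ∀ n b, Z (n, b) ↔ ∃ s, U i s n b = true)
    (ζ : ℕ → Bool) (hζ0 : ζ 0 = false)
    (hζ : Z = Act (SS U φ) ζ (XS U φ fun _ => false)) :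
    ∃ δ : ℕ → Bool, Computable δ ∧ δ 0 = false ∧
      (Z = Act (SS U φ) δ (XS U φ fun _ => false) ∨ Z = Act (SS U φ) δ (XS U φ (lbl U φ))) := by
  classical
  have E : Enum U φ i ζ := by
    refine ⟨hmono, hζ0, ?_⟩
    intro n b hn
    rw [← hZ, hζ, act_XS]
    have hSS : SS U φ n = (eF U φ n, vF U φ n) := by
      unfold SS
      rw [if_neg hn]
    simp only [XS, hSS, Bool.false_bne]
    rw [not_perm hn]
    exact ⟨fun h => h.2, fun h => ⟨hn, h⟩⟩
  obtain ⟨p, o, y, N, κ, z, N2, L⟩ := E.line
  obtain ⟨ε, hε0, hε⟩ := conj (U := U) (φ := φ)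
  let ψ : ℕ → Bool := fun x => xor (ζ x) (decide (2 ≤ κ) && ε x)
  have hψ : ∀ n, perm U φ n → xor (xor (ζ (eF U φ n)) (ζ (vF U φ n)))
      (decide (2 ≤ κ) && lbl U φ n) = xor (ψ (eF U φ n)) (ψ (vF U φ n)) := by
    intro n hn
    rw [hε n hn]
    simp only [ψ]
    generalize ζ (eF U φ n) = a
    generalize ζ (vF U φ n) = b
    generalize ε (eF U φ n) = c
    generalize ε (vF U φ n) = d
    generalize decide (2 ≤ κ) = e
    revert a b c d e
    decide
  let tab : ℕ → Bool := fun x => if Comp U φ y x then xor (ψ x)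
      (xor (ψ y) (decide (κ % 2 = 1))) else ψ x
  obtain ⟨δ, hδc, hδt, hδD⟩ := L.delta hU hφ tab
  obtain ⟨hδ0, hfin⟩ := final E L ψ (by simp [ψ, hζ0, hε0]) hψ tab
    (fun x => ⟨fun h => by simp [tab, h], fun h => by simp [tab, h]⟩) δ hδt hδD
  refine ⟨δ, hδc, hδ0, ?_⟩
  by_cases h2 : 2 ≤ κ
  · right
    rw [hζ, act_XS, act_XS, XS_eq_iff]
    intro n hn
    have := hfin n hn
    rw [SS_perm hn]
    simp only [h2, decide_true, Bool.true_and] at this ⊢
    revert this
    generalize ζ (eF U φ n) = a
    generalize ζ (vF U φ n) = b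
    generalize δ (eF U φ n) = c
    generalize δ (vF U φ n) = d
    generalize lbl U φ n = e
    revert a b c d e
    decide
  · left
    rw [hζ, act_XS, act_XS, XS_eq_iff]
    intro n hn
    have := hfin n hn
    rw [SS_perm hn]
    simp only [h2, decide_false, Bool.false_and] at this ⊢
    revert this
    generalize ζ (eF U φ n) = a
    generalize ζ (vF U φ n) = b
    generalize δ (eF U φ n) = c
    generalize δ (vF U φ n) = d
    revert a b c d
    decide

end Pool.Agent.H91.CD.Dyn

namespace Pool.Agent.H91.CD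

open Dyn

/-- The dynamics theorem. -/
theorem dynamics : ∃ (S : ℕ → ℕ × ℕ) (A B : ℕ × Bool → Prop),
    Computable S ∧ (∀ n, (S n).1 < (S n).2) ∧ REPred A ∧ REPred B ∧
    (∃ ε : ℕ → Bool, ε 0 = false ∧ B = Act S ε A) ∧
    (¬ ∃ ε : ℕ → Bool, Computable ε ∧ ε 0 = false ∧ B = Act S ε A) ∧
    (∀ Z : ℕ × Bool → Prop, REPred Z → (∃ ε : ℕ → Bool, ε 0 = false ∧ Z = Act S ε A) →
      ∃ δ : ℕ → Bool, Computable δ ∧ δ 0 = false ∧ (Z = Act S δ A ∨ Z = Act S δ B)) := by
  obtain ⟨U, hU, hmono, henum⟩ := exists_U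
  obtain ⟨φ, hφ, hφmono, hφenum⟩ := exists_phi
  refine ⟨SS U φ, XS U φ fun _ => false, XS U φ (lbl U φ), (primrec_SS hU hφ).to_comp, ?_,
    re_XS hU hφ _ (Computable.const false), re_XS hU hφ _ (primrec_lbl hU hφ).to_comp,
    ?_, ?_, ?_⟩
  · intro n
    unfold SS
    split_ifs with h
    · exact Nat.zero_lt_one
    · exact eF_lt h
  · obtain ⟨ε, hε0, hε⟩ := conj (U := U) (φ := φ)
    refine ⟨ε, hε0, ?_⟩
    rw [act_eq_iff]
    intro n hn
    rw [hε n hn, Bool.false_xor]
  · rintro ⟨ε, hεc, hε0, hε⟩
    rw [act_eq_iff] at hε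
    obtain ⟨i, hi⟩ := hφenum ε hεc
    apply noncomp hφmono ε hε0 i hi
    intro n hn
    rw [hε n hn, Bool.false_xor]
  · rintro Z hZ ⟨ζ, hζ0, hζ⟩
    obtain ⟨i, hi⟩ := henum Z hZ
    exact third hU hφ hmono i Z hi ζ hζ0 hζ

end Pool.Agent.H91.CD
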