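import Mathlib
import Pool.Agent.H91.CD.ASM
import Pool.Agent.H91.CD.LineE

set_option autoImplicit false

/-!
The assembly of the algebraic field of computable dimension two, with the field as an explicit
subfield of the real numbers, the explicit number two of copies, and computable presentations
whose domain is any computable set of natural numbers.
-/

namespace Pool.Agent.H91.CD

open IntermediateField in
/-- The field is algebraic over the rational numbers. -/
theorem isAlgebraicQ (S : ℕ → ℕ × ℕ) (W : ℕ × Bool → Prop) :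
    Algebra.IsAlgebraic ℚ (K S W) := by
  refine ⟨fun z => ?_⟩
  have hz : (z : ℝ) ∈ adjoin ℚ (gens S W) := (ALG.mem_K_iff S W z).1 z.2
  have hgen : ∀ g ∈ gens S W, IsAlgebraic ℚ g := by
    have hx : ∀ u, IsAlgebraic ℚ (x u) := by
      intro u
      refine IsAlgebraic.of_pow (n := 2) two_pos ?_
      rw [ALG.x_sq]
      exact isAlgebraic_natCast _
    rintro _ (⟨u, rfl⟩ | ⟨n, b, -, rfl⟩)
    · exact hx u
    · refine IsAlgebraic.of_pow (n := ell n) (ALG.ell_prime n).pos ?_
      rw [rho_pow, gam]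
      exact (isAlgebraic_natCast 2).add ((isAlgebraic_intCast _).mul ((hx _).mul (hx _)))
  have h2 : IsAlgebraic ℚ (z : ℝ) := by
    have := IntermediateField.isAlgebraic_adjoin (K := ℚ) (S := gens S W)
      (fun g hg => (hgen g hg).isIntegral)
    have h3 := this.isAlgebraic (⟨z, hz⟩ : adjoin ℚ (gens S W))
    exact h3.algebraMap
  exact (isAlgebraic_algebraMap_iff (R := ℚ) (A := ℝ) (S := K S W) Subtype.val_injective).1 h2

open ASM COMP in
/-- The assembly with the explicit field and the explicit number two of copies. -/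
theorem assemble2
    (dyn : ∃ (S : ℕ → ℕ × ℕ) (A B : ℕ × Bool → Prop),
      Computable S ∧ (∀ n, (S n).1 < (S n).2) ∧ REPred A ∧ REPred B ∧
      (∃ ε : ℕ → Bool, ε 0 = false ∧ B = Act S ε A) ∧
      (¬ ∃ ε : ℕ → Bool, Computable ε ∧ ε 0 = false ∧ B = Act S ε A) ∧
      (∀ Z : ℕ × Bool → Prop, REPred Z → (∃ ε : ℕ → Bool, ε 0 = false ∧ Z = Act S ε A) →
        ∃ δ : ℕ → Bool, Computable δ ∧ δ 0 = false ∧ (Z = Act S δ A ∨ Z = Act S δ B))) :
    ∃ F : Subfield ℝ, Algebra.IsAlgebraic ℚ F ∧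
      ∃ (A M : Fin 2 → ℕ → ℕ → ℕ),
        (∀ i, Computable₂ (A i) ∧ Computable₂ (M i) ∧
            ∃ e : ℕ ≃ F, ∀ x y : ℕ, e (A i x y) = e x + e y ∧ e (M i x y) = e x * e y) ∧
        (∀ i j : Fin 2, i ≠ j →
            ¬ ∃ f : ℕ ≃ ℕ, Computable (⇑f) ∧
              ∀ x y : ℕ, f (A i x y) = A j (f x) (f y) ∧ f (M i x y) = M j (f x) (f y)) ∧
        (∀ a m : ℕ → ℕ → ℕ, Computable₂ a → Computable₂ m →
            (∃ e : ℕ ≃ F, ∀ x y : ℕ, e (a x y) = e x + e y ∧ e (m x y) = e x * e y) →
            ∃ i : Fin 2, ∃ f : ℕ ≃ ℕ, Computable (⇑f) ∧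
              ∀ x y : ℕ, f (a x y) = A i (f x) (f y) ∧ f (m x y) = M i (f x) (f y)) := by
  classical
  obtain ⟨S, A, B, hSc, hS, hA, hB, ⟨ε0, hε0, hBA⟩, hnc, hthird⟩ := dyn
  obtain ⟨a0, m0, e0, gx0, ha0, hm0, hgc0, he0, hgx0⟩ := COMP.presentation_of S hSc A hA
    (rho_pow S) (fun R _ _ X Y h0 h1 h2 => universal S hS A R X Y h0 h1 h2)
  obtain ⟨a1, m1, e1, gx1, ha1, hm1, hgc1, he1, hgx1⟩ := COMP.presentation_of S hSc B hB
    (rho_pow S) (fun R _ _ X Y h0 h1 h2 => universal S hS B R X Y h0 h1 h2)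
  have hgx0' : ∀ u, e0 (gx0 u) = xK S A u := fun u => Subtype.ext (hgx0 u)
  have hgx1' : ∀ u, e1 (gx1 u) = xK S B u := fun u => Subtype.ext (hgx1 u)
  obtain ⟨θ, hθ⟩ := theta (W := A) (W' := B) hS ε0 hε0 hBA
  have hno01 : ¬ ∃ f : ℕ ≃ ℕ, Computable (⇑f) ∧
      ∀ x y : ℕ, f (a0 x y) = a1 (f x) (f y) ∧ f (m0 x y) = m1 (f x) (f y) := by
    rintro ⟨f, hfc, hf⟩
    exact hnc (act_of_iso hS e0 e1 he0 he1 hgx0' hgx1' hgc0 hgc1 f hfc hf)
  have hno10 : ¬ ∃ f : ℕ ≃ ℕ, Computable (⇑f) ∧
      ∀ x y : ℕ, f (a1 x y) = a0 (f x) (f y) ∧ f (m1 x y) = m0 (f x) (f y) := by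
    rintro ⟨f, hfc, hf⟩
    obtain ⟨ε, hεc, hε, hact⟩ := act_of_iso hS e1 e0 he1 he0 hgx1' hgx0' hgc1 hgc0 f hfc hf
    apply hnc
    refine ⟨ε, hεc, hε, ?_⟩
    rw [hact]
    funext p
    obtain ⟨n, b⟩ := p
    simp only [Act]
    congr 2
    cases b <;> cases ε (S n).1 <;> cases ε (S n).2 <;> rfl
  refine ⟨K S A, isAlgebraicQ S A, ![a0, a1], ![m0, m1], ?_, ?_, ?_⟩
  · intro i
    fin_cases i
    · exact ⟨ha0, hm0, e0, he0⟩
    · refine ⟨ha1, hm1, e1.trans θ.symm.toEquiv, ?_⟩
      intro x y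
      constructor
      · show θ.symm (e1 (a1 x y)) = θ.symm (e1 x) + θ.symm (e1 y)
        rw [(he1 x y).1, map_add]
      · show θ.symm (e1 (m1 x y)) = θ.symm (e1 x) * θ.symm (e1 y)
        rw [(he1 x y).2, map_mul]
  · intro i j hij
    fin_cases i <;> fin_cases j
    · exact absurd rfl hij
    · exact hno01
    · exact hno10
    · exact absurd rfl hij
  · intro a m ha hm ⟨e, he⟩
    obtain ⟨num, neg, pw, hnumc, hnegc, hpwc, hnum, hneg, hpw⟩ := ring_ops a m ha hm e he
    -- choice of square roots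
    have hP : ComputablePred fun q : ℕ × ℕ => m q.2 q.2 = num (pr q.1) := by
      apply Computable.computablePred
      exact (Primrec.eq.decide.to_comp).comp (hm.comp Computable.snd Computable.snd)
        (hnumc.comp (computable_pr.comp Computable.fst))
    have hex : ∀ u : ℕ, ∃ y, m y y = num (pr u) := by
      intro u
      refine ⟨e.symm (xK S A u), ?_⟩
      apply e.injective
      rw [(he _ _).2, Equiv.apply_symm_apply, ← sq, xK_sq, hnum]
    have hfind : Computable fun u => Nat.find (hex u) :=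
      Computable.find (P := fun u y : ℕ => m y y = num (pr u)) hP hex
    let c : ℕ → ℕ := fun u => cond (decide (u = 0)) (num 1) (Nat.find (hex u))
    have hcc : Computable c :=
      Computable.cond ((Primrec.eq.decide.to_comp).comp Computable.id (Computable.const 0))
        (Computable.const _) hfind
    have hcsq : ∀ u, e (c u) ^ 2 = (pr u : K S A) := by
      intro u
      by_cases hu : u = 0
      · subst hu
        show e (cond (decide (0 = 0)) (num 1) _) ^ 2 = _
        simp only [decide_true, cond_true]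
        rw [hnum]
        simp [pr]
      · show e (cond (decide (u = 0)) (num 1) _) ^ 2 = _
        simp only [hu, decide_false, cond_false]
        rw [sq, ← (he _ _).2, Nat.find_spec (hex u), hnum]
    have hη : ∀ u, ∃ b : Bool, e (c u) = (sg b : K S A) * xK S A u := by
      intro u
      have h1 : e (c u) ^ 2 = xK S A u ^ 2 := by rw [hcsq, xK_sq]
      rcases sq_eq_sq_iff_eq_or_eq_neg.1 h1 with h2 | h2
      · exact ⟨false, by rw [h2]; simp [sg]⟩
      · exact ⟨true, by rw [h2]; simp [sg]⟩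
    choose η hη using hη
    have hη0 : η 0 = false := by
      by_contra hcon
      have h1 : η 0 = true := by simpa using hcon
      have h2 := hη 0
      have h3 : e (c 0) = 1 := by
        show e (cond (decide (0 = 0)) (num 1) _) = _
        simp only [decide_true, cond_true]
        rw [hnum]
        simp
      rw [h1, h3, xK_zero] at h2
      simp only [sg, if_true] at h2
      have h4 : (2 : K S A) = 0 := by
        push_cast at h2
        linear_combination h2
      exact two_ne_zero h4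
    have hZ := Z_eq hS he hnum hneg hpw c η hη
    have hZre : REPred (fun p : ℕ × Bool => ∃ y, pw y (ell p.1) = rhsC a m num neg S c p) := by
      apply re_exists (p := fun (p : ℕ × Bool) (y : ℕ) => pw y (ell p.1) = rhsC a m num neg S c p)
      apply re_eq
      · exact hpwc.comp Computable.snd (computable_ell.comp (Computable.fst.comp Computable.fst))
      · exact (computable_rhsC ha hm hSc hcc).comp Computable.fst
    rw [hZ] at hZre
    obtain ⟨δ, hδc, hδ, hcase⟩ := hthird _ hZre ⟨η, hη0, rfl⟩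
    rcases hcase with hcase | hcase
    · obtain ⟨f, hfc, hf⟩ := third hS hSc ha hm ha0 hm0 e e0 he he0 hgx0' hgc0 c hcc η hη0 hη
        δ hδc hδ hcase
      exact ⟨0, f, hfc, hf⟩
    · obtain ⟨f, hfc, hf⟩ := third hS hSc ha hm ha1 hm1 e e1 he he1 hgx1' hgc1 c hcc η hη0 hη
        δ hδc hδ hcase
      exact ⟨1, f, hfc, hf⟩

end Pool.Agent.H91.CD
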